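import Pool.Agent.Helper225.GTab
import Pool.Agent.Helper225.Cert.MV_0
import Pool.Agent.Helper225.Cert.MV_1
import Pool.Agent.Helper225.Cert.MV_10
import Pool.Agent.Helper225.Cert.MV_11
import Pool.Agent.Helper225.Cert.MV_12
import Pool.Agent.Helper225.Cert.MV_13
import Pool.Agent.Helper225.Cert.MV_14
import Pool.Agent.Helper225.Cert.MV_2
import Pool.Agent.Helper225.Cert.MV_3
import Pool.Agent.Helper225.Cert.MV_4
import Pool.Agent.Helper225.Cert.MV_5
import Pool.Agent.Helper225.Cert.MV_6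
import Pool.Agent.Helper225.Cert.MV_7
import Pool.Agent.Helper225.Cert.MV_8
import Pool.Agent.Helper225.Cert.MV_9

set_option autoImplicit false
set_option maxRecDepth 1000000

namespace Pool.Agent.Helper225.G

theorem q_7fa8459179 : PosP 516 [433, 464, 495] [402, 432, 529] :=
  pos_of_cert (F := 266) (by norm_num) p_7fa8459179 (List.forall_mem_nil _)

theorem q_ffe3d5d412 : PosP 516 [402, 433, 464, 466, 495] [371, 432, 465, 526, 529] :=
  pos_of_cert (F := 266) (by norm_num) p_ffe3d5d412 (List.forall_mem_nil _)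

theorem q_1c85858b62 : PosP 516 [402, 433, 464, 466, 495] [371, 432, 526, 528, 529] :=
  pos_of_cert (F := 266) (by norm_num) p_1c85858b62 (List.forall_mem_nil _)

theorem q_488387f28f : PosP 766 [402, 433, 464, 495] [371, 432, 526, 529] :=
  pos_of_cert (F := 516) (by norm_num) p_488387f28f (List.forall_mem_cons.2 ⟨(q_ffe3d5d412.mono (by norm_num)),
    (List.forall_mem_cons.2 ⟨(q_1c85858b62.mono (by norm_num)),
    (List.forall_mem_nil _)⟩)⟩)

theorem q_2b89a53738 : PosP 1016 [464, 495] [432, 529] :=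
  pos_of_cert (F := 766) (by norm_num) p_2b89a53738 (List.forall_mem_cons.2 ⟨(q_7fa8459179.mono (by norm_num)),
    (List.forall_mem_cons.2 ⟨(q_488387f28f.mono (by norm_num)),
    (List.forall_mem_nil _)⟩)⟩)

theorem q_1e75680c21 : PosP 516 [464, 465, 495, 530] [522, 526, 528, 529] :=
  pos_of_cert (F := 266) (by norm_num) p_1e75680c21 (List.forall_mem_nil _)

theorem q_7aa533ec67 : PosP 516 [495, 528] [434, 496] :=
  pos_of_cert (F := 266) (by norm_num) p_7aa533ec67 (List.forall_mem_nil _)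

theorem q_3d903bf4bf : PosP 516 [495, 528, 561] [462, 496, 497] :=
  pos_of_cert (F := 266) (by norm_num) p_3d903bf4bf (List.forall_mem_nil _)

theorem q_8ac26add72 : PosP 766 [495, 528] [496, 497] :=
  pos_of_cert (F := 516) (by norm_num) p_8ac26add72 (List.forall_mem_cons.2 ⟨(q_3d903bf4bf.mono (by norm_num)),
    (List.forall_mem_nil _)⟩)

theorem q_ee6fcce5be : PosP 516 [464, 495, 528] [496, 559, 594] :=
  pos_of_cert (F := 266) (by norm_num) p_ee6fcce5be (List.forall_mem_nil _)

theorem q_46248b608a : PosP 516 [433, 464, 466, 495, 526] [402, 530, 557, 594, 626] :=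
  pos_of_cert (F := 266) (by norm_num) p_46248b608a (List.forall_mem_nil _)

theorem q_03bade2e7b : PosP 766 [433, 464, 495, 526] [402, 530, 557, 594] :=
  pos_of_cert (F := 516) (by norm_num) p_03bade2e7b (List.forall_mem_cons.2 ⟨(q_46248b608a.mono (by norm_num)),
    (List.forall_mem_nil _)⟩)

theorem q_945ccc9bc0 : PosP 516 [433, 464, 466, 495] [526, 530, 562, 594] :=
  pos_of_cert (F := 266) (by norm_num) p_945ccc9bc0 (List.forall_mem_nil _)

theorem q_fe66e7c81f : PosP 1016 [464, 495] [530, 594] :=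
  pos_of_cert (F := 766) (by norm_num) p_fe66e7c81f (List.forall_mem_cons.2 ⟨(q_03bade2e7b.mono (by norm_num)),
    (List.forall_mem_cons.2 ⟨(q_945ccc9bc0.mono (by norm_num)),
    (List.forall_mem_nil _)⟩)⟩)

theorem q_f491930880 : PosP 516 [495, 526] [373, 497] :=
  pos_of_cert (F := 266) (by norm_num) p_f491930880 (List.forall_mem_nil _)

theorem q_32452140c6 : PosP 516 [462, 463, 495, 528] [429, 431, 496, 529] :=
  pos_of_cert (F := 266) (by norm_num) p_32452140c6 (List.forall_mem_nil _)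

theorem q_55acaa195a : PosP 516 [462, 463, 495, 528] [429, 461, 496, 529] :=
  pos_of_cert (F := 266) (by norm_num) p_55acaa195a (List.forall_mem_nil _)

theorem q_d47edfe363 : PosP 516 [432, 462, 463, 465, 495, 528] [399, 429, 464, 496, 527, 529] :=
  pos_of_cert (F := 266) (by norm_num) p_d47edfe363 (List.forall_mem_nil _)

theorem q_773809d3c9 : PosP 516 [432, 462, 463, 465, 495, 528] [429, 431, 464, 496, 527, 529] :=
  pos_of_cert (F := 266) (by norm_num) p_773809d3c9 (List.forall_mem_nil _)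

theorem q_2441da2216 : PosP 766 [462, 463, 465, 495, 528] [429, 464, 496, 527, 529] :=
  pos_of_cert (F := 516) (by norm_num) p_2441da2216 (List.forall_mem_cons.2 ⟨(q_d47edfe363.mono (by norm_num)),
    (List.forall_mem_cons.2 ⟨(q_773809d3c9.mono (by norm_num)),
    (List.forall_mem_nil _)⟩)⟩)

theorem q_21a06cb85d : PosP 516 [462, 463, 495, 528] [429, 496, 529, 559] :=
  pos_of_cert (F := 266) (by norm_num) p_21a06cb85d (List.forall_mem_nil _)

theorem q_f927837d5f : PosP 1016 [462, 495, 528] [429, 496, 529] :=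
  pos_of_cert (F := 766) (by norm_num) p_f927837d5f (List.forall_mem_cons.2 ⟨(q_32452140c6.mono (by norm_num)),
    (List.forall_mem_cons.2 ⟨(q_55acaa195a.mono (by norm_num)),
    (List.forall_mem_cons.2 ⟨(q_2441da2216.mono (by norm_num)),
    (List.forall_mem_cons.2 ⟨(q_21a06cb85d.mono (by norm_num)),
    (List.forall_mem_nil _)⟩)⟩)⟩)⟩)

theorem q_7482702f1d : PosP 516 [429, 462, 463, 495, 497, 528, 558] [396, 403, 465, 496, 527, 529, 561] :=
  pos_of_cert (F := 266) (by norm_num) p_7482702f1d (List.forall_mem_nil _)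

theorem q_59670141fc : PosP 516 [429, 462, 463, 495, 497, 528, 558] [396, 434, 465, 496, 527, 529, 561] :=
  pos_of_cert (F := 266) (by norm_num) p_59670141fc (List.forall_mem_nil _)

theorem q_3a1d154ae2 : PosP 516 [429, 462, 463, 495, 497, 528, 558] [396, 465, 494, 496, 527, 529, 561] :=
  pos_of_cert (F := 266) (by norm_num) p_3a1d154ae2 (List.forall_mem_nil _)

theorem q_a6ea6d19f7 : PosP 766 [429, 462, 463, 495, 497, 528] [396, 465, 496, 527, 529, 561] :=
  pos_of_cert (F := 516) (by norm_num) p_a6ea6d19f7 (List.forall_mem_cons.2 ⟨(q_7482702f1d.mono (by norm_num)),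
    (List.forall_mem_cons.2 ⟨(q_59670141fc.mono (by norm_num)),
    (List.forall_mem_cons.2 ⟨(q_3a1d154ae2.mono (by norm_num)),
    (List.forall_mem_nil _)⟩)⟩)⟩)

theorem q_e14cca3454 : PosP 1016 [462, 463, 495, 528] [465, 496, 529, 561] :=
  pos_of_cert (F := 766) (by norm_num) p_e14cca3454 (List.forall_mem_cons.2 ⟨(q_a6ea6d19f7.mono (by norm_num)),
    (List.forall_mem_nil _)⟩)

theorem q_b6ba29eb46 : PosP 516 [462, 463, 495, 528] [496, 529, 561, 593] :=
  pos_of_cert (F := 266) (by norm_num) p_b6ba29eb46 (List.forall_mem_nil _)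

theorem q_20ec512492 : PosP 516 [462, 463, 495, 528] [496, 529, 561, 625] :=
  pos_of_cert (F := 266) (by norm_num) p_20ec512492 (List.forall_mem_nil _)

theorem q_f54683a7cd : PosP 1266 [462, 495, 528] [496, 529, 561] :=
  pos_of_cert (F := 1016) (by norm_num) p_f54683a7cd (List.forall_mem_cons.2 ⟨(q_e14cca3454.mono (by norm_num)),
    (List.forall_mem_cons.2 ⟨(q_b6ba29eb46.mono (by norm_num)),
    (List.forall_mem_cons.2 ⟨(q_20ec512492.mono (by norm_num)),
    (List.forall_mem_nil _)⟩)⟩)⟩)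

theorem q_5f20eaa2d6 : PosP 1516 [495, 528] [496, 529] :=
  pos_of_cert (F := 1266) (by norm_num) p_5f20eaa2d6 (List.forall_mem_cons.2 ⟨(q_f927837d5f.mono (by norm_num)),
    (List.forall_mem_cons.2 ⟨(q_f54683a7cd.mono (by norm_num)),
    (List.forall_mem_nil _)⟩)⟩)

theorem q_3a1fcfab79 : PosP 516 [464, 495, 497] [563, 596, 629] :=
  pos_of_cert (F := 266) (by norm_num) p_3a1fcfab79 (List.forall_mem_nil _)

theorem q_1a0e8b8d46 : PosP 766 [464, 495] [563, 596] :=
  pos_of_cert (F := 516) (by norm_num) p_1a0e8b8d46 (List.forall_mem_cons.2 ⟨(q_3a1fcfab79.mono (by norm_num)),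
    (List.forall_mem_nil _)⟩)

theorem q_5de540a96a : PosP 516 [433, 464, 495] [402, 530, 531] :=
  pos_of_cert (F := 266) (by norm_num) p_5de540a96a (List.forall_mem_nil _)

theorem q_2992ac24d2 : PosP 516 [402, 433, 464, 495] [371, 526, 530, 531] :=
  pos_of_cert (F := 266) (by norm_num) p_2992ac24d2 (List.forall_mem_nil _)

theorem q_44a884719c : PosP 766 [464, 495] [530, 531] :=
  pos_of_cert (F := 516) (by norm_num) p_44a884719c (List.forall_mem_cons.2 ⟨(q_5de540a96a.mono (by norm_num)),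
    (List.forall_mem_cons.2 ⟨(q_2992ac24d2.mono (by norm_num)),
    (List.forall_mem_nil _)⟩)⟩)

theorem q_4a4fcb1732 : PosP 516 [495, 526, 527] [435, 497, 528] :=
  pos_of_cert (F := 266) (by norm_num) p_4a4fcb1732 (List.forall_mem_nil _)

theorem q_fa11ee9d46 : PosP 766 [495, 526] [435, 497] :=
  pos_of_cert (F := 516) (by norm_num) p_fa11ee9d46 (List.forall_mem_cons.2 ⟨(q_4a4fcb1732.mono (by norm_num)),
    (List.forall_mem_nil _)⟩)

theorem q_f998bcb241 : PosP 516 [464, 494, 495] [334, 433, 528] :=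
  pos_of_cert (F := 266) (by norm_num) p_f998bcb241 (List.forall_mem_nil _)

theorem q_ec4c7baa70 : PosP 516 [495, 526, 557] [561, 588, 657] :=
  pos_of_cert (F := 266) (by norm_num) p_ec4c7baa70 (List.forall_mem_nil _)

theorem q_cefff6af5a : PosP 766 [495, 526] [561, 657] :=
  pos_of_cert (F := 516) (by norm_num) p_cefff6af5a (List.forall_mem_cons.2 ⟨(q_ec4c7baa70.mono (by norm_num)),
    (List.forall_mem_nil _)⟩)

theorem q_49d2f4d681 : PosP 516 [433, 464, 495] [461, 526, 528] :=
  pos_of_cert (F := 266) (by norm_num) p_49d2f4d681 (List.forall_mem_nil _)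

theorem q_ca1e65e6c7 : PosP 766 [464, 495] [461, 528] :=
  pos_of_cert (F := 516) (by norm_num) p_ca1e65e6c7 (List.forall_mem_cons.2 ⟨(q_49d2f4d681.mono (by norm_num)),
    (List.forall_mem_nil _)⟩)

theorem q_9b85504b11 : PosP 516 [494, 495, 496, 497] [493, 498, 627, 726] :=
  pos_of_cert (F := 266) (by norm_num) p_9b85504b11 (List.forall_mem_nil _)

theorem q_ef0ced4f2f : PosP 766 [495, 496] [627, 726] :=
  pos_of_cert (F := 516) (by norm_num) p_ef0ced4f2f (List.forall_mem_cons.2 ⟨(q_9b85504b11.mono (by norm_num)),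
    (List.forall_mem_nil _)⟩)

theorem q_cdcbdf2d93 : PosP 516 [464, 465, 495, 530] [466, 526, 528, 529] :=
  pos_of_cert (F := 266) (by norm_num) p_cdcbdf2d93 (List.forall_mem_nil _)

theorem q_9f0e04478e : PosP 516 [464, 495] [335, 528] :=
  pos_of_cert (F := 266) (by norm_num) p_9f0e04478e (List.forall_mem_nil _)

theorem q_75a1e31541 : PosP 516 [495, 496] [562, 595] :=
  pos_of_cert (F := 266) (by norm_num) p_75a1e31541 (List.forall_mem_nil _)

theorem q_c9aa76eb23 : PosP 516 [495, 496, 526] [562, 595, 628] :=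
  pos_of_cert (F := 266) (by norm_num) p_c9aa76eb23 (List.forall_mem_nil _)

theorem q_84bb67c0cf : PosP 516 [495, 496, 526] [562, 628, 661] :=
  pos_of_cert (F := 266) (by norm_num) p_84bb67c0cf (List.forall_mem_nil _)

theorem q_3cc4ecd439 : PosP 766 [495, 526] [562, 628] :=
  pos_of_cert (F := 516) (by norm_num) p_3cc4ecd439 (List.forall_mem_cons.2 ⟨(q_c9aa76eb23.mono (by norm_num)),
    (List.forall_mem_cons.2 ⟨(q_84bb67c0cf.mono (by norm_num)),
    (List.forall_mem_nil _)⟩)⟩)

theorem q_f1b8674ac2 : PosP 516 [495, 528, 529, 561] [462, 494, 496, 526] :=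
  pos_of_cert (F := 266) (by norm_num) p_f1b8674ac2 (List.forall_mem_nil _)

theorem q_ebb17c4b9f : PosP 516 [465, 495, 526, 528, 529, 560, 561, 594] [462, 494, 496, 497, 527, 558, 589, 627] :=
  pos_of_cert (F := 266) (by norm_num) p_ebb17c4b9f (List.forall_mem_nil _)

theorem q_5312975ff2 : PosP 516 [465, 495, 526, 528, 529, 560, 561, 594] [462, 494, 496, 497, 527, 558, 620, 627] :=
  pos_of_cert (F := 266) (by norm_num) p_5312975ff2 (List.forall_mem_nil _)

theorem q_064aefa4bf : PosP 766 [465, 495, 526, 528, 529, 561, 594] [462, 494, 496, 497, 527, 558, 627] :=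
  pos_of_cert (F := 516) (by norm_num) p_064aefa4bf (List.forall_mem_cons.2 ⟨(q_ebb17c4b9f.mono (by norm_num)),
    (List.forall_mem_cons.2 ⟨(q_5312975ff2.mono (by norm_num)),
    (List.forall_mem_nil _)⟩)⟩)

theorem q_f89c5de57c : PosP 1016 [495, 528, 529, 561] [462, 494, 496, 558] :=
  pos_of_cert (F := 766) (by norm_num) p_f89c5de57c (List.forall_mem_cons.2 ⟨(q_064aefa4bf.mono (by norm_num)),
    (List.forall_mem_nil _)⟩)

theorem q_18be25f93c : PosP 516 [495, 528, 529, 561] [462, 494, 496, 593] :=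
  pos_of_cert (F := 266) (by norm_num) p_18be25f93c (List.forall_mem_nil _)

theorem q_c98816b9c2 : PosP 1266 [495, 528, 529] [462, 494, 496] :=
  pos_of_cert (F := 1016) (by norm_num) p_c98816b9c2 (List.forall_mem_cons.2 ⟨(q_f1b8674ac2.mono (by norm_num)),
    (List.forall_mem_cons.2 ⟨(q_f89c5de57c.mono (by norm_num)),
    (List.forall_mem_cons.2 ⟨(q_18be25f93c.mono (by norm_num)),
    (List.forall_mem_nil _)⟩)⟩)⟩)

theorem q_5cc94b23b8 : PosP 516 [464, 495] [498, 528] :=
  pos_of_cert (F := 266) (by norm_num) p_5cc94b23b8 (List.forall_mem_nil _)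

theorem q_36954f168b : PosP 516 [464, 465, 495] [432, 526, 528] :=
  pos_of_cert (F := 266) (by norm_num) p_36954f168b (List.forall_mem_nil _)

theorem q_727b13bf6b : PosP 516 [495, 496] [561, 660] :=
  pos_of_cert (F := 266) (by norm_num) p_727b13bf6b (List.forall_mem_nil _)

theorem q_87ab6ec35d : PosP 516 [463, 464, 495, 497, 528] [496, 529, 561, 593, 625] :=
  pos_of_cert (F := 266) (by norm_num) p_87ab6ec35d (List.forall_mem_nil _)

theorem q_978a4557a6 : PosP 516 [463, 464, 495, 528] [496, 561, 593, 625] :=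
  pos_of_cert (F := 266) (by norm_num) p_978a4557a6 (List.forall_mem_nil _)

theorem q_ebd75445a5 : PosP 766 [463, 495, 528] [496, 561, 625] :=
  pos_of_cert (F := 516) (by norm_num) p_ebd75445a5 (List.forall_mem_cons.2 ⟨(q_87ab6ec35d.mono (by norm_num)),
    (List.forall_mem_cons.2 ⟨(q_978a4557a6.mono (by norm_num)),
    (List.forall_mem_nil _)⟩)⟩)

theorem q_f037ce297b : PosP 516 [495, 496, 528] [499, 500, 502] :=
  pos_of_cert (F := 266) (by norm_num) p_f037ce297b (List.forall_mem_nil _)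

theorem q_9ab5914837 : PosP 516 [495, 496, 528] [500, 501, 502] :=
  pos_of_cert (F := 266) (by norm_num) p_9ab5914837 (List.forall_mem_nil _)

theorem q_ba383e71e4 : PosP 516 [495, 496, 528] [500, 502, 503] :=
  pos_of_cert (F := 266) (by norm_num) p_ba383e71e4 (List.forall_mem_nil _)

theorem q_6b9244111d : PosP 766 [495, 528] [500, 502] :=
  pos_of_cert (F := 516) (by norm_num) p_6b9244111d (List.forall_mem_cons.2 ⟨(q_f037ce297b.mono (by norm_num)),
    (List.forall_mem_cons.2 ⟨(q_9ab5914837.mono (by norm_num)),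
    (List.forall_mem_cons.2 ⟨(q_ba383e71e4.mono (by norm_num)),
    (List.forall_mem_nil _)⟩)⟩)⟩)

theorem q_39e21db032 : PosP 516 [464, 495, 526, 559] [433, 462, 465, 497] :=
  pos_of_cert (F := 266) (by norm_num) p_39e21db032 (List.forall_mem_nil _)

theorem q_6a33615d6e : PosP 516 [464, 495, 526, 559] [433, 462, 497, 529] :=
  pos_of_cert (F := 266) (by norm_num) p_6a33615d6e (List.forall_mem_nil _)

theorem q_9b75dcd92b : PosP 766 [464, 495, 526] [433, 462, 497] :=
  pos_of_cert (F := 516) (by norm_num) p_9b75dcd92b (List.forall_mem_cons.2 ⟨(q_39e21db032.mono (by norm_num)),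
    (List.forall_mem_cons.2 ⟨(q_6a33615d6e.mono (by norm_num)),
    (List.forall_mem_nil _)⟩)⟩)

theorem q_ee841c61d9 : PosP 516 [433, 463, 464, 493, 495, 526, 527, 559, 560] [402, 431, 460, 462, 496, 497, 557, 591, 593] :=
  pos_of_cert (F := 266) (by norm_num) p_ee841c61d9 (List.forall_mem_nil _)

theorem q_884154ccd6 : PosP 766 [433, 463, 464, 493, 495, 526, 527, 559] [402, 431, 460, 462, 496, 497, 557, 591] :=
  pos_of_cert (F := 516) (by norm_num) p_884154ccd6 (List.forall_mem_cons.2 ⟨(q_ee841c61d9.mono (by norm_num)),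
    (List.forall_mem_nil _)⟩)

theorem q_d52a271d46 : PosP 516 [364, 397, 399, 430, 433, 461, 463, 464, 493, 495, 526, 527, 559, 592] [331, 368, 402, 429, 431, 460, 462, 494, 496, 497, 528, 557, 591, 625] :=
  pos_of_cert (F := 266) (by norm_num) p_d52a271d46 (List.forall_mem_nil _)

theorem q_04b688a165 : PosP 766 [464, 495, 526, 527] [462, 497, 528, 557] :=
  pos_of_cert (F := 516) (by norm_num) p_04b688a165 (List.forall_mem_cons.2 ⟨(q_d52a271d46.mono (by norm_num)),
    (List.forall_mem_nil _)⟩)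

theorem q_55eefc7dc8 : PosP 1016 [464, 495, 526] [462, 497, 557] :=
  pos_of_cert (F := 766) (by norm_num) p_55eefc7dc8 (List.forall_mem_cons.2 ⟨(q_884154ccd6.mono (by norm_num)),
    (List.forall_mem_cons.2 ⟨(q_04b688a165.mono (by norm_num)),
    (List.forall_mem_nil _)⟩)⟩)

theorem q_94c758e9e1 : PosP 1266 [495, 526] [462, 497] :=
  pos_of_cert (F := 1016) (by norm_num) p_94c758e9e1 (List.forall_mem_cons.2 ⟨(q_9b75dcd92b.mono (by norm_num)),
    (List.forall_mem_cons.2 ⟨(q_55eefc7dc8.mono (by norm_num)),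
    (List.forall_mem_nil _)⟩)⟩)

theorem q_bf94445d5e : PosP 516 [463, 465, 495, 528] [466, 496, 527, 561] :=
  pos_of_cert (F := 266) (by norm_num) p_bf94445d5e (List.forall_mem_nil _)

theorem q_aff3f7591f : PosP 516 [464, 495, 526] [530, 557, 596] :=
  pos_of_cert (F := 266) (by norm_num) p_aff3f7591f (List.forall_mem_nil _)

theorem q_ed2b7dc0f0 : PosP 766 [464, 495] [530, 596] :=
  pos_of_cert (F := 516) (by norm_num) p_ed2b7dc0f0 (List.forall_mem_cons.2 ⟨(q_aff3f7591f.mono (by norm_num)),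
    (List.forall_mem_nil _)⟩)

theorem q_9148663307 : PosP 516 [494, 495, 528, 529, 561, 594] [334, 398, 430, 462, 496, 627] :=
  pos_of_cert (F := 266) (by norm_num) p_9148663307 (List.forall_mem_nil _)

theorem q_5cad6c3488 : PosP 516 [494, 495, 528, 529, 561, 594] [366, 398, 430, 462, 496, 627] :=
  pos_of_cert (F := 266) (by norm_num) p_5cad6c3488 (List.forall_mem_nil _)

theorem q_bfa56dda6d : PosP 766 [495, 528, 529, 561, 594] [398, 430, 462, 496, 627] :=
  pos_of_cert (F := 516) (by norm_num) p_bfa56dda6d (List.forall_mem_cons.2 ⟨(q_9148663307.mono (by norm_num)),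
    (List.forall_mem_cons.2 ⟨(q_5cad6c3488.mono (by norm_num)),
    (List.forall_mem_nil _)⟩)⟩)

theorem q_4c1dae3c4f : PosP 516 [495, 528, 529, 561] [398, 462, 496, 526] :=
  pos_of_cert (F := 266) (by norm_num) p_4c1dae3c4f (List.forall_mem_nil _)

theorem q_579a7b298b : PosP 1016 [495, 528, 561] [398, 462, 496] :=
  pos_of_cert (F := 766) (by norm_num) p_579a7b298b (List.forall_mem_cons.2 ⟨(q_bfa56dda6d.mono (by norm_num)),
    (List.forall_mem_cons.2 ⟨(q_4c1dae3c4f.mono (by norm_num)),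
    (List.forall_mem_nil _)⟩)⟩)

theorem q_70a6074c8d : PosP 1266 [495, 528] [398, 496] :=
  pos_of_cert (F := 1016) (by norm_num) p_70a6074c8d (List.forall_mem_cons.2 ⟨(q_579a7b298b.mono (by norm_num)),
    (List.forall_mem_nil _)⟩)

theorem q_cf04bf7380 : PosP 516 [463, 464, 494, 495] [433, 496, 527, 528] :=
  pos_of_cert (F := 266) (by norm_num) p_cf04bf7380 (List.forall_mem_nil _)

theorem q_6b09dc72c6 : PosP 766 [464, 494, 495] [433, 496, 528] :=
  pos_of_cert (F := 516) (by norm_num) p_6b09dc72c6 (List.forall_mem_cons.2 ⟨(q_cf04bf7380.mono (by norm_num)),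
    (List.forall_mem_nil _)⟩)

theorem q_8979df5c85 : PosP 516 [464, 465, 466, 495, 497] [463, 526, 528, 559, 625] :=
  pos_of_cert (F := 266) (by norm_num) p_8979df5c85 (List.forall_mem_nil _)

theorem q_9257d8e866 : PosP 516 [464, 465, 466, 467, 495, 497, 559] [463, 468, 526, 528, 560, 592, 625] :=
  pos_of_cert (F := 266) (by norm_num) p_9257d8e866 (List.forall_mem_nil _)

theorem q_6a8a140e48 : PosP 766 [464, 465, 466, 467, 495, 497] [463, 468, 526, 528, 592, 625] :=
  pos_of_cert (F := 516) (by norm_num) p_6a8a140e48 (List.forall_mem_cons.2 ⟨(q_9257d8e866.mono (by norm_num)),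
    (List.forall_mem_nil _)⟩)

theorem q_bc7b66adea : PosP 516 [464, 465, 466, 495, 497] [467, 526, 528, 559, 625] :=
  pos_of_cert (F := 266) (by norm_num) p_bc7b66adea (List.forall_mem_nil _)

theorem q_3852b3bf1e : PosP 1016 [464, 465, 495] [526, 528, 625] :=
  pos_of_cert (F := 766) (by norm_num) p_3852b3bf1e (List.forall_mem_cons.2 ⟨(q_8979df5c85.mono (by norm_num)),
    (List.forall_mem_cons.2 ⟨(q_6a8a140e48.mono (by norm_num)),
    (List.forall_mem_cons.2 ⟨(q_bc7b66adea.mono (by norm_num)),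
    (List.forall_mem_nil _)⟩)⟩)⟩)

theorem q_d16a2a9095 : PosP 516 [464, 494, 495] [401, 433, 528] :=
  pos_of_cert (F := 266) (by norm_num) p_d16a2a9095 (List.forall_mem_nil _)

theorem q_83d3b6856f : PosP 516 [464, 495] [467, 528] :=
  pos_of_cert (F := 266) (by norm_num) p_83d3b6856f (List.forall_mem_nil _)

theorem q_8cb34f42cf : PosP 516 [466, 495, 497, 528, 558, 561, 590, 594] [435, 462, 465, 496, 527, 559, 560, 627] :=
  pos_of_cert (F := 266) (by norm_num) p_8cb34f42cf (List.forall_mem_nil _)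

theorem q_1bf19a4e3e : PosP 516 [403, 435, 466, 495, 497, 528, 530, 558, 561, 593, 594] [404, 434, 462, 465, 496, 527, 559, 560, 625, 626, 627] :=
  pos_of_cert (F := 266) (by norm_num) p_1bf19a4e3e (List.forall_mem_nil _)

theorem q_9fddc14ded : PosP 766 [466, 495, 497, 528, 530, 558, 561, 594] [434, 462, 465, 496, 527, 559, 560, 627] :=
  pos_of_cert (F := 516) (by norm_num) p_9fddc14ded (List.forall_mem_cons.2 ⟨(q_1bf19a4e3e.mono (by norm_num)),
    (List.forall_mem_nil _)⟩)

theorem q_991f29f611 : PosP 516 [435, 466, 495, 497, 528, 530, 558, 561, 593, 594] [404, 461, 462, 464, 465, 496, 527, 559, 560, 627] :=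
  pos_of_cert (F := 266) (by norm_num) p_991f29f611 (List.forall_mem_nil _)

theorem q_2b85faae23 : PosP 766 [435, 466, 495, 497, 528, 530, 558, 561, 594] [404, 461, 462, 465, 496, 527, 559, 560, 627] :=
  pos_of_cert (F := 516) (by norm_num) p_2b85faae23 (List.forall_mem_cons.2 ⟨(q_991f29f611.mono (by norm_num)),
    (List.forall_mem_nil _)⟩)

theorem q_71cbee179c : PosP 516 [435, 466, 495, 497, 528, 530, 558, 561, 593, 594] [404, 462, 463, 464, 465, 496, 527, 559, 560, 627] :=
  pos_of_cert (F := 266) (by norm_num) p_71cbee179c (List.forall_mem_nil _)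

theorem q_f6ce438575 : PosP 516 [435, 466, 495, 497, 528, 530, 558, 561, 593, 594] [404, 462, 464, 465, 496, 527, 529, 559, 560, 627] :=
  pos_of_cert (F := 266) (by norm_num) p_f6ce438575 (List.forall_mem_nil _)

theorem q_1ca76c57e6 : PosP 766 [435, 466, 495, 497, 528, 530, 558, 561, 594] [404, 462, 464, 465, 496, 527, 559, 560, 627] :=
  pos_of_cert (F := 516) (by norm_num) p_1ca76c57e6 (List.forall_mem_cons.2 ⟨(q_71cbee179c.mono (by norm_num)),
    (List.forall_mem_cons.2 ⟨(q_f6ce438575.mono (by norm_num)),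
    (List.forall_mem_nil _)⟩)⟩)

theorem q_b3b4e9338b : PosP 516 [435, 466, 495, 497, 528, 530, 558, 561, 594] [404, 462, 465, 494, 496, 527, 559, 560, 627] :=
  pos_of_cert (F := 266) (by norm_num) p_b3b4e9338b (List.forall_mem_nil _)

theorem q_060b3c1603 : PosP 516 [435, 466, 495, 497, 528, 530, 558, 561, 594] [404, 462, 465, 496, 527, 559, 560, 593, 627] :=
  pos_of_cert (F := 266) (by norm_num) p_060b3c1603 (List.forall_mem_nil _)

theorem q_eae5fb983b : PosP 1016 [466, 495, 497, 528, 558, 561, 594] [462, 465, 496, 527, 559, 560, 627] :=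
  pos_of_cert (F := 766) (by norm_num) p_eae5fb983b (List.forall_mem_cons.2 ⟨(q_9fddc14ded.mono (by norm_num)),
    (List.forall_mem_cons.2 ⟨(q_2b85faae23.mono (by norm_num)),
    (List.forall_mem_cons.2 ⟨(q_1ca76c57e6.mono (by norm_num)),
    (List.forall_mem_cons.2 ⟨(q_b3b4e9338b.mono (by norm_num)),
    (List.forall_mem_cons.2 ⟨(q_060b3c1603.mono (by norm_num)),
    (List.forall_mem_cons.2 ⟨(q_1bf19a4e3e.mono (by norm_num)),
    (List.forall_mem_nil _)⟩)⟩)⟩)⟩)⟩)⟩)

theorem q_0844841c2e : PosP 516 [466, 495, 497, 528, 530, 558, 561] [434, 465, 496, 527, 559, 560, 594] :=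
  pos_of_cert (F := 266) (by norm_num) p_0844841c2e (List.forall_mem_nil _)

theorem q_130b9a4b51 : PosP 516 [435, 466, 495, 497, 528, 530, 558, 561, 593] [402, 404, 465, 494, 496, 527, 559, 560, 594] :=
  pos_of_cert (F := 266) (by norm_num) p_130b9a4b51 (List.forall_mem_nil _)

theorem q_c32e40dddc : PosP 516 [435, 466, 495, 497, 528, 530, 558, 561, 593] [404, 428, 465, 494, 496, 527, 559, 560, 594] :=
  pos_of_cert (F := 266) (by norm_num) p_c32e40dddc (List.forall_mem_nil _)

theorem q_1b81dbc894 : PosP 516 [403, 428, 435, 466, 495, 497, 528, 530, 558, 561, 593] [404, 434, 461, 465, 494, 496, 499, 527, 559, 560, 594] :=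
  pos_of_cert (F := 266) (by norm_num) p_1b81dbc894 (List.forall_mem_nil _)

theorem q_f43b9d6a32 : PosP 516 [403, 435, 466, 495, 497, 528, 530, 558, 561, 593, 625, 657] [404, 434, 465, 494, 496, 499, 527, 529, 559, 560, 594, 689] :=
  pos_of_cert (F := 266) (by norm_num) p_f43b9d6a32 (List.forall_mem_nil _)

theorem q_9ef73c1f41 : PosP 766 [435, 466, 495, 497, 528, 530, 558, 561, 593] [404, 434, 465, 494, 496, 527, 559, 560, 594] :=
  pos_of_cert (F := 516) (by norm_num) p_9ef73c1f41 (List.forall_mem_cons.2 ⟨(q_1b81dbc894.mono (by norm_num)),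
    (List.forall_mem_cons.2 ⟨(q_f43b9d6a32.mono (by norm_num)),
    (List.forall_mem_nil _)⟩)⟩)

theorem q_d7dfefff06 : PosP 766 [435, 466, 495, 497, 528, 530, 558, 561, 593] [404, 461, 465, 494, 496, 527, 559, 560, 594] :=
  pos_of_cert (F := 516) (by norm_num) p_d7dfefff06 (List.forall_mem_cons.2 ⟨(q_1b81dbc894.mono (by norm_num)),
    (List.forall_mem_nil _)⟩)

theorem q_41a93f5916 : PosP 516 [435, 466, 495, 497, 528, 530, 558, 561, 593] [404, 465, 468, 494, 496, 527, 559, 560, 594] :=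
  pos_of_cert (F := 266) (by norm_num) p_41a93f5916 (List.forall_mem_nil _)

theorem q_291c990af4 : PosP 516 [435, 466, 495, 497, 528, 530, 558, 561, 593] [404, 465, 493, 494, 496, 527, 559, 560, 594] :=
  pos_of_cert (F := 266) (by norm_num) p_291c990af4 (List.forall_mem_nil _)

theorem q_2ea7567621 : PosP 516 [435, 466, 495, 497, 528, 530, 558, 561, 593] [404, 465, 494, 496, 527, 529, 559, 560, 594] :=
  pos_of_cert (F := 266) (by norm_num) p_2ea7567621 (List.forall_mem_nil _)

theorem q_aceb206400 : PosP 516 [435, 466, 495, 497, 528, 530, 558, 561, 593] [404, 465, 494, 496, 527, 531, 559, 560, 594] :=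
  pos_of_cert (F := 266) (by norm_num) p_aceb206400 (List.forall_mem_nil _)

theorem q_95bed49c24 : PosP 516 [435, 466, 495, 497, 528, 530, 558, 561, 593] [404, 465, 494, 496, 527, 532, 559, 560, 594] :=
  pos_of_cert (F := 266) (by norm_num) p_95bed49c24 (List.forall_mem_nil _)

theorem q_dfc95452d4 : PosP 516 [435, 466, 495, 497, 528, 530, 558, 561, 593] [404, 465, 494, 496, 527, 559, 560, 594, 658] :=
  pos_of_cert (F := 266) (by norm_num) p_dfc95452d4 (List.forall_mem_nil _)

theorem q_2915c7dfae : PosP 516 [435, 466, 495, 497, 528, 530, 558, 561, 593] [404, 465, 494, 496, 527, 559, 560, 594, 687] :=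
  pos_of_cert (F := 266) (by norm_num) p_2915c7dfae (List.forall_mem_nil _)

theorem q_75972980b1 : PosP 516 [435, 466, 495, 497, 528, 530, 558, 561, 593] [404, 465, 494, 496, 527, 559, 560, 594, 691] :=
  pos_of_cert (F := 266) (by norm_num) p_75972980b1 (List.forall_mem_nil _)

theorem q_716d0d47f3 : PosP 1016 [435, 466, 495, 497, 528, 530, 558, 561] [404, 465, 494, 496, 527, 559, 560, 594] :=
  pos_of_cert (F := 766) (by norm_num) p_716d0d47f3 (List.forall_mem_cons.2 ⟨(q_130b9a4b51.mono (by norm_num)),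
    (List.forall_mem_cons.2 ⟨(q_c32e40dddc.mono (by norm_num)),
    (List.forall_mem_cons.2 ⟨(q_9ef73c1f41.mono (by norm_num)),
    (List.forall_mem_cons.2 ⟨(q_d7dfefff06.mono (by norm_num)),
    (List.forall_mem_cons.2 ⟨(q_41a93f5916.mono (by norm_num)),
    (List.forall_mem_cons.2 ⟨(q_291c990af4.mono (by norm_num)),
    (List.forall_mem_cons.2 ⟨(q_2ea7567621.mono (by norm_num)),
    (List.forall_mem_cons.2 ⟨(q_aceb206400.mono (by norm_num)),
    (List.forall_mem_cons.2 ⟨(q_95bed49c24.mono (by norm_num)),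
    (List.forall_mem_cons.2 ⟨(q_dfc95452d4.mono (by norm_num)),
    (List.forall_mem_cons.2 ⟨(q_2915c7dfae.mono (by norm_num)),
    (List.forall_mem_cons.2 ⟨(q_75972980b1.mono (by norm_num)),
    (List.forall_mem_nil _)⟩)⟩)⟩)⟩)⟩)⟩)⟩)⟩)⟩)⟩)⟩)⟩)

theorem q_2ec651e003 : PosP 516 [466, 495, 497, 528, 530, 558, 561] [465, 496, 527, 559, 560, 593, 594] :=
  pos_of_cert (F := 266) (by norm_num) p_2ec651e003 (List.forall_mem_nil _)

theorem q_66fe1fdad4 : PosP 516 [466, 495, 497, 528, 530, 558, 561] [465, 496, 527, 559, 560, 594, 626] :=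
  pos_of_cert (F := 266) (by norm_num) p_66fe1fdad4 (List.forall_mem_nil _)

theorem q_0dbc41ee2e : PosP 1266 [466, 495, 497, 528, 558, 561] [465, 496, 527, 559, 560, 594] :=
  pos_of_cert (F := 1016) (by norm_num) p_0dbc41ee2e (List.forall_mem_cons.2 ⟨(q_0844841c2e.mono (by norm_num)),
    (List.forall_mem_cons.2 ⟨(q_716d0d47f3.mono (by norm_num)),
    (List.forall_mem_cons.2 ⟨(q_2ec651e003.mono (by norm_num)),
    (List.forall_mem_cons.2 ⟨(q_66fe1fdad4.mono (by norm_num)),
    (List.forall_mem_nil _)⟩)⟩)⟩)⟩)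

theorem q_3bea25e3ae : PosP 1516 [466, 495, 528, 558] [465, 496, 527, 560] :=
  pos_of_cert (F := 1266) (by norm_num) p_3bea25e3ae (List.forall_mem_cons.2 ⟨(q_8cb34f42cf.mono (by norm_num)),
    (List.forall_mem_cons.2 ⟨(q_eae5fb983b.mono (by norm_num)),
    (List.forall_mem_cons.2 ⟨(q_0dbc41ee2e.mono (by norm_num)),
    (List.forall_mem_nil _)⟩)⟩)⟩)

theorem q_e79ffabcda : PosP 516 [435, 465, 466, 495, 497, 528] [404, 496, 527, 559, 562, 595] :=
  pos_of_cert (F := 266) (by norm_num) p_e79ffabcda (List.forall_mem_nil _)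

theorem q_b10a017c57 : PosP 766 [435, 466, 495, 497, 528] [404, 496, 527, 559, 595] :=
  pos_of_cert (F := 516) (by norm_num) p_b10a017c57 (List.forall_mem_cons.2 ⟨(q_e79ffabcda.mono (by norm_num)),
    (List.forall_mem_nil _)⟩)

theorem q_ab259479e2 : PosP 1016 [466, 495, 528] [496, 527, 595] :=
  pos_of_cert (F := 766) (by norm_num) p_ab259479e2 (List.forall_mem_cons.2 ⟨(q_b10a017c57.mono (by norm_num)),
    (List.forall_mem_nil _)⟩)

theorem q_655ec6284d : PosP 516 [465, 495, 528, 529] [462, 496, 527, 562] :=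
  pos_of_cert (F := 266) (by norm_num) p_655ec6284d (List.forall_mem_nil _)

theorem q_e375a93671 : PosP 516 [466, 495, 528] [397, 496, 527] :=
  pos_of_cert (F := 266) (by norm_num) p_e375a93671 (List.forall_mem_nil _)

theorem q_d2e759d647 : PosP 516 [464, 493, 495, 526, 557] [430, 431, 433, 528, 588] :=
  pos_of_cert (F := 266) (by norm_num) p_d2e759d647 (List.forall_mem_nil _)

theorem q_c7af609def : PosP 766 [464, 495, 526, 557] [430, 433, 528, 588] :=
  pos_of_cert (F := 516) (by norm_num) p_c7af609def (List.forall_mem_cons.2 ⟨(q_d2e759d647.mono (by norm_num)),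
    (List.forall_mem_nil _)⟩)

theorem q_beaedd9dc8 : PosP 1016 [464, 495] [430, 528] :=
  pos_of_cert (F := 766) (by norm_num) p_beaedd9dc8 (List.forall_mem_cons.2 ⟨(q_c7af609def.mono (by norm_num)),
    (List.forall_mem_nil _)⟩)

theorem q_c97e203bf7 : PosP 516 [464, 495, 528] [429, 496, 559] :=
  pos_of_cert (F := 266) (by norm_num) p_c97e203bf7 (List.forall_mem_nil _)

theorem q_e140f62f5e : PosP 516 [464, 495, 496] [430, 494, 595] :=
  pos_of_cert (F := 266) (by norm_num) p_e140f62f5e (List.forall_mem_nil _)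

theorem q_e9ef6eee7b : PosP 516 [464, 495, 496] [432, 494, 595] :=
  pos_of_cert (F := 266) (by norm_num) p_e9ef6eee7b (List.forall_mem_nil _)

theorem q_72c3f354c6 : PosP 516 [464, 495, 496] [494, 525, 595] :=
  pos_of_cert (F := 266) (by norm_num) p_72c3f354c6 (List.forall_mem_nil _)

theorem q_3a7ff24e2c : PosP 516 [464, 495, 496] [494, 527, 595] :=
  pos_of_cert (F := 266) (by norm_num) p_3a7ff24e2c (List.forall_mem_nil _)

theorem q_1c667bbf77 : PosP 766 [495, 496] [494, 595] :=
  pos_of_cert (F := 516) (by norm_num) p_1c667bbf77 (List.forall_mem_cons.2 ⟨(q_e140f62f5e.mono (by norm_num)),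
    (List.forall_mem_cons.2 ⟨(q_e9ef6eee7b.mono (by norm_num)),
    (List.forall_mem_cons.2 ⟨(q_72c3f354c6.mono (by norm_num)),
    (List.forall_mem_cons.2 ⟨(q_3a7ff24e2c.mono (by norm_num)),
    (List.forall_mem_nil _)⟩)⟩)⟩)⟩)

theorem q_a12421e4a5 : PosP 516 [433, 464, 495] [402, 530, 562] :=
  pos_of_cert (F := 266) (by norm_num) p_a12421e4a5 (List.forall_mem_nil _)

theorem q_6aa29b7f55 : PosP 766 [464, 495] [530, 562] :=
  pos_of_cert (F := 516) (by norm_num) p_6aa29b7f55 (List.forall_mem_cons.2 ⟨(q_a12421e4a5.mono (by norm_num)),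
    (List.forall_mem_cons.2 ⟨(q_945ccc9bc0.mono (by norm_num)),
    (List.forall_mem_nil _)⟩)⟩)

theorem q_6944d1c7cc : PosP 516 [495, 496] [528, 627] :=
  pos_of_cert (F := 266) (by norm_num) p_6944d1c7cc (List.forall_mem_nil _)

theorem q_0bc445ec29 : PosP 516 [466, 495, 528] [400, 496, 527] :=
  pos_of_cert (F := 266) (by norm_num) p_0bc445ec29 (List.forall_mem_nil _)

theorem q_cde0bca336 : PosP 516 [464, 494, 495] [433, 462, 528] :=
  pos_of_cert (F := 266) (by norm_num) p_cde0bca336 (List.forall_mem_nil _)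

theorem q_fe10cc7e77 : PosP 516 [464, 495, 526, 529, 557, 559] [369, 433, 465, 497, 528, 588] :=
  pos_of_cert (F := 266) (by norm_num) p_fe10cc7e77 (List.forall_mem_nil _)

theorem q_dfb624b13b : PosP 516 [464, 495, 526, 529, 557, 559] [401, 433, 465, 497, 528, 588] :=
  pos_of_cert (F := 266) (by norm_num) p_dfb624b13b (List.forall_mem_nil _)

theorem q_68c43c6874 : PosP 766 [464, 495, 526, 557, 559] [433, 465, 497, 528, 588] :=
  pos_of_cert (F := 516) (by norm_num) p_68c43c6874 (List.forall_mem_cons.2 ⟨(q_fe10cc7e77.mono (by norm_num)),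
    (List.forall_mem_cons.2 ⟨(q_dfb624b13b.mono (by norm_num)),
    (List.forall_mem_nil _)⟩)⟩)

theorem q_5937c64ce9 : PosP 516 [464, 495, 526, 559] [433, 497, 528, 529] :=
  pos_of_cert (F := 266) (by norm_num) p_5937c64ce9 (List.forall_mem_nil _)

theorem q_a583e71840 : PosP 516 [464, 495, 526, 559] [433, 497, 528, 592] :=
  pos_of_cert (F := 266) (by norm_num) p_a583e71840 (List.forall_mem_nil _)

theorem q_8d73e7f223 : PosP 1016 [464, 495, 526] [433, 497, 528] :=
  pos_of_cert (F := 766) (by norm_num) p_8d73e7f223 (List.forall_mem_cons.2 ⟨(q_68c43c6874.mono (by norm_num)),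
    (List.forall_mem_cons.2 ⟨(q_5937c64ce9.mono (by norm_num)),
    (List.forall_mem_cons.2 ⟨(q_a583e71840.mono (by norm_num)),
    (List.forall_mem_nil _)⟩)⟩)⟩)

theorem q_34190d4801 : PosP 516 [464, 495, 526] [497, 528, 557] :=
  pos_of_cert (F := 266) (by norm_num) p_34190d4801 (List.forall_mem_nil _)

theorem q_07f99e1b09 : PosP 1266 [464, 495] [497, 528] :=
  pos_of_cert (F := 1016) (by norm_num) p_07f99e1b09 (List.forall_mem_cons.2 ⟨(q_8d73e7f223.mono (by norm_num)),
    (List.forall_mem_cons.2 ⟨(q_34190d4801.mono (by norm_num)),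
    (List.forall_mem_nil _)⟩)⟩)

theorem q_1344926817 : PosP 516 [464, 495, 526, 557, 559] [433, 465, 494, 529, 588] :=
  pos_of_cert (F := 266) (by norm_num) p_1344926817 (List.forall_mem_nil _)

theorem q_4bdcbc4815 : PosP 516 [464, 495, 526, 557, 559] [433, 494, 497, 529, 588] :=
  pos_of_cert (F := 266) (by norm_num) p_4bdcbc4815 (List.forall_mem_nil _)

theorem q_c75f26b098 : PosP 766 [464, 495, 526, 557] [433, 494, 529, 588] :=
  pos_of_cert (F := 516) (by norm_num) p_c75f26b098 (List.forall_mem_cons.2 ⟨(q_1344926817.mono (by norm_num)),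
    (List.forall_mem_cons.2 ⟨(q_4bdcbc4815.mono (by norm_num)),
    (List.forall_mem_nil _)⟩)⟩)

theorem q_d9ca624848 : PosP 1016 [464, 495] [494, 529] :=
  pos_of_cert (F := 766) (by norm_num) p_d9ca624848 (List.forall_mem_cons.2 ⟨(q_c75f26b098.mono (by norm_num)),
    (List.forall_mem_nil _)⟩)

theorem q_a0105557d6 : PosP 516 [495, 528, 529] [462, 496, 557] :=
  pos_of_cert (F := 266) (by norm_num) p_a0105557d6 (List.forall_mem_nil _)

theorem q_dca35e6af4 : PosP 516 [463, 495] [499, 503] :=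
  pos_of_cert (F := 266) (by norm_num) p_dca35e6af4 (List.forall_mem_nil _)

theorem q_505e8b5796 : PosP 516 [464, 495] [459, 528] :=
  pos_of_cert (F := 266) (by norm_num) p_505e8b5796 (List.forall_mem_nil _)

theorem q_cd0e007ada : PosP 516 [466, 495, 528] [496, 527, 625] :=
  pos_of_cert (F := 266) (by norm_num) p_cd0e007ada (List.forall_mem_nil _)

theorem q_a79e8a3485 : PosP 516 [465, 495, 528, 529] [462, 467, 496, 527] :=
  pos_of_cert (F := 266) (by norm_num) p_a79e8a3485 (List.forall_mem_nil _)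

theorem q_db83d1eb5a : PosP 516 [495, 528, 529] [462, 465, 496] :=
  pos_of_cert (F := 266) (by norm_num) p_db83d1eb5a (List.forall_mem_nil _)

theorem q_dcb9e00a67 : PosP 516 [464, 495, 528] [463, 496, 559] :=
  pos_of_cert (F := 266) (by norm_num) p_dcb9e00a67 (List.forall_mem_nil _)

theorem q_cf12603b69 : PosP 516 [433, 464, 495] [526, 529, 531] :=
  pos_of_cert (F := 266) (by norm_num) p_cf12603b69 (List.forall_mem_nil _)

theorem q_23b0cbb97a : PosP 766 [464, 495] [529, 531] :=
  pos_of_cert (F := 516) (by norm_num) p_23b0cbb97a (List.forall_mem_cons.2 ⟨(q_cf12603b69.mono (by norm_num)),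
    (List.forall_mem_nil _)⟩)

theorem q_e014f92f21 : PosP 516 [464, 495, 526, 559] [433, 465, 497, 563] :=
  pos_of_cert (F := 266) (by norm_num) p_e014f92f21 (List.forall_mem_nil _)

theorem q_2fcbe68a8b : PosP 766 [464, 495, 526] [433, 497, 563] :=
  pos_of_cert (F := 516) (by norm_num) p_2fcbe68a8b (List.forall_mem_cons.2 ⟨(q_e014f92f21.mono (by norm_num)),
    (List.forall_mem_nil _)⟩)

theorem q_3223f26272 : PosP 1016 [495, 526] [497, 563] :=
  pos_of_cert (F := 766) (by norm_num) p_3223f26272 (List.forall_mem_cons.2 ⟨(q_2fcbe68a8b.mono (by norm_num)),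
    (List.forall_mem_nil _)⟩)

theorem q_8be4ed70fe : PosP 516 [431, 463, 464, 495, 527, 528, 560] [399, 496, 529, 559, 561, 562, 595] :=
  pos_of_cert (F := 266) (by norm_num) p_8be4ed70fe (List.forall_mem_nil _)

theorem q_72e975c35c : PosP 516 [431, 463, 464, 495, 527, 528, 560] [399, 496, 529, 559, 561, 562, 628] :=
  pos_of_cert (F := 266) (by norm_num) p_72e975c35c (List.forall_mem_nil _)

theorem q_b94185d71e : PosP 766 [431, 463, 495, 527, 528, 560] [399, 496, 529, 559, 561, 562] :=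
  pos_of_cert (F := 516) (by norm_num) p_b94185d71e (List.forall_mem_cons.2 ⟨(q_8be4ed70fe.mono (by norm_num)),
    (List.forall_mem_cons.2 ⟨(q_72e975c35c.mono (by norm_num)),
    (List.forall_mem_nil _)⟩)⟩)

theorem q_248cbe1354 : PosP 1016 [463, 495, 528] [496, 561, 562] :=
  pos_of_cert (F := 766) (by norm_num) p_248cbe1354 (List.forall_mem_cons.2 ⟨(q_b94185d71e.mono (by norm_num)),
    (List.forall_mem_nil _)⟩)

theorem q_9f987c5fa0 : PosP 516 [463, 465, 495, 528] [433, 496, 527, 561] :=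
  pos_of_cert (F := 266) (by norm_num) p_9f987c5fa0 (List.forall_mem_nil _)

theorem q_39bda875a0 : PosP 516 [463, 495, 528] [462, 496, 561] :=
  pos_of_cert (F := 266) (by norm_num) p_39bda875a0 (List.forall_mem_nil _)

theorem q_34039a3044 : PosP 516 [495, 526, 557] [561, 588, 594] :=
  pos_of_cert (F := 266) (by norm_num) p_34039a3044 (List.forall_mem_nil _)

theorem q_f6d98405cc : PosP 766 [495, 526] [561, 594] :=
  pos_of_cert (F := 516) (by norm_num) p_f6d98405cc (List.forall_mem_cons.2 ⟨(q_34039a3044.mono (by norm_num)),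
    (List.forall_mem_nil _)⟩)

theorem q_afcb3df743 : PosP 516 [464, 465, 495] [526, 528, 558] :=
  pos_of_cert (F := 266) (by norm_num) p_afcb3df743 (List.forall_mem_nil _)

theorem q_c25df90328 : PosP 516 [462, 463, 495, 528, 529] [496, 561, 593, 625, 657] :=
  pos_of_cert (F := 266) (by norm_num) p_c25df90328 (List.forall_mem_nil _)

theorem q_94c43c9705 : PosP 766 [462, 463, 495, 528] [496, 561, 593, 625] :=
  pos_of_cert (F := 516) (by norm_num) p_94c43c9705 (List.forall_mem_cons.2 ⟨(q_c25df90328.mono (by norm_num)),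
    (List.forall_mem_nil _)⟩)

theorem q_f9b4dae85b : PosP 766 [462, 463, 495, 528] [496, 561, 593, 657] :=
  pos_of_cert (F := 516) (by norm_num) p_f9b4dae85b (List.forall_mem_cons.2 ⟨(q_c25df90328.mono (by norm_num)),
    (List.forall_mem_nil _)⟩)

theorem q_5e16cf3953 : PosP 1016 [462, 495, 528] [496, 561, 593] :=
  pos_of_cert (F := 766) (by norm_num) p_5e16cf3953 (List.forall_mem_cons.2 ⟨(q_b6ba29eb46.mono (by norm_num)),
    (List.forall_mem_cons.2 ⟨(q_94c43c9705.mono (by norm_num)),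
    (List.forall_mem_cons.2 ⟨(q_f9b4dae85b.mono (by norm_num)),
    (List.forall_mem_nil _)⟩)⟩)⟩)

theorem q_fda5f9a010 : PosP 1266 [495, 528] [496, 593] :=
  pos_of_cert (F := 1016) (by norm_num) p_fda5f9a010 (List.forall_mem_cons.2 ⟨(q_5e16cf3953.mono (by norm_num)),
    (List.forall_mem_nil _)⟩)

theorem q_48fbee0f53 : PosP 516 [465, 495, 528, 529] [462, 496, 527, 594] :=
  pos_of_cert (F := 266) (by norm_num) p_48fbee0f53 (List.forall_mem_nil _)

theorem q_4721577ae7 : PosP 516 [431, 464, 495] [463, 527, 528] :=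
  pos_of_cert (F := 266) (by norm_num) p_4721577ae7 (List.forall_mem_nil _)

theorem q_64a34fe4a3 : PosP 516 [464, 465, 495] [525, 526, 528] :=
  pos_of_cert (F := 266) (by norm_num) p_64a34fe4a3 (List.forall_mem_nil _)

theorem q_26933b6392 : PosP 516 [464, 495, 526] [433, 528, 592] :=
  pos_of_cert (F := 266) (by norm_num) p_26933b6392 (List.forall_mem_nil _)

theorem q_6969059557 : PosP 516 [433, 464, 495, 496, 526] [402, 494, 528, 557, 592] :=
  pos_of_cert (F := 266) (by norm_num) p_6969059557 (List.forall_mem_nil _)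

theorem q_f39655b17c : PosP 516 [433, 464, 495, 496, 526] [402, 497, 528, 557, 592] :=
  pos_of_cert (F := 266) (by norm_num) p_f39655b17c (List.forall_mem_nil _)

theorem q_95f91fe99b : PosP 766 [433, 464, 495, 526] [402, 528, 557, 592] :=
  pos_of_cert (F := 516) (by norm_num) p_95f91fe99b (List.forall_mem_cons.2 ⟨(q_6969059557.mono (by norm_num)),
    (List.forall_mem_cons.2 ⟨(q_f39655b17c.mono (by norm_num)),
    (List.forall_mem_nil _)⟩)⟩)

theorem q_9bd5c85bc2 : PosP 1016 [464, 495] [528, 592] :=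
  pos_of_cert (F := 766) (by norm_num) p_9bd5c85bc2 (List.forall_mem_cons.2 ⟨(q_26933b6392.mono (by norm_num)),
    (List.forall_mem_cons.2 ⟨(q_95f91fe99b.mono (by norm_num)),
    (List.forall_mem_nil _)⟩)⟩)

theorem q_4f0370beee : PosP 516 [464, 495] [338, 563] :=
  pos_of_cert (F := 266) (by norm_num) p_4f0370beee (List.forall_mem_nil _)

theorem q_0a1b9725cc : PosP 516 [466, 495, 528] [496, 527, 590] :=
  pos_of_cert (F := 266) (by norm_num) p_0a1b9725cc (List.forall_mem_nil _)

theorem q_23d8c82500 : PosP 516 [495, 526, 527, 557] [561, 588, 589, 590] :=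
  pos_of_cert (F := 266) (by norm_num) p_23d8c82500 (List.forall_mem_nil _)

theorem q_4cebca87cf : PosP 766 [495, 526, 557] [561, 588, 590] :=
  pos_of_cert (F := 516) (by norm_num) p_4cebca87cf (List.forall_mem_cons.2 ⟨(q_23d8c82500.mono (by norm_num)),
    (List.forall_mem_nil _)⟩)

theorem q_42fb4d7c56 : PosP 1016 [495, 526] [561, 590] :=
  pos_of_cert (F := 766) (by norm_num) p_42fb4d7c56 (List.forall_mem_cons.2 ⟨(q_4cebca87cf.mono (by norm_num)),
    (List.forall_mem_nil _)⟩)

theorem q_a548c430cd : PosP 516 [464, 495, 526, 559] [433, 561, 562, 563] :=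
  pos_of_cert (F := 266) (by norm_num) p_a548c430cd (List.forall_mem_nil _)

theorem q_c69b6623b0 : PosP 516 [464, 495, 526, 559] [433, 561, 563, 564] :=
  pos_of_cert (F := 266) (by norm_num) p_c69b6623b0 (List.forall_mem_nil _)

theorem q_34acc4e070 : PosP 766 [464, 495, 526] [433, 561, 563] :=
  pos_of_cert (F := 516) (by norm_num) p_34acc4e070 (List.forall_mem_cons.2 ⟨(q_a548c430cd.mono (by norm_num)),
    (List.forall_mem_cons.2 ⟨(q_c69b6623b0.mono (by norm_num)),
    (List.forall_mem_nil _)⟩)⟩)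

theorem q_a79a8dd43d : PosP 516 [433, 464, 495, 526, 559] [402, 557, 561, 562, 563] :=
  pos_of_cert (F := 266) (by norm_num) p_a79a8dd43d (List.forall_mem_nil _)

theorem q_7f3d020a6a : PosP 766 [433, 464, 495, 526] [402, 557, 561, 563] :=
  pos_of_cert (F := 516) (by norm_num) p_7f3d020a6a (List.forall_mem_cons.2 ⟨(q_a79a8dd43d.mono (by norm_num)),
    (List.forall_mem_nil _)⟩)

theorem q_aa2ac7e8a4 : PosP 1016 [464, 495] [561, 563] :=
  pos_of_cert (F := 766) (by norm_num) p_aa2ac7e8a4 (List.forall_mem_cons.2 ⟨(q_34acc4e070.mono (by norm_num)),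
    (List.forall_mem_cons.2 ⟨(q_7f3d020a6a.mono (by norm_num)),
    (List.forall_mem_nil _)⟩)⟩)

theorem q_e1cadc03e3 : PosP 516 [464, 465, 495, 530] [525, 526, 528, 529] :=
  pos_of_cert (F := 266) (by norm_num) p_e1cadc03e3 (List.forall_mem_nil _)

theorem q_c63d6479c7 : PosP 516 [463, 495, 496] [431, 497, 627] :=
  pos_of_cert (F := 266) (by norm_num) p_c63d6479c7 (List.forall_mem_nil _)

theorem q_9df426e12d : PosP 516 [463, 495, 496] [433, 497, 627] :=
  pos_of_cert (F := 266) (by norm_num) p_9df426e12d (List.forall_mem_nil _)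

theorem q_5318054fe3 : PosP 516 [463, 495, 496] [497, 527, 627] :=
  pos_of_cert (F := 266) (by norm_num) p_5318054fe3 (List.forall_mem_nil _)

theorem q_8783254da6 : PosP 516 [463, 495, 496] [497, 528, 627] :=
  pos_of_cert (F := 266) (by norm_num) p_8783254da6 (List.forall_mem_nil _)

theorem q_c6f8a18997 : PosP 766 [495, 496] [497, 627] :=
  pos_of_cert (F := 516) (by norm_num) p_c6f8a18997 (List.forall_mem_cons.2 ⟨(q_c63d6479c7.mono (by norm_num)),
    (List.forall_mem_cons.2 ⟨(q_9df426e12d.mono (by norm_num)),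
    (List.forall_mem_cons.2 ⟨(q_5318054fe3.mono (by norm_num)),
    (List.forall_mem_cons.2 ⟨(q_8783254da6.mono (by norm_num)),
    (List.forall_mem_nil _)⟩)⟩)⟩)⟩)

theorem q_59fcd6f0a1 : PosP 516 [494, 495, 496, 497] [493, 498, 595, 694] :=
  pos_of_cert (F := 266) (by norm_num) p_59fcd6f0a1 (List.forall_mem_nil _)

theorem q_0b4fac31d9 : PosP 766 [495, 496] [595, 694] :=
  pos_of_cert (F := 516) (by norm_num) p_0b4fac31d9 (List.forall_mem_cons.2 ⟨(q_59fcd6f0a1.mono (by norm_num)),
    (List.forall_mem_nil _)⟩)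

theorem q_c9f351d0d0 : PosP 516 [433, 464, 495, 526] [402, 531, 534, 557] :=
  pos_of_cert (F := 266) (by norm_num) p_c9f351d0d0 (List.forall_mem_nil _)

theorem q_582663e85d : PosP 766 [464, 495] [531, 534] :=
  pos_of_cert (F := 516) (by norm_num) p_582663e85d (List.forall_mem_cons.2 ⟨(q_c9f351d0d0.mono (by norm_num)),
    (List.forall_mem_nil _)⟩)

theorem q_30d4400723 : PosP 516 [464, 495] [497, 596] :=
  pos_of_cert (F := 266) (by norm_num) p_30d4400723 (List.forall_mem_nil _)

theorem q_8ba08226aa : PosP 516 [464, 495, 497, 526] [433, 494, 529, 561] :=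
  pos_of_cert (F := 266) (by norm_num) p_8ba08226aa (List.forall_mem_nil _)

theorem q_6d8b0ca72e : PosP 766 [464, 495, 526] [433, 529, 561] :=
  pos_of_cert (F := 516) (by norm_num) p_6d8b0ca72e (List.forall_mem_cons.2 ⟨(q_8ba08226aa.mono (by norm_num)),
    (List.forall_mem_nil _)⟩)

theorem q_a64df1a35c : PosP 516 [464, 495, 526] [529, 557, 561] :=
  pos_of_cert (F := 266) (by norm_num) p_a64df1a35c (List.forall_mem_nil _)

theorem q_e9378ff971 : PosP 1016 [464, 495] [529, 561] :=
  pos_of_cert (F := 766) (by norm_num) p_e9378ff971 (List.forall_mem_cons.2 ⟨(q_6d8b0ca72e.mono (by norm_num)),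
    (List.forall_mem_cons.2 ⟨(q_a64df1a35c.mono (by norm_num)),
    (List.forall_mem_nil _)⟩)⟩)

theorem q_3b3fdc67ad : PosP 516 [466, 495, 528] [429, 496, 527] :=
  pos_of_cert (F := 266) (by norm_num) p_3b3fdc67ad (List.forall_mem_nil _)

theorem q_a46a84de2c : PosP 516 [463, 464, 495, 527, 559] [431, 530, 563, 591, 596] :=
  pos_of_cert (F := 266) (by norm_num) p_a46a84de2c (List.forall_mem_nil _)

theorem q_bc75f1adc8 : PosP 516 [463, 464, 495, 527, 559] [431, 530, 591, 596, 629] :=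
  pos_of_cert (F := 266) (by norm_num) p_bc75f1adc8 (List.forall_mem_nil _)

theorem q_952d100bb9 : PosP 516 [463, 464, 495, 527] [530, 559, 563, 596] :=
  pos_of_cert (F := 266) (by norm_num) p_952d100bb9 (List.forall_mem_nil _)

theorem q_b44526a2e3 : PosP 766 [463, 495, 527] [530, 559, 596] :=
  pos_of_cert (F := 516) (by norm_num) p_b44526a2e3 (List.forall_mem_cons.2 ⟨(q_952d100bb9.mono (by norm_num)),
    (List.forall_mem_nil _)⟩)

theorem q_b6f2b9fa21 : PosP 1016 [463, 495] [530, 596] :=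
  pos_of_cert (F := 766) (by norm_num) p_b6f2b9fa21 (List.forall_mem_cons.2 ⟨(q_a46a84de2c.mono (by norm_num)),
    (List.forall_mem_cons.2 ⟨(q_bc75f1adc8.mono (by norm_num)),
    (List.forall_mem_cons.2 ⟨(q_b44526a2e3.mono (by norm_num)),
    (List.forall_mem_nil _)⟩)⟩)⟩)

theorem q_f6ab0b4bcd : PosP 516 [462, 464, 465, 466, 494, 495, 497, 528, 561, 562, 590] [429, 435, 463, 496, 527, 529, 558, 559, 560, 594, 626] :=
  pos_of_cert (F := 266) (by norm_num) p_f6ab0b4bcd (List.forall_mem_nil _)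

theorem q_fd35a24957 : PosP 766 [462, 464, 465, 466, 495, 497, 528, 561, 562, 590] [429, 435, 463, 496, 527, 529, 559, 560, 594, 626] :=
  pos_of_cert (F := 516) (by norm_num) p_fd35a24957 (List.forall_mem_cons.2 ⟨(q_f6ab0b4bcd.mono (by norm_num)),
    (List.forall_mem_nil _)⟩)

theorem q_2eba1c8c4a : PosP 1016 [466, 495, 528] [496, 527, 626] :=
  pos_of_cert (F := 766) (by norm_num) p_2eba1c8c4a (List.forall_mem_cons.2 ⟨(q_fd35a24957.mono (by norm_num)),
    (List.forall_mem_nil _)⟩)

theorem q_949bf94c29 : PosP 516 [434, 463, 464, 495] [433, 466, 498, 530] :=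
  pos_of_cert (F := 266) (by norm_num) p_949bf94c29 (List.forall_mem_nil _)

theorem q_c186e6942b : PosP 516 [434, 463, 464, 495] [466, 498, 527, 530] :=
  pos_of_cert (F := 266) (by norm_num) p_c186e6942b (List.forall_mem_nil _)

theorem q_19a8e126bd : PosP 516 [434, 463, 464, 495] [466, 498, 528, 530] :=
  pos_of_cert (F := 266) (by norm_num) p_19a8e126bd (List.forall_mem_nil _)

theorem q_7b68434f29 : PosP 516 [434, 463, 464, 495] [466, 498, 530, 562] :=
  pos_of_cert (F := 266) (by norm_num) p_7b68434f29 (List.forall_mem_nil _)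

theorem q_e7248e6b84 : PosP 516 [434, 463, 464, 495] [466, 498, 530, 594] :=
  pos_of_cert (F := 266) (by norm_num) p_e7248e6b84 (List.forall_mem_nil _)

theorem q_84a96fdbbb : PosP 766 [463, 464, 495] [466, 498, 530] :=
  pos_of_cert (F := 516) (by norm_num) p_84a96fdbbb (List.forall_mem_cons.2 ⟨(q_949bf94c29.mono (by norm_num)),
    (List.forall_mem_cons.2 ⟨(q_c186e6942b.mono (by norm_num)),
    (List.forall_mem_cons.2 ⟨(q_19a8e126bd.mono (by norm_num)),
    (List.forall_mem_cons.2 ⟨(q_7b68434f29.mono (by norm_num)),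
    (List.forall_mem_cons.2 ⟨(q_e7248e6b84.mono (by norm_num)),
    (List.forall_mem_nil _)⟩)⟩)⟩)⟩)⟩)

theorem q_1c07a097c1 : PosP 1016 [463, 495] [498, 530] :=
  pos_of_cert (F := 766) (by norm_num) p_1c07a097c1 (List.forall_mem_cons.2 ⟨(q_84a96fdbbb.mono (by norm_num)),
    (List.forall_mem_nil _)⟩)

theorem q_f3c806f7c4 : PosP 516 [466, 495, 528] [402, 496, 527] :=
  pos_of_cert (F := 266) (by norm_num) p_f3c806f7c4 (List.forall_mem_nil _)

theorem q_18b27945c6 : PosP 516 [431, 463, 495] [464, 527, 530] :=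
  pos_of_cert (F := 266) (by norm_num) p_18b27945c6 (List.forall_mem_nil _)

theorem q_7b46e2e5d8 : PosP 766 [463, 495] [464, 530] :=
  pos_of_cert (F := 516) (by norm_num) p_7b46e2e5d8 (List.forall_mem_cons.2 ⟨(q_18b27945c6.mono (by norm_num)),
    (List.forall_mem_nil _)⟩)

theorem q_33418e9aa1 : PosP 516 [403, 466, 495, 528, 530, 558, 560, 561, 594] [401, 434, 462, 465, 496, 497, 527, 559, 627] :=
  pos_of_cert (F := 266) (by norm_num) p_33418e9aa1 (List.forall_mem_nil _)

theorem q_006f956788 : PosP 516 [403, 466, 495, 528, 530, 558, 560, 561, 594] [433, 434, 462, 465, 496, 497, 527, 559, 627] :=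
  pos_of_cert (F := 266) (by norm_num) p_006f956788 (List.forall_mem_nil _)

theorem q_4f4a74f4ed : PosP 516 [403, 466, 495, 500, 528, 530, 531, 558, 560, 561, 594] [434, 462, 465, 496, 497, 498, 499, 527, 559, 562, 627] :=
  pos_of_cert (F := 266) (by norm_num) p_4f4a74f4ed (List.forall_mem_nil _)

theorem q_ec14e85e8f : PosP 766 [403, 466, 495, 528, 530, 531, 558, 560, 561, 594] [434, 462, 465, 496, 497, 498, 499, 527, 559, 627] :=
  pos_of_cert (F := 516) (by norm_num) p_ec14e85e8f (List.forall_mem_cons.2 ⟨(q_4f4a74f4ed.mono (by norm_num)),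
    (List.forall_mem_nil _)⟩)

theorem q_9e7097d749 : PosP 516 [403, 466, 495, 528, 530, 531, 558, 560, 561, 594] [434, 462, 465, 496, 497, 499, 527, 559, 562, 627] :=
  pos_of_cert (F := 266) (by norm_num) p_9e7097d749 (List.forall_mem_nil _)

theorem q_86932d8223 : PosP 1016 [403, 466, 495, 528, 530, 558, 560, 561, 594] [434, 462, 465, 496, 497, 499, 527, 559, 627] :=
  pos_of_cert (F := 766) (by norm_num) p_86932d8223 (List.forall_mem_cons.2 ⟨(q_ec14e85e8f.mono (by norm_num)),
    (List.forall_mem_cons.2 ⟨(q_9e7097d749.mono (by norm_num)),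
    (List.forall_mem_nil _)⟩)⟩)

theorem q_a3f403dec7 : PosP 516 [403, 466, 495, 528, 529, 558, 560, 561, 594] [434, 462, 465, 496, 497, 527, 562, 590, 627] :=
  pos_of_cert (F := 266) (by norm_num) p_a3f403dec7 (List.forall_mem_nil _)

theorem q_eed5431d60 : PosP 516 [403, 466, 495, 528, 529, 557, 558, 560, 561, 594] [434, 462, 465, 496, 497, 527, 559, 562, 591, 627] :=
  pos_of_cert (F := 266) (by norm_num) p_eed5431d60 (List.forall_mem_nil _)

theorem q_b747379713 : PosP 516 [403, 466, 495, 528, 529, 558, 560, 561, 594] [434, 462, 465, 496, 497, 527, 562, 622, 627] :=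
  pos_of_cert (F := 266) (by norm_num) p_b747379713 (List.forall_mem_nil _)

theorem q_c5c6fbab35 : PosP 766 [403, 466, 495, 528, 558, 560, 561, 594] [434, 462, 465, 496, 497, 527, 562, 627] :=
  pos_of_cert (F := 516) (by norm_num) p_c5c6fbab35 (List.forall_mem_cons.2 ⟨(q_a3f403dec7.mono (by norm_num)),
    (List.forall_mem_cons.2 ⟨(q_eed5431d60.mono (by norm_num)),
    (List.forall_mem_cons.2 ⟨(q_b747379713.mono (by norm_num)),
    (List.forall_mem_nil _)⟩)⟩)⟩)

theorem q_42d0fc45c9 : PosP 516 [403, 466, 495, 528, 529, 557, 558, 560, 561] [434, 462, 465, 496, 497, 527, 559, 562, 622] :=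
  pos_of_cert (F := 266) (by norm_num) p_42d0fc45c9 (List.forall_mem_nil _)

theorem q_9b21e5349b : PosP 766 [403, 466, 495, 528, 557, 558, 560, 561] [434, 462, 465, 496, 497, 527, 559, 562] :=
  pos_of_cert (F := 516) (by norm_num) p_9b21e5349b (List.forall_mem_cons.2 ⟨(q_eed5431d60.mono (by norm_num)),
    (List.forall_mem_cons.2 ⟨(q_42d0fc45c9.mono (by norm_num)),
    (List.forall_mem_nil _)⟩)⟩)

theorem q_090c50661a : PosP 1266 [466, 495, 528, 530, 558, 560, 561] [434, 462, 465, 496, 497, 527, 559] :=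
  pos_of_cert (F := 1016) (by norm_num) p_090c50661a (List.forall_mem_cons.2 ⟨(q_33418e9aa1.mono (by norm_num)),
    (List.forall_mem_cons.2 ⟨(q_006f956788.mono (by norm_num)),
    (List.forall_mem_cons.2 ⟨(q_86932d8223.mono (by norm_num)),
    (List.forall_mem_nil _)⟩)⟩)⟩)

theorem q_9c77d09396 : PosP 516 [466, 495, 528, 530, 558, 560, 561] [462, 465, 496, 497, 498, 527, 559] :=
  pos_of_cert (F := 266) (by norm_num) p_9c77d09396 (List.forall_mem_nil _)

end Pool.Agent.Helper225.G
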