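import Pool.Agent.Helper225.GTab
import Pool.Agent.Helper225.Cert.MV_14
import Pool.Agent.Helper225.Cert.MV_15
import Pool.Agent.Helper225.Cert.MV_16
import Pool.Agent.Helper225.Cert.MV_17
import Pool.Agent.Helper225.Cert.MV_18
import Pool.Agent.Helper225.Cert.MV_19
import Pool.Agent.Helper225.Cert.MV_20
import Pool.Agent.Helper225.Cert.MV_21
import Pool.Agent.Helper225.Cert.MV_22
import Pool.Agent.Helper225.Cert.MV_23
import Pool.Agent.Helper225.Cert.MV_24
import Pool.Agent.Helper225.Cert.MV_25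
import Pool.Agent.Helper225.Cert.MV_26
import Pool.Agent.Helper225.Cert.MV_27
import Pool.Agent.Helper225.Cert.MV_28
import Pool.Agent.Helper225.Cert.MV_29
import Pool.Agent.Helper225.Cert.MV_30
import Pool.Agent.Helper225.Cert.MV_31
import Pool.Agent.Helper225.Cls.QV_0

set_option autoImplicit false
set_option maxRecDepth 1000000

namespace Pool.Agent.Helper225.G

theorem q_346e89d6c7 : PosP 516 [434, 466, 467, 495, 498, 500, 528, 529, 530, 532, 558, 560, 561, 594, 596] [369, 401, 402, 436, 462, 465, 496, 497, 499, 527, 531, 559, 562, 591, 627] :=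
  pos_of_cert (F := 266) (by norm_num) p_346e89d6c7 (List.forall_mem_nil _)

theorem q_6cfba0ea58 : PosP 516 [434, 466, 467, 495, 498, 500, 528, 529, 530, 532, 558, 560, 561, 594, 596] [401, 402, 436, 462, 465, 468, 496, 497, 499, 527, 531, 559, 562, 591, 627] :=
  pos_of_cert (F := 266) (by norm_num) p_6cfba0ea58 (List.forall_mem_nil _)

theorem q_336a80c731 : PosP 766 [434, 466, 467, 495, 498, 500, 528, 529, 530, 532, 558, 560, 561, 594] [401, 402, 436, 462, 465, 496, 497, 499, 527, 531, 559, 562, 591, 627] :=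
  pos_of_cert (F := 516) (by norm_num) p_336a80c731 (List.forall_mem_cons.2 ⟨(q_346e89d6c7.mono (by norm_num)),
    (List.forall_mem_cons.2 ⟨(q_6cfba0ea58.mono (by norm_num)),
    (List.forall_mem_nil _)⟩)⟩)

theorem q_29f4aea1ca : PosP 516 [401, 434, 466, 467, 495, 498, 500, 528, 529, 530, 558, 560, 561, 594, 625, 655] [368, 402, 436, 462, 465, 496, 497, 499, 527, 533, 559, 562, 563, 591, 623, 627] :=
  pos_of_cert (F := 266) (by norm_num) p_29f4aea1ca (List.forall_mem_nil _)

theorem q_e8a8fb47e5 : PosP 766 [434, 466, 467, 495, 498, 500, 528, 529, 530, 558, 560, 561, 594] [402, 436, 462, 465, 496, 497, 499, 527, 533, 559, 562, 591, 627] :=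
  pos_of_cert (F := 516) (by norm_num) p_e8a8fb47e5 (List.forall_mem_cons.2 ⟨(q_29f4aea1ca.mono (by norm_num)),
    (List.forall_mem_nil _)⟩)

theorem q_9711ed8c01 : PosP 1016 [434, 466, 467, 495, 498, 528, 529, 530, 558, 560, 561, 594] [402, 436, 462, 465, 496, 497, 499, 527, 559, 562, 591, 627] :=
  pos_of_cert (F := 766) (by norm_num) p_9711ed8c01 (List.forall_mem_cons.2 ⟨(q_336a80c731.mono (by norm_num)),
    (List.forall_mem_cons.2 ⟨(q_e8a8fb47e5.mono (by norm_num)),
    (List.forall_mem_cons.2 ⟨(q_29f4aea1ca.mono (by norm_num)),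
    (List.forall_mem_nil _)⟩)⟩)⟩)

theorem q_a8ed499c83 : PosP 516 [466, 495, 528, 530, 558, 560, 561] [462, 465, 496, 497, 527, 529, 559] :=
  pos_of_cert (F := 266) (by norm_num) p_a8ed499c83 (List.forall_mem_nil _)

theorem q_bc48f6a911 : PosP 1516 [466, 495, 528, 558, 560, 561] [462, 465, 496, 497, 527, 559] :=
  pos_of_cert (F := 1266) (by norm_num) p_bc48f6a911 (List.forall_mem_cons.2 ⟨(q_090c50661a.mono (by norm_num)),
    (List.forall_mem_cons.2 ⟨(q_9c77d09396.mono (by norm_num)),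
    (List.forall_mem_cons.2 ⟨(q_9711ed8c01.mono (by norm_num)),
    (List.forall_mem_cons.2 ⟨(q_a8ed499c83.mono (by norm_num)),
    (List.forall_mem_nil _)⟩)⟩)⟩)⟩)

theorem q_bd993ab3c8 : PosP 516 [466, 495, 528, 529, 558, 560, 561, 594] [403, 462, 465, 496, 497, 527, 562, 627] :=
  pos_of_cert (F := 266) (by norm_num) p_bd993ab3c8 (List.forall_mem_nil _)

theorem q_0ad9715388 : PosP 516 [466, 495, 528, 529, 558, 560, 561, 594] [433, 462, 465, 496, 497, 527, 562, 627] :=
  pos_of_cert (F := 266) (by norm_num) p_0ad9715388 (List.forall_mem_nil _)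

theorem q_7884b4bb67 : PosP 766 [466, 495, 528, 529, 558, 560, 561, 594] [434, 462, 465, 496, 497, 527, 562, 627] :=
  pos_of_cert (F := 516) (by norm_num) p_7884b4bb67 (List.forall_mem_cons.2 ⟨(q_eed5431d60.mono (by norm_num)),
    (List.forall_mem_cons.2 ⟨(q_b747379713.mono (by norm_num)),
    (List.forall_mem_nil _)⟩)⟩)

theorem q_c8710fd896 : PosP 516 [466, 495, 528, 529, 557, 558, 560, 561, 594] [462, 465, 496, 497, 498, 527, 559, 562, 627] :=
  pos_of_cert (F := 266) (by norm_num) p_c8710fd896 (List.forall_mem_nil _)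

theorem q_a1dc0f28b7 : PosP 516 [466, 495, 528, 529, 557, 558, 560, 561, 594] [462, 465, 496, 497, 499, 527, 559, 562, 627] :=
  pos_of_cert (F := 266) (by norm_num) p_a1dc0f28b7 (List.forall_mem_nil _)

theorem q_823d55e6fe : PosP 516 [466, 495, 528, 529, 558, 560, 561, 594] [462, 465, 496, 497, 527, 562, 590, 627] :=
  pos_of_cert (F := 266) (by norm_num) p_823d55e6fe (List.forall_mem_nil _)

theorem q_4443374a29 : PosP 516 [466, 495, 528, 529, 558, 560, 561, 592, 594] [403, 462, 465, 496, 497, 527, 562, 591, 627] :=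
  pos_of_cert (F := 266) (by norm_num) p_4443374a29 (List.forall_mem_nil _)

theorem q_0f316496d1 : PosP 516 [466, 495, 528, 529, 558, 560, 561, 592, 594] [434, 462, 465, 496, 497, 527, 562, 591, 627] :=
  pos_of_cert (F := 266) (by norm_num) p_0f316496d1 (List.forall_mem_nil _)

theorem q_8f1a411bc2 : PosP 766 [466, 495, 528, 529, 558, 560, 561, 594] [462, 465, 496, 497, 527, 562, 591, 627] :=
  pos_of_cert (F := 516) (by norm_num) p_8f1a411bc2 (List.forall_mem_cons.2 ⟨(q_4443374a29.mono (by norm_num)),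
    (List.forall_mem_cons.2 ⟨(q_0f316496d1.mono (by norm_num)),
    (List.forall_mem_nil _)⟩)⟩)

theorem q_2dccc3b4de : PosP 516 [466, 495, 528, 529, 558, 559, 560, 561, 592, 594] [403, 462, 465, 496, 497, 527, 557, 562, 622, 627] :=
  pos_of_cert (F := 266) (by norm_num) p_2dccc3b4de (List.forall_mem_nil _)

theorem q_59a8421626 : PosP 766 [466, 495, 528, 529, 558, 559, 560, 561, 594] [462, 465, 496, 497, 527, 557, 562, 622, 627] :=
  pos_of_cert (F := 516) (by norm_num) p_59a8421626 (List.forall_mem_cons.2 ⟨(q_2dccc3b4de.mono (by norm_num)),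
    (List.forall_mem_nil _)⟩)

theorem q_70e1d91303 : PosP 1016 [466, 495, 528, 558, 560, 561, 594] [462, 465, 496, 497, 527, 562, 627] :=
  pos_of_cert (F := 766) (by norm_num) p_70e1d91303 (List.forall_mem_cons.2 ⟨(q_bd993ab3c8.mono (by norm_num)),
    (List.forall_mem_cons.2 ⟨(q_0ad9715388.mono (by norm_num)),
    (List.forall_mem_cons.2 ⟨(q_7884b4bb67.mono (by norm_num)),
    (List.forall_mem_cons.2 ⟨(q_c8710fd896.mono (by norm_num)),
    (List.forall_mem_cons.2 ⟨(q_a1dc0f28b7.mono (by norm_num)),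
    (List.forall_mem_cons.2 ⟨(q_823d55e6fe.mono (by norm_num)),
    (List.forall_mem_cons.2 ⟨(q_8f1a411bc2.mono (by norm_num)),
    (List.forall_mem_cons.2 ⟨(q_59a8421626.mono (by norm_num)),
    (List.forall_mem_nil _)⟩)⟩)⟩)⟩)⟩)⟩)⟩)⟩)

theorem q_846b212285 : PosP 1766 [466, 495, 528, 558, 561] [462, 465, 496, 497, 527] :=
  pos_of_cert (F := 1516) (by norm_num) p_846b212285 (List.forall_mem_cons.2 ⟨(q_33418e9aa1.mono (by norm_num)),
    (List.forall_mem_cons.2 ⟨(q_006f956788.mono (by norm_num)),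
    (List.forall_mem_cons.2 ⟨(q_86932d8223.mono (by norm_num)),
    (List.forall_mem_cons.2 ⟨(q_9b21e5349b.mono (by norm_num)),
    (List.forall_mem_cons.2 ⟨(q_bc48f6a911.mono (by norm_num)),
    (List.forall_mem_cons.2 ⟨(q_70e1d91303.mono (by norm_num)),
    (List.forall_mem_nil _)⟩)⟩)⟩)⟩)⟩)⟩)

theorem q_caed6d33a3 : PosP 2016 [466, 495, 528, 558] [465, 496, 497, 527] :=
  pos_of_cert (F := 1766) (by norm_num) p_caed6d33a3 (List.forall_mem_cons.2 ⟨(q_33418e9aa1.mono (by norm_num)),
    (List.forall_mem_cons.2 ⟨(q_006f956788.mono (by norm_num)),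
    (List.forall_mem_cons.2 ⟨(q_86932d8223.mono (by norm_num)),
    (List.forall_mem_cons.2 ⟨(q_c5c6fbab35.mono (by norm_num)),
    (List.forall_mem_cons.2 ⟨(q_846b212285.mono (by norm_num)),
    (List.forall_mem_nil _)⟩)⟩)⟩)⟩)⟩)

theorem q_efebf4a971 : PosP 516 [431, 463, 466, 495, 496, 559] [399, 434, 465, 498, 527, 530] :=
  pos_of_cert (F := 266) (by norm_num) p_efebf4a971 (List.forall_mem_nil _)

theorem q_dde9649d4e : PosP 766 [431, 463, 495, 496, 559] [399, 434, 498, 527, 530] :=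
  pos_of_cert (F := 516) (by norm_num) p_dde9649d4e (List.forall_mem_cons.2 ⟨(q_efebf4a971.mono (by norm_num)),
    (List.forall_mem_nil _)⟩)

theorem q_cf1ccdaac7 : PosP 516 [431, 463, 464, 495] [434, 465, 527, 530] :=
  pos_of_cert (F := 266) (by norm_num) p_cf1ccdaac7 (List.forall_mem_nil _)

theorem q_80c41c63e3 : PosP 516 [431, 463, 464, 495] [434, 466, 527, 530] :=
  pos_of_cert (F := 266) (by norm_num) p_80c41c63e3 (List.forall_mem_nil _)

theorem q_dc74c5f522 : PosP 516 [431, 463, 464, 495] [434, 498, 527, 530] :=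
  pos_of_cert (F := 266) (by norm_num) p_dc74c5f522 (List.forall_mem_nil _)

theorem q_6327b37aa4 : PosP 766 [431, 463, 495] [434, 527, 530] :=
  pos_of_cert (F := 516) (by norm_num) p_6327b37aa4 (List.forall_mem_cons.2 ⟨(q_cf1ccdaac7.mono (by norm_num)),
    (List.forall_mem_cons.2 ⟨(q_80c41c63e3.mono (by norm_num)),
    (List.forall_mem_cons.2 ⟨(q_dc74c5f522.mono (by norm_num)),
    (List.forall_mem_nil _)⟩)⟩)⟩)

theorem q_a531552d1a : PosP 1016 [463, 495] [434, 530] :=
  pos_of_cert (F := 766) (by norm_num) p_a531552d1a (List.forall_mem_cons.2 ⟨(q_dde9649d4e.mono (by norm_num)),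
    (List.forall_mem_cons.2 ⟨(q_6327b37aa4.mono (by norm_num)),
    (List.forall_mem_nil _)⟩)⟩)

theorem q_e7f117197a : PosP 516 [495, 526] [369, 497] :=
  pos_of_cert (F := 266) (by norm_num) p_e7f117197a (List.forall_mem_nil _)

theorem q_30ef86441a : PosP 516 [433, 464, 466, 495] [497, 498, 526, 529] :=
  pos_of_cert (F := 266) (by norm_num) p_30ef86441a (List.forall_mem_nil _)

theorem q_48334e5682 : PosP 516 [433, 464, 466, 495] [497, 526, 527, 529] :=
  pos_of_cert (F := 266) (by norm_num) p_48334e5682 (List.forall_mem_nil _)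

theorem q_2a3d0a6076 : PosP 516 [433, 464, 466, 495] [497, 526, 528, 529] :=
  pos_of_cert (F := 266) (by norm_num) p_2a3d0a6076 (List.forall_mem_nil _)

theorem q_072bcd5a73 : PosP 766 [433, 464, 495] [497, 526, 529] :=
  pos_of_cert (F := 516) (by norm_num) p_072bcd5a73 (List.forall_mem_cons.2 ⟨(q_30ef86441a.mono (by norm_num)),
    (List.forall_mem_cons.2 ⟨(q_48334e5682.mono (by norm_num)),
    (List.forall_mem_cons.2 ⟨(q_2a3d0a6076.mono (by norm_num)),
    (List.forall_mem_nil _)⟩)⟩)⟩)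

theorem q_fa6ab0685a : PosP 1016 [464, 495] [497, 529] :=
  pos_of_cert (F := 766) (by norm_num) p_fa6ab0685a (List.forall_mem_cons.2 ⟨(q_072bcd5a73.mono (by norm_num)),
    (List.forall_mem_nil _)⟩)

theorem q_e8ecd90509 : PosP 516 [495, 526, 557, 590] [464, 496, 498, 560] :=
  pos_of_cert (F := 266) (by norm_num) p_e8ecd90509 (List.forall_mem_nil _)

theorem q_6181b76d44 : PosP 516 [495, 526, 557, 590] [464, 498, 528, 560] :=
  pos_of_cert (F := 266) (by norm_num) p_6181b76d44 (List.forall_mem_nil _)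

theorem q_d443adbf95 : PosP 766 [495, 526, 557] [464, 498, 560] :=
  pos_of_cert (F := 516) (by norm_num) p_d443adbf95 (List.forall_mem_cons.2 ⟨(q_e8ecd90509.mono (by norm_num)),
    (List.forall_mem_cons.2 ⟨(q_6181b76d44.mono (by norm_num)),
    (List.forall_mem_nil _)⟩)⟩)

theorem q_ac5818b639 : PosP 1016 [495, 526] [498, 560] :=
  pos_of_cert (F := 766) (by norm_num) p_ac5818b639 (List.forall_mem_cons.2 ⟨(q_d443adbf95.mono (by norm_num)),
    (List.forall_mem_nil _)⟩)

theorem q_9bbe038c69 : PosP 516 [464, 495, 497, 526, 557] [431, 433, 529, 588, 628] :=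
  pos_of_cert (F := 266) (by norm_num) p_9bbe038c69 (List.forall_mem_nil _)

theorem q_04b16535fd : PosP 516 [464, 495, 497, 526, 557] [433, 496, 529, 588, 628] :=
  pos_of_cert (F := 266) (by norm_num) p_04b16535fd (List.forall_mem_nil _)

theorem q_a4e38fc819 : PosP 516 [464, 495, 497, 526, 557] [433, 528, 529, 588, 628] :=
  pos_of_cert (F := 266) (by norm_num) p_a4e38fc819 (List.forall_mem_nil _)

theorem q_977c3b7c2c : PosP 766 [464, 495, 526, 557] [433, 529, 588, 628] :=
  pos_of_cert (F := 516) (by norm_num) p_977c3b7c2c (List.forall_mem_cons.2 ⟨(q_9bbe038c69.mono (by norm_num)),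
    (List.forall_mem_cons.2 ⟨(q_04b16535fd.mono (by norm_num)),
    (List.forall_mem_cons.2 ⟨(q_a4e38fc819.mono (by norm_num)),
    (List.forall_mem_nil _)⟩)⟩)⟩)

theorem q_c4be88e653 : PosP 1016 [464, 495] [529, 628] :=
  pos_of_cert (F := 766) (by norm_num) p_c4be88e653 (List.forall_mem_cons.2 ⟨(q_977c3b7c2c.mono (by norm_num)),
    (List.forall_mem_nil _)⟩)

theorem q_b5ac62652e : PosP 516 [463, 464, 495] [466, 530, 562] :=
  pos_of_cert (F := 266) (by norm_num) p_b5ac62652e (List.forall_mem_nil _)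

theorem q_7d08bab003 : PosP 516 [463, 464, 495] [530, 562, 594] :=
  pos_of_cert (F := 266) (by norm_num) p_7d08bab003 (List.forall_mem_nil _)

theorem q_051fc512cd : PosP 516 [463, 464, 495] [530, 562, 626] :=
  pos_of_cert (F := 266) (by norm_num) p_051fc512cd (List.forall_mem_nil _)

theorem q_fd57fc565a : PosP 766 [463, 495] [530, 562] :=
  pos_of_cert (F := 516) (by norm_num) p_fd57fc565a (List.forall_mem_cons.2 ⟨(q_b5ac62652e.mono (by norm_num)),
    (List.forall_mem_cons.2 ⟨(q_7d08bab003.mono (by norm_num)),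
    (List.forall_mem_cons.2 ⟨(q_051fc512cd.mono (by norm_num)),
    (List.forall_mem_nil _)⟩)⟩)⟩)

theorem q_f9dfa0c130 : PosP 516 [462, 495, 528] [500, 503, 561] :=
  pos_of_cert (F := 266) (by norm_num) p_f9dfa0c130 (List.forall_mem_nil _)

theorem q_5d2bf74adf : PosP 766 [495, 528] [500, 503] :=
  pos_of_cert (F := 516) (by norm_num) p_5d2bf74adf (List.forall_mem_cons.2 ⟨(q_f9dfa0c130.mono (by norm_num)),
    (List.forall_mem_nil _)⟩)

theorem q_75c24cb5c2 : PosP 516 [464, 495, 526, 527] [433, 529, 595, 628] :=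
  pos_of_cert (F := 266) (by norm_num) p_75c24cb5c2 (List.forall_mem_nil _)

theorem q_d0ddb6c13f : PosP 516 [464, 495, 526, 527] [433, 595, 628, 661] :=
  pos_of_cert (F := 266) (by norm_num) p_d0ddb6c13f (List.forall_mem_nil _)

theorem q_6541156242 : PosP 516 [464, 495, 526] [557, 595, 628] :=
  pos_of_cert (F := 266) (by norm_num) p_6541156242 (List.forall_mem_nil _)

theorem q_ba7bb2087c : PosP 766 [495, 526] [595, 628] :=
  pos_of_cert (F := 516) (by norm_num) p_ba7bb2087c (List.forall_mem_cons.2 ⟨(q_75c24cb5c2.mono (by norm_num)),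
    (List.forall_mem_cons.2 ⟨(q_d0ddb6c13f.mono (by norm_num)),
    (List.forall_mem_cons.2 ⟨(q_6541156242.mono (by norm_num)),
    (List.forall_mem_nil _)⟩)⟩)⟩)

theorem q_a3afd6a76d : PosP 516 [464, 495] [432, 531] :=
  pos_of_cert (F := 266) (by norm_num) p_a3afd6a76d (List.forall_mem_nil _)

theorem q_3177a66950 : PosP 516 [431, 495, 496, 528] [464, 497, 529, 660] :=
  pos_of_cert (F := 266) (by norm_num) p_3177a66950 (List.forall_mem_nil _)

theorem q_c594127113 : PosP 766 [495, 496, 528] [464, 497, 660] :=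
  pos_of_cert (F := 516) (by norm_num) p_c594127113 (List.forall_mem_cons.2 ⟨(q_3177a66950.mono (by norm_num)),
    (List.forall_mem_nil _)⟩)

theorem q_1dd3d7733e : PosP 516 [495, 496, 528] [497, 560, 660] :=
  pos_of_cert (F := 266) (by norm_num) p_1dd3d7733e (List.forall_mem_nil _)

theorem q_6bd33ae939 : PosP 1016 [495, 496] [497, 660] :=
  pos_of_cert (F := 766) (by norm_num) p_6bd33ae939 (List.forall_mem_cons.2 ⟨(q_c594127113.mono (by norm_num)),
    (List.forall_mem_cons.2 ⟨(q_1dd3d7733e.mono (by norm_num)),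
    (List.forall_mem_nil _)⟩)⟩)

theorem q_770654f239 : PosP 516 [495, 496, 525, 527, 558] [463, 464, 465, 494, 627] :=
  pos_of_cert (F := 266) (by norm_num) p_770654f239 (List.forall_mem_nil _)

theorem q_c2d4642909 : PosP 766 [495, 496, 527, 558] [463, 465, 494, 627] :=
  pos_of_cert (F := 516) (by norm_num) p_c2d4642909 (List.forall_mem_cons.2 ⟨(q_770654f239.mono (by norm_num)),
    (List.forall_mem_nil _)⟩)

theorem q_2320877b17 : PosP 1016 [495, 496, 527] [463, 494, 627] :=
  pos_of_cert (F := 766) (by norm_num) p_2320877b17 (List.forall_mem_cons.2 ⟨(q_c2d4642909.mono (by norm_num)),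
    (List.forall_mem_nil _)⟩)

theorem q_40a89aa359 : PosP 1266 [495, 496] [494, 627] :=
  pos_of_cert (F := 1016) (by norm_num) p_40a89aa359 (List.forall_mem_cons.2 ⟨(q_2320877b17.mono (by norm_num)),
    (List.forall_mem_nil _)⟩)

theorem q_185854516d : PosP 516 [433, 464, 465, 495] [526, 528, 529, 531] :=
  pos_of_cert (F := 266) (by norm_num) p_185854516d (List.forall_mem_nil _)

theorem q_f6322d1920 : PosP 766 [433, 464, 495] [526, 528, 531] :=
  pos_of_cert (F := 516) (by norm_num) p_f6322d1920 (List.forall_mem_cons.2 ⟨(q_185854516d.mono (by norm_num)),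
    (List.forall_mem_nil _)⟩)

theorem q_6ebca5b28b : PosP 1016 [464, 495] [528, 531] :=
  pos_of_cert (F := 766) (by norm_num) p_6ebca5b28b (List.forall_mem_cons.2 ⟨(q_f6322d1920.mono (by norm_num)),
    (List.forall_mem_nil _)⟩)

theorem q_0809cab265 : PosP 516 [464, 495] [522, 528] :=
  pos_of_cert (F := 266) (by norm_num) p_0809cab265 (List.forall_mem_nil _)

theorem q_9f5ec76b5b : PosP 516 [464, 494, 495] [432, 433, 528] :=
  pos_of_cert (F := 266) (by norm_num) p_9f5ec76b5b (List.forall_mem_nil _)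

theorem q_1fc827bc92 : PosP 516 [464, 465, 495, 530] [496, 526, 528, 529] :=
  pos_of_cert (F := 266) (by norm_num) p_1fc827bc92 (List.forall_mem_nil _)

theorem q_78e7edc1c3 : PosP 516 [464, 493, 495, 526, 557] [432, 433, 434, 528, 588] :=
  pos_of_cert (F := 266) (by norm_num) p_78e7edc1c3 (List.forall_mem_nil _)

theorem q_36268a3bf9 : PosP 516 [432, 464, 493, 495, 526, 557] [433, 434, 435, 436, 528, 588] :=
  pos_of_cert (F := 266) (by norm_num) p_36268a3bf9 (List.forall_mem_nil _)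

theorem q_57a8cb7c95 : PosP 516 [432, 464, 493, 495, 526, 557] [433, 434, 435, 437, 528, 588] :=
  pos_of_cert (F := 266) (by norm_num) p_57a8cb7c95 (List.forall_mem_nil _)

theorem q_9d8512b636 : PosP 516 [432, 464, 493, 495, 526, 557] [433, 434, 435, 466, 528, 588] :=
  pos_of_cert (F := 266) (by norm_num) p_9d8512b636 (List.forall_mem_nil _)

theorem q_0d40fd04f8 : PosP 516 [432, 464, 493, 495, 526, 557] [433, 434, 435, 497, 528, 588] :=
  pos_of_cert (F := 266) (by norm_num) p_0d40fd04f8 (List.forall_mem_nil _)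

theorem q_4fdd4b8cff : PosP 766 [464, 493, 495, 526, 557] [433, 434, 435, 528, 588] :=
  pos_of_cert (F := 516) (by norm_num) p_4fdd4b8cff (List.forall_mem_cons.2 ⟨(q_36268a3bf9.mono (by norm_num)),
    (List.forall_mem_cons.2 ⟨(q_57a8cb7c95.mono (by norm_num)),
    (List.forall_mem_cons.2 ⟨(q_9d8512b636.mono (by norm_num)),
    (List.forall_mem_cons.2 ⟨(q_0d40fd04f8.mono (by norm_num)),
    (List.forall_mem_nil _)⟩)⟩)⟩)⟩)

theorem q_106ef056cd : PosP 1016 [464, 495, 526, 557] [433, 434, 528, 588] :=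
  pos_of_cert (F := 766) (by norm_num) p_106ef056cd (List.forall_mem_cons.2 ⟨(q_78e7edc1c3.mono (by norm_num)),
    (List.forall_mem_cons.2 ⟨(q_4fdd4b8cff.mono (by norm_num)),
    (List.forall_mem_nil _)⟩)⟩)

theorem q_6bd2bd17b2 : PosP 1266 [464, 495] [434, 528] :=
  pos_of_cert (F := 1016) (by norm_num) p_6bd2bd17b2 (List.forall_mem_cons.2 ⟨(q_106ef056cd.mono (by norm_num)),
    (List.forall_mem_nil _)⟩)

theorem q_3ab50c2320 : PosP 516 [433, 464, 495] [402, 466, 563] :=
  pos_of_cert (F := 266) (by norm_num) p_3ab50c2320 (List.forall_mem_nil _)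

theorem q_de2a53dcb1 : PosP 766 [464, 495] [466, 563] :=
  pos_of_cert (F := 516) (by norm_num) p_de2a53dcb1 (List.forall_mem_cons.2 ⟨(q_3ab50c2320.mono (by norm_num)),
    (List.forall_mem_nil _)⟩)

theorem q_2ac4346dd1 : PosP 516 [403, 466, 495, 528, 557, 558, 559] [434, 462, 465, 496, 497, 527, 560] :=
  pos_of_cert (F := 266) (by norm_num) p_2ac4346dd1 (List.forall_mem_nil _)

theorem q_88c52706c7 : PosP 516 [466, 495, 528, 556, 557, 558, 559] [462, 465, 496, 497, 527, 555, 560] :=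
  pos_of_cert (F := 266) (by norm_num) p_88c52706c7 (List.forall_mem_nil _)

theorem q_92d562d7a7 : PosP 516 [433, 434, 466, 495, 528, 558, 559] [432, 462, 464, 465, 496, 527, 590] :=
  pos_of_cert (F := 266) (by norm_num) p_92d562d7a7 (List.forall_mem_nil _)

theorem q_edbf5e934d : PosP 516 [433, 434, 466, 495, 528, 558, 559] [462, 464, 465, 496, 497, 527, 590] :=
  pos_of_cert (F := 266) (by norm_num) p_edbf5e934d (List.forall_mem_nil _)

theorem q_ccc72c6f5a : PosP 766 [433, 466, 495, 528, 558, 559] [462, 464, 465, 496, 527, 590] :=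
  pos_of_cert (F := 516) (by norm_num) p_ccc72c6f5a (List.forall_mem_cons.2 ⟨(q_92d562d7a7.mono (by norm_num)),
    (List.forall_mem_cons.2 ⟨(q_edbf5e934d.mono (by norm_num)),
    (List.forall_mem_nil _)⟩)⟩)

theorem q_3708344b85 : PosP 516 [370, 402, 432, 433, 434, 464, 466, 495, 528, 558, 559] [338, 371, 435, 462, 465, 496, 498, 499, 526, 527, 590] :=
  pos_of_cert (F := 266) (by norm_num) p_3708344b85 (List.forall_mem_nil _)

theorem q_9622649efa : PosP 1016 [466, 495, 528, 558, 559] [462, 465, 496, 527, 590] :=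
  pos_of_cert (F := 766) (by norm_num) p_9622649efa (List.forall_mem_cons.2 ⟨(q_ccc72c6f5a.mono (by norm_num)),
    (List.forall_mem_cons.2 ⟨(q_3708344b85.mono (by norm_num)),
    (List.forall_mem_nil _)⟩)⟩)

theorem q_a6c37a4461 : PosP 1266 [466, 495, 528, 558] [462, 465, 496, 527] :=
  pos_of_cert (F := 1016) (by norm_num) p_a6c37a4461 (List.forall_mem_cons.2 ⟨(q_2ac4346dd1.mono (by norm_num)),
    (List.forall_mem_cons.2 ⟨(q_88c52706c7.mono (by norm_num)),
    (List.forall_mem_cons.2 ⟨(q_9622649efa.mono (by norm_num)),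
    (List.forall_mem_nil _)⟩)⟩)⟩)

theorem q_ab0664d91e : PosP 516 [464, 495, 528] [594, 627, 660] :=
  pos_of_cert (F := 266) (by norm_num) p_ab0664d91e (List.forall_mem_nil _)

theorem q_3ff6fda639 : PosP 516 [464, 495, 528] [594, 627, 693] :=
  pos_of_cert (F := 266) (by norm_num) p_3ff6fda639 (List.forall_mem_nil _)

theorem q_0af87bbe9e : PosP 766 [464, 495] [594, 627] :=
  pos_of_cert (F := 516) (by norm_num) p_0af87bbe9e (List.forall_mem_cons.2 ⟨(q_ab0664d91e.mono (by norm_num)),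
    (List.forall_mem_cons.2 ⟨(q_3ff6fda639.mono (by norm_num)),
    (List.forall_mem_nil _)⟩)⟩)

theorem q_3aef4c7f89 : PosP 516 [463, 495, 527] [431, 530, 533] :=
  pos_of_cert (F := 266) (by norm_num) p_3aef4c7f89 (List.forall_mem_nil _)

theorem q_40df8a6e9a : PosP 766 [463, 495] [530, 533] :=
  pos_of_cert (F := 516) (by norm_num) p_40df8a6e9a (List.forall_mem_cons.2 ⟨(q_3aef4c7f89.mono (by norm_num)),
    (List.forall_mem_nil _)⟩)

theorem q_976fd892f0 : PosP 516 [462, 463, 495, 528, 560] [461, 496, 558, 559, 561] :=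
  pos_of_cert (F := 266) (by norm_num) p_976fd892f0 (List.forall_mem_nil _)

theorem q_1dd86a70f7 : PosP 516 [429, 431, 462, 463, 465, 495, 528, 560] [396, 464, 496, 527, 558, 559, 561, 589] :=
  pos_of_cert (F := 266) (by norm_num) p_1dd86a70f7 (List.forall_mem_nil _)

theorem q_adc73a490b : PosP 516 [429, 431, 462, 463, 465, 495, 528, 560] [396, 464, 496, 527, 558, 559, 561, 620] :=
  pos_of_cert (F := 266) (by norm_num) p_adc73a490b (List.forall_mem_nil _)

theorem q_65093a45b5 : PosP 766 [462, 463, 495, 528, 560] [464, 496, 558, 559, 561] :=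
  pos_of_cert (F := 516) (by norm_num) p_65093a45b5 (List.forall_mem_cons.2 ⟨(q_1dd86a70f7.mono (by norm_num)),
    (List.forall_mem_cons.2 ⟨(q_adc73a490b.mono (by norm_num)),
    (List.forall_mem_nil _)⟩)⟩)

theorem q_4211f840fa : PosP 516 [462, 463, 495, 528, 560] [465, 496, 558, 559, 561] :=
  pos_of_cert (F := 266) (by norm_num) p_4211f840fa (List.forall_mem_nil _)

theorem q_7d6201c460 : PosP 766 [462, 463, 495, 528, 560] [496, 527, 558, 559, 561] :=
  pos_of_cert (F := 516) (by norm_num) p_7d6201c460 (List.forall_mem_cons.2 ⟨(q_1dd86a70f7.mono (by norm_num)),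
    (List.forall_mem_cons.2 ⟨(q_adc73a490b.mono (by norm_num)),
    (List.forall_mem_nil _)⟩)⟩)

theorem q_f8abeac268 : PosP 1016 [462, 463, 495, 528] [496, 558, 559, 561] :=
  pos_of_cert (F := 766) (by norm_num) p_f8abeac268 (List.forall_mem_cons.2 ⟨(q_976fd892f0.mono (by norm_num)),
    (List.forall_mem_cons.2 ⟨(q_65093a45b5.mono (by norm_num)),
    (List.forall_mem_cons.2 ⟨(q_4211f840fa.mono (by norm_num)),
    (List.forall_mem_cons.2 ⟨(q_7d6201c460.mono (by norm_num)),
    (List.forall_mem_nil _)⟩)⟩)⟩)⟩)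

theorem q_1ef0c864ae : PosP 516 [429, 462, 463, 495, 528] [396, 496, 559, 560, 561] :=
  pos_of_cert (F := 266) (by norm_num) p_1ef0c864ae (List.forall_mem_nil _)

theorem q_22d08e86aa : PosP 516 [462, 463, 495, 528] [496, 559, 561, 562] :=
  pos_of_cert (F := 266) (by norm_num) p_22d08e86aa (List.forall_mem_nil _)

theorem q_c6808586f2 : PosP 1266 [463, 495, 528] [496, 559, 561] :=
  pos_of_cert (F := 1016) (by norm_num) p_c6808586f2 (List.forall_mem_cons.2 ⟨(q_f8abeac268.mono (by norm_num)),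
    (List.forall_mem_cons.2 ⟨(q_1ef0c864ae.mono (by norm_num)),
    (List.forall_mem_cons.2 ⟨(q_22d08e86aa.mono (by norm_num)),
    (List.forall_mem_nil _)⟩)⟩)⟩)

theorem q_769e090596 : PosP 516 [462, 463, 495, 528, 560] [496, 561, 562, 563, 564] :=
  pos_of_cert (F := 266) (by norm_num) p_769e090596 (List.forall_mem_nil _)

theorem q_9c180614a6 : PosP 516 [462, 463, 495, 528, 560] [496, 561, 562, 563, 565] :=
  pos_of_cert (F := 266) (by norm_num) p_9c180614a6 (List.forall_mem_nil _)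

theorem q_348bb1e646 : PosP 766 [462, 463, 495, 528] [496, 561, 562, 563] :=
  pos_of_cert (F := 516) (by norm_num) p_348bb1e646 (List.forall_mem_cons.2 ⟨(q_769e090596.mono (by norm_num)),
    (List.forall_mem_cons.2 ⟨(q_9c180614a6.mono (by norm_num)),
    (List.forall_mem_nil _)⟩)⟩)

theorem q_bc05563bfd : PosP 516 [462, 463, 495, 528] [496, 561, 562, 564] :=
  pos_of_cert (F := 266) (by norm_num) p_bc05563bfd (List.forall_mem_nil _)

theorem q_2eb343fba1 : PosP 1016 [462, 495, 528] [496, 561, 562] :=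
  pos_of_cert (F := 766) (by norm_num) p_2eb343fba1 (List.forall_mem_cons.2 ⟨(q_22d08e86aa.mono (by norm_num)),
    (List.forall_mem_cons.2 ⟨(q_348bb1e646.mono (by norm_num)),
    (List.forall_mem_cons.2 ⟨(q_bc05563bfd.mono (by norm_num)),
    (List.forall_mem_nil _)⟩)⟩)⟩)

theorem q_31fecb0875 : PosP 1266 [495, 528] [496, 562] :=
  pos_of_cert (F := 1016) (by norm_num) p_31fecb0875 (List.forall_mem_cons.2 ⟨(q_2eb343fba1.mono (by norm_num)),
    (List.forall_mem_nil _)⟩)

theorem q_356c850156 : PosP 516 [463, 464, 465, 466, 494, 495, 528, 557] [462, 467, 496, 526, 527, 558, 559, 561] :=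
  pos_of_cert (F := 266) (by norm_num) p_356c850156 (List.forall_mem_nil _)

theorem q_b9da8ca260 : PosP 766 [463, 464, 465, 494, 495, 528] [462, 496, 527, 558, 559, 561] :=
  pos_of_cert (F := 516) (by norm_num) p_b9da8ca260 (List.forall_mem_cons.2 ⟨(q_356c850156.mono (by norm_num)),
    (List.forall_mem_nil _)⟩)

theorem q_2028e9f89e : PosP 516 [463, 464, 465, 494, 495, 528] [462, 496, 527, 558, 561, 589] :=
  pos_of_cert (F := 266) (by norm_num) p_2028e9f89e (List.forall_mem_nil _)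

theorem q_4696f3b009 : PosP 516 [463, 464, 465, 494, 495, 528] [462, 496, 527, 558, 561, 620] :=
  pos_of_cert (F := 266) (by norm_num) p_4696f3b009 (List.forall_mem_nil _)

theorem q_9ffb5235a7 : PosP 1016 [463, 464, 465, 495, 528] [462, 496, 527, 558, 561] :=
  pos_of_cert (F := 766) (by norm_num) p_9ffb5235a7 (List.forall_mem_cons.2 ⟨(q_b9da8ca260.mono (by norm_num)),
    (List.forall_mem_cons.2 ⟨(q_2028e9f89e.mono (by norm_num)),
    (List.forall_mem_cons.2 ⟨(q_4696f3b009.mono (by norm_num)),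
    (List.forall_mem_nil _)⟩)⟩)⟩)

theorem q_27ff98dc0c : PosP 516 [463, 464, 465, 495, 528] [496, 527, 558, 561, 589] :=
  pos_of_cert (F := 266) (by norm_num) p_27ff98dc0c (List.forall_mem_nil _)

theorem q_d84959a4d9 : PosP 516 [463, 464, 465, 495, 528] [496, 527, 558, 561, 620] :=
  pos_of_cert (F := 266) (by norm_num) p_d84959a4d9 (List.forall_mem_nil _)

theorem q_113803b5a5 : PosP 1266 [463, 465, 495, 528] [496, 527, 558, 561] :=
  pos_of_cert (F := 1016) (by norm_num) p_113803b5a5 (List.forall_mem_cons.2 ⟨(q_9ffb5235a7.mono (by norm_num)),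
    (List.forall_mem_cons.2 ⟨(q_27ff98dc0c.mono (by norm_num)),
    (List.forall_mem_cons.2 ⟨(q_d84959a4d9.mono (by norm_num)),
    (List.forall_mem_nil _)⟩)⟩)⟩)

theorem q_2b9c9252d4 : PosP 516 [495, 497, 528, 529] [460, 461, 462, 496] :=
  pos_of_cert (F := 266) (by norm_num) p_2b9c9252d4 (List.forall_mem_nil _)

theorem q_b5559460cd : PosP 516 [464, 495, 497, 528, 529] [460, 461, 462, 463, 496] :=
  pos_of_cert (F := 266) (by norm_num) p_b5559460cd (List.forall_mem_nil _)

theorem q_c9957b5626 : PosP 766 [495, 497, 528, 529] [460, 462, 463, 496] :=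
  pos_of_cert (F := 516) (by norm_num) p_c9957b5626 (List.forall_mem_cons.2 ⟨(q_b5559460cd.mono (by norm_num)),
    (List.forall_mem_nil _)⟩)

theorem q_24b0eb77bb : PosP 1016 [495, 528, 529] [460, 462, 496] :=
  pos_of_cert (F := 766) (by norm_num) p_24b0eb77bb (List.forall_mem_cons.2 ⟨(q_2b9c9252d4.mono (by norm_num)),
    (List.forall_mem_cons.2 ⟨(q_c9957b5626.mono (by norm_num)),
    (List.forall_mem_nil _)⟩)⟩)

theorem q_45e285b97e : PosP 516 [465, 495, 528, 529] [462, 496, 527, 590] :=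
  pos_of_cert (F := 266) (by norm_num) p_45e285b97e (List.forall_mem_nil _)

theorem q_a41f77bb0d : PosP 516 [465, 495, 528, 529] [434, 462, 496, 527] :=
  pos_of_cert (F := 266) (by norm_num) p_a41f77bb0d (List.forall_mem_nil _)

theorem q_9600bf4a7f : PosP 516 [464, 495, 526, 557, 559] [433, 494, 525, 528, 588] :=
  pos_of_cert (F := 266) (by norm_num) p_9600bf4a7f (List.forall_mem_nil _)

theorem q_f2fdaf7095 : PosP 516 [464, 495, 526, 557, 559, 592, 623] [433, 494, 524, 527, 528, 588, 625] :=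
  pos_of_cert (F := 266) (by norm_num) p_f2fdaf7095 (List.forall_mem_nil _)

theorem q_dc1c2f2d27 : PosP 516 [464, 495, 526, 557, 559, 592, 623] [433, 494, 527, 528, 560, 588, 625] :=
  pos_of_cert (F := 266) (by norm_num) p_dc1c2f2d27 (List.forall_mem_nil _)

theorem q_0a0eef12ab : PosP 516 [461, 464, 492, 493, 495, 523, 526, 530, 556, 557, 559, 589, 591, 592, 623, 654, 655] [433, 460, 490, 494, 525, 527, 528, 554, 558, 561, 588, 590, 621, 622, 625, 685, 687] :=
  pos_of_cert (F := 266) (by norm_num) p_0a0eef12ab (List.forall_mem_nil _)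

theorem q_a016a4f44b : PosP 516 [464, 495, 526, 557, 559, 592, 623] [433, 494, 527, 528, 588, 593, 625] :=
  pos_of_cert (F := 266) (by norm_num) p_a016a4f44b (List.forall_mem_nil _)

theorem q_886a8a2c20 : PosP 766 [464, 495, 526, 557, 559, 592] [433, 494, 527, 528, 588, 625] :=
  pos_of_cert (F := 516) (by norm_num) p_886a8a2c20 (List.forall_mem_cons.2 ⟨(q_f2fdaf7095.mono (by norm_num)),
    (List.forall_mem_cons.2 ⟨(q_dc1c2f2d27.mono (by norm_num)),
    (List.forall_mem_cons.2 ⟨(q_0a0eef12ab.mono (by norm_num)),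
    (List.forall_mem_cons.2 ⟨(q_a016a4f44b.mono (by norm_num)),
    (List.forall_mem_nil _)⟩)⟩)⟩)⟩)

theorem q_c34cbb104a : PosP 1016 [464, 495, 526, 557, 559] [433, 494, 527, 528, 588] :=
  pos_of_cert (F := 766) (by norm_num) p_c34cbb104a (List.forall_mem_cons.2 ⟨(q_886a8a2c20.mono (by norm_num)),
    (List.forall_mem_nil _)⟩)

theorem q_33f03ff194 : PosP 516 [464, 495, 526, 557, 559] [433, 494, 528, 588, 591] :=
  pos_of_cert (F := 266) (by norm_num) p_33f03ff194 (List.forall_mem_nil _)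

theorem q_eaec0a4e6d : PosP 516 [461, 463, 464, 493, 495, 496, 526, 557, 559] [433, 462, 494, 525, 527, 528, 560, 588, 592] :=
  pos_of_cert (F := 266) (by norm_num) p_eaec0a4e6d (List.forall_mem_nil _)

theorem q_7732ee1da1 : PosP 516 [461, 463, 464, 493, 495, 496, 526, 557, 559] [433, 494, 525, 527, 528, 560, 588, 592, 593] :=
  pos_of_cert (F := 266) (by norm_num) p_7732ee1da1 (List.forall_mem_nil _)

theorem q_ed5e7494df : PosP 516 [461, 463, 464, 493, 495, 496, 526, 557, 559, 656] [433, 462, 494, 525, 527, 528, 560, 588, 592, 624] :=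
  pos_of_cert (F := 266) (by norm_num) p_ed5e7494df (List.forall_mem_nil _)

theorem q_0deacf2658 : PosP 766 [461, 463, 464, 493, 495, 496, 526, 557, 559] [433, 494, 525, 527, 528, 560, 588, 592, 624] :=
  pos_of_cert (F := 516) (by norm_num) p_0deacf2658 (List.forall_mem_cons.2 ⟨(q_ed5e7494df.mono (by norm_num)),
    (List.forall_mem_nil _)⟩)

theorem q_c857cec43d : PosP 516 [461, 463, 464, 493, 495, 496, 526, 557, 559] [433, 494, 525, 527, 528, 560, 588, 592, 656] :=
  pos_of_cert (F := 266) (by norm_num) p_c857cec43d (List.forall_mem_nil _)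

theorem q_1ee66779d9 : PosP 1016 [464, 493, 495, 496, 526, 557, 559] [433, 494, 525, 528, 560, 588, 592] :=
  pos_of_cert (F := 766) (by norm_num) p_1ee66779d9 (List.forall_mem_cons.2 ⟨(q_eaec0a4e6d.mono (by norm_num)),
    (List.forall_mem_cons.2 ⟨(q_7732ee1da1.mono (by norm_num)),
    (List.forall_mem_cons.2 ⟨(q_0deacf2658.mono (by norm_num)),
    (List.forall_mem_cons.2 ⟨(q_c857cec43d.mono (by norm_num)),
    (List.forall_mem_cons.2 ⟨(q_ed5e7494df.mono (by norm_num)),
    (List.forall_mem_nil _)⟩)⟩)⟩)⟩)⟩)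

theorem q_b5ea214cb1 : PosP 1016 [461, 464, 493, 495, 496, 526, 557, 559] [433, 494, 525, 527, 528, 560, 588, 592] :=
  pos_of_cert (F := 766) (by norm_num) p_b5ea214cb1 (List.forall_mem_cons.2 ⟨(q_eaec0a4e6d.mono (by norm_num)),
    (List.forall_mem_cons.2 ⟨(q_7732ee1da1.mono (by norm_num)),
    (List.forall_mem_cons.2 ⟨(q_0deacf2658.mono (by norm_num)),
    (List.forall_mem_cons.2 ⟨(q_c857cec43d.mono (by norm_num)),
    (List.forall_mem_nil _)⟩)⟩)⟩)⟩)

theorem q_46fd244c5a : PosP 516 [461, 464, 493, 495, 496, 526, 557, 559, 656] [433, 494, 525, 527, 528, 560, 588, 592, 624] :=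
  pos_of_cert (F := 266) (by norm_num) p_46fd244c5a (List.forall_mem_nil _)

theorem q_bba5cabbe8 : PosP 766 [461, 464, 493, 495, 496, 526, 557, 559] [433, 494, 527, 528, 560, 588, 592, 624] :=
  pos_of_cert (F := 516) (by norm_num) p_bba5cabbe8 (List.forall_mem_cons.2 ⟨(q_46fd244c5a.mono (by norm_num)),
    (List.forall_mem_nil _)⟩)

theorem q_f56c7de6cf : PosP 1266 [464, 493, 495, 496, 526, 557, 559] [433, 494, 527, 528, 560, 588, 592] :=
  pos_of_cert (F := 1016) (by norm_num) p_f56c7de6cf (List.forall_mem_cons.2 ⟨(q_b5ea214cb1.mono (by norm_num)),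
    (List.forall_mem_cons.2 ⟨(q_bba5cabbe8.mono (by norm_num)),
    (List.forall_mem_nil _)⟩)⟩)

theorem q_f7c2e4927e : PosP 516 [464, 493, 495, 496, 526, 557, 559] [433, 494, 528, 560, 588, 591, 592] :=
  pos_of_cert (F := 266) (by norm_num) p_f7c2e4927e (List.forall_mem_nil _)

theorem q_ae6a9ac153 : PosP 766 [464, 493, 495, 496, 526, 557, 559] [433, 494, 528, 560, 588, 592, 624] :=
  pos_of_cert (F := 516) (by norm_num) p_ae6a9ac153 (List.forall_mem_cons.2 ⟨(q_46fd244c5a.mono (by norm_num)),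
    (List.forall_mem_nil _)⟩)

theorem q_7def250b8e : PosP 516 [464, 493, 495, 496, 526, 557, 559] [433, 494, 528, 560, 588, 592, 656] :=
  pos_of_cert (F := 266) (by norm_num) p_7def250b8e (List.forall_mem_nil _)

theorem q_b77f3f69d9 : PosP 1516 [464, 493, 495, 526, 557, 559] [433, 494, 528, 560, 588, 592] :=
  pos_of_cert (F := 1266) (by norm_num) p_b77f3f69d9 (List.forall_mem_cons.2 ⟨(q_1ee66779d9.mono (by norm_num)),
    (List.forall_mem_cons.2 ⟨(q_f56c7de6cf.mono (by norm_num)),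
    (List.forall_mem_cons.2 ⟨(q_f7c2e4927e.mono (by norm_num)),
    (List.forall_mem_cons.2 ⟨(q_ae6a9ac153.mono (by norm_num)),
    (List.forall_mem_cons.2 ⟨(q_7def250b8e.mono (by norm_num)),
    (List.forall_mem_nil _)⟩)⟩)⟩)⟩)⟩)

theorem q_cc8b4eadf3 : PosP 1766 [464, 495, 526, 557, 559] [433, 494, 528, 588, 592] :=
  pos_of_cert (F := 1516) (by norm_num) p_cc8b4eadf3 (List.forall_mem_cons.2 ⟨(q_b77f3f69d9.mono (by norm_num)),
    (List.forall_mem_nil _)⟩)

theorem q_5b9e5e3642 : PosP 2016 [464, 495, 526, 557] [433, 494, 528, 588] :=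
  pos_of_cert (F := 1766) (by norm_num) p_5b9e5e3642 (List.forall_mem_cons.2 ⟨(q_9600bf4a7f.mono (by norm_num)),
    (List.forall_mem_cons.2 ⟨(q_c34cbb104a.mono (by norm_num)),
    (List.forall_mem_cons.2 ⟨(q_33f03ff194.mono (by norm_num)),
    (List.forall_mem_cons.2 ⟨(q_cc8b4eadf3.mono (by norm_num)),
    (List.forall_mem_nil _)⟩)⟩)⟩)⟩)

theorem q_dcf09f8665 : PosP 516 [433, 464, 465, 495, 526] [402, 463, 494, 528, 557] :=
  pos_of_cert (F := 266) (by norm_num) p_dcf09f8665 (List.forall_mem_nil _)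

theorem q_8c4203ec47 : PosP 766 [433, 464, 495, 526] [402, 494, 528, 557] :=
  pos_of_cert (F := 516) (by norm_num) p_8c4203ec47 (List.forall_mem_cons.2 ⟨(q_dcf09f8665.mono (by norm_num)),
    (List.forall_mem_nil _)⟩)

theorem q_77934da7bb : PosP 2266 [464, 495] [494, 528] :=
  pos_of_cert (F := 2016) (by norm_num) p_77934da7bb (List.forall_mem_cons.2 ⟨(q_5b9e5e3642.mono (by norm_num)),
    (List.forall_mem_cons.2 ⟨(q_8c4203ec47.mono (by norm_num)),
    (List.forall_mem_nil _)⟩)⟩)

theorem q_9e06390326 : PosP 516 [495, 528, 529] [462, 496, 621] :=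
  pos_of_cert (F := 266) (by norm_num) p_9e06390326 (List.forall_mem_nil _)

theorem q_8c6bc7cced : PosP 516 [464, 495, 497, 526] [528, 557, 590, 656] :=
  pos_of_cert (F := 266) (by norm_num) p_8c6bc7cced (List.forall_mem_nil _)

theorem q_8a84531730 : PosP 516 [464, 495, 497, 526] [528, 557, 623, 656] :=
  pos_of_cert (F := 266) (by norm_num) p_8a84531730 (List.forall_mem_nil _)

theorem q_2801a1c9a9 : PosP 766 [464, 495, 526] [528, 557, 656] :=
  pos_of_cert (F := 516) (by norm_num) p_2801a1c9a9 (List.forall_mem_cons.2 ⟨(q_8c6bc7cced.mono (by norm_num)),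
    (List.forall_mem_cons.2 ⟨(q_8a84531730.mono (by norm_num)),
    (List.forall_mem_nil _)⟩)⟩)

theorem q_a9e319a897 : PosP 1016 [464, 495] [528, 656] :=
  pos_of_cert (F := 766) (by norm_num) p_a9e319a897 (List.forall_mem_cons.2 ⟨(q_2801a1c9a9.mono (by norm_num)),
    (List.forall_mem_nil _)⟩)

theorem q_c1a30d3b68 : PosP 516 [464, 495, 526, 557, 559] [433, 562, 563, 565, 588] :=
  pos_of_cert (F := 266) (by norm_num) p_c1a30d3b68 (List.forall_mem_nil _)

theorem q_092017bf8e : PosP 516 [464, 495, 496, 526] [557, 560, 562, 563] :=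
  pos_of_cert (F := 266) (by norm_num) p_092017bf8e (List.forall_mem_nil _)

theorem q_d04b0d7138 : PosP 766 [464, 495, 526] [557, 562, 563] :=
  pos_of_cert (F := 516) (by norm_num) p_d04b0d7138 (List.forall_mem_cons.2 ⟨(q_092017bf8e.mono (by norm_num)),
    (List.forall_mem_nil _)⟩)

theorem q_7b1cf25e0e : PosP 1016 [464, 495] [562, 563] :=
  pos_of_cert (F := 766) (by norm_num) p_7b1cf25e0e (List.forall_mem_cons.2 ⟨(q_a548c430cd.mono (by norm_num)),
    (List.forall_mem_cons.2 ⟨(q_c1a30d3b68.mono (by norm_num)),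
    (List.forall_mem_cons.2 ⟨(q_d04b0d7138.mono (by norm_num)),
    (List.forall_mem_nil _)⟩)⟩)⟩)

theorem q_3e5daa033f : PosP 516 [464, 495, 526] [433, 462, 529] :=
  pos_of_cert (F := 266) (by norm_num) p_3e5daa033f (List.forall_mem_nil _)

theorem q_ebb5430755 : PosP 766 [464, 495] [462, 529] :=
  pos_of_cert (F := 516) (by norm_num) p_ebb5430755 (List.forall_mem_cons.2 ⟨(q_3e5daa033f.mono (by norm_num)),
    (List.forall_mem_nil _)⟩)

theorem q_7557bffd0c : PosP 516 [495, 526] [461, 497] :=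
  pos_of_cert (F := 266) (by norm_num) p_7557bffd0c (List.forall_mem_nil _)

theorem q_4ed6748962 : PosP 516 [464, 465, 466, 495] [431, 467, 526, 528] :=
  pos_of_cert (F := 266) (by norm_num) p_4ed6748962 (List.forall_mem_nil _)

theorem q_999418e5e2 : PosP 766 [464, 465, 495] [431, 526, 528] :=
  pos_of_cert (F := 516) (by norm_num) p_999418e5e2 (List.forall_mem_cons.2 ⟨(q_4ed6748962.mono (by norm_num)),
    (List.forall_mem_nil _)⟩)

theorem q_d23d8897d3 : PosP 516 [462, 495, 528] [429, 464, 496] :=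
  pos_of_cert (F := 266) (by norm_num) p_d23d8897d3 (List.forall_mem_nil _)

theorem q_44e97093e7 : PosP 766 [495, 528] [464, 496] :=
  pos_of_cert (F := 516) (by norm_num) p_44e97093e7 (List.forall_mem_cons.2 ⟨(q_d23d8897d3.mono (by norm_num)),
    (List.forall_mem_nil _)⟩)

theorem q_73279af2da : PosP 516 [464, 494, 495] [395, 433, 528] :=
  pos_of_cert (F := 266) (by norm_num) p_73279af2da (List.forall_mem_nil _)

theorem q_c0ae6f1246 : PosP 516 [466, 495, 528] [496, 527, 620] :=
  pos_of_cert (F := 266) (by norm_num) p_c0ae6f1246 (List.forall_mem_nil _)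

theorem q_f068a17a5c : PosP 516 [464, 495, 526] [405, 498, 557] :=
  pos_of_cert (F := 266) (by norm_num) p_f068a17a5c (List.forall_mem_nil _)

theorem q_a2bab398b3 : PosP 766 [495, 526] [405, 498] :=
  pos_of_cert (F := 516) (by norm_num) p_a2bab398b3 (List.forall_mem_cons.2 ⟨(q_f068a17a5c.mono (by norm_num)),
    (List.forall_mem_nil _)⟩)

theorem q_e1fe930686 : PosP 516 [495, 526, 559] [497, 499, 501] :=
  pos_of_cert (F := 266) (by norm_num) p_e1fe930686 (List.forall_mem_nil _)

theorem q_797cdd38b4 : PosP 766 [495, 526] [497, 501] :=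
  pos_of_cert (F := 516) (by norm_num) p_797cdd38b4 (List.forall_mem_cons.2 ⟨(q_e1fe930686.mono (by norm_num)),
    (List.forall_mem_nil _)⟩)

theorem q_38bd5854b1 : PosP 516 [463, 465, 495, 528] [462, 496, 527, 561] :=
  pos_of_cert (F := 266) (by norm_num) p_38bd5854b1 (List.forall_mem_nil _)

theorem q_ef95053893 : PosP 516 [463, 464, 495, 526] [433, 465, 529, 562] :=
  pos_of_cert (F := 266) (by norm_num) p_ef95053893 (List.forall_mem_nil _)

theorem q_f3fc301c43 : PosP 516 [463, 464, 495, 526] [433, 529, 562, 595] :=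
  pos_of_cert (F := 266) (by norm_num) p_f3fc301c43 (List.forall_mem_nil _)

theorem q_9266e6829c : PosP 516 [463, 464, 495, 526, 557] [433, 529, 562, 588, 628] :=
  pos_of_cert (F := 266) (by norm_num) p_9266e6829c (List.forall_mem_nil _)

theorem q_a2322f8b64 : PosP 766 [464, 495, 526] [433, 529, 562] :=
  pos_of_cert (F := 516) (by norm_num) p_a2322f8b64 (List.forall_mem_cons.2 ⟨(q_ef95053893.mono (by norm_num)),
    (List.forall_mem_cons.2 ⟨(q_f3fc301c43.mono (by norm_num)),
    (List.forall_mem_cons.2 ⟨(q_9266e6829c.mono (by norm_num)),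
    (List.forall_mem_nil _)⟩)⟩)⟩)

theorem q_ea71dafdd0 : PosP 1016 [464, 495] [529, 562] :=
  pos_of_cert (F := 766) (by norm_num) p_ea71dafdd0 (List.forall_mem_cons.2 ⟨(q_a2322f8b64.mono (by norm_num)),
    (List.forall_mem_nil _)⟩)

theorem q_873101f81a : PosP 516 [464, 495, 526] [433, 528, 561] :=
  pos_of_cert (F := 266) (by norm_num) p_873101f81a (List.forall_mem_nil _)

theorem q_d899f36fe1 : PosP 516 [433, 464, 495, 526] [402, 528, 557, 561] :=
  pos_of_cert (F := 266) (by norm_num) p_d899f36fe1 (List.forall_mem_nil _)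

theorem q_bc48e04c70 : PosP 766 [464, 495] [528, 561] :=
  pos_of_cert (F := 516) (by norm_num) p_bc48e04c70 (List.forall_mem_cons.2 ⟨(q_873101f81a.mono (by norm_num)),
    (List.forall_mem_cons.2 ⟨(q_d899f36fe1.mono (by norm_num)),
    (List.forall_mem_nil _)⟩)⟩)

theorem q_82ff7a7108 : PosP 516 [466, 495, 528] [339, 496, 527] :=
  pos_of_cert (F := 266) (by norm_num) p_82ff7a7108 (List.forall_mem_nil _)

theorem q_09e4739fc7 : PosP 516 [431, 463, 495] [399, 497, 499] :=
  pos_of_cert (F := 266) (by norm_num) p_09e4739fc7 (List.forall_mem_nil _)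

theorem q_c92107cdba : PosP 516 [431, 462, 463, 495] [497, 499, 500, 527] :=
  pos_of_cert (F := 266) (by norm_num) p_c92107cdba (List.forall_mem_nil _)

theorem q_1ead0a3850 : PosP 766 [463, 495] [497, 499] :=
  pos_of_cert (F := 516) (by norm_num) p_1ead0a3850 (List.forall_mem_cons.2 ⟨(q_09e4739fc7.mono (by norm_num)),
    (List.forall_mem_cons.2 ⟨(q_c92107cdba.mono (by norm_num)),
    (List.forall_mem_nil _)⟩)⟩)

theorem q_66e7f07645 : PosP 516 [463, 464, 495] [400, 433, 528] :=
  pos_of_cert (F := 266) (by norm_num) p_66e7f07645 (List.forall_mem_nil _)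

theorem q_96c5d8db5e : PosP 516 [463, 464, 495] [400, 466, 528] :=
  pos_of_cert (F := 266) (by norm_num) p_96c5d8db5e (List.forall_mem_nil _)

theorem q_be4c689f84 : PosP 516 [463, 464, 495] [400, 526, 528] :=
  pos_of_cert (F := 266) (by norm_num) p_be4c689f84 (List.forall_mem_nil _)

theorem q_3108f6d03f : PosP 766 [464, 495] [400, 528] :=
  pos_of_cert (F := 516) (by norm_num) p_3108f6d03f (List.forall_mem_cons.2 ⟨(q_66e7f07645.mono (by norm_num)),
    (List.forall_mem_cons.2 ⟨(q_96c5d8db5e.mono (by norm_num)),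
    (List.forall_mem_cons.2 ⟨(q_be4c689f84.mono (by norm_num)),
    (List.forall_mem_nil _)⟩)⟩)⟩)

theorem q_46e5cfda09 : PosP 516 [495, 528, 529, 561, 594] [430, 462, 496, 526, 627] :=
  pos_of_cert (F := 266) (by norm_num) p_46e5cfda09 (List.forall_mem_nil _)

theorem q_43a8228409 : PosP 516 [494, 495, 528, 529, 561] [462, 465, 496, 526, 558] :=
  pos_of_cert (F := 266) (by norm_num) p_43a8228409 (List.forall_mem_nil _)

theorem q_04b5794965 : PosP 516 [465, 494, 495, 528, 529, 530, 561, 594] [462, 496, 497, 526, 527, 558, 589, 627] :=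
  pos_of_cert (F := 266) (by norm_num) p_04b5794965 (List.forall_mem_nil _)

theorem q_25037684c8 : PosP 516 [465, 494, 495, 528, 529, 530, 561, 594] [462, 496, 497, 526, 527, 558, 620, 627] :=
  pos_of_cert (F := 266) (by norm_num) p_25037684c8 (List.forall_mem_nil _)

theorem q_9ee61af7ea : PosP 766 [494, 495, 528, 529, 561] [462, 496, 497, 526, 558] :=
  pos_of_cert (F := 516) (by norm_num) p_9ee61af7ea (List.forall_mem_cons.2 ⟨(q_04b5794965.mono (by norm_num)),
    (List.forall_mem_cons.2 ⟨(q_25037684c8.mono (by norm_num)),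
    (List.forall_mem_nil _)⟩)⟩)

theorem q_c48526c0de : PosP 766 [465, 494, 495, 528, 529, 561] [462, 496, 497, 526, 527, 558] :=
  pos_of_cert (F := 516) (by norm_num) p_c48526c0de (List.forall_mem_cons.2 ⟨(q_04b5794965.mono (by norm_num)),
    (List.forall_mem_cons.2 ⟨(q_25037684c8.mono (by norm_num)),
    (List.forall_mem_nil _)⟩)⟩)

theorem q_4b47a581d9 : PosP 1016 [494, 495, 528, 529, 561] [462, 496, 526, 527, 558] :=
  pos_of_cert (F := 766) (by norm_num) p_4b47a581d9 (List.forall_mem_cons.2 ⟨(q_c48526c0de.mono (by norm_num)),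
    (List.forall_mem_nil _)⟩)

theorem q_4af2605d9c : PosP 516 [494, 495, 528, 529, 561] [462, 496, 526, 558, 593] :=
  pos_of_cert (F := 266) (by norm_num) p_4af2605d9c (List.forall_mem_nil _)

theorem q_446fcdbddc : PosP 1266 [495, 528, 529, 561] [462, 496, 526, 558] :=
  pos_of_cert (F := 1016) (by norm_num) p_446fcdbddc (List.forall_mem_cons.2 ⟨(q_43a8228409.mono (by norm_num)),
    (List.forall_mem_cons.2 ⟨(q_9ee61af7ea.mono (by norm_num)),
    (List.forall_mem_cons.2 ⟨(q_4b47a581d9.mono (by norm_num)),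
    (List.forall_mem_cons.2 ⟨(q_4af2605d9c.mono (by norm_num)),
    (List.forall_mem_nil _)⟩)⟩)⟩)⟩)

theorem q_0bae649555 : PosP 516 [495, 528, 529, 561] [462, 496, 526, 590] :=
  pos_of_cert (F := 266) (by norm_num) p_0bae649555 (List.forall_mem_nil _)

theorem q_a31fc2475d : PosP 516 [495, 528, 529, 561] [462, 496, 526, 593] :=
  pos_of_cert (F := 266) (by norm_num) p_a31fc2475d (List.forall_mem_nil _)

theorem q_0144f50ba6 : PosP 516 [495, 497, 528, 529, 561] [466, 496, 526, 593, 594] :=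
  pos_of_cert (F := 266) (by norm_num) p_0144f50ba6 (List.forall_mem_nil _)

theorem q_b2721f48ed : PosP 766 [495, 497, 528, 561] [466, 496, 526, 594] :=
  pos_of_cert (F := 516) (by norm_num) p_b2721f48ed (List.forall_mem_cons.2 ⟨(q_0144f50ba6.mono (by norm_num)),
    (List.forall_mem_nil _)⟩)

theorem q_b4487575c0 : PosP 516 [495, 497, 528, 561] [496, 526, 527, 594] :=
  pos_of_cert (F := 266) (by norm_num) p_b4487575c0 (List.forall_mem_nil _)

theorem q_983994537d : PosP 516 [495, 497, 528, 561] [496, 526, 529, 594] :=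
  pos_of_cert (F := 266) (by norm_num) p_983994537d (List.forall_mem_nil _)

theorem q_faecfbff2f : PosP 516 [495, 497, 528, 561] [496, 526, 559, 594] :=
  pos_of_cert (F := 266) (by norm_num) p_faecfbff2f (List.forall_mem_nil _)

theorem q_0e63b82bbb : PosP 516 [495, 497, 528, 561] [496, 526, 562, 594] :=
  pos_of_cert (F := 266) (by norm_num) p_0e63b82bbb (List.forall_mem_nil _)

theorem q_8ef300e79f : PosP 516 [495, 497, 528, 561] [496, 526, 590, 594] :=
  pos_of_cert (F := 266) (by norm_num) p_8ef300e79f (List.forall_mem_nil _)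

theorem q_9a06511d33 : PosP 516 [495, 497, 528, 561] [496, 526, 591, 594] :=
  pos_of_cert (F := 266) (by norm_num) p_9a06511d33 (List.forall_mem_nil _)

theorem q_c3d32618ab : PosP 1016 [495, 528, 561] [496, 526, 594] :=
  pos_of_cert (F := 766) (by norm_num) p_c3d32618ab (List.forall_mem_cons.2 ⟨(q_b2721f48ed.mono (by norm_num)),
    (List.forall_mem_cons.2 ⟨(q_b4487575c0.mono (by norm_num)),
    (List.forall_mem_cons.2 ⟨(q_983994537d.mono (by norm_num)),
    (List.forall_mem_cons.2 ⟨(q_faecfbff2f.mono (by norm_num)),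
    (List.forall_mem_cons.2 ⟨(q_0e63b82bbb.mono (by norm_num)),
    (List.forall_mem_cons.2 ⟨(q_8ef300e79f.mono (by norm_num)),
    (List.forall_mem_cons.2 ⟨(q_9a06511d33.mono (by norm_num)),
    (List.forall_mem_nil _)⟩)⟩)⟩)⟩)⟩)⟩)⟩)

theorem q_9e3ed16b52 : PosP 1516 [495, 528] [496, 526] :=
  pos_of_cert (F := 1266) (by norm_num) p_9e3ed16b52 (List.forall_mem_cons.2 ⟨(q_4c1dae3c4f.mono (by norm_num)),
    (List.forall_mem_cons.2 ⟨(q_46e5cfda09.mono (by norm_num)),
    (List.forall_mem_cons.2 ⟨(q_f1b8674ac2.mono (by norm_num)),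
    (List.forall_mem_cons.2 ⟨(q_446fcdbddc.mono (by norm_num)),
    (List.forall_mem_cons.2 ⟨(q_0bae649555.mono (by norm_num)),
    (List.forall_mem_cons.2 ⟨(q_a31fc2475d.mono (by norm_num)),
    (List.forall_mem_cons.2 ⟨(q_c3d32618ab.mono (by norm_num)),
    (List.forall_mem_nil _)⟩)⟩)⟩)⟩)⟩)⟩)⟩)

theorem q_c53a6186eb : PosP 516 [463, 495, 528] [496, 561, 588] :=
  pos_of_cert (F := 266) (by norm_num) p_c53a6186eb (List.forall_mem_nil _)

theorem q_0e191830d2 : PosP 516 [464, 495, 528] [496, 529, 559] :=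
  pos_of_cert (F := 266) (by norm_num) p_0e191830d2 (List.forall_mem_nil _)

theorem q_f369acecd0 : PosP 516 [365, 398, 400, 401, 402, 431, 433, 464, 495, 496, 498, 527, 558] [332, 371, 399, 430, 432, 463, 465, 494, 497, 499, 526, 528, 529] :=
  pos_of_cert (F := 266) (by norm_num) p_f369acecd0 (List.forall_mem_nil _)

theorem q_a9d174194a : PosP 766 [400, 401, 402, 431, 433, 464, 495, 496, 498, 527, 558] [371, 399, 430, 432, 463, 465, 494, 499, 526, 528, 529] :=
  pos_of_cert (F := 516) (by norm_num) p_a9d174194a (List.forall_mem_cons.2 ⟨(q_f369acecd0.mono (by norm_num)),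
    (List.forall_mem_nil _)⟩)

theorem q_4ed2eb27cf : PosP 1016 [400, 401, 402, 431, 433, 464, 495, 496, 527, 558] [371, 399, 430, 432, 463, 465, 494, 526, 528, 529] :=
  pos_of_cert (F := 766) (by norm_num) p_4ed2eb27cf (List.forall_mem_cons.2 ⟨(q_a9d174194a.mono (by norm_num)),
    (List.forall_mem_nil _)⟩)

theorem q_58c579708a : PosP 1266 [400, 402, 431, 433, 464, 495, 496, 527, 558] [371, 430, 432, 463, 465, 494, 526, 528, 529] :=
  pos_of_cert (F := 1016) (by norm_num) p_58c579708a (List.forall_mem_cons.2 ⟨(q_4ed2eb27cf.mono (by norm_num)),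
    (List.forall_mem_nil _)⟩)

theorem q_1c50bc01aa : PosP 1516 [431, 433, 464, 495, 527] [430, 463, 526, 528, 529] :=
  pos_of_cert (F := 1266) (by norm_num) p_1c50bc01aa (List.forall_mem_cons.2 ⟨(q_58c579708a.mono (by norm_num)),
    (List.forall_mem_nil _)⟩)

theorem q_f875f5fa38 : PosP 516 [365, 367, 398, 401, 402, 431, 433, 464, 495, 527] [332, 371, 432, 463, 465, 466, 497, 526, 528, 529] :=
  pos_of_cert (F := 266) (by norm_num) p_f875f5fa38 (List.forall_mem_nil _)

theorem q_477c685570 : PosP 516 [365, 367, 398, 401, 402, 431, 433, 464, 495, 527] [332, 371, 432, 463, 465, 497, 526, 528, 529, 593] :=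
  pos_of_cert (F := 266) (by norm_num) p_477c685570 (List.forall_mem_nil _)

theorem q_612722941a : PosP 766 [365, 398, 401, 402, 431, 433, 464, 495, 527] [332, 371, 432, 463, 465, 497, 526, 528, 529] :=
  pos_of_cert (F := 516) (by norm_num) p_612722941a (List.forall_mem_cons.2 ⟨(q_f875f5fa38.mono (by norm_num)),
    (List.forall_mem_cons.2 ⟨(q_477c685570.mono (by norm_num)),
    (List.forall_mem_nil _)⟩)⟩)

theorem q_84409e1692 : PosP 1016 [401, 431, 433, 464, 495, 527] [432, 463, 465, 526, 528, 529] :=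
  pos_of_cert (F := 766) (by norm_num) p_84409e1692 (List.forall_mem_cons.2 ⟨(q_612722941a.mono (by norm_num)),
    (List.forall_mem_nil _)⟩)

theorem q_7375d5e50c : PosP 516 [401, 402, 430, 431, 433, 464, 495, 527] [371, 399, 432, 463, 496, 526, 528, 529] :=
  pos_of_cert (F := 266) (by norm_num) p_7375d5e50c (List.forall_mem_nil _)

theorem q_ec6539d40c : PosP 516 [401, 402, 430, 431, 433, 464, 495, 527] [371, 432, 463, 496, 526, 528, 529, 562] :=
  pos_of_cert (F := 266) (by norm_num) p_ec6539d40c (List.forall_mem_nil _)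

theorem q_87493a6261 : PosP 516 [401, 402, 430, 431, 433, 464, 495, 527] [371, 432, 463, 496, 526, 528, 529, 595] :=
  pos_of_cert (F := 266) (by norm_num) p_87493a6261 (List.forall_mem_nil _)

theorem q_e074de6b1f : PosP 766 [401, 402, 431, 433, 464, 495, 527] [371, 432, 463, 496, 526, 528, 529] :=
  pos_of_cert (F := 516) (by norm_num) p_e074de6b1f (List.forall_mem_cons.2 ⟨(q_7375d5e50c.mono (by norm_num)),
    (List.forall_mem_cons.2 ⟨(q_ec6539d40c.mono (by norm_num)),
    (List.forall_mem_cons.2 ⟨(q_87493a6261.mono (by norm_num)),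
    (List.forall_mem_nil _)⟩)⟩)⟩)

theorem q_22933ca31d : PosP 1266 [431, 433, 464, 495, 527] [432, 463, 526, 528, 529] :=
  pos_of_cert (F := 1016) (by norm_num) p_22933ca31d (List.forall_mem_cons.2 ⟨(q_84409e1692.mono (by norm_num)),
    (List.forall_mem_cons.2 ⟨(q_e074de6b1f.mono (by norm_num)),
    (List.forall_mem_nil _)⟩)⟩)

theorem q_f887c42452 : PosP 516 [431, 433, 464, 495, 527] [434, 463, 526, 528, 529] :=
  pos_of_cert (F := 266) (by norm_num) p_f887c42452 (List.forall_mem_nil _)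

theorem q_52523d6deb : PosP 516 [431, 433, 464, 495, 527] [463, 494, 526, 528, 529] :=
  pos_of_cert (F := 266) (by norm_num) p_52523d6deb (List.forall_mem_nil _)

theorem q_f9eb416000 : PosP 516 [431, 433, 464, 495, 527] [463, 496, 526, 528, 529] :=
  pos_of_cert (F := 266) (by norm_num) p_f9eb416000 (List.forall_mem_nil _)

theorem q_a0937d8b6e : PosP 516 [431, 432, 433, 464, 495, 527] [430, 463, 497, 526, 528, 529] :=
  pos_of_cert (F := 266) (by norm_num) p_a0937d8b6e (List.forall_mem_nil _)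

theorem q_4ea4859162 : PosP 516 [431, 433, 464, 495, 527] [463, 526, 528, 529, 562] :=
  pos_of_cert (F := 266) (by norm_num) p_4ea4859162 (List.forall_mem_nil _)

theorem q_de80ff4ae0 : PosP 516 [431, 433, 464, 495, 527] [463, 526, 528, 529, 595] :=
  pos_of_cert (F := 266) (by norm_num) p_de80ff4ae0 (List.forall_mem_nil _)

theorem q_45b3051e73 : PosP 1766 [431, 433, 464, 495] [463, 526, 528, 529] :=
  pos_of_cert (F := 1516) (by norm_num) p_45b3051e73 (List.forall_mem_cons.2 ⟨(q_1c50bc01aa.mono (by norm_num)),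
    (List.forall_mem_cons.2 ⟨(q_22933ca31d.mono (by norm_num)),
    (List.forall_mem_cons.2 ⟨(q_f887c42452.mono (by norm_num)),
    (List.forall_mem_cons.2 ⟨(q_52523d6deb.mono (by norm_num)),
    (List.forall_mem_cons.2 ⟨(q_f9eb416000.mono (by norm_num)),
    (List.forall_mem_cons.2 ⟨(q_a0937d8b6e.mono (by norm_num)),
    (List.forall_mem_cons.2 ⟨(q_4ea4859162.mono (by norm_num)),
    (List.forall_mem_cons.2 ⟨(q_de80ff4ae0.mono (by norm_num)),
    (List.forall_mem_nil _)⟩)⟩)⟩)⟩)⟩)⟩)⟩)⟩)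

theorem q_ba7c22937b : PosP 2016 [431, 464, 495] [463, 528, 529] :=
  pos_of_cert (F := 1766) (by norm_num) p_ba7c22937b (List.forall_mem_cons.2 ⟨(q_45b3051e73.mono (by norm_num)),
    (List.forall_mem_nil _)⟩)

theorem q_9b1198b05e : PosP 516 [464, 495] [437, 528] :=
  pos_of_cert (F := 266) (by norm_num) p_9b1198b05e (List.forall_mem_nil _)

theorem q_1ba42d7c00 : PosP 516 [495, 527, 528, 529] [463, 465, 496, 526] :=
  pos_of_cert (F := 266) (by norm_num) p_1ba42d7c00 (List.forall_mem_nil _)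

theorem q_cebecaad8d : PosP 516 [463, 495, 527, 528] [465, 496, 529, 559] :=
  pos_of_cert (F := 266) (by norm_num) p_cebecaad8d (List.forall_mem_nil _)

theorem q_78d2898205 : PosP 766 [495, 528] [465, 496] :=
  pos_of_cert (F := 516) (by norm_num) p_78d2898205 (List.forall_mem_cons.2 ⟨(q_1ba42d7c00.mono (by norm_num)),
    (List.forall_mem_cons.2 ⟨(q_cebecaad8d.mono (by norm_num)),
    (List.forall_mem_nil _)⟩)⟩)

theorem q_0fafd14c3d : PosP 516 [462, 463, 495] [395, 527, 530] :=
  pos_of_cert (F := 266) (by norm_num) p_0fafd14c3d (List.forall_mem_nil _)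

theorem q_b89eecc00f : PosP 516 [462, 463, 495] [428, 527, 530] :=
  pos_of_cert (F := 266) (by norm_num) p_b89eecc00f (List.forall_mem_nil _)

theorem q_058da9c937 : PosP 516 [462, 463, 495] [461, 527, 530] :=
  pos_of_cert (F := 266) (by norm_num) p_058da9c937 (List.forall_mem_nil _)

theorem q_a2b7ab4b85 : PosP 516 [462, 463, 494, 495] [464, 496, 527, 530] :=
  pos_of_cert (F := 266) (by norm_num) p_a2b7ab4b85 (List.forall_mem_nil _)

theorem q_93dbc3e0b4 : PosP 516 [462, 463, 494, 495] [464, 497, 527, 530] :=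
  pos_of_cert (F := 266) (by norm_num) p_93dbc3e0b4 (List.forall_mem_nil _)

theorem q_d99e332f24 : PosP 766 [462, 463, 495] [464, 527, 530] :=
  pos_of_cert (F := 516) (by norm_num) p_d99e332f24 (List.forall_mem_cons.2 ⟨(q_a2b7ab4b85.mono (by norm_num)),
    (List.forall_mem_cons.2 ⟨(q_93dbc3e0b4.mono (by norm_num)),
    (List.forall_mem_nil _)⟩)⟩)

theorem q_91d2d4e924 : PosP 516 [462, 463, 495] [465, 527, 530] :=
  pos_of_cert (F := 266) (by norm_num) p_91d2d4e924 (List.forall_mem_nil _)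

theorem q_596b784a0f : PosP 516 [462, 463, 495] [493, 527, 530] :=
  pos_of_cert (F := 266) (by norm_num) p_596b784a0f (List.forall_mem_nil _)

theorem q_a39f233e0f : PosP 516 [462, 463, 495] [494, 527, 530] :=
  pos_of_cert (F := 266) (by norm_num) p_a39f233e0f (List.forall_mem_nil _)

theorem q_3fe790cf24 : PosP 516 [462, 463, 495, 528, 558] [429, 494, 496, 527, 530] :=
  pos_of_cert (F := 266) (by norm_num) p_3fe790cf24 (List.forall_mem_nil _)

theorem q_d05df0f4d8 : PosP 766 [462, 463, 495, 528] [429, 496, 527, 530] :=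
  pos_of_cert (F := 516) (by norm_num) p_d05df0f4d8 (List.forall_mem_cons.2 ⟨(q_3fe790cf24.mono (by norm_num)),
    (List.forall_mem_nil _)⟩)

theorem q_c40e8b587a : PosP 516 [462, 463, 495] [497, 527, 530] :=
  pos_of_cert (F := 266) (by norm_num) p_c40e8b587a (List.forall_mem_nil _)

theorem q_d79b84ff7c : PosP 516 [462, 463, 495] [525, 527, 530] :=
  pos_of_cert (F := 266) (by norm_num) p_d79b84ff7c (List.forall_mem_nil _)

end Pool.Agent.Helper225.G
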