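import Pool.Agent.Helper225.GTab
import Pool.Agent.Helper225.Cert.MV_31
import Pool.Agent.Helper225.Cert.MV_32
import Pool.Agent.Helper225.Cert.MV_33
import Pool.Agent.Helper225.Cert.MV_34
import Pool.Agent.Helper225.Cert.MV_35
import Pool.Agent.Helper225.Cert.MV_36
import Pool.Agent.Helper225.Cert.MV_37
import Pool.Agent.Helper225.Cert.MV_38
import Pool.Agent.Helper225.Cert.MV_39
import Pool.Agent.Helper225.Cert.MV_40
import Pool.Agent.Helper225.Cert.MV_41
import Pool.Agent.Helper225.Cert.MV_42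
import Pool.Agent.Helper225.Cert.MV_43
import Pool.Agent.Helper225.Cert.MV_44
import Pool.Agent.Helper225.Cert.MV_45
import Pool.Agent.Helper225.Cert.MV_46
import Pool.Agent.Helper225.Cert.MV_47
import Pool.Agent.Helper225.Cls.QV_1

set_option autoImplicit false
set_option maxRecDepth 1000000

namespace Pool.Agent.Helper225.G

theorem q_1d0537b351 : PosP 516 [462, 463, 495] [527, 528, 530] :=
  pos_of_cert (F := 266) (by norm_num) p_1d0537b351 (List.forall_mem_nil _)

theorem q_4d20798d2b : PosP 516 [462, 463, 495] [527, 530, 560] :=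
  pos_of_cert (F := 266) (by norm_num) p_4d20798d2b (List.forall_mem_nil _)

theorem q_0c4db2e323 : PosP 1016 [463, 495] [527, 530] :=
  pos_of_cert (F := 766) (by norm_num) p_0c4db2e323 (List.forall_mem_cons.2 ⟨(q_0fafd14c3d.mono (by norm_num)),
    (List.forall_mem_cons.2 ⟨(q_b89eecc00f.mono (by norm_num)),
    (List.forall_mem_cons.2 ⟨(q_058da9c937.mono (by norm_num)),
    (List.forall_mem_cons.2 ⟨(q_d99e332f24.mono (by norm_num)),
    (List.forall_mem_cons.2 ⟨(q_91d2d4e924.mono (by norm_num)),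
    (List.forall_mem_cons.2 ⟨(q_596b784a0f.mono (by norm_num)),
    (List.forall_mem_cons.2 ⟨(q_a39f233e0f.mono (by norm_num)),
    (List.forall_mem_cons.2 ⟨(q_d05df0f4d8.mono (by norm_num)),
    (List.forall_mem_cons.2 ⟨(q_c40e8b587a.mono (by norm_num)),
    (List.forall_mem_cons.2 ⟨(q_d79b84ff7c.mono (by norm_num)),
    (List.forall_mem_cons.2 ⟨(q_1d0537b351.mono (by norm_num)),
    (List.forall_mem_cons.2 ⟨(q_4d20798d2b.mono (by norm_num)),
    (List.forall_mem_nil _)⟩)⟩)⟩)⟩)⟩)⟩)⟩)⟩)⟩)⟩)⟩)⟩)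

theorem q_9806dfea0b : PosP 516 [463, 495, 496] [497, 527, 595] :=
  pos_of_cert (F := 266) (by norm_num) p_9806dfea0b (List.forall_mem_nil _)

theorem q_d0b99125b4 : PosP 516 [463, 495, 496] [497, 528, 595] :=
  pos_of_cert (F := 266) (by norm_num) p_d0b99125b4 (List.forall_mem_nil _)

theorem q_8d47a0744e : PosP 516 [463, 495, 496] [497, 530, 595] :=
  pos_of_cert (F := 266) (by norm_num) p_8d47a0744e (List.forall_mem_nil _)

theorem q_879c46ec56 : PosP 766 [495, 496] [497, 595] :=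
  pos_of_cert (F := 516) (by norm_num) p_879c46ec56 (List.forall_mem_cons.2 ⟨(q_9806dfea0b.mono (by norm_num)),
    (List.forall_mem_cons.2 ⟨(q_d0b99125b4.mono (by norm_num)),
    (List.forall_mem_cons.2 ⟨(q_8d47a0744e.mono (by norm_num)),
    (List.forall_mem_nil _)⟩)⟩)⟩)

theorem q_b4d9658a44 : PosP 516 [464, 493, 495, 526, 557] [367, 433, 466, 528, 588] :=
  pos_of_cert (F := 266) (by norm_num) p_b4d9658a44 (List.forall_mem_nil _)

theorem q_a35ccbe110 : PosP 516 [464, 493, 495, 499, 526, 557] [334, 400, 433, 466, 528, 588] :=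
  pos_of_cert (F := 266) (by norm_num) p_a35ccbe110 (List.forall_mem_nil _)

theorem q_29cf0375f0 : PosP 516 [464, 493, 495, 499, 526, 557] [367, 400, 433, 466, 528, 588] :=
  pos_of_cert (F := 266) (by norm_num) p_29cf0375f0 (List.forall_mem_nil _)

theorem q_bd1b4f6fea : PosP 516 [464, 493, 495, 499, 526, 557] [400, 433, 466, 528, 559, 588] :=
  pos_of_cert (F := 266) (by norm_num) p_bd1b4f6fea (List.forall_mem_nil _)

theorem q_f32b800a8d : PosP 766 [464, 493, 495, 526, 557] [400, 433, 466, 528, 588] :=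
  pos_of_cert (F := 516) (by norm_num) p_f32b800a8d (List.forall_mem_cons.2 ⟨(q_a35ccbe110.mono (by norm_num)),
    (List.forall_mem_cons.2 ⟨(q_29cf0375f0.mono (by norm_num)),
    (List.forall_mem_cons.2 ⟨(q_bd1b4f6fea.mono (by norm_num)),
    (List.forall_mem_nil _)⟩)⟩)⟩)

theorem q_873cf69573 : PosP 516 [400, 464, 493, 495, 526, 557] [404, 433, 466, 499, 528, 588] :=
  pos_of_cert (F := 266) (by norm_num) p_873cf69573 (List.forall_mem_nil _)

theorem q_e59108e355 : PosP 516 [400, 464, 493, 495, 526, 557] [433, 435, 466, 499, 528, 588] :=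
  pos_of_cert (F := 266) (by norm_num) p_e59108e355 (List.forall_mem_nil _)

theorem q_f098881195 : PosP 516 [400, 464, 493, 495, 526, 557] [433, 466, 499, 528, 532, 588] :=
  pos_of_cert (F := 266) (by norm_num) p_f098881195 (List.forall_mem_nil _)

theorem q_446601460d : PosP 516 [400, 464, 493, 495, 497, 526, 557] [433, 466, 499, 528, 532, 559, 588] :=
  pos_of_cert (F := 266) (by norm_num) p_446601460d (List.forall_mem_nil _)

theorem q_3111ef4a78 : PosP 516 [400, 464, 493, 495, 497, 526, 557] [433, 466, 499, 528, 559, 565, 588] :=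
  pos_of_cert (F := 266) (by norm_num) p_3111ef4a78 (List.forall_mem_nil _)

theorem q_9fc0ba6d5c : PosP 766 [400, 464, 493, 495, 526, 557] [433, 466, 499, 528, 559, 588] :=
  pos_of_cert (F := 516) (by norm_num) p_9fc0ba6d5c (List.forall_mem_cons.2 ⟨(q_446601460d.mono (by norm_num)),
    (List.forall_mem_cons.2 ⟨(q_3111ef4a78.mono (by norm_num)),
    (List.forall_mem_nil _)⟩)⟩)

theorem q_b1e9d2a552 : PosP 516 [400, 464, 493, 495, 526, 557] [433, 466, 499, 528, 565, 588] :=
  pos_of_cert (F := 266) (by norm_num) p_b1e9d2a552 (List.forall_mem_nil _)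

theorem q_4b8fb872fe : PosP 516 [400, 464, 493, 495, 526, 557] [433, 466, 499, 528, 588, 590] :=
  pos_of_cert (F := 266) (by norm_num) p_4b8fb872fe (List.forall_mem_nil _)

theorem q_a9a8743c12 : PosP 1016 [464, 493, 495, 526, 557] [433, 466, 499, 528, 588] :=
  pos_of_cert (F := 766) (by norm_num) p_a9a8743c12 (List.forall_mem_cons.2 ⟨(q_873cf69573.mono (by norm_num)),
    (List.forall_mem_cons.2 ⟨(q_e59108e355.mono (by norm_num)),
    (List.forall_mem_cons.2 ⟨(q_f098881195.mono (by norm_num)),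
    (List.forall_mem_cons.2 ⟨(q_9fc0ba6d5c.mono (by norm_num)),
    (List.forall_mem_cons.2 ⟨(q_b1e9d2a552.mono (by norm_num)),
    (List.forall_mem_cons.2 ⟨(q_4b8fb872fe.mono (by norm_num)),
    (List.forall_mem_nil _)⟩)⟩)⟩)⟩)⟩)⟩)

theorem q_85c95c443b : PosP 516 [464, 493, 495, 526, 557] [433, 466, 528, 532, 588] :=
  pos_of_cert (F := 266) (by norm_num) p_85c95c443b (List.forall_mem_nil _)

theorem q_a18c1bb206 : PosP 766 [464, 493, 495, 526, 557] [433, 466, 528, 559, 588] :=
  pos_of_cert (F := 516) (by norm_num) p_a18c1bb206 (List.forall_mem_cons.2 ⟨(q_446601460d.mono (by norm_num)),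
    (List.forall_mem_cons.2 ⟨(q_3111ef4a78.mono (by norm_num)),
    (List.forall_mem_nil _)⟩)⟩)

theorem q_b00cdbbb87 : PosP 1266 [464, 495, 526, 557] [433, 466, 528, 588] :=
  pos_of_cert (F := 1016) (by norm_num) p_b00cdbbb87 (List.forall_mem_cons.2 ⟨(q_b4d9658a44.mono (by norm_num)),
    (List.forall_mem_cons.2 ⟨(q_f32b800a8d.mono (by norm_num)),
    (List.forall_mem_cons.2 ⟨(q_a9a8743c12.mono (by norm_num)),
    (List.forall_mem_cons.2 ⟨(q_85c95c443b.mono (by norm_num)),
    (List.forall_mem_cons.2 ⟨(q_a18c1bb206.mono (by norm_num)),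
    (List.forall_mem_nil _)⟩)⟩)⟩)⟩)⟩)

theorem q_fd1b8c0f93 : PosP 516 [464, 495, 526] [466, 528, 557] :=
  pos_of_cert (F := 266) (by norm_num) p_fd1b8c0f93 (List.forall_mem_nil _)

theorem q_c668e0d9ba : PosP 1516 [464, 495] [466, 528] :=
  pos_of_cert (F := 1266) (by norm_num) p_c668e0d9ba (List.forall_mem_cons.2 ⟨(q_b00cdbbb87.mono (by norm_num)),
    (List.forall_mem_cons.2 ⟨(q_fd1b8c0f93.mono (by norm_num)),
    (List.forall_mem_nil _)⟩)⟩)

theorem q_d7a5ed768b : PosP 516 [464, 495] [528, 623] :=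
  pos_of_cert (F := 266) (by norm_num) p_d7a5ed768b (List.forall_mem_nil _)

theorem q_2c3c6b3a9e : PosP 516 [464, 465, 466, 495] [463, 496, 526, 528] :=
  pos_of_cert (F := 266) (by norm_num) p_2c3c6b3a9e (List.forall_mem_nil _)

theorem q_2b502cac85 : PosP 766 [464, 465, 495] [496, 526, 528] :=
  pos_of_cert (F := 516) (by norm_num) p_2b502cac85 (List.forall_mem_cons.2 ⟨(q_2c3c6b3a9e.mono (by norm_num)),
    (List.forall_mem_nil _)⟩)

theorem q_8c781d0286 : PosP 516 [464, 495, 526] [433, 561, 565] :=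
  pos_of_cert (F := 266) (by norm_num) p_8c781d0286 (List.forall_mem_nil _)

theorem q_b71af42a81 : PosP 516 [433, 464, 495, 526] [402, 557, 561, 565] :=
  pos_of_cert (F := 266) (by norm_num) p_b71af42a81 (List.forall_mem_nil _)

theorem q_d7427ea2e0 : PosP 766 [495, 526] [561, 565] :=
  pos_of_cert (F := 516) (by norm_num) p_d7427ea2e0 (List.forall_mem_cons.2 ⟨(q_8c781d0286.mono (by norm_num)),
    (List.forall_mem_cons.2 ⟨(q_b71af42a81.mono (by norm_num)),
    (List.forall_mem_nil _)⟩)⟩)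

theorem q_63a84b2bb0 : PosP 516 [464, 495] [400, 594] :=
  pos_of_cert (F := 266) (by norm_num) p_63a84b2bb0 (List.forall_mem_nil _)

theorem q_2c59924aee : PosP 516 [495, 526, 527] [404, 497, 528] :=
  pos_of_cert (F := 266) (by norm_num) p_2c59924aee (List.forall_mem_nil _)

theorem q_37f95d5ab2 : PosP 766 [495, 526] [404, 497] :=
  pos_of_cert (F := 516) (by norm_num) p_37f95d5ab2 (List.forall_mem_cons.2 ⟨(q_2c59924aee.mono (by norm_num)),
    (List.forall_mem_nil _)⟩)

theorem q_fa1aa00575 : PosP 516 [466, 495, 528] [496, 500, 527] :=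
  pos_of_cert (F := 266) (by norm_num) p_fa1aa00575 (List.forall_mem_nil _)

theorem q_c54e1bedc2 : PosP 516 [466, 495, 528, 558] [403, 465, 496, 527] :=
  pos_of_cert (F := 266) (by norm_num) p_c54e1bedc2 (List.forall_mem_nil _)

theorem q_f4af1b112c : PosP 516 [433, 463, 464, 495, 528, 557] [402, 526, 529, 530, 531, 532] :=
  pos_of_cert (F := 266) (by norm_num) p_f4af1b112c (List.forall_mem_nil _)

theorem q_09d85ec202 : PosP 766 [433, 463, 464, 495] [402, 529, 530, 531] :=
  pos_of_cert (F := 516) (by norm_num) p_09d85ec202 (List.forall_mem_cons.2 ⟨(q_f4af1b112c.mono (by norm_num)),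
    (List.forall_mem_nil _)⟩)

theorem q_76720c9f6d : PosP 766 [433, 463, 464, 495] [402, 529, 530, 532] :=
  pos_of_cert (F := 516) (by norm_num) p_76720c9f6d (List.forall_mem_cons.2 ⟨(q_f4af1b112c.mono (by norm_num)),
    (List.forall_mem_nil _)⟩)

theorem q_347885a9b0 : PosP 1016 [433, 464, 495] [402, 529, 530] :=
  pos_of_cert (F := 766) (by norm_num) p_347885a9b0 (List.forall_mem_cons.2 ⟨(q_09d85ec202.mono (by norm_num)),
    (List.forall_mem_cons.2 ⟨(q_76720c9f6d.mono (by norm_num)),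
    (List.forall_mem_nil _)⟩)⟩)

theorem q_bb48763a8a : PosP 516 [433, 464, 495, 528] [432, 526, 529, 530] :=
  pos_of_cert (F := 266) (by norm_num) p_bb48763a8a (List.forall_mem_nil _)

theorem q_a675d0cf03 : PosP 766 [433, 464, 495] [526, 529, 530] :=
  pos_of_cert (F := 516) (by norm_num) p_a675d0cf03 (List.forall_mem_cons.2 ⟨(q_bb48763a8a.mono (by norm_num)),
    (List.forall_mem_nil _)⟩)

theorem q_4d40c52715 : PosP 1266 [464, 495] [529, 530] :=
  pos_of_cert (F := 1016) (by norm_num) p_4d40c52715 (List.forall_mem_cons.2 ⟨(q_347885a9b0.mono (by norm_num)),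
    (List.forall_mem_cons.2 ⟨(q_a675d0cf03.mono (by norm_num)),
    (List.forall_mem_nil _)⟩)⟩)

theorem q_ba9b2eef36 : PosP 516 [464, 495] [528, 563] :=
  pos_of_cert (F := 266) (by norm_num) p_ba9b2eef36 (List.forall_mem_nil _)

theorem q_aabd9d380f : PosP 516 [495, 526] [528, 628] :=
  pos_of_cert (F := 266) (by norm_num) p_aabd9d380f (List.forall_mem_nil _)

theorem q_3c5f82e21e : PosP 516 [495, 526, 559] [432, 463, 497] :=
  pos_of_cert (F := 266) (by norm_num) p_3c5f82e21e (List.forall_mem_nil _)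

theorem q_bfff0dccfe : PosP 766 [495, 526] [432, 497] :=
  pos_of_cert (F := 516) (by norm_num) p_bfff0dccfe (List.forall_mem_cons.2 ⟨(q_3c5f82e21e.mono (by norm_num)),
    (List.forall_mem_nil _)⟩)

theorem q_4a012785ec : PosP 516 [495, 528, 529] [462, 496, 561] :=
  pos_of_cert (F := 266) (by norm_num) p_4a012785ec (List.forall_mem_nil _)

theorem q_e71baea3a4 : PosP 516 [462, 464, 495, 526] [429, 431, 433, 497] :=
  pos_of_cert (F := 266) (by norm_num) p_e71baea3a4 (List.forall_mem_nil _)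

theorem q_0dedf96baa : PosP 516 [462, 464, 495, 526] [430, 431, 433, 497] :=
  pos_of_cert (F := 266) (by norm_num) p_0dedf96baa (List.forall_mem_nil _)

theorem q_5c524ade5d : PosP 516 [462, 464, 495, 526] [431, 433, 434, 497] :=
  pos_of_cert (F := 266) (by norm_num) p_5c524ade5d (List.forall_mem_nil _)

theorem q_c00fe3f792 : PosP 516 [462, 464, 495, 526, 529] [369, 431, 433, 465, 497] :=
  pos_of_cert (F := 266) (by norm_num) p_c00fe3f792 (List.forall_mem_nil _)

theorem q_4e559039a7 : PosP 516 [369, 432, 462, 464, 495, 526, 529] [401, 430, 431, 433, 465, 497, 528] :=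
  pos_of_cert (F := 266) (by norm_num) p_4e559039a7 (List.forall_mem_nil _)

theorem q_1baa6b5c45 : PosP 766 [462, 464, 495, 526, 529] [401, 431, 433, 465, 497] :=
  pos_of_cert (F := 516) (by norm_num) p_1baa6b5c45 (List.forall_mem_cons.2 ⟨(q_4e559039a7.mono (by norm_num)),
    (List.forall_mem_nil _)⟩)

theorem q_681fd2350c : PosP 516 [432, 462, 464, 495, 526, 529, 557, 559] [369, 430, 431, 433, 465, 497, 528, 588] :=
  pos_of_cert (F := 266) (by norm_num) p_681fd2350c (List.forall_mem_nil _)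

theorem q_57efc1d4aa : PosP 516 [432, 462, 464, 495, 526, 529, 557, 559] [401, 430, 431, 433, 465, 497, 528, 588] :=
  pos_of_cert (F := 266) (by norm_num) p_57efc1d4aa (List.forall_mem_nil _)

theorem q_a879058d1f : PosP 766 [432, 462, 464, 495, 526, 529, 557] [430, 431, 433, 465, 497, 528, 588] :=
  pos_of_cert (F := 516) (by norm_num) p_a879058d1f (List.forall_mem_cons.2 ⟨(q_681fd2350c.mono (by norm_num)),
    (List.forall_mem_cons.2 ⟨(q_57efc1d4aa.mono (by norm_num)),
    (List.forall_mem_nil _)⟩)⟩)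

theorem q_8e762bdb57 : PosP 1016 [462, 464, 495, 526, 529] [430, 431, 433, 465, 497] :=
  pos_of_cert (F := 766) (by norm_num) p_8e762bdb57 (List.forall_mem_cons.2 ⟨(q_4e559039a7.mono (by norm_num)),
    (List.forall_mem_cons.2 ⟨(q_a879058d1f.mono (by norm_num)),
    (List.forall_mem_nil _)⟩)⟩)

theorem q_ac9b7dba89 : PosP 516 [432, 462, 464, 495, 526, 529, 558] [401, 430, 431, 433, 465, 497, 528] :=
  pos_of_cert (F := 266) (by norm_num) p_ac9b7dba89 (List.forall_mem_nil _)

theorem q_3aee0cbf19 : PosP 516 [432, 462, 464, 495, 526, 529, 558] [430, 431, 433, 465, 497, 528, 560] :=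
  pos_of_cert (F := 266) (by norm_num) p_3aee0cbf19 (List.forall_mem_nil _)

theorem q_355da049f8 : PosP 766 [462, 464, 495, 526, 529, 558] [430, 431, 433, 465, 497, 528] :=
  pos_of_cert (F := 516) (by norm_num) p_355da049f8 (List.forall_mem_cons.2 ⟨(q_ac9b7dba89.mono (by norm_num)),
    (List.forall_mem_cons.2 ⟨(q_3aee0cbf19.mono (by norm_num)),
    (List.forall_mem_nil _)⟩)⟩)

theorem q_9154a3b970 : PosP 1016 [462, 464, 495, 526, 529] [431, 433, 465, 497, 528] :=
  pos_of_cert (F := 766) (by norm_num) p_9154a3b970 (List.forall_mem_cons.2 ⟨(q_355da049f8.mono (by norm_num)),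
    (List.forall_mem_nil _)⟩)

theorem q_6b3ed0c150 : PosP 1266 [462, 464, 495, 526] [431, 433, 465, 497] :=
  pos_of_cert (F := 1016) (by norm_num) p_6b3ed0c150 (List.forall_mem_cons.2 ⟨(q_c00fe3f792.mono (by norm_num)),
    (List.forall_mem_cons.2 ⟨(q_1baa6b5c45.mono (by norm_num)),
    (List.forall_mem_cons.2 ⟨(q_8e762bdb57.mono (by norm_num)),
    (List.forall_mem_cons.2 ⟨(q_9154a3b970.mono (by norm_num)),
    (List.forall_mem_nil _)⟩)⟩)⟩)⟩)

theorem q_5d15914746 : PosP 766 [432, 462, 464, 495, 526, 558] [430, 431, 433, 465, 497, 528] :=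
  pos_of_cert (F := 516) (by norm_num) p_5d15914746 (List.forall_mem_cons.2 ⟨(q_ac9b7dba89.mono (by norm_num)),
    (List.forall_mem_cons.2 ⟨(q_3aee0cbf19.mono (by norm_num)),
    (List.forall_mem_nil _)⟩)⟩)

theorem q_cf8540d3a2 : PosP 1016 [462, 464, 495, 526] [431, 433, 497, 528] :=
  pos_of_cert (F := 766) (by norm_num) p_cf8540d3a2 (List.forall_mem_cons.2 ⟨(q_5d15914746.mono (by norm_num)),
    (List.forall_mem_nil _)⟩)

theorem q_9afc06139c : PosP 516 [462, 464, 495, 526] [431, 433, 497, 529] :=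
  pos_of_cert (F := 266) (by norm_num) p_9afc06139c (List.forall_mem_nil _)

theorem q_48253e172f : PosP 516 [462, 464, 495, 526] [431, 433, 497, 561] :=
  pos_of_cert (F := 266) (by norm_num) p_48253e172f (List.forall_mem_nil _)

theorem q_c753a17695 : PosP 1516 [464, 495, 526] [431, 433, 497] :=
  pos_of_cert (F := 1266) (by norm_num) p_c753a17695 (List.forall_mem_cons.2 ⟨(q_e71baea3a4.mono (by norm_num)),
    (List.forall_mem_cons.2 ⟨(q_0dedf96baa.mono (by norm_num)),
    (List.forall_mem_cons.2 ⟨(q_5c524ade5d.mono (by norm_num)),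
    (List.forall_mem_cons.2 ⟨(q_6b3ed0c150.mono (by norm_num)),
    (List.forall_mem_cons.2 ⟨(q_cf8540d3a2.mono (by norm_num)),
    (List.forall_mem_cons.2 ⟨(q_9afc06139c.mono (by norm_num)),
    (List.forall_mem_cons.2 ⟨(q_48253e172f.mono (by norm_num)),
    (List.forall_mem_nil _)⟩)⟩)⟩)⟩)⟩)⟩)⟩)

theorem q_f549276fd2 : PosP 516 [464, 495, 526, 528] [431, 497, 557, 561] :=
  pos_of_cert (F := 266) (by norm_num) p_f549276fd2 (List.forall_mem_nil _)

theorem q_ab746ab726 : PosP 766 [464, 495, 526] [431, 497, 557] :=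
  pos_of_cert (F := 516) (by norm_num) p_ab746ab726 (List.forall_mem_cons.2 ⟨(q_f549276fd2.mono (by norm_num)),
    (List.forall_mem_nil _)⟩)

theorem q_ba05672b16 : PosP 1766 [495, 526] [431, 497] :=
  pos_of_cert (F := 1516) (by norm_num) p_ba05672b16 (List.forall_mem_cons.2 ⟨(q_c753a17695.mono (by norm_num)),
    (List.forall_mem_cons.2 ⟨(q_ab746ab726.mono (by norm_num)),
    (List.forall_mem_nil _)⟩)⟩)

theorem q_f1444acf94 : PosP 516 [495, 526, 559] [398, 463, 497] :=
  pos_of_cert (F := 266) (by norm_num) p_f1444acf94 (List.forall_mem_nil _)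

theorem q_cf85341162 : PosP 516 [495, 526, 559] [431, 463, 497] :=
  pos_of_cert (F := 266) (by norm_num) p_cf85341162 (List.forall_mem_nil _)

theorem q_e19838f412 : PosP 516 [495, 526, 559] [462, 463, 497] :=
  pos_of_cert (F := 266) (by norm_num) p_e19838f412 (List.forall_mem_nil _)

theorem q_bdaa8d7da8 : PosP 516 [495, 526, 559] [463, 464, 497] :=
  pos_of_cert (F := 266) (by norm_num) p_bdaa8d7da8 (List.forall_mem_nil _)

theorem q_268044e676 : PosP 516 [495, 526, 559] [463, 465, 497] :=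
  pos_of_cert (F := 266) (by norm_num) p_268044e676 (List.forall_mem_nil _)

theorem q_d8467b81a4 : PosP 516 [495, 526, 559] [463, 466, 497] :=
  pos_of_cert (F := 266) (by norm_num) p_d8467b81a4 (List.forall_mem_nil _)

theorem q_d1ce21d500 : PosP 516 [495, 526, 559] [463, 497, 530] :=
  pos_of_cert (F := 266) (by norm_num) p_d1ce21d500 (List.forall_mem_nil _)

theorem q_61cc20e55f : PosP 516 [495, 526, 559] [463, 497, 557] :=
  pos_of_cert (F := 266) (by norm_num) p_61cc20e55f (List.forall_mem_nil _)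

theorem q_fb3e048884 : PosP 516 [495, 526, 559] [463, 497, 558] :=
  pos_of_cert (F := 266) (by norm_num) p_fb3e048884 (List.forall_mem_nil _)

theorem q_670ee996cb : PosP 516 [495, 526, 559] [463, 497, 588] :=
  pos_of_cert (F := 266) (by norm_num) p_670ee996cb (List.forall_mem_nil _)

theorem q_6c9ec89ac4 : PosP 766 [495, 526] [463, 497] :=
  pos_of_cert (F := 516) (by norm_num) p_6c9ec89ac4 (List.forall_mem_cons.2 ⟨(q_f1444acf94.mono (by norm_num)),
    (List.forall_mem_cons.2 ⟨(q_cf85341162.mono (by norm_num)),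
    (List.forall_mem_cons.2 ⟨(q_3c5f82e21e.mono (by norm_num)),
    (List.forall_mem_cons.2 ⟨(q_e19838f412.mono (by norm_num)),
    (List.forall_mem_cons.2 ⟨(q_bdaa8d7da8.mono (by norm_num)),
    (List.forall_mem_cons.2 ⟨(q_268044e676.mono (by norm_num)),
    (List.forall_mem_cons.2 ⟨(q_d8467b81a4.mono (by norm_num)),
    (List.forall_mem_cons.2 ⟨(q_d1ce21d500.mono (by norm_num)),
    (List.forall_mem_cons.2 ⟨(q_61cc20e55f.mono (by norm_num)),
    (List.forall_mem_cons.2 ⟨(q_fb3e048884.mono (by norm_num)),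
    (List.forall_mem_cons.2 ⟨(q_670ee996cb.mono (by norm_num)),
    (List.forall_mem_nil _)⟩)⟩)⟩)⟩)⟩)⟩)⟩)⟩)⟩)⟩)⟩)

theorem q_9fb268645c : PosP 516 [463, 464, 495, 526, 557] [433, 465, 529, 588, 595] :=
  pos_of_cert (F := 266) (by norm_num) p_9fb268645c (List.forall_mem_nil _)

theorem q_84aabde6d0 : PosP 516 [463, 464, 495, 526, 557] [433, 529, 562, 588, 595] :=
  pos_of_cert (F := 266) (by norm_num) p_84aabde6d0 (List.forall_mem_nil _)

theorem q_56ffb0fbe5 : PosP 516 [463, 464, 495, 526, 557] [433, 529, 588, 595, 628] :=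
  pos_of_cert (F := 266) (by norm_num) p_56ffb0fbe5 (List.forall_mem_nil _)

theorem q_ddb715930d : PosP 766 [464, 495, 526, 557] [433, 529, 588, 595] :=
  pos_of_cert (F := 516) (by norm_num) p_ddb715930d (List.forall_mem_cons.2 ⟨(q_9fb268645c.mono (by norm_num)),
    (List.forall_mem_cons.2 ⟨(q_84aabde6d0.mono (by norm_num)),
    (List.forall_mem_cons.2 ⟨(q_56ffb0fbe5.mono (by norm_num)),
    (List.forall_mem_nil _)⟩)⟩)⟩)

theorem q_0e62e53845 : PosP 1016 [464, 495] [529, 595] :=
  pos_of_cert (F := 766) (by norm_num) p_0e62e53845 (List.forall_mem_cons.2 ⟨(q_ddb715930d.mono (by norm_num)),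
    (List.forall_mem_nil _)⟩)

theorem q_415ae9331c : PosP 516 [464, 465, 495] [526, 528, 530] :=
  pos_of_cert (F := 266) (by norm_num) p_415ae9331c (List.forall_mem_nil _)

theorem q_f26e7d14ba : PosP 516 [463, 495, 528] [465, 496, 561] :=
  pos_of_cert (F := 266) (by norm_num) p_f26e7d14ba (List.forall_mem_nil _)

theorem q_aef787ada7 : PosP 516 [463, 464, 495, 528, 558] [462, 496, 559, 560, 561] :=
  pos_of_cert (F := 266) (by norm_num) p_aef787ada7 (List.forall_mem_nil _)

theorem q_bae82c78e5 : PosP 516 [463, 464, 495, 528, 558] [496, 526, 559, 560, 561] :=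
  pos_of_cert (F := 266) (by norm_num) p_bae82c78e5 (List.forall_mem_nil _)

theorem q_a2109e6ee7 : PosP 516 [463, 464, 495, 528, 558] [496, 559, 560, 561, 562] :=
  pos_of_cert (F := 266) (by norm_num) p_a2109e6ee7 (List.forall_mem_nil _)

theorem q_a1403a63e9 : PosP 516 [463, 464, 495, 528, 558] [496, 559, 560, 561, 563] :=
  pos_of_cert (F := 266) (by norm_num) p_a1403a63e9 (List.forall_mem_nil _)

theorem q_34730207e6 : PosP 766 [463, 464, 495, 528] [496, 559, 560, 561] :=
  pos_of_cert (F := 516) (by norm_num) p_34730207e6 (List.forall_mem_cons.2 ⟨(q_aef787ada7.mono (by norm_num)),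
    (List.forall_mem_cons.2 ⟨(q_bae82c78e5.mono (by norm_num)),
    (List.forall_mem_cons.2 ⟨(q_a2109e6ee7.mono (by norm_num)),
    (List.forall_mem_cons.2 ⟨(q_a1403a63e9.mono (by norm_num)),
    (List.forall_mem_nil _)⟩)⟩)⟩)⟩)

theorem q_f5b91badd3 : PosP 1016 [463, 495, 528] [496, 560, 561] :=
  pos_of_cert (F := 766) (by norm_num) p_f5b91badd3 (List.forall_mem_cons.2 ⟨(q_34730207e6.mono (by norm_num)),
    (List.forall_mem_nil _)⟩)

theorem q_d871be65e8 : PosP 516 [464, 494, 495, 559] [401, 433, 497, 528] :=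
  pos_of_cert (F := 266) (by norm_num) p_d871be65e8 (List.forall_mem_nil _)

theorem q_6ea01b06fd : PosP 516 [464, 494, 495, 529, 559] [369, 433, 465, 497, 528] :=
  pos_of_cert (F := 266) (by norm_num) p_6ea01b06fd (List.forall_mem_nil _)

theorem q_029ff7aaf8 : PosP 516 [464, 494, 495, 529, 559] [401, 433, 465, 497, 528] :=
  pos_of_cert (F := 266) (by norm_num) p_029ff7aaf8 (List.forall_mem_nil _)

theorem q_30da6af947 : PosP 516 [464, 494, 495, 529, 559] [433, 465, 497, 527, 528] :=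
  pos_of_cert (F := 266) (by norm_num) p_30da6af947 (List.forall_mem_nil _)

theorem q_64e7bbf0b7 : PosP 766 [464, 494, 495, 559] [433, 465, 497, 528] :=
  pos_of_cert (F := 516) (by norm_num) p_64e7bbf0b7 (List.forall_mem_cons.2 ⟨(q_6ea01b06fd.mono (by norm_num)),
    (List.forall_mem_cons.2 ⟨(q_029ff7aaf8.mono (by norm_num)),
    (List.forall_mem_cons.2 ⟨(q_30da6af947.mono (by norm_num)),
    (List.forall_mem_nil _)⟩)⟩)⟩)

theorem q_31428e52a4 : PosP 516 [464, 465, 494, 495, 526, 559] [433, 463, 497, 528, 529, 530] :=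
  pos_of_cert (F := 266) (by norm_num) p_31428e52a4 (List.forall_mem_nil _)

theorem q_26ef378bb6 : PosP 766 [464, 465, 494, 495, 559] [433, 463, 497, 528, 529] :=
  pos_of_cert (F := 516) (by norm_num) p_26ef378bb6 (List.forall_mem_cons.2 ⟨(q_31428e52a4.mono (by norm_num)),
    (List.forall_mem_nil _)⟩)

theorem q_b9db6922cc : PosP 516 [464, 465, 494, 495, 526, 559] [433, 497, 527, 528, 529, 530] :=
  pos_of_cert (F := 266) (by norm_num) p_b9db6922cc (List.forall_mem_nil _)

theorem q_ce749b636f : PosP 766 [464, 465, 494, 495, 559] [433, 497, 527, 528, 529] :=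
  pos_of_cert (F := 516) (by norm_num) p_ce749b636f (List.forall_mem_cons.2 ⟨(q_b9db6922cc.mono (by norm_num)),
    (List.forall_mem_nil _)⟩)

theorem q_b20dab40b4 : PosP 1016 [464, 494, 495, 559] [433, 497, 528, 529] :=
  pos_of_cert (F := 766) (by norm_num) p_b20dab40b4 (List.forall_mem_cons.2 ⟨(q_26ef378bb6.mono (by norm_num)),
    (List.forall_mem_cons.2 ⟨(q_ce749b636f.mono (by norm_num)),
    (List.forall_mem_nil _)⟩)⟩)

theorem q_1d5669fa66 : PosP 516 [464, 494, 495, 559] [433, 497, 528, 561] :=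
  pos_of_cert (F := 266) (by norm_num) p_1d5669fa66 (List.forall_mem_nil _)

theorem q_93b66d7709 : PosP 1266 [464, 494, 495] [433, 497, 528] :=
  pos_of_cert (F := 1016) (by norm_num) p_93b66d7709 (List.forall_mem_cons.2 ⟨(q_d871be65e8.mono (by norm_num)),
    (List.forall_mem_cons.2 ⟨(q_64e7bbf0b7.mono (by norm_num)),
    (List.forall_mem_cons.2 ⟨(q_b20dab40b4.mono (by norm_num)),
    (List.forall_mem_cons.2 ⟨(q_1d5669fa66.mono (by norm_num)),
    (List.forall_mem_nil _)⟩)⟩)⟩)⟩)

theorem q_831c1982a9 : PosP 516 [464, 495] [336, 528] :=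
  pos_of_cert (F := 266) (by norm_num) p_831c1982a9 (List.forall_mem_nil _)

theorem q_631b70e810 : PosP 516 [464, 465, 495, 530] [523, 526, 528, 529] :=
  pos_of_cert (F := 266) (by norm_num) p_631b70e810 (List.forall_mem_nil _)

theorem q_d99d88ccd4 : PosP 516 [464, 465, 495] [524, 526, 528] :=
  pos_of_cert (F := 266) (by norm_num) p_d99d88ccd4 (List.forall_mem_nil _)

theorem q_6f1ec67732 : PosP 516 [464, 494, 495] [400, 433, 528] :=
  pos_of_cert (F := 266) (by norm_num) p_6f1ec67732 (List.forall_mem_nil _)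

theorem q_23206b1960 : PosP 516 [465, 495, 528, 529] [431, 462, 496, 527] :=
  pos_of_cert (F := 266) (by norm_num) p_23206b1960 (List.forall_mem_nil _)

theorem q_e05f40823c : PosP 516 [466, 495, 497, 528, 559, 561, 592, 594] [435, 462, 465, 496, 527, 529, 590, 627] :=
  pos_of_cert (F := 266) (by norm_num) p_e05f40823c (List.forall_mem_nil _)

theorem q_76dc6c83ef : PosP 766 [466, 495, 497, 528, 561, 594] [435, 462, 496, 527, 529, 627] :=
  pos_of_cert (F := 516) (by norm_num) p_76dc6c83ef (List.forall_mem_cons.2 ⟨(q_e05f40823c.mono (by norm_num)),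
    (List.forall_mem_nil _)⟩)

theorem q_039f2ec6dd : PosP 516 [464, 466, 495, 497, 528, 561] [435, 496, 527, 529, 558, 594] :=
  pos_of_cert (F := 266) (by norm_num) p_039f2ec6dd (List.forall_mem_nil _)

theorem q_2cfd4fd031 : PosP 516 [464, 466, 495, 497, 528, 561] [435, 496, 527, 529, 562, 594] :=
  pos_of_cert (F := 266) (by norm_num) p_2cfd4fd031 (List.forall_mem_nil _)

theorem q_1c353e04ad : PosP 766 [466, 495, 497, 528, 561] [435, 496, 527, 529, 594] :=
  pos_of_cert (F := 516) (by norm_num) p_1c353e04ad (List.forall_mem_cons.2 ⟨(q_039f2ec6dd.mono (by norm_num)),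
    (List.forall_mem_cons.2 ⟨(q_2cfd4fd031.mono (by norm_num)),
    (List.forall_mem_nil _)⟩)⟩)

theorem q_13b65cbcf2 : PosP 516 [465, 466, 495, 497, 528] [397, 496, 527, 529, 559] :=
  pos_of_cert (F := 266) (by norm_num) p_13b65cbcf2 (List.forall_mem_nil _)

theorem q_78d312d10a : PosP 516 [435, 463, 465, 466, 495, 497, 528] [404, 430, 464, 496, 527, 529, 559] :=
  pos_of_cert (F := 266) (by norm_num) p_78d312d10a (List.forall_mem_nil _)

theorem q_437bc476a8 : PosP 516 [435, 463, 465, 466, 468, 495, 497, 528] [404, 436, 464, 467, 496, 527, 529, 559] :=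
  pos_of_cert (F := 266) (by norm_num) p_437bc476a8 (List.forall_mem_nil _)

theorem q_daa4a265b0 : PosP 766 [465, 466, 495, 497, 528] [436, 496, 527, 529, 559] :=
  pos_of_cert (F := 516) (by norm_num) p_daa4a265b0 (List.forall_mem_cons.2 ⟨(q_437bc476a8.mono (by norm_num)),
    (List.forall_mem_nil _)⟩)

theorem q_ba1c085df7 : PosP 516 [435, 465, 466, 495, 497, 528, 562] [397, 404, 463, 496, 527, 529, 559] :=
  pos_of_cert (F := 266) (by norm_num) p_ba1c085df7 (List.forall_mem_nil _)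

theorem q_2de4a7c7e1 : PosP 516 [435, 465, 466, 495, 497, 528, 562] [404, 430, 463, 496, 527, 529, 559] :=
  pos_of_cert (F := 266) (by norm_num) p_2de4a7c7e1 (List.forall_mem_nil _)

theorem q_710d74cbfd : PosP 516 [435, 465, 466, 495, 497, 528, 562] [404, 463, 496, 498, 527, 529, 559] :=
  pos_of_cert (F := 266) (by norm_num) p_710d74cbfd (List.forall_mem_nil _)

theorem q_4885afa5ea : PosP 766 [435, 465, 466, 495, 497, 528] [404, 463, 496, 527, 529, 559] :=
  pos_of_cert (F := 516) (by norm_num) p_4885afa5ea (List.forall_mem_cons.2 ⟨(q_ba1c085df7.mono (by norm_num)),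
    (List.forall_mem_cons.2 ⟨(q_2de4a7c7e1.mono (by norm_num)),
    (List.forall_mem_cons.2 ⟨(q_710d74cbfd.mono (by norm_num)),
    (List.forall_mem_nil _)⟩)⟩)⟩)

theorem q_9c5cd8d0eb : PosP 516 [433, 435, 465, 466, 495, 497, 528, 562] [397, 404, 463, 464, 496, 527, 529, 559] :=
  pos_of_cert (F := 266) (by norm_num) p_9c5cd8d0eb (List.forall_mem_nil _)

theorem q_a5da24ac3b : PosP 516 [433, 435, 465, 466, 495, 497, 528, 562] [404, 430, 463, 464, 496, 527, 529, 559] :=
  pos_of_cert (F := 266) (by norm_num) p_a5da24ac3b (List.forall_mem_nil _)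

theorem q_7d44c34dd4 : PosP 766 [433, 435, 465, 466, 495, 497, 528] [404, 463, 464, 496, 527, 529, 559] :=
  pos_of_cert (F := 516) (by norm_num) p_7d44c34dd4 (List.forall_mem_cons.2 ⟨(q_9c5cd8d0eb.mono (by norm_num)),
    (List.forall_mem_cons.2 ⟨(q_a5da24ac3b.mono (by norm_num)),
    (List.forall_mem_nil _)⟩)⟩)

theorem q_7716d671ea : PosP 516 [433, 435, 463, 465, 466, 495, 497, 528, 560] [404, 464, 496, 527, 529, 559, 561, 562, 595] :=
  pos_of_cert (F := 266) (by norm_num) p_7716d671ea (List.forall_mem_nil _)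

theorem q_3e27968e9b : PosP 516 [433, 435, 463, 465, 466, 495, 497, 528, 560] [404, 464, 496, 527, 529, 559, 561, 562, 628] :=
  pos_of_cert (F := 266) (by norm_num) p_3e27968e9b (List.forall_mem_nil _)

theorem q_ef200a2588 : PosP 766 [433, 435, 463, 465, 466, 495, 497, 528] [404, 464, 496, 527, 529, 559, 561, 562] :=
  pos_of_cert (F := 516) (by norm_num) p_ef200a2588 (List.forall_mem_cons.2 ⟨(q_7716d671ea.mono (by norm_num)),
    (List.forall_mem_cons.2 ⟨(q_3e27968e9b.mono (by norm_num)),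
    (List.forall_mem_nil _)⟩)⟩)

theorem q_03d20c12ad : PosP 516 [433, 435, 463, 465, 466, 495, 497, 528] [404, 464, 496, 527, 529, 559, 562, 595] :=
  pos_of_cert (F := 266) (by norm_num) p_03d20c12ad (List.forall_mem_nil _)

theorem q_68a7e396a4 : PosP 516 [433, 435, 463, 465, 466, 495, 497, 528] [404, 464, 496, 527, 529, 559, 562, 628] :=
  pos_of_cert (F := 266) (by norm_num) p_68a7e396a4 (List.forall_mem_nil _)

theorem q_6d854f4fb3 : PosP 1016 [433, 465, 466, 495, 497, 528] [464, 496, 527, 529, 559, 562] :=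
  pos_of_cert (F := 766) (by norm_num) p_6d854f4fb3 (List.forall_mem_cons.2 ⟨(q_ef200a2588.mono (by norm_num)),
    (List.forall_mem_cons.2 ⟨(q_03d20c12ad.mono (by norm_num)),
    (List.forall_mem_cons.2 ⟨(q_68a7e396a4.mono (by norm_num)),
    (List.forall_mem_nil _)⟩)⟩)⟩)

theorem q_10680d65d8 : PosP 1266 [465, 466, 495, 497, 528] [464, 496, 527, 529, 559] :=
  pos_of_cert (F := 1016) (by norm_num) p_10680d65d8 (List.forall_mem_cons.2 ⟨(q_7d44c34dd4.mono (by norm_num)),
    (List.forall_mem_cons.2 ⟨(q_6d854f4fb3.mono (by norm_num)),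
    (List.forall_mem_nil _)⟩)⟩)

theorem q_591e57ea47 : PosP 516 [435, 463, 464, 465, 466, 495, 497, 498, 528] [404, 462, 467, 496, 527, 529, 559, 561, 562] :=
  pos_of_cert (F := 266) (by norm_num) p_591e57ea47 (List.forall_mem_nil _)

theorem q_bcb67e11fb : PosP 766 [465, 466, 495, 497, 528] [467, 496, 527, 529, 559] :=
  pos_of_cert (F := 516) (by norm_num) p_bcb67e11fb (List.forall_mem_cons.2 ⟨(q_591e57ea47.mono (by norm_num)),
    (List.forall_mem_nil _)⟩)

theorem q_fcd8ff44bf : PosP 516 [465, 466, 495, 497, 528] [468, 496, 527, 529, 559] :=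
  pos_of_cert (F := 266) (by norm_num) p_fcd8ff44bf (List.forall_mem_nil _)

theorem q_475956f043 : PosP 516 [435, 463, 465, 466, 495, 497, 528] [404, 464, 469, 496, 527, 529, 559] :=
  pos_of_cert (F := 266) (by norm_num) p_475956f043 (List.forall_mem_nil _)

theorem q_5a86b67c1a : PosP 516 [435, 463, 465, 466, 495, 497, 528, 628] [404, 464, 496, 527, 529, 559, 562, 595] :=
  pos_of_cert (F := 266) (by norm_num) p_5a86b67c1a (List.forall_mem_nil _)

theorem q_751d20c433 : PosP 516 [435, 462, 463, 465, 466, 495, 497, 499, 528, 561, 595] [404, 429, 464, 496, 527, 529, 530, 559, 562, 594, 628] :=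
  pos_of_cert (F := 266) (by norm_num) p_751d20c433 (List.forall_mem_nil _)

theorem q_d772d812c3 : PosP 766 [435, 462, 463, 465, 466, 495, 497, 528, 561, 595] [404, 429, 464, 496, 527, 529, 559, 562, 594, 628] :=
  pos_of_cert (F := 516) (by norm_num) p_d772d812c3 (List.forall_mem_cons.2 ⟨(q_751d20c433.mono (by norm_num)),
    (List.forall_mem_nil _)⟩)

theorem q_7c12d11d5d : PosP 1016 [465, 466, 495, 497, 528] [496, 527, 529, 559, 562] :=
  pos_of_cert (F := 766) (by norm_num) p_7c12d11d5d (List.forall_mem_cons.2 ⟨(q_ef200a2588.mono (by norm_num)),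
    (List.forall_mem_cons.2 ⟨(q_03d20c12ad.mono (by norm_num)),
    (List.forall_mem_cons.2 ⟨(q_68a7e396a4.mono (by norm_num)),
    (List.forall_mem_cons.2 ⟨(q_5a86b67c1a.mono (by norm_num)),
    (List.forall_mem_cons.2 ⟨(q_d772d812c3.mono (by norm_num)),
    (List.forall_mem_nil _)⟩)⟩)⟩)⟩)⟩)

theorem q_617ecb47bc : PosP 516 [465, 466, 495, 497, 528] [496, 527, 529, 559, 595] :=
  pos_of_cert (F := 266) (by norm_num) p_617ecb47bc (List.forall_mem_nil _)

theorem q_3290c65d28 : PosP 1516 [466, 495, 497, 528] [496, 527, 529, 559] :=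
  pos_of_cert (F := 1266) (by norm_num) p_3290c65d28 (List.forall_mem_cons.2 ⟨(q_13b65cbcf2.mono (by norm_num)),
    (List.forall_mem_cons.2 ⟨(q_78d312d10a.mono (by norm_num)),
    (List.forall_mem_cons.2 ⟨(q_daa4a265b0.mono (by norm_num)),
    (List.forall_mem_cons.2 ⟨(q_4885afa5ea.mono (by norm_num)),
    (List.forall_mem_cons.2 ⟨(q_10680d65d8.mono (by norm_num)),
    (List.forall_mem_cons.2 ⟨(q_bcb67e11fb.mono (by norm_num)),
    (List.forall_mem_cons.2 ⟨(q_fcd8ff44bf.mono (by norm_num)),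
    (List.forall_mem_cons.2 ⟨(q_475956f043.mono (by norm_num)),
    (List.forall_mem_cons.2 ⟨(q_7c12d11d5d.mono (by norm_num)),
    (List.forall_mem_cons.2 ⟨(q_617ecb47bc.mono (by norm_num)),
    (List.forall_mem_nil _)⟩)⟩)⟩)⟩)⟩)⟩)⟩)⟩)⟩)⟩)

theorem q_0eb9cdb0de : PosP 1766 [466, 495, 528] [496, 527, 529] :=
  pos_of_cert (F := 1516) (by norm_num) p_0eb9cdb0de (List.forall_mem_cons.2 ⟨(q_76dc6c83ef.mono (by norm_num)),
    (List.forall_mem_cons.2 ⟨(q_1c353e04ad.mono (by norm_num)),
    (List.forall_mem_cons.2 ⟨(q_3290c65d28.mono (by norm_num)),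
    (List.forall_mem_nil _)⟩)⟩)⟩)

theorem q_2782178e8f : PosP 516 [464, 495, 528] [398, 496, 559] :=
  pos_of_cert (F := 266) (by norm_num) p_2782178e8f (List.forall_mem_nil _)

theorem q_66894f4b4d : PosP 516 [464, 495, 526] [433, 563, 695] :=
  pos_of_cert (F := 266) (by norm_num) p_66894f4b4d (List.forall_mem_nil _)

theorem q_74df834497 : PosP 766 [464, 495] [563, 695] :=
  pos_of_cert (F := 516) (by norm_num) p_74df834497 (List.forall_mem_cons.2 ⟨(q_66894f4b4d.mono (by norm_num)),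
    (List.forall_mem_nil _)⟩)

theorem q_4a84fb0131 : PosP 516 [464, 494, 495] [433, 528, 530] :=
  pos_of_cert (F := 266) (by norm_num) p_4a84fb0131 (List.forall_mem_nil _)

theorem q_94f7c8bb48 : PosP 516 [495, 528, 529] [397, 462, 496] :=
  pos_of_cert (F := 266) (by norm_num) p_94f7c8bb48 (List.forall_mem_nil _)

theorem q_2ae835d08a : PosP 516 [495, 526, 559] [365, 464, 497] :=
  pos_of_cert (F := 266) (by norm_num) p_2ae835d08a (List.forall_mem_nil _)

theorem q_b666806f1c : PosP 516 [495, 526, 559] [398, 464, 497] :=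
  pos_of_cert (F := 266) (by norm_num) p_b666806f1c (List.forall_mem_nil _)

theorem q_0db969587b : PosP 516 [495, 526, 530, 559] [365, 431, 464, 497] :=
  pos_of_cert (F := 266) (by norm_num) p_0db969587b (List.forall_mem_nil _)

theorem q_c68455bbf1 : PosP 516 [495, 526, 530, 559] [369, 431, 464, 497] :=
  pos_of_cert (F := 266) (by norm_num) p_c68455bbf1 (List.forall_mem_nil _)

theorem q_0b4bf7823a : PosP 516 [495, 526, 530, 559] [397, 431, 464, 497] :=
  pos_of_cert (F := 266) (by norm_num) p_0b4bf7823a (List.forall_mem_nil _)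

theorem q_5c5d12086f : PosP 516 [495, 526, 530, 559] [398, 431, 464, 497] :=
  pos_of_cert (F := 266) (by norm_num) p_5c5d12086f (List.forall_mem_nil _)

theorem q_fcf822ab31 : PosP 516 [495, 526, 530, 559] [400, 431, 464, 497] :=
  pos_of_cert (F := 266) (by norm_num) p_fcf822ab31 (List.forall_mem_nil _)

theorem q_030a26df39 : PosP 516 [495, 526, 530, 559] [429, 431, 464, 497] :=
  pos_of_cert (F := 266) (by norm_num) p_030a26df39 (List.forall_mem_nil _)

theorem q_b124ce8bb0 : PosP 516 [495, 526, 530, 559] [431, 461, 464, 497] :=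
  pos_of_cert (F := 266) (by norm_num) p_b124ce8bb0 (List.forall_mem_nil _)

theorem q_ee0cf2c5c5 : PosP 516 [493, 495, 526, 530, 559] [431, 460, 462, 464, 497] :=
  pos_of_cert (F := 266) (by norm_num) p_ee0cf2c5c5 (List.forall_mem_nil _)

theorem q_3fa4a550fb : PosP 766 [495, 526, 530, 559] [431, 462, 464, 497] :=
  pos_of_cert (F := 516) (by norm_num) p_3fa4a550fb (List.forall_mem_cons.2 ⟨(q_ee0cf2c5c5.mono (by norm_num)),
    (List.forall_mem_nil _)⟩)

theorem q_2dae351f72 : PosP 516 [495, 526, 530, 559] [431, 464, 493, 497] :=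
  pos_of_cert (F := 266) (by norm_num) p_2dae351f72 (List.forall_mem_nil _)

theorem q_547c93c13f : PosP 516 [495, 526, 530, 559] [431, 464, 497, 499] :=
  pos_of_cert (F := 266) (by norm_num) p_547c93c13f (List.forall_mem_nil _)

theorem q_7e16c262c9 : PosP 516 [495, 526, 530, 559] [431, 464, 497, 524] :=
  pos_of_cert (F := 266) (by norm_num) p_7e16c262c9 (List.forall_mem_nil _)

theorem q_897e5ff6f9 : PosP 516 [495, 526, 530, 559] [431, 464, 497, 528] :=
  pos_of_cert (F := 266) (by norm_num) p_897e5ff6f9 (List.forall_mem_nil _)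

theorem q_f915dd4bf1 : PosP 516 [495, 526, 530, 559] [431, 464, 497, 555] :=
  pos_of_cert (F := 266) (by norm_num) p_f915dd4bf1 (List.forall_mem_nil _)

theorem q_5a5ecbf304 : PosP 516 [495, 526, 530, 559] [431, 464, 497, 558] :=
  pos_of_cert (F := 266) (by norm_num) p_5a5ecbf304 (List.forall_mem_nil _)

theorem q_31aa8437c0 : PosP 516 [495, 526, 530, 559] [431, 464, 497, 560] :=
  pos_of_cert (F := 266) (by norm_num) p_31aa8437c0 (List.forall_mem_nil _)

theorem q_50a8517a87 : PosP 516 [495, 526, 530, 559] [431, 464, 497, 561] :=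
  pos_of_cert (F := 266) (by norm_num) p_50a8517a87 (List.forall_mem_nil _)

theorem q_207b22d90e : PosP 516 [495, 526, 530, 559] [431, 464, 497, 562] :=
  pos_of_cert (F := 266) (by norm_num) p_207b22d90e (List.forall_mem_nil _)

theorem q_2a373df67e : PosP 516 [495, 526, 530, 559] [431, 464, 497, 592] :=
  pos_of_cert (F := 266) (by norm_num) p_2a373df67e (List.forall_mem_nil _)

theorem q_84902043ec : PosP 516 [495, 526, 530, 559] [431, 464, 497, 594] :=
  pos_of_cert (F := 266) (by norm_num) p_84902043ec (List.forall_mem_nil _)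

theorem q_2be58fd405 : PosP 516 [495, 526, 530, 559] [431, 464, 497, 622] :=
  pos_of_cert (F := 266) (by norm_num) p_2be58fd405 (List.forall_mem_nil _)

theorem q_d905655242 : PosP 516 [493, 495, 526, 530, 559] [431, 460, 464, 497, 623] :=
  pos_of_cert (F := 266) (by norm_num) p_d905655242 (List.forall_mem_nil _)

theorem q_f58a238097 : PosP 766 [495, 526, 530, 559] [431, 464, 497, 623] :=
  pos_of_cert (F := 516) (by norm_num) p_f58a238097 (List.forall_mem_cons.2 ⟨(q_d905655242.mono (by norm_num)),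
    (List.forall_mem_nil _)⟩)

theorem q_97cd782784 : PosP 516 [495, 526, 530, 559] [431, 464, 497, 627] :=
  pos_of_cert (F := 266) (by norm_num) p_97cd782784 (List.forall_mem_nil _)

theorem q_c2cad2c6f5 : PosP 1016 [495, 526, 559] [431, 464, 497] :=
  pos_of_cert (F := 766) (by norm_num) p_c2cad2c6f5 (List.forall_mem_cons.2 ⟨(q_0db969587b.mono (by norm_num)),
    (List.forall_mem_cons.2 ⟨(q_c68455bbf1.mono (by norm_num)),
    (List.forall_mem_cons.2 ⟨(q_0b4bf7823a.mono (by norm_num)),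
    (List.forall_mem_cons.2 ⟨(q_5c5d12086f.mono (by norm_num)),
    (List.forall_mem_cons.2 ⟨(q_fcf822ab31.mono (by norm_num)),
    (List.forall_mem_cons.2 ⟨(q_030a26df39.mono (by norm_num)),
    (List.forall_mem_cons.2 ⟨(q_b124ce8bb0.mono (by norm_num)),
    (List.forall_mem_cons.2 ⟨(q_3fa4a550fb.mono (by norm_num)),
    (List.forall_mem_cons.2 ⟨(q_2dae351f72.mono (by norm_num)),
    (List.forall_mem_cons.2 ⟨(q_547c93c13f.mono (by norm_num)),
    (List.forall_mem_cons.2 ⟨(q_7e16c262c9.mono (by norm_num)),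
    (List.forall_mem_cons.2 ⟨(q_897e5ff6f9.mono (by norm_num)),
    (List.forall_mem_cons.2 ⟨(q_f915dd4bf1.mono (by norm_num)),
    (List.forall_mem_cons.2 ⟨(q_5a5ecbf304.mono (by norm_num)),
    (List.forall_mem_cons.2 ⟨(q_31aa8437c0.mono (by norm_num)),
    (List.forall_mem_cons.2 ⟨(q_50a8517a87.mono (by norm_num)),
    (List.forall_mem_cons.2 ⟨(q_207b22d90e.mono (by norm_num)),
    (List.forall_mem_cons.2 ⟨(q_2a373df67e.mono (by norm_num)),
    (List.forall_mem_cons.2 ⟨(q_84902043ec.mono (by norm_num)),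
    (List.forall_mem_cons.2 ⟨(q_2be58fd405.mono (by norm_num)),
    (List.forall_mem_cons.2 ⟨(q_f58a238097.mono (by norm_num)),
    (List.forall_mem_cons.2 ⟨(q_97cd782784.mono (by norm_num)),
    (List.forall_mem_nil _)⟩)⟩)⟩)⟩)⟩)⟩)⟩)⟩)⟩)⟩)⟩)⟩)⟩)⟩)⟩)⟩)⟩)⟩)⟩)⟩)⟩)⟩)

theorem q_1ad3c1d217 : PosP 516 [495, 526, 559] [464, 466, 497] :=
  pos_of_cert (F := 266) (by norm_num) p_1ad3c1d217 (List.forall_mem_nil _)

theorem q_23dd37e4d3 : PosP 516 [495, 526, 559] [464, 493, 497] :=
  pos_of_cert (F := 266) (by norm_num) p_23dd37e4d3 (List.forall_mem_nil _)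

theorem q_b456cc96b0 : PosP 516 [495, 526, 559] [464, 497, 527] :=
  pos_of_cert (F := 266) (by norm_num) p_b456cc96b0 (List.forall_mem_nil _)

theorem q_d913b9675d : PosP 516 [431, 495, 526, 559] [460, 464, 497, 530] :=
  pos_of_cert (F := 266) (by norm_num) p_d913b9675d (List.forall_mem_nil _)

theorem q_64ddad145a : PosP 516 [431, 493, 494, 495, 526, 559] [460, 462, 464, 497, 530, 563] :=
  pos_of_cert (F := 266) (by norm_num) p_64ddad145a (List.forall_mem_nil _)

theorem q_62697aacf8 : PosP 766 [431, 493, 495, 526, 559] [460, 462, 464, 497, 530] :=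
  pos_of_cert (F := 516) (by norm_num) p_62697aacf8 (List.forall_mem_cons.2 ⟨(q_64ddad145a.mono (by norm_num)),
    (List.forall_mem_nil _)⟩)

theorem q_f2bfd3a396 : PosP 1016 [431, 495, 526, 559] [462, 464, 497, 530] :=
  pos_of_cert (F := 766) (by norm_num) p_f2bfd3a396 (List.forall_mem_cons.2 ⟨(q_62697aacf8.mono (by norm_num)),
    (List.forall_mem_nil _)⟩)

theorem q_b795ecd24f : PosP 516 [431, 495, 526, 559] [464, 497, 530, 563] :=
  pos_of_cert (F := 266) (by norm_num) p_b795ecd24f (List.forall_mem_nil _)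

theorem q_5775252def : PosP 516 [431, 495, 526, 559] [464, 497, 530, 596] :=
  pos_of_cert (F := 266) (by norm_num) p_5775252def (List.forall_mem_nil _)

theorem q_429b10746c : PosP 1266 [495, 526, 559] [464, 497, 530] :=
  pos_of_cert (F := 1016) (by norm_num) p_429b10746c (List.forall_mem_cons.2 ⟨(q_d913b9675d.mono (by norm_num)),
    (List.forall_mem_cons.2 ⟨(q_f2bfd3a396.mono (by norm_num)),
    (List.forall_mem_cons.2 ⟨(q_b795ecd24f.mono (by norm_num)),
    (List.forall_mem_cons.2 ⟨(q_5775252def.mono (by norm_num)),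
    (List.forall_mem_nil _)⟩)⟩)⟩)⟩)

theorem q_89fecbd1a0 : PosP 516 [495, 526, 559] [464, 497, 563] :=
  pos_of_cert (F := 266) (by norm_num) p_89fecbd1a0 (List.forall_mem_nil _)

theorem q_329f761107 : PosP 516 [495, 526, 559] [464, 497, 592] :=
  pos_of_cert (F := 266) (by norm_num) p_329f761107 (List.forall_mem_nil _)

theorem q_6584a63467 : PosP 516 [495, 526, 559] [464, 497, 596] :=
  pos_of_cert (F := 266) (by norm_num) p_6584a63467 (List.forall_mem_nil _)

theorem q_8bec435528 : PosP 1516 [495, 526] [464, 497] :=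
  pos_of_cert (F := 1266) (by norm_num) p_8bec435528 (List.forall_mem_cons.2 ⟨(q_2ae835d08a.mono (by norm_num)),
    (List.forall_mem_cons.2 ⟨(q_b666806f1c.mono (by norm_num)),
    (List.forall_mem_cons.2 ⟨(q_c2cad2c6f5.mono (by norm_num)),
    (List.forall_mem_cons.2 ⟨(q_1ad3c1d217.mono (by norm_num)),
    (List.forall_mem_cons.2 ⟨(q_23dd37e4d3.mono (by norm_num)),
    (List.forall_mem_cons.2 ⟨(q_b456cc96b0.mono (by norm_num)),
    (List.forall_mem_cons.2 ⟨(q_429b10746c.mono (by norm_num)),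
    (List.forall_mem_cons.2 ⟨(q_89fecbd1a0.mono (by norm_num)),
    (List.forall_mem_cons.2 ⟨(q_329f761107.mono (by norm_num)),
    (List.forall_mem_cons.2 ⟨(q_6584a63467.mono (by norm_num)),
    (List.forall_mem_nil _)⟩)⟩)⟩)⟩)⟩)⟩)⟩)⟩)⟩)⟩)

theorem q_69a0ec84f7 : PosP 516 [464, 495, 496, 526] [433, 562, 628, 661] :=
  pos_of_cert (F := 266) (by norm_num) p_69a0ec84f7 (List.forall_mem_nil _)

theorem q_dcd413f0c0 : PosP 766 [464, 495, 526] [433, 562, 628] :=
  pos_of_cert (F := 516) (by norm_num) p_dcd413f0c0 (List.forall_mem_cons.2 ⟨(q_69a0ec84f7.mono (by norm_num)),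
    (List.forall_mem_nil _)⟩)

theorem q_849ed70e52 : PosP 516 [433, 464, 495, 496, 526] [402, 557, 562, 595, 628] :=
  pos_of_cert (F := 266) (by norm_num) p_849ed70e52 (List.forall_mem_nil _)

theorem q_617c952c0b : PosP 516 [433, 464, 495, 496, 526] [402, 557, 562, 628, 661] :=
  pos_of_cert (F := 266) (by norm_num) p_617c952c0b (List.forall_mem_nil _)

theorem q_0e36b996ff : PosP 1016 [464, 495] [562, 628] :=
  pos_of_cert (F := 766) (by norm_num) p_0e36b996ff (List.forall_mem_cons.2 ⟨(q_dcd413f0c0.mono (by norm_num)),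
    (List.forall_mem_cons.2 ⟨(q_849ed70e52.mono (by norm_num)),
    (List.forall_mem_cons.2 ⟨(q_617c952c0b.mono (by norm_num)),
    (List.forall_mem_nil _)⟩)⟩)⟩)

theorem q_20e49eb981 : PosP 516 [433, 464, 495] [402, 562, 564] :=
  pos_of_cert (F := 266) (by norm_num) p_20e49eb981 (List.forall_mem_nil _)

theorem q_527fed7dbb : PosP 766 [464, 495] [562, 564] :=
  pos_of_cert (F := 516) (by norm_num) p_527fed7dbb (List.forall_mem_cons.2 ⟨(q_20e49eb981.mono (by norm_num)),
    (List.forall_mem_nil _)⟩)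

theorem q_6ef5551bec : PosP 516 [495, 528, 529] [401, 462, 496] :=
  pos_of_cert (F := 266) (by norm_num) p_6ef5551bec (List.forall_mem_nil _)

theorem q_0e88daa21d : PosP 516 [495, 496] [525, 595] :=
  pos_of_cert (F := 266) (by norm_num) p_0e88daa21d (List.forall_mem_nil _)

theorem q_852198bcfb : PosP 516 [463, 495] [364, 530] :=
  pos_of_cert (F := 266) (by norm_num) p_852198bcfb (List.forall_mem_nil _)

theorem q_c0f583a544 : PosP 516 [464, 465, 495] [427, 526, 528] :=
  pos_of_cert (F := 266) (by norm_num) p_c0f583a544 (List.forall_mem_nil _)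

theorem q_b6b3aee3ea : PosP 516 [463, 464, 495, 527] [431, 530, 594, 626] :=
  pos_of_cert (F := 266) (by norm_num) p_b6b3aee3ea (List.forall_mem_nil _)

theorem q_28abfce911 : PosP 766 [463, 495] [530, 626] :=
  pos_of_cert (F := 516) (by norm_num) p_28abfce911 (List.forall_mem_cons.2 ⟨(q_b6b3aee3ea.mono (by norm_num)),
    (List.forall_mem_nil _)⟩)

theorem q_f527be164d : PosP 516 [494, 495, 526] [400, 464, 561] :=
  pos_of_cert (F := 266) (by norm_num) p_f527be164d (List.forall_mem_nil _)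

theorem q_dd7d47531f : PosP 516 [494, 495, 526] [464, 492, 561] :=
  pos_of_cert (F := 266) (by norm_num) p_dd7d47531f (List.forall_mem_nil _)

theorem q_cae7216e4a : PosP 516 [494, 495, 526] [464, 493, 561] :=
  pos_of_cert (F := 266) (by norm_num) p_cae7216e4a (List.forall_mem_nil _)

theorem q_e553786c09 : PosP 516 [494, 495, 526] [464, 496, 561] :=
  pos_of_cert (F := 266) (by norm_num) p_e553786c09 (List.forall_mem_nil _)

theorem q_12f7c8e0c1 : PosP 766 [495, 526] [464, 561] :=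
  pos_of_cert (F := 516) (by norm_num) p_12f7c8e0c1 (List.forall_mem_cons.2 ⟨(q_f527be164d.mono (by norm_num)),
    (List.forall_mem_cons.2 ⟨(q_dd7d47531f.mono (by norm_num)),
    (List.forall_mem_cons.2 ⟨(q_cae7216e4a.mono (by norm_num)),
    (List.forall_mem_cons.2 ⟨(q_e553786c09.mono (by norm_num)),
    (List.forall_mem_nil _)⟩)⟩)⟩)⟩)

theorem q_9d976d164e : PosP 516 [465, 495, 497, 528, 529] [462, 496, 527, 558, 589] :=
  pos_of_cert (F := 266) (by norm_num) p_9d976d164e (List.forall_mem_nil _)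

theorem q_488205ec33 : PosP 516 [433, 465, 466, 495, 497, 528, 529, 532, 558, 590] [401, 435, 462, 464, 496, 499, 527, 559, 561, 589] :=
  pos_of_cert (F := 266) (by norm_num) p_488205ec33 (List.forall_mem_nil _)

theorem q_a22b381115 : PosP 766 [465, 495, 528, 529] [462, 496, 527, 589] :=
  pos_of_cert (F := 516) (by norm_num) p_a22b381115 (List.forall_mem_cons.2 ⟨(q_9d976d164e.mono (by norm_num)),
    (List.forall_mem_cons.2 ⟨(q_488205ec33.mono (by norm_num)),
    (List.forall_mem_nil _)⟩)⟩)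

theorem q_22a23b55ac : PosP 516 [435, 464, 465, 494, 495, 496, 526] [430, 432, 433, 434, 463, 497, 529] :=
  pos_of_cert (F := 266) (by norm_num) p_22a23b55ac (List.forall_mem_nil _)

theorem q_0b6c42c13b : PosP 766 [464, 465, 494, 495, 496, 526] [432, 433, 434, 463, 497, 529] :=
  pos_of_cert (F := 516) (by norm_num) p_0b6c42c13b (List.forall_mem_cons.2 ⟨(q_22a23b55ac.mono (by norm_num)),
    (List.forall_mem_nil _)⟩)

theorem q_409759054f : PosP 516 [400, 402, 433, 464, 495, 496, 527, 590] [371, 430, 463, 494, 526, 528, 529, 558] :=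
  pos_of_cert (F := 266) (by norm_num) p_409759054f (List.forall_mem_nil _)

theorem q_16d97f520a : PosP 766 [400, 402, 433, 464, 495, 496, 527] [371, 463, 494, 526, 528, 529, 558] :=
  pos_of_cert (F := 516) (by norm_num) p_16d97f520a (List.forall_mem_cons.2 ⟨(q_409759054f.mono (by norm_num)),
    (List.forall_mem_nil _)⟩)

theorem q_6ab4c6f5d2 : PosP 1016 [464, 495, 496] [463, 494, 529] :=
  pos_of_cert (F := 766) (by norm_num) p_6ab4c6f5d2 (List.forall_mem_cons.2 ⟨(q_16d97f520a.mono (by norm_num)),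
    (List.forall_mem_nil _)⟩)

theorem q_f5c0a7651e : PosP 1266 [464, 495] [463, 529] :=
  pos_of_cert (F := 1016) (by norm_num) p_f5c0a7651e (List.forall_mem_cons.2 ⟨(q_0b6c42c13b.mono (by norm_num)),
    (List.forall_mem_cons.2 ⟨(q_6ab4c6f5d2.mono (by norm_num)),
    (List.forall_mem_nil _)⟩)⟩)

theorem q_25b2d58695 : PosP 516 [495, 526] [497, 590] :=
  pos_of_cert (F := 266) (by norm_num) p_25b2d58695 (List.forall_mem_nil _)

theorem q_ed0e5fcbca : PosP 516 [495, 497, 528] [499, 500, 501] :=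
  pos_of_cert (F := 266) (by norm_num) p_ed0e5fcbca (List.forall_mem_nil _)

theorem q_82b1c6191f : PosP 516 [495, 497, 528] [499, 500, 502] :=
  pos_of_cert (F := 266) (by norm_num) p_82b1c6191f (List.forall_mem_nil _)

theorem q_35ed3f6763 : PosP 766 [495, 528] [499, 500] :=
  pos_of_cert (F := 516) (by norm_num) p_35ed3f6763 (List.forall_mem_cons.2 ⟨(q_ed0e5fcbca.mono (by norm_num)),
    (List.forall_mem_cons.2 ⟨(q_82b1c6191f.mono (by norm_num)),
    (List.forall_mem_nil _)⟩)⟩)

theorem q_53b0e3d8c8 : PosP 516 [464, 494, 495] [433, 493, 528] :=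
  pos_of_cert (F := 266) (by norm_num) p_53b0e3d8c8 (List.forall_mem_nil _)

theorem q_445d491607 : PosP 516 [495, 528, 529] [462, 496, 622] :=
  pos_of_cert (F := 266) (by norm_num) p_445d491607 (List.forall_mem_nil _)

theorem q_24bf650ed8 : PosP 516 [464, 465, 495, 497] [466, 496, 526, 528] :=
  pos_of_cert (F := 266) (by norm_num) p_24bf650ed8 (List.forall_mem_nil _)

theorem q_cac765fb9d : PosP 516 [464, 465, 495, 497] [466, 498, 526, 528] :=
  pos_of_cert (F := 266) (by norm_num) p_cac765fb9d (List.forall_mem_nil _)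

theorem q_fb0c4dce2b : PosP 516 [464, 465, 495, 497] [466, 499, 526, 528] :=
  pos_of_cert (F := 266) (by norm_num) p_fb0c4dce2b (List.forall_mem_nil _)

theorem q_fcd0359bce : PosP 516 [464, 465, 495, 497] [466, 526, 528, 530] :=
  pos_of_cert (F := 266) (by norm_num) p_fcd0359bce (List.forall_mem_nil _)

theorem q_236301c2dd : PosP 516 [464, 465, 495, 497] [466, 526, 528, 532] :=
  pos_of_cert (F := 266) (by norm_num) p_236301c2dd (List.forall_mem_nil _)

theorem q_7dd296b959 : PosP 766 [464, 465, 495] [466, 526, 528] :=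
  pos_of_cert (F := 516) (by norm_num) p_7dd296b959 (List.forall_mem_cons.2 ⟨(q_24bf650ed8.mono (by norm_num)),
    (List.forall_mem_cons.2 ⟨(q_cac765fb9d.mono (by norm_num)),
    (List.forall_mem_cons.2 ⟨(q_fb0c4dce2b.mono (by norm_num)),
    (List.forall_mem_cons.2 ⟨(q_fcd0359bce.mono (by norm_num)),
    (List.forall_mem_cons.2 ⟨(q_236301c2dd.mono (by norm_num)),
    (List.forall_mem_nil _)⟩)⟩)⟩)⟩)⟩)

theorem q_079c541183 : PosP 516 [465, 466, 495, 497, 528, 561] [433, 434, 435, 496, 527, 594] :=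
  pos_of_cert (F := 266) (by norm_num) p_079c541183 (List.forall_mem_nil _)

theorem q_b931cfe294 : PosP 516 [465, 466, 495, 497, 528, 561] [433, 435, 464, 496, 527, 594] :=
  pos_of_cert (F := 266) (by norm_num) p_b931cfe294 (List.forall_mem_nil _)

theorem q_03895c6772 : PosP 516 [465, 466, 495, 497, 528, 561] [433, 435, 496, 527, 529, 594] :=
  pos_of_cert (F := 266) (by norm_num) p_03895c6772 (List.forall_mem_nil _)

theorem q_6f1c7f7e38 : PosP 766 [466, 495, 497, 528, 561] [433, 435, 496, 527, 594] :=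
  pos_of_cert (F := 516) (by norm_num) p_6f1c7f7e38 (List.forall_mem_cons.2 ⟨(q_079c541183.mono (by norm_num)),
    (List.forall_mem_cons.2 ⟨(q_b931cfe294.mono (by norm_num)),
    (List.forall_mem_cons.2 ⟨(q_03895c6772.mono (by norm_num)),
    (List.forall_mem_nil _)⟩)⟩)⟩)

theorem q_6ce908c453 : PosP 516 [435, 466, 495, 497, 528] [404, 433, 496, 527, 559] :=
  pos_of_cert (F := 266) (by norm_num) p_6ce908c453 (List.forall_mem_nil _)

theorem q_871da78a1a : PosP 1016 [466, 495, 528] [433, 496, 527] :=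
  pos_of_cert (F := 766) (by norm_num) p_871da78a1a (List.forall_mem_cons.2 ⟨(q_6f1c7f7e38.mono (by norm_num)),
    (List.forall_mem_cons.2 ⟨(q_6ce908c453.mono (by norm_num)),
    (List.forall_mem_nil _)⟩)⟩)

theorem q_36b84e9edb : PosP 516 [495, 497, 528, 529] [366, 398, 462, 496] :=
  pos_of_cert (F := 266) (by norm_num) p_36b84e9edb (List.forall_mem_nil _)

theorem q_a5f9f1d4ea : PosP 516 [494, 495, 497, 528, 529] [334, 398, 430, 462, 496] :=
  pos_of_cert (F := 266) (by norm_num) p_a5f9f1d4ea (List.forall_mem_nil _)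

theorem q_64a6ecc2a7 : PosP 516 [494, 495, 497, 528, 529] [366, 398, 430, 462, 496] :=
  pos_of_cert (F := 266) (by norm_num) p_64a6ecc2a7 (List.forall_mem_nil _)

theorem q_0e7de6a068 : PosP 766 [495, 497, 528, 529] [398, 430, 462, 496] :=
  pos_of_cert (F := 516) (by norm_num) p_0e7de6a068 (List.forall_mem_cons.2 ⟨(q_a5f9f1d4ea.mono (by norm_num)),
    (List.forall_mem_cons.2 ⟨(q_64a6ecc2a7.mono (by norm_num)),
    (List.forall_mem_nil _)⟩)⟩)

theorem q_8cc6a54de6 : PosP 1016 [495, 528, 529] [398, 462, 496] :=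
  pos_of_cert (F := 766) (by norm_num) p_8cc6a54de6 (List.forall_mem_cons.2 ⟨(q_36b84e9edb.mono (by norm_num)),
    (List.forall_mem_cons.2 ⟨(q_0e7de6a068.mono (by norm_num)),
    (List.forall_mem_nil _)⟩)⟩)

theorem q_40d0ca7a14 : PosP 516 [464, 494, 495, 496] [493, 594, 627, 660] :=
  pos_of_cert (F := 266) (by norm_num) p_40d0ca7a14 (List.forall_mem_nil _)

theorem q_8bd34a3a9e : PosP 766 [494, 495, 496] [493, 594, 627] :=
  pos_of_cert (F := 516) (by norm_num) p_8bd34a3a9e (List.forall_mem_cons.2 ⟨(q_40d0ca7a14.mono (by norm_num)),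
    (List.forall_mem_nil _)⟩)

theorem q_09d703fe62 : PosP 516 [494, 495, 496, 528] [497, 594, 627, 660] :=
  pos_of_cert (F := 266) (by norm_num) p_09d703fe62 (List.forall_mem_nil _)

theorem q_f001e1820e : PosP 1016 [495, 496] [594, 627] :=
  pos_of_cert (F := 766) (by norm_num) p_f001e1820e (List.forall_mem_cons.2 ⟨(q_8bd34a3a9e.mono (by norm_num)),
    (List.forall_mem_cons.2 ⟨(q_09d703fe62.mono (by norm_num)),
    (List.forall_mem_nil _)⟩)⟩)

theorem q_7b87511a4b : PosP 516 [433, 464, 495] [402, 498, 562] :=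
  pos_of_cert (F := 266) (by norm_num) p_7b87511a4b (List.forall_mem_nil _)

theorem q_e96447df4f : PosP 766 [464, 495] [498, 562] :=
  pos_of_cert (F := 516) (by norm_num) p_e96447df4f (List.forall_mem_cons.2 ⟨(q_7b87511a4b.mono (by norm_num)),
    (List.forall_mem_nil _)⟩)

theorem q_f662e09ab5 : PosP 516 [463, 464, 495, 527, 528] [431, 529, 530, 531, 532] :=
  pos_of_cert (F := 266) (by norm_num) p_f662e09ab5 (List.forall_mem_nil _)

end Pool.Agent.Helper225.G
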