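import Pool.Agent.Helper225.GTab
import Pool.Agent.Helper225.Cert.MV_47
import Pool.Agent.Helper225.Cert.MV_48
import Pool.Agent.Helper225.Cert.MV_49
import Pool.Agent.Helper225.Cert.MV_50
import Pool.Agent.Helper225.Cert.MV_51
import Pool.Agent.Helper225.Cert.MV_52
import Pool.Agent.Helper225.Cert.MV_53
import Pool.Agent.Helper225.Cert.MV_54
import Pool.Agent.Helper225.Cert.MV_55
import Pool.Agent.Helper225.Cert.MV_56
import Pool.Agent.Helper225.Cert.MV_57
import Pool.Agent.Helper225.Cert.MV_58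
import Pool.Agent.Helper225.Cert.MV_59
import Pool.Agent.Helper225.Cert.MV_60
import Pool.Agent.Helper225.Cert.MV_61
import Pool.Agent.Helper225.Cert.MV_62
import Pool.Agent.Helper225.Cert.MV_63
import Pool.Agent.Helper225.Cert.MV_64
import Pool.Agent.Helper225.Cls.QV_2

set_option autoImplicit false
set_option maxRecDepth 1000000

namespace Pool.Agent.Helper225.G

theorem q_e60bec2b29 : PosP 766 [463, 464, 495, 527] [431, 529, 530, 531] :=
  pos_of_cert (F := 516) (by norm_num) p_e60bec2b29 (List.forall_mem_cons.2 ⟨(q_f662e09ab5.mono (by norm_num)),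
    (List.forall_mem_nil _)⟩)

theorem q_9e0edc71b3 : PosP 1016 [463, 495, 527] [431, 529, 530] :=
  pos_of_cert (F := 766) (by norm_num) p_9e0edc71b3 (List.forall_mem_cons.2 ⟨(q_e60bec2b29.mono (by norm_num)),
    (List.forall_mem_cons.2 ⟨(q_f662e09ab5.mono (by norm_num)),
    (List.forall_mem_nil _)⟩)⟩)

theorem q_d5fd49761f : PosP 1266 [463, 495] [529, 530] :=
  pos_of_cert (F := 1016) (by norm_num) p_d5fd49761f (List.forall_mem_cons.2 ⟨(q_9e0edc71b3.mono (by norm_num)),
    (List.forall_mem_nil _)⟩)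

theorem q_74d303a557 : PosP 516 [465, 495, 528, 529] [462, 496, 527, 530] :=
  pos_of_cert (F := 266) (by norm_num) p_74d303a557 (List.forall_mem_nil _)

theorem q_c461519128 : PosP 516 [464, 495, 528] [400, 496, 559] :=
  pos_of_cert (F := 266) (by norm_num) p_c461519128 (List.forall_mem_nil _)

theorem q_2606efed30 : PosP 516 [464, 495] [404, 528] :=
  pos_of_cert (F := 266) (by norm_num) p_2606efed30 (List.forall_mem_nil _)

theorem q_ee4320c4da : PosP 516 [464, 495, 526] [531, 535, 557] :=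
  pos_of_cert (F := 266) (by norm_num) p_ee4320c4da (List.forall_mem_nil _)

theorem q_746cef0790 : PosP 766 [464, 495] [531, 535] :=
  pos_of_cert (F := 516) (by norm_num) p_746cef0790 (List.forall_mem_cons.2 ⟨(q_ee4320c4da.mono (by norm_num)),
    (List.forall_mem_nil _)⟩)

theorem q_bb340ed2d2 : PosP 516 [464, 465, 495] [498, 526, 528] :=
  pos_of_cert (F := 266) (by norm_num) p_bb340ed2d2 (List.forall_mem_nil _)

theorem q_8743510f6e : PosP 516 [463, 465, 495, 528] [496, 525, 527, 561] :=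
  pos_of_cert (F := 266) (by norm_num) p_8743510f6e (List.forall_mem_nil _)

theorem q_f1a71c076d : PosP 516 [464, 495, 497] [559, 560, 562] :=
  pos_of_cert (F := 266) (by norm_num) p_f1a71c076d (List.forall_mem_nil _)

theorem q_a88e69fa5e : PosP 766 [464, 495] [559, 562] :=
  pos_of_cert (F := 516) (by norm_num) p_a88e69fa5e (List.forall_mem_cons.2 ⟨(q_f1a71c076d.mono (by norm_num)),
    (List.forall_mem_nil _)⟩)

theorem q_dd1ce95ca1 : PosP 516 [495, 526, 559] [401, 433, 497] :=
  pos_of_cert (F := 266) (by norm_num) p_dd1ce95ca1 (List.forall_mem_nil _)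

theorem q_21eb2dc4df : PosP 516 [495, 526, 559] [433, 465, 497] :=
  pos_of_cert (F := 266) (by norm_num) p_21eb2dc4df (List.forall_mem_nil _)

theorem q_2fcd2fb448 : PosP 516 [495, 526, 559] [433, 497, 529] :=
  pos_of_cert (F := 266) (by norm_num) p_2fcd2fb448 (List.forall_mem_nil _)

theorem q_83a507da90 : PosP 766 [495, 526] [433, 497] :=
  pos_of_cert (F := 516) (by norm_num) p_83a507da90 (List.forall_mem_cons.2 ⟨(q_dd1ce95ca1.mono (by norm_num)),
    (List.forall_mem_cons.2 ⟨(q_21eb2dc4df.mono (by norm_num)),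
    (List.forall_mem_cons.2 ⟨(q_2fcd2fb448.mono (by norm_num)),
    (List.forall_mem_nil _)⟩)⟩)⟩)

theorem q_7a2063be78 : PosP 516 [495, 526, 559] [401, 465, 497] :=
  pos_of_cert (F := 266) (by norm_num) p_7a2063be78 (List.forall_mem_nil _)

theorem q_2e4c935ce8 : PosP 516 [495, 526, 559] [401, 497, 529] :=
  pos_of_cert (F := 266) (by norm_num) p_2e4c935ce8 (List.forall_mem_nil _)

theorem q_610cd3c06f : PosP 766 [495, 526] [401, 497] :=
  pos_of_cert (F := 516) (by norm_num) p_610cd3c06f (List.forall_mem_cons.2 ⟨(q_dd1ce95ca1.mono (by norm_num)),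
    (List.forall_mem_cons.2 ⟨(q_7a2063be78.mono (by norm_num)),
    (List.forall_mem_cons.2 ⟨(q_2e4c935ce8.mono (by norm_num)),
    (List.forall_mem_nil _)⟩)⟩)⟩)

theorem q_f9cc471e8d : PosP 516 [466, 495, 528] [496, 527, 628] :=
  pos_of_cert (F := 266) (by norm_num) p_f9cc471e8d (List.forall_mem_nil _)

theorem q_137c74e7ca : PosP 516 [367, 433, 463, 464, 465, 466, 495, 528, 557, 558] [400, 402, 462, 467, 496, 497, 526, 527, 561, 589] :=
  pos_of_cert (F := 266) (by norm_num) p_137c74e7ca (List.forall_mem_nil _)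

theorem q_edf49f0ca7 : PosP 766 [463, 465, 495, 528] [496, 527, 561, 589] :=
  pos_of_cert (F := 516) (by norm_num) p_edf49f0ca7 (List.forall_mem_cons.2 ⟨(q_137c74e7ca.mono (by norm_num)),
    (List.forall_mem_cons.2 ⟨(q_27ff98dc0c.mono (by norm_num)),
    (List.forall_mem_nil _)⟩)⟩)

theorem q_facbda4234 : PosP 516 [465, 495, 528, 529] [461, 462, 496, 527] :=
  pos_of_cert (F := 266) (by norm_num) p_facbda4234 (List.forall_mem_nil _)

theorem q_bc33b2f6b2 : PosP 516 [466, 495, 528] [496, 527, 592] :=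
  pos_of_cert (F := 266) (by norm_num) p_bc33b2f6b2 (List.forall_mem_nil _)

theorem q_f469d5d04a : PosP 516 [464, 495, 526, 527, 557] [433, 497, 525, 561, 588] :=
  pos_of_cert (F := 266) (by norm_num) p_f469d5d04a (List.forall_mem_nil _)

theorem q_c6ea231137 : PosP 516 [464, 495, 526, 527, 557] [433, 497, 529, 561, 588] :=
  pos_of_cert (F := 266) (by norm_num) p_c6ea231137 (List.forall_mem_nil _)

theorem q_266ce411f2 : PosP 516 [464, 495, 524, 525, 526, 527, 557] [433, 497, 523, 528, 559, 561, 588] :=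
  pos_of_cert (F := 266) (by norm_num) p_266ce411f2 (List.forall_mem_nil _)

theorem q_545a5661a8 : PosP 766 [464, 495, 526, 527, 557] [433, 497, 559, 561, 588] :=
  pos_of_cert (F := 516) (by norm_num) p_545a5661a8 (List.forall_mem_cons.2 ⟨(q_266ce411f2.mono (by norm_num)),
    (List.forall_mem_nil _)⟩)

theorem q_ecd62e3b15 : PosP 1016 [464, 495, 526, 557] [433, 497, 561, 588] :=
  pos_of_cert (F := 766) (by norm_num) p_ecd62e3b15 (List.forall_mem_cons.2 ⟨(q_f469d5d04a.mono (by norm_num)),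
    (List.forall_mem_cons.2 ⟨(q_c6ea231137.mono (by norm_num)),
    (List.forall_mem_cons.2 ⟨(q_545a5661a8.mono (by norm_num)),
    (List.forall_mem_nil _)⟩)⟩)⟩)

theorem q_5c2ce892d4 : PosP 516 [433, 463, 464, 495, 526] [402, 431, 497, 557, 561] :=
  pos_of_cert (F := 266) (by norm_num) p_5c2ce892d4 (List.forall_mem_nil _)

theorem q_5bfd4a4153 : PosP 766 [433, 464, 495, 526] [402, 497, 557, 561] :=
  pos_of_cert (F := 516) (by norm_num) p_5bfd4a4153 (List.forall_mem_cons.2 ⟨(q_5c2ce892d4.mono (by norm_num)),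
    (List.forall_mem_nil _)⟩)

theorem q_7fd2ad3e1e : PosP 1266 [495, 526] [497, 561] :=
  pos_of_cert (F := 1016) (by norm_num) p_7fd2ad3e1e (List.forall_mem_cons.2 ⟨(q_ecd62e3b15.mono (by norm_num)),
    (List.forall_mem_cons.2 ⟨(q_5bfd4a4153.mono (by norm_num)),
    (List.forall_mem_nil _)⟩)⟩)

theorem q_c3ce44bccf : PosP 516 [495, 526] [494, 564] :=
  pos_of_cert (F := 266) (by norm_num) p_c3ce44bccf (List.forall_mem_nil _)

theorem q_8e64e05cb7 : PosP 516 [431, 433, 464, 495, 526] [402, 557, 561, 594, 660] :=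
  pos_of_cert (F := 266) (by norm_num) p_8e64e05cb7 (List.forall_mem_nil _)

theorem q_a78a28af38 : PosP 766 [433, 464, 495, 526] [402, 557, 561, 594] :=
  pos_of_cert (F := 516) (by norm_num) p_a78a28af38 (List.forall_mem_cons.2 ⟨(q_8e64e05cb7.mono (by norm_num)),
    (List.forall_mem_nil _)⟩)

theorem q_2430c9c6ad : PosP 1016 [464, 495] [561, 594] :=
  pos_of_cert (F := 766) (by norm_num) p_2430c9c6ad (List.forall_mem_cons.2 ⟨(q_a78a28af38.mono (by norm_num)),
    (List.forall_mem_nil _)⟩)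

theorem q_4e284094b6 : PosP 516 [464, 495, 526, 529, 557, 559] [369, 433, 465, 497, 530, 588] :=
  pos_of_cert (F := 266) (by norm_num) p_4e284094b6 (List.forall_mem_nil _)

theorem q_cbab5a1c5d : PosP 516 [464, 495, 526, 529, 557, 559] [401, 433, 465, 497, 530, 588] :=
  pos_of_cert (F := 266) (by norm_num) p_cbab5a1c5d (List.forall_mem_nil _)

theorem q_f6492c46a1 : PosP 766 [464, 495, 526, 557, 559] [433, 465, 497, 530, 588] :=
  pos_of_cert (F := 516) (by norm_num) p_f6492c46a1 (List.forall_mem_cons.2 ⟨(q_4e284094b6.mono (by norm_num)),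
    (List.forall_mem_cons.2 ⟨(q_cbab5a1c5d.mono (by norm_num)),
    (List.forall_mem_nil _)⟩)⟩)

theorem q_d34d4d2932 : PosP 516 [464, 495, 526, 559] [433, 497, 529, 530] :=
  pos_of_cert (F := 266) (by norm_num) p_d34d4d2932 (List.forall_mem_nil _)

theorem q_e67ae021ce : PosP 1016 [464, 495, 526] [433, 497, 530] :=
  pos_of_cert (F := 766) (by norm_num) p_e67ae021ce (List.forall_mem_cons.2 ⟨(q_f6492c46a1.mono (by norm_num)),
    (List.forall_mem_cons.2 ⟨(q_d34d4d2932.mono (by norm_num)),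
    (List.forall_mem_nil _)⟩)⟩)

theorem q_0fff7cba79 : PosP 1266 [495, 526] [497, 530] :=
  pos_of_cert (F := 1016) (by norm_num) p_0fff7cba79 (List.forall_mem_cons.2 ⟨(q_e67ae021ce.mono (by norm_num)),
    (List.forall_mem_nil _)⟩)

theorem q_5468025924 : PosP 516 [464, 495] [403, 596] :=
  pos_of_cert (F := 266) (by norm_num) p_5468025924 (List.forall_mem_nil _)

theorem q_a51bc4390b : PosP 516 [462, 495, 526, 528] [468, 496, 530, 561] :=
  pos_of_cert (F := 266) (by norm_num) p_a51bc4390b (List.forall_mem_nil _)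

theorem q_ee3ba89b9b : PosP 516 [429, 462, 495, 526, 528, 592] [396, 437, 496, 499, 530, 561] :=
  pos_of_cert (F := 266) (by norm_num) p_ee3ba89b9b (List.forall_mem_nil _)

theorem q_4199d18107 : PosP 516 [429, 462, 495, 526, 528, 592] [396, 468, 496, 499, 530, 561] :=
  pos_of_cert (F := 266) (by norm_num) p_4199d18107 (List.forall_mem_nil _)

theorem q_eeb52b433e : PosP 516 [429, 462, 495, 526, 528, 592] [396, 496, 497, 499, 530, 561] :=
  pos_of_cert (F := 266) (by norm_num) p_eeb52b433e (List.forall_mem_nil _)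

theorem q_275f5f1440 : PosP 766 [429, 462, 495, 526, 528] [396, 496, 499, 530, 561] :=
  pos_of_cert (F := 516) (by norm_num) p_275f5f1440 (List.forall_mem_cons.2 ⟨(q_ee3ba89b9b.mono (by norm_num)),
    (List.forall_mem_cons.2 ⟨(q_4199d18107.mono (by norm_num)),
    (List.forall_mem_cons.2 ⟨(q_eeb52b433e.mono (by norm_num)),
    (List.forall_mem_nil _)⟩)⟩)⟩)

theorem q_c7e38370af : PosP 516 [429, 462, 495, 526, 528, 623] [396, 496, 499, 530, 561, 592] :=
  pos_of_cert (F := 266) (by norm_num) p_c7e38370af (List.forall_mem_nil _)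

theorem q_d7534bb220 : PosP 766 [429, 462, 495, 526, 528] [396, 496, 530, 561, 592] :=
  pos_of_cert (F := 516) (by norm_num) p_d7534bb220 (List.forall_mem_cons.2 ⟨(q_c7e38370af.mono (by norm_num)),
    (List.forall_mem_nil _)⟩)

theorem q_1aa7665a75 : PosP 1016 [462, 495, 528] [496, 530, 561] :=
  pos_of_cert (F := 766) (by norm_num) p_1aa7665a75 (List.forall_mem_cons.2 ⟨(q_a51bc4390b.mono (by norm_num)),
    (List.forall_mem_cons.2 ⟨(q_275f5f1440.mono (by norm_num)),
    (List.forall_mem_cons.2 ⟨(q_d7534bb220.mono (by norm_num)),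
    (List.forall_mem_nil _)⟩)⟩)⟩)

theorem q_3c5f1e3aee : PosP 1266 [495, 528] [496, 530] :=
  pos_of_cert (F := 1016) (by norm_num) p_3c5f1e3aee (List.forall_mem_cons.2 ⟨(q_1aa7665a75.mono (by norm_num)),
    (List.forall_mem_nil _)⟩)

theorem q_836ef45b02 : PosP 516 [431, 463, 495] [527, 530, 534] :=
  pos_of_cert (F := 266) (by norm_num) p_836ef45b02 (List.forall_mem_nil _)

theorem q_b5c6b982f1 : PosP 766 [463, 495] [530, 534] :=
  pos_of_cert (F := 516) (by norm_num) p_b5c6b982f1 (List.forall_mem_cons.2 ⟨(q_836ef45b02.mono (by norm_num)),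
    (List.forall_mem_nil _)⟩)

theorem q_17300514c9 : PosP 516 [464, 495, 526, 559] [433, 465, 528, 529] :=
  pos_of_cert (F := 266) (by norm_num) p_17300514c9 (List.forall_mem_nil _)

theorem q_692c697510 : PosP 516 [464, 495, 526, 559] [433, 528, 529, 560] :=
  pos_of_cert (F := 266) (by norm_num) p_692c697510 (List.forall_mem_nil _)

theorem q_4072628f9c : PosP 766 [464, 495, 526] [433, 528, 529] :=
  pos_of_cert (F := 516) (by norm_num) p_4072628f9c (List.forall_mem_cons.2 ⟨(q_17300514c9.mono (by norm_num)),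
    (List.forall_mem_cons.2 ⟨(q_5937c64ce9.mono (by norm_num)),
    (List.forall_mem_cons.2 ⟨(q_692c697510.mono (by norm_num)),
    (List.forall_mem_nil _)⟩)⟩)⟩)

theorem q_85f3b6de5f : PosP 1016 [464, 495] [528, 529] :=
  pos_of_cert (F := 766) (by norm_num) p_85f3b6de5f (List.forall_mem_cons.2 ⟨(q_4072628f9c.mono (by norm_num)),
    (List.forall_mem_nil _)⟩)

theorem q_59aa10f04e : PosP 516 [464, 495, 526, 559] [369, 433, 465, 528] :=
  pos_of_cert (F := 266) (by norm_num) p_59aa10f04e (List.forall_mem_nil _)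

theorem q_f94cf87773 : PosP 516 [464, 495, 526, 557, 559] [401, 433, 465, 528, 588] :=
  pos_of_cert (F := 266) (by norm_num) p_f94cf87773 (List.forall_mem_nil _)

theorem q_16fd0651e7 : PosP 1016 [464, 495, 526] [433, 465, 528] :=
  pos_of_cert (F := 766) (by norm_num) p_16fd0651e7 (List.forall_mem_cons.2 ⟨(q_59aa10f04e.mono (by norm_num)),
    (List.forall_mem_cons.2 ⟨(q_f94cf87773.mono (by norm_num)),
    (List.forall_mem_cons.2 ⟨(q_68c43c6874.mono (by norm_num)),
    (List.forall_mem_cons.2 ⟨(q_17300514c9.mono (by norm_num)),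
    (List.forall_mem_nil _)⟩)⟩)⟩)⟩)

theorem q_2b2dc365aa : PosP 516 [464, 494, 495, 526] [465, 493, 528, 557] :=
  pos_of_cert (F := 266) (by norm_num) p_2b2dc365aa (List.forall_mem_nil _)

theorem q_7a4588a82d : PosP 516 [464, 494, 495, 526] [465, 496, 528, 557] :=
  pos_of_cert (F := 266) (by norm_num) p_7a4588a82d (List.forall_mem_nil _)

theorem q_fda780c593 : PosP 766 [464, 495, 526] [465, 528, 557] :=
  pos_of_cert (F := 516) (by norm_num) p_fda780c593 (List.forall_mem_cons.2 ⟨(q_2b2dc365aa.mono (by norm_num)),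
    (List.forall_mem_cons.2 ⟨(q_7a4588a82d.mono (by norm_num)),
    (List.forall_mem_nil _)⟩)⟩)

theorem q_dfb1eb7c37 : PosP 1266 [464, 495] [465, 528] :=
  pos_of_cert (F := 1016) (by norm_num) p_dfb1eb7c37 (List.forall_mem_cons.2 ⟨(q_16fd0651e7.mono (by norm_num)),
    (List.forall_mem_cons.2 ⟨(q_fda780c593.mono (by norm_num)),
    (List.forall_mem_nil _)⟩)⟩)

theorem q_fac7921762 : PosP 516 [463, 464, 495] [465, 496, 529] :=
  pos_of_cert (F := 266) (by norm_num) p_fac7921762 (List.forall_mem_nil _)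

theorem q_155a9a80c8 : PosP 516 [463, 464, 495] [496, 527, 529] :=
  pos_of_cert (F := 266) (by norm_num) p_155a9a80c8 (List.forall_mem_nil _)

theorem q_502e4f4cf4 : PosP 766 [464, 495] [496, 529] :=
  pos_of_cert (F := 516) (by norm_num) p_502e4f4cf4 (List.forall_mem_cons.2 ⟨(q_fac7921762.mono (by norm_num)),
    (List.forall_mem_cons.2 ⟨(q_155a9a80c8.mono (by norm_num)),
    (List.forall_mem_nil _)⟩)⟩)

theorem q_1d393a2897 : PosP 516 [433, 464, 495] [526, 560, 563] :=
  pos_of_cert (F := 266) (by norm_num) p_1d393a2897 (List.forall_mem_nil _)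

theorem q_aee0cc6452 : PosP 766 [464, 495] [560, 563] :=
  pos_of_cert (F := 516) (by norm_num) p_aee0cc6452 (List.forall_mem_cons.2 ⟨(q_1d393a2897.mono (by norm_num)),
    (List.forall_mem_nil _)⟩)

theorem q_d2906ca324 : PosP 516 [430, 464, 465, 495, 497] [462, 463, 494, 526, 528] :=
  pos_of_cert (F := 266) (by norm_num) p_d2906ca324 (List.forall_mem_nil _)

theorem q_e7cfaae9f1 : PosP 516 [430, 464, 465, 495, 497] [462, 494, 496, 526, 528] :=
  pos_of_cert (F := 266) (by norm_num) p_e7cfaae9f1 (List.forall_mem_nil _)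

theorem q_0600c6e512 : PosP 516 [430, 464, 465, 495, 497] [462, 494, 524, 526, 528] :=
  pos_of_cert (F := 266) (by norm_num) p_0600c6e512 (List.forall_mem_nil _)

theorem q_8662eeaad3 : PosP 516 [430, 464, 465, 495, 497, 529] [433, 462, 494, 526, 527, 528] :=
  pos_of_cert (F := 266) (by norm_num) p_8662eeaad3 (List.forall_mem_nil _)

theorem q_5acf8605ec : PosP 766 [430, 464, 465, 495, 497] [462, 494, 526, 527, 528] :=
  pos_of_cert (F := 516) (by norm_num) p_5acf8605ec (List.forall_mem_cons.2 ⟨(q_8662eeaad3.mono (by norm_num)),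
    (List.forall_mem_nil _)⟩)

theorem q_c3c68bf622 : PosP 516 [430, 464, 465, 495, 497, 527] [431, 462, 494, 526, 528, 529] :=
  pos_of_cert (F := 266) (by norm_num) p_c3c68bf622 (List.forall_mem_nil _)

theorem q_10d9f6d175 : PosP 516 [430, 464, 465, 495, 497, 527] [462, 494, 526, 528, 529, 530] :=
  pos_of_cert (F := 266) (by norm_num) p_10d9f6d175 (List.forall_mem_nil _)

theorem q_efb02a3436 : PosP 516 [430, 464, 465, 495, 497, 527, 590] [431, 462, 494, 526, 528, 529, 558] :=
  pos_of_cert (F := 266) (by norm_num) p_efb02a3436 (List.forall_mem_nil _)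

theorem q_cbb972f560 : PosP 766 [430, 464, 465, 495, 497] [462, 494, 526, 528, 529] :=
  pos_of_cert (F := 516) (by norm_num) p_cbb972f560 (List.forall_mem_cons.2 ⟨(q_c3c68bf622.mono (by norm_num)),
    (List.forall_mem_cons.2 ⟨(q_10d9f6d175.mono (by norm_num)),
    (List.forall_mem_cons.2 ⟨(q_efb02a3436.mono (by norm_num)),
    (List.forall_mem_nil _)⟩)⟩)⟩)

theorem q_1195c12f04 : PosP 516 [430, 464, 465, 495, 497] [462, 494, 526, 528, 530] :=
  pos_of_cert (F := 266) (by norm_num) p_1195c12f04 (List.forall_mem_nil _)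

theorem q_f6925a092b : PosP 766 [430, 464, 465, 495, 497] [462, 494, 526, 528, 558] :=
  pos_of_cert (F := 516) (by norm_num) p_f6925a092b (List.forall_mem_cons.2 ⟨(q_efb02a3436.mono (by norm_num)),
    (List.forall_mem_nil _)⟩)

theorem q_5f79163fdc : PosP 516 [430, 464, 465, 495, 497] [462, 494, 526, 528, 590] :=
  pos_of_cert (F := 266) (by norm_num) p_5f79163fdc (List.forall_mem_nil _)

theorem q_f3f4a04a59 : PosP 1016 [464, 465, 495, 497] [462, 494, 526, 528] :=
  pos_of_cert (F := 766) (by norm_num) p_f3f4a04a59 (List.forall_mem_cons.2 ⟨(q_d2906ca324.mono (by norm_num)),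
    (List.forall_mem_cons.2 ⟨(q_e7cfaae9f1.mono (by norm_num)),
    (List.forall_mem_cons.2 ⟨(q_0600c6e512.mono (by norm_num)),
    (List.forall_mem_cons.2 ⟨(q_5acf8605ec.mono (by norm_num)),
    (List.forall_mem_cons.2 ⟨(q_cbb972f560.mono (by norm_num)),
    (List.forall_mem_cons.2 ⟨(q_1195c12f04.mono (by norm_num)),
    (List.forall_mem_cons.2 ⟨(q_f6925a092b.mono (by norm_num)),
    (List.forall_mem_cons.2 ⟨(q_5f79163fdc.mono (by norm_num)),
    (List.forall_mem_nil _)⟩)⟩)⟩)⟩)⟩)⟩)⟩)⟩)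

theorem q_4c1c30cd85 : PosP 1266 [464, 465, 495] [462, 526, 528] :=
  pos_of_cert (F := 1016) (by norm_num) p_4c1c30cd85 (List.forall_mem_cons.2 ⟨(q_f3f4a04a59.mono (by norm_num)),
    (List.forall_mem_nil _)⟩)

theorem q_6d2dafe744 : PosP 516 [464, 465, 495, 526, 527, 557, 622] [433, 497, 529, 560, 588, 590, 591] :=
  pos_of_cert (F := 266) (by norm_num) p_6d2dafe744 (List.forall_mem_nil _)

theorem q_b4ec33bddd : PosP 766 [464, 465, 495, 526, 527, 557] [433, 497, 529, 560, 588, 591] :=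
  pos_of_cert (F := 516) (by norm_num) p_b4ec33bddd (List.forall_mem_cons.2 ⟨(q_6d2dafe744.mono (by norm_num)),
    (List.forall_mem_nil _)⟩)

theorem q_ba1a57a0f4 : PosP 1016 [464, 495, 526, 527, 557] [433, 497, 529, 560, 588] :=
  pos_of_cert (F := 766) (by norm_num) p_ba1a57a0f4 (List.forall_mem_cons.2 ⟨(q_b4ec33bddd.mono (by norm_num)),
    (List.forall_mem_nil _)⟩)

theorem q_6f4fc2ed43 : PosP 1266 [464, 495, 526, 557] [433, 497, 560, 588] :=
  pos_of_cert (F := 1016) (by norm_num) p_6f4fc2ed43 (List.forall_mem_cons.2 ⟨(q_ba1a57a0f4.mono (by norm_num)),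
    (List.forall_mem_nil _)⟩)

theorem q_d87d0af9f1 : PosP 1516 [495, 526] [497, 560] :=
  pos_of_cert (F := 1266) (by norm_num) p_d87d0af9f1 (List.forall_mem_cons.2 ⟨(q_6f4fc2ed43.mono (by norm_num)),
    (List.forall_mem_nil _)⟩)

theorem q_72643b9a5a : PosP 516 [433, 464, 495] [402, 562, 594] :=
  pos_of_cert (F := 266) (by norm_num) p_72643b9a5a (List.forall_mem_nil _)

theorem q_37630d78bc : PosP 516 [402, 433, 463, 464, 465, 495, 497, 498] [371, 466, 496, 526, 529, 530, 562, 594] :=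
  pos_of_cert (F := 266) (by norm_num) p_37630d78bc (List.forall_mem_nil _)

theorem q_5f82bcad7a : PosP 766 [402, 433, 464, 465, 495, 497, 498] [371, 496, 526, 529, 530, 562, 594] :=
  pos_of_cert (F := 516) (by norm_num) p_5f82bcad7a (List.forall_mem_cons.2 ⟨(q_37630d78bc.mono (by norm_num)),
    (List.forall_mem_nil _)⟩)

theorem q_d993114c3b : PosP 1016 [433, 464, 495, 497] [526, 530, 562, 594] :=
  pos_of_cert (F := 766) (by norm_num) p_d993114c3b (List.forall_mem_cons.2 ⟨(q_5f82bcad7a.mono (by norm_num)),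
    (List.forall_mem_nil _)⟩)

theorem q_70c56583b7 : PosP 1266 [464, 495] [562, 594] :=
  pos_of_cert (F := 1016) (by norm_num) p_70c56583b7 (List.forall_mem_cons.2 ⟨(q_72643b9a5a.mono (by norm_num)),
    (List.forall_mem_cons.2 ⟨(q_d993114c3b.mono (by norm_num)),
    (List.forall_mem_nil _)⟩)⟩)

theorem q_5f1b2b0a37 : PosP 516 [433, 464, 495] [402, 562, 626] :=
  pos_of_cert (F := 266) (by norm_num) p_5f1b2b0a37 (List.forall_mem_nil _)

theorem q_1babd20714 : PosP 516 [402, 431, 433, 464, 495] [371, 526, 530, 562, 626] :=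
  pos_of_cert (F := 266) (by norm_num) p_1babd20714 (List.forall_mem_nil _)

theorem q_311a85963a : PosP 766 [402, 433, 464, 495] [371, 526, 562, 626] :=
  pos_of_cert (F := 516) (by norm_num) p_311a85963a (List.forall_mem_cons.2 ⟨(q_1babd20714.mono (by norm_num)),
    (List.forall_mem_nil _)⟩)

theorem q_063b227747 : PosP 1016 [464, 495] [562, 626] :=
  pos_of_cert (F := 766) (by norm_num) p_063b227747 (List.forall_mem_cons.2 ⟨(q_5f1b2b0a37.mono (by norm_num)),
    (List.forall_mem_cons.2 ⟨(q_311a85963a.mono (by norm_num)),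
    (List.forall_mem_nil _)⟩)⟩)

theorem q_480d85fdc1 : PosP 516 [495, 528, 529] [462, 496, 594] :=
  pos_of_cert (F := 266) (by norm_num) p_480d85fdc1 (List.forall_mem_nil _)

theorem q_d339e7c43f : PosP 516 [464, 495, 528] [530, 531, 532] :=
  pos_of_cert (F := 266) (by norm_num) p_d339e7c43f (List.forall_mem_nil _)

theorem q_2acf907a2f : PosP 766 [495, 528] [530, 532] :=
  pos_of_cert (F := 516) (by norm_num) p_2acf907a2f (List.forall_mem_cons.2 ⟨(q_d339e7c43f.mono (by norm_num)),
    (List.forall_mem_nil _)⟩)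

theorem q_8eddd4d9df : PosP 516 [463, 465, 495, 528] [402, 496, 527, 561] :=
  pos_of_cert (F := 266) (by norm_num) p_8eddd4d9df (List.forall_mem_nil _)

theorem q_b225043fc1 : PosP 516 [464, 495, 526, 559] [433, 561, 562, 564] :=
  pos_of_cert (F := 266) (by norm_num) p_b225043fc1 (List.forall_mem_nil _)

theorem q_ce4b15fe17 : PosP 766 [464, 495, 526] [433, 561, 562] :=
  pos_of_cert (F := 516) (by norm_num) p_ce4b15fe17 (List.forall_mem_cons.2 ⟨(q_a548c430cd.mono (by norm_num)),
    (List.forall_mem_cons.2 ⟨(q_b225043fc1.mono (by norm_num)),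
    (List.forall_mem_nil _)⟩)⟩)

theorem q_5574403bff : PosP 766 [464, 495, 526] [557, 561, 562] :=
  pos_of_cert (F := 516) (by norm_num) p_5574403bff (List.forall_mem_cons.2 ⟨(q_a79a8dd43d.mono (by norm_num)),
    (List.forall_mem_nil _)⟩)

theorem q_171a87165d : PosP 1016 [495, 526] [561, 562] :=
  pos_of_cert (F := 766) (by norm_num) p_171a87165d (List.forall_mem_cons.2 ⟨(q_ce4b15fe17.mono (by norm_num)),
    (List.forall_mem_cons.2 ⟨(q_5574403bff.mono (by norm_num)),
    (List.forall_mem_nil _)⟩)⟩)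

theorem q_095fa12fc2 : PosP 766 [463, 495, 528] [496, 561, 593] :=
  pos_of_cert (F := 516) (by norm_num) p_095fa12fc2 (List.forall_mem_cons.2 ⟨(q_87ab6ec35d.mono (by norm_num)),
    (List.forall_mem_cons.2 ⟨(q_978a4557a6.mono (by norm_num)),
    (List.forall_mem_nil _)⟩)⟩)

theorem q_9ba073a987 : PosP 516 [431, 464, 495] [432, 463, 528] :=
  pos_of_cert (F := 266) (by norm_num) p_9ba073a987 (List.forall_mem_nil _)

theorem q_e6c8ac5d22 : PosP 516 [495, 528, 559, 561] [369, 431, 462, 496] :=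
  pos_of_cert (F := 266) (by norm_num) p_e6c8ac5d22 (List.forall_mem_nil _)

theorem q_180440c6cc : PosP 516 [493, 495, 528, 559, 561, 594] [338, 400, 431, 462, 496, 627] :=
  pos_of_cert (F := 266) (by norm_num) p_180440c6cc (List.forall_mem_nil _)

theorem q_5b63402c91 : PosP 516 [493, 495, 528, 559, 561, 594] [369, 400, 431, 462, 496, 627] :=
  pos_of_cert (F := 266) (by norm_num) p_5b63402c91 (List.forall_mem_nil _)

theorem q_b0647329b2 : PosP 766 [495, 528, 559, 561, 594] [400, 431, 462, 496, 627] :=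
  pos_of_cert (F := 516) (by norm_num) p_b0647329b2 (List.forall_mem_cons.2 ⟨(q_180440c6cc.mono (by norm_num)),
    (List.forall_mem_cons.2 ⟨(q_5b63402c91.mono (by norm_num)),
    (List.forall_mem_nil _)⟩)⟩)

theorem q_407d6732f6 : PosP 516 [495, 524, 528, 559, 561, 594] [400, 431, 462, 493, 496, 627] :=
  pos_of_cert (F := 266) (by norm_num) p_407d6732f6 (List.forall_mem_nil _)

theorem q_50c505d31d : PosP 766 [495, 528, 559, 561, 594] [431, 462, 493, 496, 627] :=
  pos_of_cert (F := 516) (by norm_num) p_50c505d31d (List.forall_mem_cons.2 ⟨(q_407d6732f6.mono (by norm_num)),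
    (List.forall_mem_nil _)⟩)

theorem q_641aeb7d1b : PosP 1016 [495, 528, 561] [431, 462, 496] :=
  pos_of_cert (F := 766) (by norm_num) p_641aeb7d1b (List.forall_mem_cons.2 ⟨(q_e6c8ac5d22.mono (by norm_num)),
    (List.forall_mem_cons.2 ⟨(q_b0647329b2.mono (by norm_num)),
    (List.forall_mem_cons.2 ⟨(q_50c505d31d.mono (by norm_num)),
    (List.forall_mem_nil _)⟩)⟩)⟩)

theorem q_c369015f18 : PosP 1266 [495, 528] [431, 496] :=
  pos_of_cert (F := 1016) (by norm_num) p_c369015f18 (List.forall_mem_cons.2 ⟨(q_641aeb7d1b.mono (by norm_num)),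
    (List.forall_mem_nil _)⟩)

theorem q_392a301c0a : PosP 516 [465, 495, 528, 529, 531] [432, 462, 496, 497, 527] :=
  pos_of_cert (F := 266) (by norm_num) p_392a301c0a (List.forall_mem_nil _)

theorem q_d2deb195dd : PosP 516 [432, 465, 495, 498, 528, 529, 531, 532] [399, 462, 466, 496, 497, 527, 530, 564] :=
  pos_of_cert (F := 266) (by norm_num) p_d2deb195dd (List.forall_mem_nil _)

theorem q_f6795e8568 : PosP 516 [465, 470, 495, 500, 528, 529, 531, 532, 562, 564, 596] [462, 467, 468, 469, 496, 497, 498, 527, 530, 561, 628] :=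
  pos_of_cert (F := 266) (by norm_num) p_f6795e8568 (List.forall_mem_nil _)

theorem q_99da3cba38 : PosP 766 [465, 495, 500, 528, 529, 531, 532, 562, 564, 596] [462, 467, 468, 469, 496, 497, 498, 527, 530, 628] :=
  pos_of_cert (F := 516) (by norm_num) p_99da3cba38 (List.forall_mem_cons.2 ⟨(q_f6795e8568.mono (by norm_num)),
    (List.forall_mem_nil _)⟩)

theorem q_b2cd9b92e6 : PosP 516 [465, 495, 528, 529, 531] [462, 468, 496, 497, 527] :=
  pos_of_cert (F := 266) (by norm_num) p_b2cd9b92e6 (List.forall_mem_nil _)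

theorem q_f58e53de7d : PosP 516 [465, 466, 495, 528, 529, 531, 532, 563] [434, 462, 496, 497, 498, 499, 527, 530] :=
  pos_of_cert (F := 266) (by norm_num) p_f58e53de7d (List.forall_mem_nil _)

theorem q_3fb9655e48 : PosP 766 [465, 495, 528, 529, 531, 532, 563] [434, 462, 496, 497, 498, 527, 530] :=
  pos_of_cert (F := 516) (by norm_num) p_3fb9655e48 (List.forall_mem_cons.2 ⟨(q_f58e53de7d.mono (by norm_num)),
    (List.forall_mem_nil _)⟩)

theorem q_a726d95f5d : PosP 516 [465, 495, 528, 529, 531, 532, 562, 563] [402, 462, 466, 496, 497, 498, 527, 530] :=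
  pos_of_cert (F := 266) (by norm_num) p_a726d95f5d (List.forall_mem_nil _)

theorem q_1d7e07516c : PosP 516 [465, 495, 528, 529, 531, 532, 562, 563] [434, 462, 466, 496, 497, 498, 527, 530] :=
  pos_of_cert (F := 266) (by norm_num) p_1d7e07516c (List.forall_mem_nil _)

theorem q_45859b0476 : PosP 766 [465, 495, 528, 529, 531, 532, 563] [462, 466, 496, 497, 498, 527, 530] :=
  pos_of_cert (F := 516) (by norm_num) p_45859b0476 (List.forall_mem_cons.2 ⟨(q_a726d95f5d.mono (by norm_num)),
    (List.forall_mem_cons.2 ⟨(q_1d7e07516c.mono (by norm_num)),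
    (List.forall_mem_nil _)⟩)⟩)

theorem q_d32d16c34a : PosP 516 [465, 495, 528, 529, 531, 532, 563] [462, 496, 497, 498, 499, 527, 530] :=
  pos_of_cert (F := 266) (by norm_num) p_d32d16c34a (List.forall_mem_nil _)

theorem q_4b775201fb : PosP 516 [465, 495, 528, 529, 531, 532, 563] [462, 496, 497, 498, 527, 530, 594] :=
  pos_of_cert (F := 266) (by norm_num) p_4b775201fb (List.forall_mem_nil _)

theorem q_7f917af5e1 : PosP 516 [465, 495, 528, 529, 531, 532, 563] [462, 496, 497, 498, 527, 530, 595] :=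
  pos_of_cert (F := 266) (by norm_num) p_7f917af5e1 (List.forall_mem_nil _)

theorem q_d5164a0121 : PosP 1016 [465, 495, 528, 529, 531, 532] [462, 496, 497, 498, 527, 530] :=
  pos_of_cert (F := 766) (by norm_num) p_d5164a0121 (List.forall_mem_cons.2 ⟨(q_3fb9655e48.mono (by norm_num)),
    (List.forall_mem_cons.2 ⟨(q_45859b0476.mono (by norm_num)),
    (List.forall_mem_cons.2 ⟨(q_d32d16c34a.mono (by norm_num)),
    (List.forall_mem_cons.2 ⟨(q_4b775201fb.mono (by norm_num)),
    (List.forall_mem_cons.2 ⟨(q_7f917af5e1.mono (by norm_num)),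
    (List.forall_mem_nil _)⟩)⟩)⟩)⟩)⟩)

theorem q_e99f9714bd : PosP 516 [465, 495, 528, 529, 531] [462, 496, 497, 527, 530] :=
  pos_of_cert (F := 266) (by norm_num) p_e99f9714bd (List.forall_mem_nil _)

theorem q_4852734270 : PosP 516 [465, 495, 528, 529, 531] [462, 496, 497, 527, 532] :=
  pos_of_cert (F := 266) (by norm_num) p_4852734270 (List.forall_mem_nil _)

theorem q_83955b05f3 : PosP 516 [465, 495, 528, 529, 531] [462, 496, 497, 527, 564] :=
  pos_of_cert (F := 266) (by norm_num) p_83955b05f3 (List.forall_mem_nil _)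

theorem q_3181561d78 : PosP 1266 [465, 495, 528, 529] [462, 496, 497, 527] :=
  pos_of_cert (F := 1016) (by norm_num) p_3181561d78 (List.forall_mem_cons.2 ⟨(q_392a301c0a.mono (by norm_num)),
    (List.forall_mem_cons.2 ⟨(q_d2deb195dd.mono (by norm_num)),
    (List.forall_mem_cons.2 ⟨(q_99da3cba38.mono (by norm_num)),
    (List.forall_mem_cons.2 ⟨(q_b2cd9b92e6.mono (by norm_num)),
    (List.forall_mem_cons.2 ⟨(q_d5164a0121.mono (by norm_num)),
    (List.forall_mem_cons.2 ⟨(q_e99f9714bd.mono (by norm_num)),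
    (List.forall_mem_cons.2 ⟨(q_4852734270.mono (by norm_num)),
    (List.forall_mem_cons.2 ⟨(q_83955b05f3.mono (by norm_num)),
    (List.forall_mem_nil _)⟩)⟩)⟩)⟩)⟩)⟩)⟩)⟩)

theorem q_2302232d32 : PosP 516 [495, 528] [500, 626] :=
  pos_of_cert (F := 266) (by norm_num) p_2302232d32 (List.forall_mem_nil _)

theorem q_03dfc828db : PosP 516 [465, 495, 528, 529] [462, 496, 527, 560] :=
  pos_of_cert (F := 266) (by norm_num) p_03dfc828db (List.forall_mem_nil _)

theorem q_d67f05b874 : PosP 516 [464, 493, 495, 526, 557] [433, 528, 560, 588, 590] :=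
  pos_of_cert (F := 266) (by norm_num) p_d67f05b874 (List.forall_mem_nil _)

theorem q_0840c5f39c : PosP 516 [464, 493, 495, 526, 557] [433, 528, 560, 588, 592] :=
  pos_of_cert (F := 266) (by norm_num) p_0840c5f39c (List.forall_mem_nil _)

theorem q_2daf78e95e : PosP 766 [464, 495, 526, 557] [433, 528, 560, 588] :=
  pos_of_cert (F := 516) (by norm_num) p_2daf78e95e (List.forall_mem_cons.2 ⟨(q_d67f05b874.mono (by norm_num)),
    (List.forall_mem_cons.2 ⟨(q_0840c5f39c.mono (by norm_num)),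
    (List.forall_mem_nil _)⟩)⟩)

theorem q_88af92e671 : PosP 516 [464, 495, 497, 526] [528, 529, 557, 560] :=
  pos_of_cert (F := 266) (by norm_num) p_88af92e671 (List.forall_mem_nil _)

theorem q_948245bfa7 : PosP 516 [464, 495, 497, 526] [528, 557, 558, 560] :=
  pos_of_cert (F := 266) (by norm_num) p_948245bfa7 (List.forall_mem_nil _)

theorem q_19a9a91561 : PosP 516 [464, 495, 497, 526] [528, 557, 559, 560] :=
  pos_of_cert (F := 266) (by norm_num) p_19a9a91561 (List.forall_mem_nil _)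

theorem q_22d5d7a3cc : PosP 766 [464, 495, 526] [528, 557, 560] :=
  pos_of_cert (F := 516) (by norm_num) p_22d5d7a3cc (List.forall_mem_cons.2 ⟨(q_88af92e671.mono (by norm_num)),
    (List.forall_mem_cons.2 ⟨(q_948245bfa7.mono (by norm_num)),
    (List.forall_mem_cons.2 ⟨(q_19a9a91561.mono (by norm_num)),
    (List.forall_mem_nil _)⟩)⟩)⟩)

theorem q_c7681f0718 : PosP 1016 [464, 495] [528, 560] :=
  pos_of_cert (F := 766) (by norm_num) p_c7681f0718 (List.forall_mem_cons.2 ⟨(q_2daf78e95e.mono (by norm_num)),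
    (List.forall_mem_cons.2 ⟨(q_22d5d7a3cc.mono (by norm_num)),
    (List.forall_mem_nil _)⟩)⟩)

theorem q_69846a787a : PosP 516 [464, 495, 526] [498, 557, 591] :=
  pos_of_cert (F := 266) (by norm_num) p_69846a787a (List.forall_mem_nil _)

theorem q_641aa69f51 : PosP 766 [495, 526] [498, 591] :=
  pos_of_cert (F := 516) (by norm_num) p_641aa69f51 (List.forall_mem_cons.2 ⟨(q_69846a787a.mono (by norm_num)),
    (List.forall_mem_nil _)⟩)

theorem q_4c3b2c00d4 : PosP 516 [464, 495, 526, 557] [433, 562, 588, 658] :=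
  pos_of_cert (F := 266) (by norm_num) p_4c3b2c00d4 (List.forall_mem_nil _)

theorem q_0951eca68c : PosP 766 [464, 495] [562, 658] :=
  pos_of_cert (F := 516) (by norm_num) p_0951eca68c (List.forall_mem_cons.2 ⟨(q_4c3b2c00d4.mono (by norm_num)),
    (List.forall_mem_nil _)⟩)

theorem q_b78df6721b : PosP 516 [495, 528, 529] [462, 496, 531] :=
  pos_of_cert (F := 266) (by norm_num) p_b78df6721b (List.forall_mem_nil _)

theorem q_a296827ffa : PosP 516 [463, 464, 495] [431, 528, 558] :=
  pos_of_cert (F := 266) (by norm_num) p_a296827ffa (List.forall_mem_nil _)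

theorem q_ca3a781038 : PosP 516 [463, 464, 495] [462, 528, 558] :=
  pos_of_cert (F := 266) (by norm_num) p_ca3a781038 (List.forall_mem_nil _)

theorem q_62f68516da : PosP 516 [463, 464, 495] [527, 528, 558] :=
  pos_of_cert (F := 266) (by norm_num) p_62f68516da (List.forall_mem_nil _)

theorem q_489fbf154a : PosP 766 [464, 495] [528, 558] :=
  pos_of_cert (F := 516) (by norm_num) p_489fbf154a (List.forall_mem_cons.2 ⟨(q_a296827ffa.mono (by norm_num)),
    (List.forall_mem_cons.2 ⟨(q_ca3a781038.mono (by norm_num)),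
    (List.forall_mem_cons.2 ⟨(q_62f68516da.mono (by norm_num)),
    (List.forall_mem_nil _)⟩)⟩)⟩)

theorem q_f954cb7063 : PosP 516 [462, 464, 495, 528, 560] [461, 496, 558, 559, 561] :=
  pos_of_cert (F := 266) (by norm_num) p_f954cb7063 (List.forall_mem_nil _)

theorem q_b79c4170bc : PosP 516 [429, 433, 462, 464, 492, 493, 494, 495, 524, 526, 527, 528, 529, 556, 560, 593] [396, 398, 402, 460, 461, 463, 491, 496, 525, 530, 555, 557, 558, 559, 561, 626] :=
  pos_of_cert (F := 266) (by norm_num) p_b79c4170bc (List.forall_mem_nil _)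

theorem q_9464d57ee4 : PosP 516 [429, 430, 431, 433, 462, 464, 495, 525, 526, 527, 528, 560] [396, 402, 432, 463, 494, 496, 524, 529, 557, 558, 559, 561] :=
  pos_of_cert (F := 266) (by norm_num) p_9464d57ee4 (List.forall_mem_nil _)

theorem q_e02f7d78e6 : PosP 516 [429, 430, 433, 462, 464, 495, 525, 526, 527, 528, 560] [396, 402, 463, 496, 524, 529, 555, 557, 558, 559, 561] :=
  pos_of_cert (F := 266) (by norm_num) p_e02f7d78e6 (List.forall_mem_nil _)

theorem q_c8fd5a3b40 : PosP 516 [429, 430, 433, 462, 464, 495, 525, 526, 527, 528, 560] [396, 402, 463, 496, 524, 529, 557, 558, 559, 561, 595] :=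
  pos_of_cert (F := 266) (by norm_num) p_c8fd5a3b40 (List.forall_mem_nil _)

theorem q_45c06e70ad : PosP 766 [429, 433, 462, 464, 495, 525, 526, 527, 528, 560] [396, 402, 463, 496, 524, 529, 557, 558, 559, 561] :=
  pos_of_cert (F := 516) (by norm_num) p_45c06e70ad (List.forall_mem_cons.2 ⟨(q_9464d57ee4.mono (by norm_num)),
    (List.forall_mem_cons.2 ⟨(q_e02f7d78e6.mono (by norm_num)),
    (List.forall_mem_cons.2 ⟨(q_c8fd5a3b40.mono (by norm_num)),
    (List.forall_mem_nil _)⟩)⟩)⟩)

theorem q_e7212cb271 : PosP 516 [462, 464, 495, 526, 527, 528, 556, 560] [463, 496, 529, 555, 557, 558, 559, 561] :=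
  pos_of_cert (F := 266) (by norm_num) p_e7212cb271 (List.forall_mem_nil _)

theorem q_3248c8add5 : PosP 1016 [462, 464, 495, 528, 560] [463, 496, 558, 559, 561] :=
  pos_of_cert (F := 766) (by norm_num) p_3248c8add5 (List.forall_mem_cons.2 ⟨(q_b79c4170bc.mono (by norm_num)),
    (List.forall_mem_cons.2 ⟨(q_45c06e70ad.mono (by norm_num)),
    (List.forall_mem_cons.2 ⟨(q_e7212cb271.mono (by norm_num)),
    (List.forall_mem_nil _)⟩)⟩)⟩)

theorem q_98f0550b63 : PosP 516 [398, 429, 430, 431, 462, 464, 495, 525, 527, 528, 560, 593, 626] [365, 396, 432, 463, 465, 494, 496, 524, 529, 558, 559, 561, 659] :=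
  pos_of_cert (F := 266) (by norm_num) p_98f0550b63 (List.forall_mem_nil _)

theorem q_0e8ae477c0 : PosP 766 [429, 430, 431, 462, 464, 495, 525, 527, 528, 560, 593, 626] [396, 432, 463, 465, 494, 496, 524, 529, 558, 559, 561, 659] :=
  pos_of_cert (F := 516) (by norm_num) p_0e8ae477c0 (List.forall_mem_cons.2 ⟨(q_98f0550b63.mono (by norm_num)),
    (List.forall_mem_nil _)⟩)

theorem q_20957ea4af : PosP 516 [429, 430, 431, 462, 464, 495, 525, 527, 528, 560, 593, 626] [396, 432, 463, 465, 494, 496, 529, 558, 559, 561, 562, 659] :=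
  pos_of_cert (F := 266) (by norm_num) p_20957ea4af (List.forall_mem_nil _)

theorem q_65b290708e : PosP 1016 [429, 430, 431, 462, 464, 495, 527, 528, 560, 593, 626] [396, 432, 463, 465, 494, 496, 529, 558, 559, 561, 659] :=
  pos_of_cert (F := 766) (by norm_num) p_65b290708e (List.forall_mem_cons.2 ⟨(q_0e8ae477c0.mono (by norm_num)),
    (List.forall_mem_cons.2 ⟨(q_20957ea4af.mono (by norm_num)),
    (List.forall_mem_nil _)⟩)⟩)

theorem q_445a310731 : PosP 1266 [429, 431, 462, 464, 495, 527, 528, 560, 593] [396, 463, 465, 494, 496, 529, 558, 559, 561] :=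
  pos_of_cert (F := 1016) (by norm_num) p_445a310731 (List.forall_mem_cons.2 ⟨(q_65b290708e.mono (by norm_num)),
    (List.forall_mem_nil _)⟩)

theorem q_49b15b3da7 : PosP 1516 [462, 464, 495, 528, 560] [465, 496, 558, 559, 561] :=
  pos_of_cert (F := 1266) (by norm_num) p_49b15b3da7 (List.forall_mem_cons.2 ⟨(q_445a310731.mono (by norm_num)),
    (List.forall_mem_nil _)⟩)

theorem q_990fd0983e : PosP 516 [462, 463, 464, 495, 528, 560] [465, 496, 526, 558, 559, 561] :=
  pos_of_cert (F := 266) (by norm_num) p_990fd0983e (List.forall_mem_nil _)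

theorem q_4d1fbc7055 : PosP 516 [462, 464, 495, 528, 560] [496, 527, 558, 559, 561] :=
  pos_of_cert (F := 266) (by norm_num) p_4d1fbc7055 (List.forall_mem_nil _)

theorem q_d0d336d831 : PosP 516 [462, 464, 495, 528, 560] [496, 529, 558, 559, 561] :=
  pos_of_cert (F := 266) (by norm_num) p_d0d336d831 (List.forall_mem_nil _)

theorem q_ac317d3581 : PosP 1766 [462, 464, 495, 528] [496, 558, 559, 561] :=
  pos_of_cert (F := 1516) (by norm_num) p_ac317d3581 (List.forall_mem_cons.2 ⟨(q_f954cb7063.mono (by norm_num)),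
    (List.forall_mem_cons.2 ⟨(q_3248c8add5.mono (by norm_num)),
    (List.forall_mem_cons.2 ⟨(q_49b15b3da7.mono (by norm_num)),
    (List.forall_mem_cons.2 ⟨(q_990fd0983e.mono (by norm_num)),
    (List.forall_mem_cons.2 ⟨(q_4d1fbc7055.mono (by norm_num)),
    (List.forall_mem_cons.2 ⟨(q_d0d336d831.mono (by norm_num)),
    (List.forall_mem_nil _)⟩)⟩)⟩)⟩)⟩)⟩)

theorem q_e02c816647 : PosP 2016 [464, 495, 528] [496, 558, 559] :=
  pos_of_cert (F := 1766) (by norm_num) p_e02c816647 (List.forall_mem_cons.2 ⟨(q_ac317d3581.mono (by norm_num)),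
    (List.forall_mem_nil _)⟩)

theorem q_c53a5015c6 : PosP 516 [495, 496, 528] [530, 531, 532] :=
  pos_of_cert (F := 266) (by norm_num) p_c53a5015c6 (List.forall_mem_nil _)

theorem q_6deb25a355 : PosP 516 [495, 496, 528] [531, 532, 533] :=
  pos_of_cert (F := 266) (by norm_num) p_6deb25a355 (List.forall_mem_nil _)

theorem q_ee05b942d4 : PosP 516 [495, 496, 528] [531, 532, 534] :=
  pos_of_cert (F := 266) (by norm_num) p_ee05b942d4 (List.forall_mem_nil _)

theorem q_e191a4958e : PosP 766 [495, 528] [531, 532] :=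
  pos_of_cert (F := 516) (by norm_num) p_e191a4958e (List.forall_mem_cons.2 ⟨(q_c53a5015c6.mono (by norm_num)),
    (List.forall_mem_cons.2 ⟨(q_6deb25a355.mono (by norm_num)),
    (List.forall_mem_cons.2 ⟨(q_ee05b942d4.mono (by norm_num)),
    (List.forall_mem_nil _)⟩)⟩)⟩)

theorem q_14cf82222e : PosP 516 [435, 465, 466, 495, 497, 528, 561, 594] [404, 462, 464, 496, 527, 529, 559, 627] :=
  pos_of_cert (F := 266) (by norm_num) p_14cf82222e (List.forall_mem_nil _)

theorem q_5445bd9911 : PosP 516 [462, 466, 495, 528, 530, 561] [429, 434, 464, 496, 527, 594] :=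
  pos_of_cert (F := 266) (by norm_num) p_5445bd9911 (List.forall_mem_nil _)

theorem q_455136e693 : PosP 516 [462, 466, 495, 528, 530, 561] [429, 464, 496, 499, 527, 594] :=
  pos_of_cert (F := 266) (by norm_num) p_455136e693 (List.forall_mem_nil _)

theorem q_a7b3779745 : PosP 516 [462, 466, 495, 528, 530, 561] [429, 464, 496, 527, 558, 594] :=
  pos_of_cert (F := 266) (by norm_num) p_a7b3779745 (List.forall_mem_nil _)

theorem q_8cd91a6fa9 : PosP 766 [462, 466, 495, 528, 561] [429, 464, 496, 527, 594] :=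
  pos_of_cert (F := 516) (by norm_num) p_8cd91a6fa9 (List.forall_mem_cons.2 ⟨(q_5445bd9911.mono (by norm_num)),
    (List.forall_mem_cons.2 ⟨(q_455136e693.mono (by norm_num)),
    (List.forall_mem_cons.2 ⟨(q_a7b3779745.mono (by norm_num)),
    (List.forall_mem_nil _)⟩)⟩)⟩)

theorem q_f2c4262116 : PosP 1016 [466, 495, 528] [464, 496, 527] :=
  pos_of_cert (F := 766) (by norm_num) p_f2c4262116 (List.forall_mem_cons.2 ⟨(q_14cf82222e.mono (by norm_num)),
    (List.forall_mem_cons.2 ⟨(q_8cd91a6fa9.mono (by norm_num)),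
    (List.forall_mem_nil _)⟩)⟩)

theorem q_ef8618cb52 : PosP 516 [495, 526, 557] [561, 588, 693] :=
  pos_of_cert (F := 266) (by norm_num) p_ef8618cb52 (List.forall_mem_nil _)

theorem q_d04034edff : PosP 766 [495, 526] [561, 693] :=
  pos_of_cert (F := 516) (by norm_num) p_d04034edff (List.forall_mem_cons.2 ⟨(q_ef8618cb52.mono (by norm_num)),
    (List.forall_mem_nil _)⟩)

theorem q_46650c0ad9 : PosP 516 [464, 465, 495, 527, 530] [494, 526, 528, 529, 558] :=
  pos_of_cert (F := 266) (by norm_num) p_46650c0ad9 (List.forall_mem_nil _)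

theorem q_7fbd4d6fd9 : PosP 766 [464, 465, 495, 530] [494, 526, 528, 529] :=
  pos_of_cert (F := 516) (by norm_num) p_7fbd4d6fd9 (List.forall_mem_cons.2 ⟨(q_46650c0ad9.mono (by norm_num)),
    (List.forall_mem_nil _)⟩)

theorem q_2398e702f3 : PosP 516 [494, 495, 496, 497, 527, 560] [493, 498, 529, 592, 593, 595] :=
  pos_of_cert (F := 266) (by norm_num) p_2398e702f3 (List.forall_mem_nil _)

theorem q_3bf6e40662 : PosP 766 [495, 496, 497] [498, 529, 595] :=
  pos_of_cert (F := 516) (by norm_num) p_3bf6e40662 (List.forall_mem_cons.2 ⟨(q_2398e702f3.mono (by norm_num)),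
    (List.forall_mem_nil _)⟩)

theorem q_8c06ee53ce : PosP 1016 [495, 496] [529, 595] :=
  pos_of_cert (F := 766) (by norm_num) p_8c06ee53ce (List.forall_mem_cons.2 ⟨(q_3bf6e40662.mono (by norm_num)),
    (List.forall_mem_nil _)⟩)

theorem q_3b3dbd431f : PosP 516 [495, 496, 525, 527, 558] [463, 464, 465, 494, 660] :=
  pos_of_cert (F := 266) (by norm_num) p_3b3dbd431f (List.forall_mem_nil _)

theorem q_ceb0db8337 : PosP 766 [495, 496, 527, 558] [463, 465, 494, 660] :=
  pos_of_cert (F := 516) (by norm_num) p_ceb0db8337 (List.forall_mem_cons.2 ⟨(q_3b3dbd431f.mono (by norm_num)),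
    (List.forall_mem_nil _)⟩)

theorem q_d13e69643e : PosP 1016 [495, 496, 527] [463, 494, 660] :=
  pos_of_cert (F := 766) (by norm_num) p_d13e69643e (List.forall_mem_cons.2 ⟨(q_ceb0db8337.mono (by norm_num)),
    (List.forall_mem_nil _)⟩)

theorem q_19e3a09069 : PosP 516 [495, 496, 527] [494, 559, 660] :=
  pos_of_cert (F := 266) (by norm_num) p_19e3a09069 (List.forall_mem_nil _)

theorem q_cbd57496b5 : PosP 1266 [495, 496] [494, 660] :=
  pos_of_cert (F := 1016) (by norm_num) p_cbd57496b5 (List.forall_mem_cons.2 ⟨(q_d13e69643e.mono (by norm_num)),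
    (List.forall_mem_cons.2 ⟨(q_19e3a09069.mono (by norm_num)),
    (List.forall_mem_nil _)⟩)⟩)

theorem q_384ae68a89 : PosP 516 [432, 433, 464, 495] [402, 434, 498, 531] :=
  pos_of_cert (F := 266) (by norm_num) p_384ae68a89 (List.forall_mem_nil _)

theorem q_9363272df8 : PosP 516 [432, 433, 464, 495] [402, 498, 531, 564] :=
  pos_of_cert (F := 266) (by norm_num) p_9363272df8 (List.forall_mem_nil _)

theorem q_3cbac2901c : PosP 516 [432, 433, 464, 495, 526] [402, 498, 531, 557, 597] :=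
  pos_of_cert (F := 266) (by norm_num) p_3cbac2901c (List.forall_mem_nil _)

theorem q_0c2efba6ae : PosP 766 [433, 464, 495] [402, 498, 531] :=
  pos_of_cert (F := 516) (by norm_num) p_0c2efba6ae (List.forall_mem_cons.2 ⟨(q_384ae68a89.mono (by norm_num)),
    (List.forall_mem_cons.2 ⟨(q_9363272df8.mono (by norm_num)),
    (List.forall_mem_cons.2 ⟨(q_3cbac2901c.mono (by norm_num)),
    (List.forall_mem_nil _)⟩)⟩)⟩)

theorem q_6e27d745b7 : PosP 1016 [464, 495] [498, 531] :=
  pos_of_cert (F := 766) (by norm_num) p_6e27d745b7 (List.forall_mem_cons.2 ⟨(q_0c2efba6ae.mono (by norm_num)),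
    (List.forall_mem_nil _)⟩)

theorem q_d7c2d8a0bb : PosP 516 [495, 496, 526, 527] [497, 498, 499, 500] :=
  pos_of_cert (F := 266) (by norm_num) p_d7c2d8a0bb (List.forall_mem_nil _)

theorem q_f55a96864b : PosP 766 [495, 526, 527] [497, 498, 500] :=
  pos_of_cert (F := 516) (by norm_num) p_f55a96864b (List.forall_mem_cons.2 ⟨(q_d7c2d8a0bb.mono (by norm_num)),
    (List.forall_mem_nil _)⟩)

theorem q_e69e89feda : PosP 1016 [495, 526] [497, 500] :=
  pos_of_cert (F := 766) (by norm_num) p_e69e89feda (List.forall_mem_cons.2 ⟨(q_f55a96864b.mono (by norm_num)),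
    (List.forall_mem_nil _)⟩)

theorem q_2789d4a7f7 : PosP 516 [464, 495] [559, 594] :=
  pos_of_cert (F := 266) (by norm_num) p_2789d4a7f7 (List.forall_mem_nil _)

theorem q_778f2ddf5b : PosP 516 [463, 495, 528] [433, 496, 561] :=
  pos_of_cert (F := 266) (by norm_num) p_778f2ddf5b (List.forall_mem_nil _)

theorem q_62525193d8 : PosP 516 [495, 526] [564, 652] :=
  pos_of_cert (F := 266) (by norm_num) p_62525193d8 (List.forall_mem_nil _)

theorem q_21fc32e9d0 : PosP 516 [466, 495, 528, 558] [435, 465, 496, 527] :=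
  pos_of_cert (F := 266) (by norm_num) p_21fc32e9d0 (List.forall_mem_nil _)

theorem q_5bd463844f : PosP 516 [433, 465, 495, 497, 528, 529, 560, 590] [401, 462, 496, 526, 527, 558, 559, 561] :=
  pos_of_cert (F := 266) (by norm_num) p_5bd463844f (List.forall_mem_nil _)

theorem q_cb37063411 : PosP 766 [465, 495, 497, 528, 529, 560] [462, 496, 526, 527, 558, 561] :=
  pos_of_cert (F := 516) (by norm_num) p_cb37063411 (List.forall_mem_cons.2 ⟨(q_5bd463844f.mono (by norm_num)),
    (List.forall_mem_nil _)⟩)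

theorem q_54623b31e9 : PosP 516 [465, 495, 497, 528, 529, 560] [462, 496, 527, 558, 561, 589] :=
  pos_of_cert (F := 266) (by norm_num) p_54623b31e9 (List.forall_mem_nil _)

theorem q_a6c7b0e17e : PosP 516 [465, 495, 497, 528, 529, 560] [462, 496, 527, 558, 561, 620] :=
  pos_of_cert (F := 266) (by norm_num) p_a6c7b0e17e (List.forall_mem_nil _)

theorem q_691f156f3c : PosP 1016 [465, 495, 497, 528, 529] [462, 496, 527, 558, 561] :=
  pos_of_cert (F := 766) (by norm_num) p_691f156f3c (List.forall_mem_cons.2 ⟨(q_cb37063411.mono (by norm_num)),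
    (List.forall_mem_cons.2 ⟨(q_54623b31e9.mono (by norm_num)),
    (List.forall_mem_cons.2 ⟨(q_a6c7b0e17e.mono (by norm_num)),
    (List.forall_mem_nil _)⟩)⟩)⟩)

theorem q_b07530f71d : PosP 516 [465, 495, 497, 528, 529] [462, 496, 527, 558, 620] :=
  pos_of_cert (F := 266) (by norm_num) p_b07530f71d (List.forall_mem_nil _)

theorem q_c9921bc918 : PosP 1266 [465, 495, 528, 529] [462, 496, 527, 558] :=
  pos_of_cert (F := 1016) (by norm_num) p_c9921bc918 (List.forall_mem_cons.2 ⟨(q_691f156f3c.mono (by norm_num)),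
    (List.forall_mem_cons.2 ⟨(q_9d976d164e.mono (by norm_num)),
    (List.forall_mem_cons.2 ⟨(q_b07530f71d.mono (by norm_num)),
    (List.forall_mem_nil _)⟩)⟩)⟩)

theorem q_805efb3b51 : PosP 516 [495, 528, 529] [462, 496, 593] :=
  pos_of_cert (F := 266) (by norm_num) p_805efb3b51 (List.forall_mem_nil _)

theorem q_a8b3587527 : PosP 516 [465, 495, 528, 529] [404, 462, 496, 527] :=
  pos_of_cert (F := 266) (by norm_num) p_a8b3587527 (List.forall_mem_nil _)

theorem q_3d75fc6636 : PosP 516 [466, 495, 528] [368, 496, 527] :=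
  pos_of_cert (F := 266) (by norm_num) p_3d75fc6636 (List.forall_mem_nil _)

theorem q_69e0abc670 : PosP 1016 [495, 526] [561, 563] :=
  pos_of_cert (F := 766) (by norm_num) p_69e0abc670 (List.forall_mem_cons.2 ⟨(q_34acc4e070.mono (by norm_num)),
    (List.forall_mem_cons.2 ⟨(q_7f3d020a6a.mono (by norm_num)),
    (List.forall_mem_nil _)⟩)⟩)

theorem q_61359f16c4 : PosP 516 [464, 495, 528] [466, 498, 562] :=
  pos_of_cert (F := 266) (by norm_num) p_61359f16c4 (List.forall_mem_nil _)

theorem q_e9433917db : PosP 766 [464, 495] [466, 562] :=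
  pos_of_cert (F := 516) (by norm_num) p_e9433917db (List.forall_mem_cons.2 ⟨(q_61359f16c4.mono (by norm_num)),
    (List.forall_mem_nil _)⟩)

theorem q_c27601fcf6 : PosP 516 [495, 526] [496, 498] :=
  pos_of_cert (F := 266) (by norm_num) p_c27601fcf6 (List.forall_mem_nil _)

theorem q_e699f05d84 : PosP 516 [465, 495, 528, 529] [462, 496, 527, 563] :=
  pos_of_cert (F := 266) (by norm_num) p_e699f05d84 (List.forall_mem_nil _)

theorem q_0f75b1e279 : PosP 516 [464, 495] [527, 528] :=
  pos_of_cert (F := 266) (by norm_num) p_0f75b1e279 (List.forall_mem_nil _)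

theorem q_26995c9b88 : PosP 516 [464, 495, 526, 557] [433, 524, 561, 588] :=
  pos_of_cert (F := 266) (by norm_num) p_26995c9b88 (List.forall_mem_nil _)

theorem q_6b89b5bdf1 : PosP 766 [495, 526] [524, 561] :=
  pos_of_cert (F := 516) (by norm_num) p_6b89b5bdf1 (List.forall_mem_cons.2 ⟨(q_26995c9b88.mono (by norm_num)),
    (List.forall_mem_nil _)⟩)

theorem q_ebc791dcbf : PosP 516 [464, 495, 526, 557] [433, 562, 588, 661] :=
  pos_of_cert (F := 266) (by norm_num) p_ebc791dcbf (List.forall_mem_nil _)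

theorem q_37015ca7cc : PosP 516 [433, 464, 495, 496, 526] [402, 557, 562, 595, 661] :=
  pos_of_cert (F := 266) (by norm_num) p_37015ca7cc (List.forall_mem_nil _)

theorem q_38c01f2cc9 : PosP 766 [464, 495] [562, 661] :=
  pos_of_cert (F := 516) (by norm_num) p_38c01f2cc9 (List.forall_mem_cons.2 ⟨(q_ebc791dcbf.mono (by norm_num)),
    (List.forall_mem_cons.2 ⟨(q_37015ca7cc.mono (by norm_num)),
    (List.forall_mem_cons.2 ⟨(q_617c952c0b.mono (by norm_num)),
    (List.forall_mem_nil _)⟩)⟩)⟩)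

theorem q_92925f7f75 : PosP 516 [464, 494, 495, 526] [433, 527, 529, 558] :=
  pos_of_cert (F := 266) (by norm_num) p_92925f7f75 (List.forall_mem_nil _)

theorem q_3cee7fd8bd : PosP 766 [464, 495, 526] [433, 527, 529] :=
  pos_of_cert (F := 516) (by norm_num) p_3cee7fd8bd (List.forall_mem_cons.2 ⟨(q_92925f7f75.mono (by norm_num)),
    (List.forall_mem_nil _)⟩)

theorem q_4441b48b40 : PosP 1016 [464, 495] [527, 529] :=
  pos_of_cert (F := 766) (by norm_num) p_4441b48b40 (List.forall_mem_cons.2 ⟨(q_3cee7fd8bd.mono (by norm_num)),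
    (List.forall_mem_nil _)⟩)

theorem q_61437d29c9 : PosP 516 [433, 464, 465, 495] [402, 531, 564, 597] :=
  pos_of_cert (F := 266) (by norm_num) p_61437d29c9 (List.forall_mem_nil _)

theorem q_086e0cfed0 : PosP 516 [402, 433, 464, 465, 495] [371, 526, 531, 564, 597] :=
  pos_of_cert (F := 266) (by norm_num) p_086e0cfed0 (List.forall_mem_nil _)

theorem q_5ab5b69dd2 : PosP 766 [464, 495] [531, 564] :=
  pos_of_cert (F := 516) (by norm_num) p_5ab5b69dd2 (List.forall_mem_cons.2 ⟨(q_61437d29c9.mono (by norm_num)),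
    (List.forall_mem_cons.2 ⟨(q_086e0cfed0.mono (by norm_num)),
    (List.forall_mem_nil _)⟩)⟩)

theorem q_5e77536cc8 : PosP 516 [495, 526] [564, 593] :=
  pos_of_cert (F := 266) (by norm_num) p_5e77536cc8 (List.forall_mem_nil _)

theorem q_96b59f3c2a : PosP 516 [367, 464, 493, 494, 495, 526] [400, 433, 466, 496, 499, 528] :=
  pos_of_cert (F := 266) (by norm_num) p_96b59f3c2a (List.forall_mem_nil _)

theorem q_35be09e89b : PosP 516 [367, 464, 493, 494, 495, 526] [400, 433, 466, 496, 528, 532] :=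
  pos_of_cert (F := 266) (by norm_num) p_35be09e89b (List.forall_mem_nil _)

theorem q_385707a4bd : PosP 766 [464, 493, 494, 495, 526] [400, 433, 466, 496, 528] :=
  pos_of_cert (F := 516) (by norm_num) p_385707a4bd (List.forall_mem_cons.2 ⟨(q_96b59f3c2a.mono (by norm_num)),
    (List.forall_mem_cons.2 ⟨(q_35be09e89b.mono (by norm_num)),
    (List.forall_mem_nil _)⟩)⟩)

theorem q_73085af3d5 : PosP 516 [400, 464, 492, 493, 494, 495, 526] [433, 466, 491, 496, 499, 528, 532] :=
  pos_of_cert (F := 266) (by norm_num) p_73085af3d5 (List.forall_mem_nil _)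

theorem q_6a9244c151 : PosP 516 [400, 464, 492, 493, 494, 495, 526] [433, 466, 491, 496, 499, 528, 565] :=
  pos_of_cert (F := 266) (by norm_num) p_6a9244c151 (List.forall_mem_nil _)

theorem q_4eeb58a1bb : PosP 766 [464, 492, 493, 494, 495, 526] [433, 466, 491, 496, 499, 528] :=
  pos_of_cert (F := 516) (by norm_num) p_4eeb58a1bb (List.forall_mem_cons.2 ⟨(q_73085af3d5.mono (by norm_num)),
    (List.forall_mem_cons.2 ⟨(q_6a9244c151.mono (by norm_num)),
    (List.forall_mem_nil _)⟩)⟩)

theorem q_c4a81a37e6 : PosP 516 [464, 493, 494, 495, 526] [433, 466, 496, 528, 532] :=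
  pos_of_cert (F := 266) (by norm_num) p_c4a81a37e6 (List.forall_mem_nil _)

theorem q_182dc4df9e : PosP 1016 [464, 493, 494, 495] [433, 466, 496, 528] :=
  pos_of_cert (F := 766) (by norm_num) p_182dc4df9e (List.forall_mem_cons.2 ⟨(q_385707a4bd.mono (by norm_num)),
    (List.forall_mem_cons.2 ⟨(q_4eeb58a1bb.mono (by norm_num)),
    (List.forall_mem_cons.2 ⟨(q_c4a81a37e6.mono (by norm_num)),
    (List.forall_mem_nil _)⟩)⟩)⟩)

theorem q_5f8fb1aeda : PosP 1266 [464, 494, 495] [433, 466, 528] :=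
  pos_of_cert (F := 1016) (by norm_num) p_5f8fb1aeda (List.forall_mem_cons.2 ⟨(q_182dc4df9e.mono (by norm_num)),
    (List.forall_mem_nil _)⟩)

theorem q_0b3fd38c3d : PosP 1016 [495, 526] [529, 561] :=
  pos_of_cert (F := 766) (by norm_num) p_0b3fd38c3d (List.forall_mem_cons.2 ⟨(q_6d8b0ca72e.mono (by norm_num)),
    (List.forall_mem_cons.2 ⟨(q_a64df1a35c.mono (by norm_num)),
    (List.forall_mem_nil _)⟩)⟩)

theorem q_6bd8e56247 : PosP 516 [495, 528, 529, 530] [462, 464, 496, 527] :=
  pos_of_cert (F := 266) (by norm_num) p_6bd8e56247 (List.forall_mem_nil _)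

theorem q_5e409d8459 : PosP 766 [495, 528, 529] [462, 464, 496] :=
  pos_of_cert (F := 516) (by norm_num) p_5e409d8459 (List.forall_mem_cons.2 ⟨(q_6bd8e56247.mono (by norm_num)),
    (List.forall_mem_nil _)⟩)

theorem q_da61963cae : PosP 516 [464, 495, 526] [557, 560, 562] :=
  pos_of_cert (F := 266) (by norm_num) p_da61963cae (List.forall_mem_nil _)

theorem q_96ad45c886 : PosP 766 [464, 495] [560, 562] :=
  pos_of_cert (F := 516) (by norm_num) p_96ad45c886 (List.forall_mem_cons.2 ⟨(q_da61963cae.mono (by norm_num)),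
    (List.forall_mem_nil _)⟩)

theorem q_f870bee1b4 : PosP 516 [464, 495, 526] [433, 529, 593] :=
  pos_of_cert (F := 266) (by norm_num) p_f870bee1b4 (List.forall_mem_nil _)

theorem q_007b228ede : PosP 766 [464, 495] [529, 593] :=
  pos_of_cert (F := 516) (by norm_num) p_007b228ede (List.forall_mem_cons.2 ⟨(q_f870bee1b4.mono (by norm_num)),
    (List.forall_mem_nil _)⟩)

end Pool.Agent.Helper225.G
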