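import Pool.Agent.Helper225.GTab
import Pool.Agent.Helper225.Cert.MV_64
import Pool.Agent.Helper225.Cert.MV_65
import Pool.Agent.Helper225.Cert.MV_66
import Pool.Agent.Helper225.Cert.MV_67
import Pool.Agent.Helper225.Cert.MV_68
import Pool.Agent.Helper225.Cert.MV_69
import Pool.Agent.Helper225.Cert.MV_70
import Pool.Agent.Helper225.Cert.MV_71
import Pool.Agent.Helper225.Cert.MV_72
import Pool.Agent.Helper225.Cert.MV_73
import Pool.Agent.Helper225.Cert.MV_74
import Pool.Agent.Helper225.Cert.MV_75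
import Pool.Agent.Helper225.Cert.MV_76
import Pool.Agent.Helper225.Cert.MV_77
import Pool.Agent.Helper225.Cert.MV_78
import Pool.Agent.Helper225.Cert.MV_79
import Pool.Agent.Helper225.Cert.MV_80
import Pool.Agent.Helper225.Cls.QV_3

set_option autoImplicit false
set_option maxRecDepth 1000000

namespace Pool.Agent.Helper225.G

theorem q_360ed0c7b0 : PosP 1516 [495, 528, 529] [462, 496, 526] :=
  pos_of_cert (F := 1266) (by norm_num) p_360ed0c7b0 (List.forall_mem_cons.2 ⟨(q_4c1dae3c4f.mono (by norm_num)),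
    (List.forall_mem_cons.2 ⟨(q_46e5cfda09.mono (by norm_num)),
    (List.forall_mem_cons.2 ⟨(q_f1b8674ac2.mono (by norm_num)),
    (List.forall_mem_cons.2 ⟨(q_446fcdbddc.mono (by norm_num)),
    (List.forall_mem_cons.2 ⟨(q_0bae649555.mono (by norm_num)),
    (List.forall_mem_cons.2 ⟨(q_a31fc2475d.mono (by norm_num)),
    (List.forall_mem_nil _)⟩)⟩)⟩)⟩)⟩)⟩)

theorem q_2c7922a85e : PosP 516 [495, 496, 526, 559] [497, 498, 499, 500] :=
  pos_of_cert (F := 266) (by norm_num) p_2c7922a85e (List.forall_mem_nil _)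

theorem q_7f66e2f805 : PosP 516 [495, 496, 526, 559] [497, 498, 499, 501] :=
  pos_of_cert (F := 266) (by norm_num) p_7f66e2f805 (List.forall_mem_nil _)

theorem q_923b9d05a7 : PosP 766 [495, 526, 559] [497, 498, 499] :=
  pos_of_cert (F := 516) (by norm_num) p_923b9d05a7 (List.forall_mem_cons.2 ⟨(q_2c7922a85e.mono (by norm_num)),
    (List.forall_mem_cons.2 ⟨(q_7f66e2f805.mono (by norm_num)),
    (List.forall_mem_nil _)⟩)⟩)

theorem q_0603b4bed3 : PosP 1016 [495, 526] [497, 499] :=
  pos_of_cert (F := 766) (by norm_num) p_0603b4bed3 (List.forall_mem_cons.2 ⟨(q_923b9d05a7.mono (by norm_num)),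
    (List.forall_mem_cons.2 ⟨(q_e1fe930686.mono (by norm_num)),
    (List.forall_mem_nil _)⟩)⟩)

theorem q_17bced2e3d : PosP 516 [462, 463, 464, 495, 528] [429, 433, 461, 496, 559] :=
  pos_of_cert (F := 266) (by norm_num) p_17bced2e3d (List.forall_mem_nil _)

theorem q_717202878f : PosP 766 [462, 464, 495, 528] [429, 433, 496, 559] :=
  pos_of_cert (F := 516) (by norm_num) p_717202878f (List.forall_mem_cons.2 ⟨(q_17bced2e3d.mono (by norm_num)),
    (List.forall_mem_nil _)⟩)

theorem q_2f4b5df584 : PosP 1016 [464, 495, 528] [433, 496, 559] :=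
  pos_of_cert (F := 766) (by norm_num) p_2f4b5df584 (List.forall_mem_cons.2 ⟨(q_717202878f.mono (by norm_num)),
    (List.forall_mem_nil _)⟩)

theorem q_c29bca13d6 : PosP 516 [465, 466, 495, 528] [496, 527, 529, 589] :=
  pos_of_cert (F := 266) (by norm_num) p_c29bca13d6 (List.forall_mem_nil _)

theorem q_2fb6b00df0 : PosP 516 [465, 466, 495, 528] [496, 527, 558, 589] :=
  pos_of_cert (F := 266) (by norm_num) p_2fb6b00df0 (List.forall_mem_nil _)

theorem q_357a3e643f : PosP 516 [465, 466, 495, 528] [496, 527, 589, 620] :=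
  pos_of_cert (F := 266) (by norm_num) p_357a3e643f (List.forall_mem_nil _)

theorem q_35ecedd32d : PosP 766 [466, 495, 528] [496, 527, 589] :=
  pos_of_cert (F := 516) (by norm_num) p_35ecedd32d (List.forall_mem_cons.2 ⟨(q_c29bca13d6.mono (by norm_num)),
    (List.forall_mem_cons.2 ⟨(q_2fb6b00df0.mono (by norm_num)),
    (List.forall_mem_cons.2 ⟨(q_357a3e643f.mono (by norm_num)),
    (List.forall_mem_nil _)⟩)⟩)⟩)

theorem q_075f12b9be : PosP 516 [464, 494, 495] [433, 528, 560] :=
  pos_of_cert (F := 266) (by norm_num) p_075f12b9be (List.forall_mem_nil _)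

theorem q_d722fbfaa5 : PosP 516 [462, 463, 495] [431, 461, 499] :=
  pos_of_cert (F := 266) (by norm_num) p_d722fbfaa5 (List.forall_mem_nil _)

theorem q_582cc1d2b6 : PosP 516 [462, 463, 495] [431, 464, 499] :=
  pos_of_cert (F := 266) (by norm_num) p_582cc1d2b6 (List.forall_mem_nil _)

theorem q_aa0b359dd3 : PosP 766 [463, 495] [431, 499] :=
  pos_of_cert (F := 516) (by norm_num) p_aa0b359dd3 (List.forall_mem_cons.2 ⟨(q_d722fbfaa5.mono (by norm_num)),
    (List.forall_mem_cons.2 ⟨(q_582cc1d2b6.mono (by norm_num)),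
    (List.forall_mem_nil _)⟩)⟩)

theorem q_83a19940ca : PosP 516 [464, 495] [528, 660] :=
  pos_of_cert (F := 266) (by norm_num) p_83a19940ca (List.forall_mem_nil _)

theorem q_2fe437162b : PosP 516 [464, 493, 495, 526] [369, 401, 433, 528] :=
  pos_of_cert (F := 266) (by norm_num) p_2fe437162b (List.forall_mem_nil _)

theorem q_26456056bb : PosP 516 [464, 493, 495, 526] [401, 433, 465, 528] :=
  pos_of_cert (F := 266) (by norm_num) p_26456056bb (List.forall_mem_nil _)

theorem q_a775de62aa : PosP 766 [464, 495, 526] [401, 433, 528] :=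
  pos_of_cert (F := 516) (by norm_num) p_a775de62aa (List.forall_mem_cons.2 ⟨(q_2fe437162b.mono (by norm_num)),
    (List.forall_mem_cons.2 ⟨(q_26456056bb.mono (by norm_num)),
    (List.forall_mem_nil _)⟩)⟩)

theorem q_5c51a3be04 : PosP 1016 [464, 495] [401, 528] :=
  pos_of_cert (F := 766) (by norm_num) p_5c51a3be04 (List.forall_mem_cons.2 ⟨(q_a775de62aa.mono (by norm_num)),
    (List.forall_mem_nil _)⟩)

theorem q_c425e02a0e : PosP 516 [464, 465, 466, 495, 497, 592] [427, 463, 493, 526, 528, 559] :=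
  pos_of_cert (F := 266) (by norm_num) p_c425e02a0e (List.forall_mem_nil _)

theorem q_45800bce36 : PosP 516 [464, 465, 466, 495, 497, 592] [460, 463, 493, 526, 528, 559] :=
  pos_of_cert (F := 266) (by norm_num) p_45800bce36 (List.forall_mem_nil _)

theorem q_c6a3fa5565 : PosP 766 [464, 465, 466, 495, 497] [463, 493, 526, 528, 559] :=
  pos_of_cert (F := 516) (by norm_num) p_c6a3fa5565 (List.forall_mem_cons.2 ⟨(q_c425e02a0e.mono (by norm_num)),
    (List.forall_mem_cons.2 ⟨(q_45800bce36.mono (by norm_num)),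
    (List.forall_mem_nil _)⟩)⟩)

theorem q_468eb28436 : PosP 516 [464, 465, 466, 468, 493, 495, 497] [463, 467, 525, 526, 528, 559, 592] :=
  pos_of_cert (F := 266) (by norm_num) p_468eb28436 (List.forall_mem_nil _)

theorem q_be98a152eb : PosP 516 [464, 465, 466, 468, 493, 495, 497] [463, 467, 526, 528, 559, 592, 625] :=
  pos_of_cert (F := 266) (by norm_num) p_be98a152eb (List.forall_mem_nil _)

theorem q_c0b7d1a3e1 : PosP 516 [464, 465, 466, 468, 493, 495, 497] [463, 467, 526, 528, 559, 592, 658] :=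
  pos_of_cert (F := 266) (by norm_num) p_c0b7d1a3e1 (List.forall_mem_nil _)

theorem q_a9ca4cb673 : PosP 766 [464, 465, 466, 468, 495, 497] [463, 467, 526, 528, 559, 592] :=
  pos_of_cert (F := 516) (by norm_num) p_a9ca4cb673 (List.forall_mem_cons.2 ⟨(q_468eb28436.mono (by norm_num)),
    (List.forall_mem_cons.2 ⟨(q_be98a152eb.mono (by norm_num)),
    (List.forall_mem_cons.2 ⟨(q_c0b7d1a3e1.mono (by norm_num)),
    (List.forall_mem_nil _)⟩)⟩)⟩)

theorem q_6edf6ec79f : PosP 1016 [464, 465, 466, 495] [463, 526, 528, 559] :=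
  pos_of_cert (F := 766) (by norm_num) p_6edf6ec79f (List.forall_mem_cons.2 ⟨(q_c6a3fa5565.mono (by norm_num)),
    (List.forall_mem_cons.2 ⟨(q_a9ca4cb673.mono (by norm_num)),
    (List.forall_mem_cons.2 ⟨(q_8979df5c85.mono (by norm_num)),
    (List.forall_mem_nil _)⟩)⟩)⟩)

theorem q_ad718517d7 : PosP 516 [464, 465, 466, 495, 497, 592] [427, 467, 493, 526, 528, 559] :=
  pos_of_cert (F := 266) (by norm_num) p_ad718517d7 (List.forall_mem_nil _)

theorem q_5b17ac350c : PosP 516 [464, 465, 466, 495, 497, 592] [460, 467, 493, 526, 528, 559] :=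
  pos_of_cert (F := 266) (by norm_num) p_5b17ac350c (List.forall_mem_nil _)

theorem q_f8a7cdc84f : PosP 766 [464, 465, 466, 495, 497] [467, 493, 526, 528, 559] :=
  pos_of_cert (F := 516) (by norm_num) p_f8a7cdc84f (List.forall_mem_cons.2 ⟨(q_ad718517d7.mono (by norm_num)),
    (List.forall_mem_cons.2 ⟨(q_5b17ac350c.mono (by norm_num)),
    (List.forall_mem_nil _)⟩)⟩)

theorem q_585540e336 : PosP 516 [464, 465, 466, 495, 497] [467, 526, 528, 559, 592] :=
  pos_of_cert (F := 266) (by norm_num) p_585540e336 (List.forall_mem_nil _)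

theorem q_d962f4a1c1 : PosP 1266 [464, 465, 495] [526, 528, 559] :=
  pos_of_cert (F := 1016) (by norm_num) p_d962f4a1c1 (List.forall_mem_cons.2 ⟨(q_6edf6ec79f.mono (by norm_num)),
    (List.forall_mem_cons.2 ⟨(q_f8a7cdc84f.mono (by norm_num)),
    (List.forall_mem_cons.2 ⟨(q_585540e336.mono (by norm_num)),
    (List.forall_mem_cons.2 ⟨(q_bc7b66adea.mono (by norm_num)),
    (List.forall_mem_nil _)⟩)⟩)⟩)⟩)

theorem q_912144614e : PosP 516 [465, 495, 528, 529] [462, 496, 498, 527] :=
  pos_of_cert (F := 266) (by norm_num) p_912144614e (List.forall_mem_nil _)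

theorem q_406b488f2b : PosP 516 [463, 464, 495, 527] [431, 498, 499, 500] :=
  pos_of_cert (F := 266) (by norm_num) p_406b488f2b (List.forall_mem_nil _)

theorem q_f2a4c080c2 : PosP 766 [463, 495, 527] [431, 498, 499] :=
  pos_of_cert (F := 516) (by norm_num) p_f2a4c080c2 (List.forall_mem_cons.2 ⟨(q_406b488f2b.mono (by norm_num)),
    (List.forall_mem_nil _)⟩)

theorem q_dd1bbc7ad0 : PosP 516 [463, 495, 527] [498, 499, 559] :=
  pos_of_cert (F := 266) (by norm_num) p_dd1bbc7ad0 (List.forall_mem_nil _)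

theorem q_4dddef9da6 : PosP 1016 [463, 495] [498, 499] :=
  pos_of_cert (F := 766) (by norm_num) p_4dddef9da6 (List.forall_mem_cons.2 ⟨(q_f2a4c080c2.mono (by norm_num)),
    (List.forall_mem_cons.2 ⟨(q_dd1bbc7ad0.mono (by norm_num)),
    (List.forall_mem_nil _)⟩)⟩)

theorem q_bb9e6dc7b9 : PosP 516 [433, 464, 495, 526] [402, 557, 560, 564] :=
  pos_of_cert (F := 266) (by norm_num) p_bb9e6dc7b9 (List.forall_mem_nil _)

theorem q_c738549952 : PosP 766 [495, 526] [560, 564] :=
  pos_of_cert (F := 516) (by norm_num) p_c738549952 (List.forall_mem_cons.2 ⟨(q_bb9e6dc7b9.mono (by norm_num)),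
    (List.forall_mem_nil _)⟩)

theorem q_f437f01a89 : PosP 516 [433, 464, 465, 495] [432, 526, 527, 528] :=
  pos_of_cert (F := 266) (by norm_num) p_f437f01a89 (List.forall_mem_nil _)

theorem q_fced0a355d : PosP 766 [433, 464, 495] [432, 526, 528] :=
  pos_of_cert (F := 516) (by norm_num) p_fced0a355d (List.forall_mem_cons.2 ⟨(q_f437f01a89.mono (by norm_num)),
    (List.forall_mem_nil _)⟩)

theorem q_fb2d52f291 : PosP 1016 [464, 495] [432, 528] :=
  pos_of_cert (F := 766) (by norm_num) p_fb2d52f291 (List.forall_mem_cons.2 ⟨(q_fced0a355d.mono (by norm_num)),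
    (List.forall_mem_nil _)⟩)

theorem q_c3a86219a4 : PosP 516 [431, 463, 495] [527, 530, 662] :=
  pos_of_cert (F := 266) (by norm_num) p_c3a86219a4 (List.forall_mem_nil _)

theorem q_f1047b0530 : PosP 766 [463, 495] [530, 662] :=
  pos_of_cert (F := 516) (by norm_num) p_f1047b0530 (List.forall_mem_cons.2 ⟨(q_c3a86219a4.mono (by norm_num)),
    (List.forall_mem_nil _)⟩)

theorem q_e4a974ee2b : PosP 516 [495, 526] [498, 502] :=
  pos_of_cert (F := 266) (by norm_num) p_e4a974ee2b (List.forall_mem_nil _)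

theorem q_9baff7569b : PosP 516 [464, 495, 528] [496, 559, 560] :=
  pos_of_cert (F := 266) (by norm_num) p_9baff7569b (List.forall_mem_nil _)

theorem q_2e1c7cfcf9 : PosP 516 [462, 463, 495] [461, 499, 527] :=
  pos_of_cert (F := 266) (by norm_num) p_2e1c7cfcf9 (List.forall_mem_nil _)

theorem q_feac8dc4ff : PosP 516 [462, 463, 495] [464, 499, 527] :=
  pos_of_cert (F := 266) (by norm_num) p_feac8dc4ff (List.forall_mem_nil _)

theorem q_f6f82bd366 : PosP 516 [461, 462, 463, 495, 528, 561] [429, 464, 496, 499, 527, 594] :=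
  pos_of_cert (F := 266) (by norm_num) p_f6f82bd366 (List.forall_mem_nil _)

theorem q_0efa8385d8 : PosP 516 [462, 463, 495] [499, 525, 527] :=
  pos_of_cert (F := 266) (by norm_num) p_0efa8385d8 (List.forall_mem_nil _)

theorem q_a38d6ae45a : PosP 516 [462, 463, 495] [499, 527, 560] :=
  pos_of_cert (F := 266) (by norm_num) p_a38d6ae45a (List.forall_mem_nil _)

theorem q_79a081f460 : PosP 766 [463, 495] [499, 527] :=
  pos_of_cert (F := 516) (by norm_num) p_79a081f460 (List.forall_mem_cons.2 ⟨(q_2e1c7cfcf9.mono (by norm_num)),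
    (List.forall_mem_cons.2 ⟨(q_feac8dc4ff.mono (by norm_num)),
    (List.forall_mem_cons.2 ⟨(q_f6f82bd366.mono (by norm_num)),
    (List.forall_mem_cons.2 ⟨(q_0efa8385d8.mono (by norm_num)),
    (List.forall_mem_cons.2 ⟨(q_a38d6ae45a.mono (by norm_num)),
    (List.forall_mem_nil _)⟩)⟩)⟩)⟩)⟩)

theorem q_3efa1db31e : PosP 516 [495, 526, 557, 588] [464, 529, 619, 628] :=
  pos_of_cert (F := 266) (by norm_num) p_3efa1db31e (List.forall_mem_nil _)

theorem q_1cf8185346 : PosP 766 [495, 526] [529, 628] :=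
  pos_of_cert (F := 516) (by norm_num) p_1cf8185346 (List.forall_mem_cons.2 ⟨(q_3efa1db31e.mono (by norm_num)),
    (List.forall_mem_nil _)⟩)

theorem q_fe9d6ffaa1 : PosP 516 [466, 495, 528] [431, 496, 527] :=
  pos_of_cert (F := 266) (by norm_num) p_fe9d6ffaa1 (List.forall_mem_nil _)

theorem q_d4424ff083 : PosP 516 [464, 494, 495] [433, 528, 620] :=
  pos_of_cert (F := 266) (by norm_num) p_d4424ff083 (List.forall_mem_nil _)

theorem q_d6fdb45fb7 : PosP 516 [464, 495, 497, 526, 528, 557] [433, 466, 498, 499, 500, 588] :=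
  pos_of_cert (F := 266) (by norm_num) p_d6fdb45fb7 (List.forall_mem_nil _)

theorem q_c02be16484 : PosP 766 [464, 495, 526, 528, 557] [433, 498, 499, 500, 588] :=
  pos_of_cert (F := 516) (by norm_num) p_c02be16484 (List.forall_mem_cons.2 ⟨(q_d6fdb45fb7.mono (by norm_num)),
    (List.forall_mem_nil _)⟩)

theorem q_f8d63cf7ff : PosP 1016 [464, 495, 526, 557] [433, 498, 500, 588] :=
  pos_of_cert (F := 766) (by norm_num) p_f8d63cf7ff (List.forall_mem_cons.2 ⟨(q_c02be16484.mono (by norm_num)),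
    (List.forall_mem_nil _)⟩)

theorem q_1f20cfd3de : PosP 516 [464, 495, 526] [498, 500, 557] :=
  pos_of_cert (F := 266) (by norm_num) p_1f20cfd3de (List.forall_mem_nil _)

theorem q_f2ac2f80ae : PosP 1266 [495, 526] [498, 500] :=
  pos_of_cert (F := 1016) (by norm_num) p_f2ac2f80ae (List.forall_mem_cons.2 ⟨(q_f8d63cf7ff.mono (by norm_num)),
    (List.forall_mem_cons.2 ⟨(q_1f20cfd3de.mono (by norm_num)),
    (List.forall_mem_nil _)⟩)⟩)

theorem q_6d5f12b25c : PosP 516 [464, 465, 466, 467, 495, 497, 559] [394, 460, 463, 468, 493, 526, 528] :=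
  pos_of_cert (F := 266) (by norm_num) p_6d5f12b25c (List.forall_mem_nil _)

theorem q_4c9a3e1d34 : PosP 516 [464, 465, 466, 467, 495, 497, 559] [427, 460, 463, 468, 493, 526, 528] :=
  pos_of_cert (F := 266) (by norm_num) p_4c9a3e1d34 (List.forall_mem_nil _)

theorem q_23b608e334 : PosP 766 [464, 465, 466, 467, 495, 497] [460, 463, 468, 493, 526, 528] :=
  pos_of_cert (F := 516) (by norm_num) p_23b608e334 (List.forall_mem_cons.2 ⟨(q_6d5f12b25c.mono (by norm_num)),
    (List.forall_mem_cons.2 ⟨(q_4c9a3e1d34.mono (by norm_num)),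
    (List.forall_mem_nil _)⟩)⟩)

theorem q_6f5cde8a18 : PosP 516 [464, 465, 466, 495, 497] [463, 493, 526, 528, 592] :=
  pos_of_cert (F := 266) (by norm_num) p_6f5cde8a18 (List.forall_mem_nil _)

theorem q_1ae5bbbe0a : PosP 1016 [464, 465, 466, 495] [467, 493, 526, 528] :=
  pos_of_cert (F := 766) (by norm_num) p_1ae5bbbe0a (List.forall_mem_cons.2 ⟨(q_f8a7cdc84f.mono (by norm_num)),
    (List.forall_mem_nil _)⟩)

theorem q_13189e6720 : PosP 1266 [464, 465, 495] [493, 526, 528] :=
  pos_of_cert (F := 1016) (by norm_num) p_13189e6720 (List.forall_mem_cons.2 ⟨(q_23b608e334.mono (by norm_num)),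
    (List.forall_mem_cons.2 ⟨(q_c6a3fa5565.mono (by norm_num)),
    (List.forall_mem_cons.2 ⟨(q_6f5cde8a18.mono (by norm_num)),
    (List.forall_mem_cons.2 ⟨(q_1ae5bbbe0a.mono (by norm_num)),
    (List.forall_mem_nil _)⟩)⟩)⟩)⟩)

theorem q_1e6965e474 : PosP 516 [466, 495, 528] [432, 496, 527] :=
  pos_of_cert (F := 266) (by norm_num) p_1e6965e474 (List.forall_mem_nil _)

theorem q_505581928b : PosP 516 [464, 465, 495] [526, 528, 658] :=
  pos_of_cert (F := 266) (by norm_num) p_505581928b (List.forall_mem_nil _)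

theorem q_5de36ea80f : PosP 516 [431, 462, 463, 495] [499, 500, 501, 527] :=
  pos_of_cert (F := 266) (by norm_num) p_5de36ea80f (List.forall_mem_nil _)

theorem q_4debf472bb : PosP 766 [431, 463, 495] [499, 500, 527] :=
  pos_of_cert (F := 516) (by norm_num) p_4debf472bb (List.forall_mem_cons.2 ⟨(q_c92107cdba.mono (by norm_num)),
    (List.forall_mem_cons.2 ⟨(q_5de36ea80f.mono (by norm_num)),
    (List.forall_mem_nil _)⟩)⟩)

theorem q_00ec8cf0eb : PosP 1016 [463, 495] [499, 500] :=
  pos_of_cert (F := 766) (by norm_num) p_00ec8cf0eb (List.forall_mem_cons.2 ⟨(q_4debf472bb.mono (by norm_num)),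
    (List.forall_mem_nil _)⟩)

theorem q_147f3cfd79 : PosP 516 [433, 464, 495, 496, 526] [402, 557, 559, 560, 563] :=
  pos_of_cert (F := 266) (by norm_num) p_147f3cfd79 (List.forall_mem_nil _)

theorem q_cf32f7af72 : PosP 766 [433, 464, 495, 526] [402, 557, 559, 563] :=
  pos_of_cert (F := 516) (by norm_num) p_cf32f7af72 (List.forall_mem_cons.2 ⟨(q_147f3cfd79.mono (by norm_num)),
    (List.forall_mem_nil _)⟩)

theorem q_9d01e61f37 : PosP 1016 [464, 495] [559, 563] :=
  pos_of_cert (F := 766) (by norm_num) p_9d01e61f37 (List.forall_mem_cons.2 ⟨(q_cf32f7af72.mono (by norm_num)),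
    (List.forall_mem_nil _)⟩)

theorem q_b8ea214d52 : PosP 516 [464, 495, 528] [397, 496, 559] :=
  pos_of_cert (F := 266) (by norm_num) p_b8ea214d52 (List.forall_mem_nil _)

theorem q_38838a60ca : PosP 516 [464, 495, 497, 526, 557] [433, 561, 588, 627, 660] :=
  pos_of_cert (F := 266) (by norm_num) p_38838a60ca (List.forall_mem_nil _)

theorem q_203bfdb214 : PosP 766 [464, 495, 526, 557] [433, 561, 588, 660] :=
  pos_of_cert (F := 516) (by norm_num) p_203bfdb214 (List.forall_mem_cons.2 ⟨(q_38838a60ca.mono (by norm_num)),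
    (List.forall_mem_nil _)⟩)

theorem q_6eeb58dd9f : PosP 1016 [495, 526] [561, 660] :=
  pos_of_cert (F := 766) (by norm_num) p_6eeb58dd9f (List.forall_mem_cons.2 ⟨(q_203bfdb214.mono (by norm_num)),
    (List.forall_mem_nil _)⟩)

theorem q_41d75597b4 : PosP 516 [431, 464, 495] [433, 463, 528] :=
  pos_of_cert (F := 266) (by norm_num) p_41d75597b4 (List.forall_mem_nil _)

theorem q_b591f17ac9 : PosP 516 [464, 494, 495] [433, 528, 594] :=
  pos_of_cert (F := 266) (by norm_num) p_b591f17ac9 (List.forall_mem_nil _)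

theorem q_4aeeed308f : PosP 516 [465, 466, 495, 528, 560] [395, 461, 494, 496, 527] :=
  pos_of_cert (F := 266) (by norm_num) p_4aeeed308f (List.forall_mem_nil _)

theorem q_4ffb32b8ed : PosP 516 [465, 466, 495, 528, 560] [428, 461, 494, 496, 527] :=
  pos_of_cert (F := 266) (by norm_num) p_4ffb32b8ed (List.forall_mem_nil _)

theorem q_b5c6b0ea47 : PosP 766 [465, 466, 495, 528] [461, 494, 496, 527] :=
  pos_of_cert (F := 516) (by norm_num) p_b5c6b0ea47 (List.forall_mem_cons.2 ⟨(q_4aeeed308f.mono (by norm_num)),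
    (List.forall_mem_cons.2 ⟨(q_4ffb32b8ed.mono (by norm_num)),
    (List.forall_mem_nil _)⟩)⟩)

theorem q_418b80098b : PosP 516 [465, 466, 495, 528] [494, 496, 527, 560] :=
  pos_of_cert (F := 266) (by norm_num) p_418b80098b (List.forall_mem_nil _)

theorem q_7160e6e974 : PosP 1016 [466, 495, 528] [494, 496, 527] :=
  pos_of_cert (F := 766) (by norm_num) p_7160e6e974 (List.forall_mem_cons.2 ⟨(q_b5c6b0ea47.mono (by norm_num)),
    (List.forall_mem_cons.2 ⟨(q_418b80098b.mono (by norm_num)),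
    (List.forall_mem_nil _)⟩)⟩)

theorem q_9ad13a8421 : PosP 516 [466, 495, 528] [496, 527, 563] :=
  pos_of_cert (F := 266) (by norm_num) p_9ad13a8421 (List.forall_mem_nil _)

theorem q_dc268754e2 : PosP 516 [464, 495] [528, 591] :=
  pos_of_cert (F := 266) (by norm_num) p_dc268754e2 (List.forall_mem_nil _)

theorem q_f897e2a8fc : PosP 516 [495, 526, 557] [561, 588, 689] :=
  pos_of_cert (F := 266) (by norm_num) p_f897e2a8fc (List.forall_mem_nil _)

theorem q_be79552f7b : PosP 766 [495, 526] [561, 689] :=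
  pos_of_cert (F := 516) (by norm_num) p_be79552f7b (List.forall_mem_cons.2 ⟨(q_f897e2a8fc.mono (by norm_num)),
    (List.forall_mem_nil _)⟩)

theorem q_a4a90987ad : PosP 516 [465, 466, 495, 528, 530, 561, 562, 590, 594] [435, 462, 494, 496, 497, 498, 527, 558, 627] :=
  pos_of_cert (F := 266) (by norm_num) p_a4a90987ad (List.forall_mem_nil _)

theorem q_e8571f6312 : PosP 516 [465, 466, 495, 497, 528, 530, 561, 562, 590, 594, 626] [435, 462, 494, 496, 498, 527, 558, 559, 593, 627, 658] :=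
  pos_of_cert (F := 266) (by norm_num) p_e8571f6312 (List.forall_mem_nil _)

theorem q_d7cd8a367b : PosP 766 [465, 466, 495, 528, 530, 561, 562, 594] [435, 462, 494, 496, 498, 527, 558, 627] :=
  pos_of_cert (F := 516) (by norm_num) p_d7cd8a367b (List.forall_mem_cons.2 ⟨(q_a4a90987ad.mono (by norm_num)),
    (List.forall_mem_cons.2 ⟨(q_e8571f6312.mono (by norm_num)),
    (List.forall_mem_nil _)⟩)⟩)

theorem q_972a356f37 : PosP 516 [465, 466, 495, 528, 530, 561, 562, 594] [435, 462, 496, 498, 526, 527, 558, 627] :=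
  pos_of_cert (F := 266) (by norm_num) p_972a356f37 (List.forall_mem_nil _)

theorem q_16d41964f1 : PosP 516 [465, 466, 495, 528, 530, 561, 562, 594] [435, 462, 496, 498, 527, 558, 589, 627] :=
  pos_of_cert (F := 266) (by norm_num) p_16d41964f1 (List.forall_mem_nil _)

theorem q_12d1792038 : PosP 1016 [466, 495, 528, 530, 561, 562, 594] [435, 462, 496, 498, 527, 558, 627] :=
  pos_of_cert (F := 766) (by norm_num) p_12d1792038 (List.forall_mem_cons.2 ⟨(q_d7cd8a367b.mono (by norm_num)),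
    (List.forall_mem_cons.2 ⟨(q_972a356f37.mono (by norm_num)),
    (List.forall_mem_cons.2 ⟨(q_16d41964f1.mono (by norm_num)),
    (List.forall_mem_nil _)⟩)⟩)⟩)

theorem q_fad16a172e : PosP 1266 [466, 495, 528, 561, 594] [435, 462, 496, 527, 627] :=
  pos_of_cert (F := 1016) (by norm_num) p_fad16a172e (List.forall_mem_cons.2 ⟨(q_12d1792038.mono (by norm_num)),
    (List.forall_mem_nil _)⟩)

theorem q_d689f3fa6a : PosP 516 [465, 466, 495, 528, 561] [433, 435, 496, 527, 594] :=
  pos_of_cert (F := 266) (by norm_num) p_d689f3fa6a (List.forall_mem_nil _)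

theorem q_e2d6872902 : PosP 516 [465, 466, 495, 528, 561] [435, 496, 527, 529, 594] :=
  pos_of_cert (F := 266) (by norm_num) p_e2d6872902 (List.forall_mem_nil _)

theorem q_1832478fab : PosP 766 [466, 495, 528, 561] [435, 496, 527, 594] :=
  pos_of_cert (F := 516) (by norm_num) p_1832478fab (List.forall_mem_cons.2 ⟨(q_d689f3fa6a.mono (by norm_num)),
    (List.forall_mem_cons.2 ⟨(q_e2d6872902.mono (by norm_num)),
    (List.forall_mem_nil _)⟩)⟩)

theorem q_3b4af3ec90 : PosP 1516 [466, 495, 528] [435, 496, 527] :=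
  pos_of_cert (F := 1266) (by norm_num) p_3b4af3ec90 (List.forall_mem_cons.2 ⟨(q_fad16a172e.mono (by norm_num)),
    (List.forall_mem_cons.2 ⟨(q_1832478fab.mono (by norm_num)),
    (List.forall_mem_nil _)⟩)⟩)

theorem q_65ddd1304b : PosP 766 [495, 497, 528, 529] [461, 462, 463, 496] :=
  pos_of_cert (F := 516) (by norm_num) p_65ddd1304b (List.forall_mem_cons.2 ⟨(q_b5559460cd.mono (by norm_num)),
    (List.forall_mem_nil _)⟩)

theorem q_ffd116e74e : PosP 516 [495, 497, 528, 529] [462, 463, 496, 530] :=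
  pos_of_cert (F := 266) (by norm_num) p_ffd116e74e (List.forall_mem_nil _)

theorem q_44cb1657d6 : PosP 1016 [495, 528, 529] [462, 463, 496] :=
  pos_of_cert (F := 766) (by norm_num) p_44cb1657d6 (List.forall_mem_cons.2 ⟨(q_c9957b5626.mono (by norm_num)),
    (List.forall_mem_cons.2 ⟨(q_65ddd1304b.mono (by norm_num)),
    (List.forall_mem_cons.2 ⟨(q_ffd116e74e.mono (by norm_num)),
    (List.forall_mem_nil _)⟩)⟩)⟩)

theorem q_e517d5d761 : PosP 516 [433, 464, 494, 495] [402, 431, 526, 528] :=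
  pos_of_cert (F := 266) (by norm_num) p_e517d5d761 (List.forall_mem_nil _)

theorem q_5417229307 : PosP 516 [433, 464, 465, 495] [431, 526, 527, 528] :=
  pos_of_cert (F := 266) (by norm_num) p_5417229307 (List.forall_mem_nil _)

theorem q_315906646b : PosP 516 [433, 464, 465, 495] [431, 526, 528, 529] :=
  pos_of_cert (F := 266) (by norm_num) p_315906646b (List.forall_mem_nil _)

theorem q_fde7c12ae2 : PosP 766 [433, 464, 495] [431, 526, 528] :=
  pos_of_cert (F := 516) (by norm_num) p_fde7c12ae2 (List.forall_mem_cons.2 ⟨(q_5417229307.mono (by norm_num)),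
    (List.forall_mem_cons.2 ⟨(q_315906646b.mono (by norm_num)),
    (List.forall_mem_nil _)⟩)⟩)

theorem q_f935d7e7ff : PosP 516 [464, 494, 495] [433, 528, 531] :=
  pos_of_cert (F := 266) (by norm_num) p_f935d7e7ff (List.forall_mem_nil _)

theorem q_df6538fcdf : PosP 516 [495, 496, 527] [593, 594, 595] :=
  pos_of_cert (F := 266) (by norm_num) p_df6538fcdf (List.forall_mem_nil _)

theorem q_1a492ad2bc : PosP 516 [495, 496, 527, 593] [594, 595, 596, 597] :=
  pos_of_cert (F := 266) (by norm_num) p_1a492ad2bc (List.forall_mem_nil _)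

theorem q_439b4891dd : PosP 766 [495, 496, 527] [594, 595, 596] :=
  pos_of_cert (F := 516) (by norm_num) p_439b4891dd (List.forall_mem_cons.2 ⟨(q_1a492ad2bc.mono (by norm_num)),
    (List.forall_mem_nil _)⟩)

theorem q_fed9cf6ab8 : PosP 766 [495, 496, 527] [594, 595, 597] :=
  pos_of_cert (F := 516) (by norm_num) p_fed9cf6ab8 (List.forall_mem_cons.2 ⟨(q_1a492ad2bc.mono (by norm_num)),
    (List.forall_mem_nil _)⟩)

theorem q_907b134ccd : PosP 1016 [495, 496] [594, 595] :=
  pos_of_cert (F := 766) (by norm_num) p_907b134ccd (List.forall_mem_cons.2 ⟨(q_df6538fcdf.mono (by norm_num)),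
    (List.forall_mem_cons.2 ⟨(q_439b4891dd.mono (by norm_num)),
    (List.forall_mem_cons.2 ⟨(q_fed9cf6ab8.mono (by norm_num)),
    (List.forall_mem_nil _)⟩)⟩)⟩)

theorem q_b17afa781b : PosP 1016 [495, 528, 529] [461, 462, 496] :=
  pos_of_cert (F := 766) (by norm_num) p_b17afa781b (List.forall_mem_cons.2 ⟨(q_2b9c9252d4.mono (by norm_num)),
    (List.forall_mem_cons.2 ⟨(q_65ddd1304b.mono (by norm_num)),
    (List.forall_mem_nil _)⟩)⟩)

theorem q_534fd89d6b : PosP 516 [466, 495, 528] [461, 496, 527] :=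
  pos_of_cert (F := 266) (by norm_num) p_534fd89d6b (List.forall_mem_nil _)

theorem q_b0133fa470 : PosP 516 [398, 431, 464, 495, 497] [365, 430, 463, 528, 530] :=
  pos_of_cert (F := 266) (by norm_num) p_b0133fa470 (List.forall_mem_nil _)

theorem q_91aca472e3 : PosP 766 [431, 464, 495] [430, 463, 528] :=
  pos_of_cert (F := 516) (by norm_num) p_91aca472e3 (List.forall_mem_cons.2 ⟨(q_b0133fa470.mono (by norm_num)),
    (List.forall_mem_nil _)⟩)

theorem q_42f039a52d : PosP 516 [466, 495, 528] [398, 496, 527] :=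
  pos_of_cert (F := 266) (by norm_num) p_42f039a52d (List.forall_mem_nil _)

theorem q_c420b6f2c1 : PosP 516 [431, 464, 495] [463, 494, 528] :=
  pos_of_cert (F := 266) (by norm_num) p_c420b6f2c1 (List.forall_mem_nil _)

theorem q_ab31da2da8 : PosP 516 [495, 496] [595, 727] :=
  pos_of_cert (F := 266) (by norm_num) p_ab31da2da8 (List.forall_mem_nil _)

theorem q_255507ef48 : PosP 516 [433, 465, 466, 495, 497, 528, 529, 532, 559] [401, 435, 462, 464, 496, 499, 527, 561, 590] :=
  pos_of_cert (F := 266) (by norm_num) p_255507ef48 (List.forall_mem_nil _)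

theorem q_5c6e4d85cf : PosP 766 [465, 495, 528, 529] [462, 464, 496, 527] :=
  pos_of_cert (F := 516) (by norm_num) p_5c6e4d85cf (List.forall_mem_cons.2 ⟨(q_255507ef48.mono (by norm_num)),
    (List.forall_mem_nil _)⟩)

theorem q_30cc66821c : PosP 766 [466, 495, 528] [468, 496, 527] :=
  pos_of_cert (F := 516) (by norm_num) p_30cc66821c (List.forall_mem_cons.2 ⟨(q_fcd8ff44bf.mono (by norm_num)),
    (List.forall_mem_nil _)⟩)

theorem q_8ee502bc72 : PosP 516 [402, 431, 432, 433, 464, 495, 529] [364, 371, 430, 463, 526, 528, 530] :=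
  pos_of_cert (F := 266) (by norm_num) p_8ee502bc72 (List.forall_mem_nil _)

theorem q_f4a77a4433 : PosP 516 [364, 402, 431, 432, 433, 435, 464, 495, 529] [371, 397, 430, 434, 463, 494, 526, 528, 530] :=
  pos_of_cert (F := 266) (by norm_num) p_f4a77a4433 (List.forall_mem_nil _)

theorem q_c3bce4be4b : PosP 766 [402, 431, 432, 433, 464, 495, 529] [371, 397, 430, 463, 526, 528, 530] :=
  pos_of_cert (F := 516) (by norm_num) p_c3bce4be4b (List.forall_mem_cons.2 ⟨(q_f4a77a4433.mono (by norm_num)),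
    (List.forall_mem_nil _)⟩)

theorem q_7afc1fb07c : PosP 1016 [402, 431, 432, 433, 464, 495] [371, 430, 463, 526, 528, 530] :=
  pos_of_cert (F := 766) (by norm_num) p_7afc1fb07c (List.forall_mem_cons.2 ⟨(q_8ee502bc72.mono (by norm_num)),
    (List.forall_mem_cons.2 ⟨(q_c3bce4be4b.mono (by norm_num)),
    (List.forall_mem_nil _)⟩)⟩)

theorem q_602235648e : PosP 1266 [431, 464, 495] [463, 528, 530] :=
  pos_of_cert (F := 1016) (by norm_num) p_602235648e (List.forall_mem_cons.2 ⟨(q_7afc1fb07c.mono (by norm_num)),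
    (List.forall_mem_nil _)⟩)

theorem q_c3bbeecc14 : PosP 516 [464, 495] [528, 596] :=
  pos_of_cert (F := 266) (by norm_num) p_c3bbeecc14 (List.forall_mem_nil _)

theorem q_438149c3fc : PosP 516 [464, 465, 495] [526, 528, 591] :=
  pos_of_cert (F := 266) (by norm_num) p_438149c3fc (List.forall_mem_nil _)

theorem q_593461888e : PosP 516 [495, 528] [500, 504] :=
  pos_of_cert (F := 266) (by norm_num) p_593461888e (List.forall_mem_nil _)

theorem q_db77fe1831 : PosP 516 [462, 464, 465, 495, 497, 529, 593] [430, 433, 463, 494, 526, 528, 561] :=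
  pos_of_cert (F := 266) (by norm_num) p_db77fe1831 (List.forall_mem_nil _)

theorem q_34bfbfe870 : PosP 516 [430, 431, 464, 465, 495, 497, 527, 558] [398, 462, 463, 494, 496, 526, 528, 529] :=
  pos_of_cert (F := 266) (by norm_num) p_34bfbfe870 (List.forall_mem_nil _)

theorem q_0bb90d4d88 : PosP 766 [464, 465, 495, 497] [494, 526, 528, 529] :=
  pos_of_cert (F := 516) (by norm_num) p_0bb90d4d88 (List.forall_mem_cons.2 ⟨(q_34bfbfe870.mono (by norm_num)),
    (List.forall_mem_nil _)⟩)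

theorem q_04dbf976e1 : PosP 516 [464, 465, 495, 497] [494, 526, 528, 558] :=
  pos_of_cert (F := 266) (by norm_num) p_04dbf976e1 (List.forall_mem_nil _)

theorem q_df77be09e0 : PosP 516 [464, 465, 495, 497] [494, 526, 528, 590] :=
  pos_of_cert (F := 266) (by norm_num) p_df77be09e0 (List.forall_mem_nil _)

theorem q_950f6962f6 : PosP 1266 [464, 465, 495] [494, 526, 528] :=
  pos_of_cert (F := 1016) (by norm_num) p_950f6962f6 (List.forall_mem_cons.2 ⟨(q_db77fe1831.mono (by norm_num)),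
    (List.forall_mem_cons.2 ⟨(q_f3f4a04a59.mono (by norm_num)),
    (List.forall_mem_cons.2 ⟨(q_0bb90d4d88.mono (by norm_num)),
    (List.forall_mem_cons.2 ⟨(q_04dbf976e1.mono (by norm_num)),
    (List.forall_mem_cons.2 ⟨(q_df77be09e0.mono (by norm_num)),
    (List.forall_mem_nil _)⟩)⟩)⟩)⟩)⟩)

theorem q_da8542f844 : PosP 516 [464, 495, 497, 526] [433, 465, 527, 561] :=
  pos_of_cert (F := 266) (by norm_num) p_da8542f844 (List.forall_mem_nil _)

theorem q_0e7773aad9 : PosP 766 [464, 495, 526] [433, 465, 561] :=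
  pos_of_cert (F := 516) (by norm_num) p_0e7773aad9 (List.forall_mem_cons.2 ⟨(q_da8542f844.mono (by norm_num)),
    (List.forall_mem_nil _)⟩)

theorem q_e1669f5448 : PosP 1016 [495, 526] [465, 561] :=
  pos_of_cert (F := 766) (by norm_num) p_e1669f5448 (List.forall_mem_cons.2 ⟨(q_0e7773aad9.mono (by norm_num)),
    (List.forall_mem_nil _)⟩)

theorem q_9fc2d52cb7 : PosP 516 [464, 465, 495, 497] [430, 463, 526, 528] :=
  pos_of_cert (F := 266) (by norm_num) p_9fc2d52cb7 (List.forall_mem_nil _)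

theorem q_e3c6eaa10f : PosP 516 [464, 465, 494, 495, 497, 529, 593] [432, 433, 463, 496, 526, 528, 561] :=
  pos_of_cert (F := 266) (by norm_num) p_e3c6eaa10f (List.forall_mem_nil _)

theorem q_ef44306256 : PosP 516 [464, 465, 495, 497] [434, 463, 526, 528] :=
  pos_of_cert (F := 266) (by norm_num) p_ef44306256 (List.forall_mem_nil _)

theorem q_da3b3a1695 : PosP 516 [464, 465, 495, 497] [463, 494, 526, 528] :=
  pos_of_cert (F := 266) (by norm_num) p_da3b3a1695 (List.forall_mem_nil _)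

theorem q_26e6121c3d : PosP 516 [402, 431, 433, 464, 465, 495, 497, 530] [371, 398, 463, 496, 526, 528, 529, 563] :=
  pos_of_cert (F := 266) (by norm_num) p_26e6121c3d (List.forall_mem_nil _)

theorem q_820d1df827 : PosP 766 [464, 465, 495, 497] [463, 496, 526, 528] :=
  pos_of_cert (F := 516) (by norm_num) p_820d1df827 (List.forall_mem_cons.2 ⟨(q_26e6121c3d.mono (by norm_num)),
    (List.forall_mem_nil _)⟩)

theorem q_9eea3db81a : PosP 516 [464, 465, 495, 497] [463, 498, 526, 528] :=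
  pos_of_cert (F := 266) (by norm_num) p_9eea3db81a (List.forall_mem_nil _)

theorem q_073a19d28b : PosP 516 [464, 465, 495, 497] [463, 499, 526, 528] :=
  pos_of_cert (F := 266) (by norm_num) p_073a19d28b (List.forall_mem_nil _)

theorem q_8dd0f0c72f : PosP 516 [464, 465, 495, 497] [463, 524, 526, 528] :=
  pos_of_cert (F := 266) (by norm_num) p_8dd0f0c72f (List.forall_mem_nil _)

theorem q_2aa4f420a5 : PosP 516 [433, 464, 465, 495, 497, 529] [401, 463, 525, 526, 528, 561] :=
  pos_of_cert (F := 266) (by norm_num) p_2aa4f420a5 (List.forall_mem_nil _)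

theorem q_9771381a5d : PosP 766 [464, 465, 495, 497] [463, 525, 526, 528] :=
  pos_of_cert (F := 516) (by norm_num) p_9771381a5d (List.forall_mem_cons.2 ⟨(q_2aa4f420a5.mono (by norm_num)),
    (List.forall_mem_nil _)⟩)

theorem q_c58c164e4c : PosP 516 [464, 465, 495, 497] [463, 526, 527, 528] :=
  pos_of_cert (F := 266) (by norm_num) p_c58c164e4c (List.forall_mem_nil _)

theorem q_35bb3a48f4 : PosP 516 [464, 465, 495, 497, 530] [431, 463, 526, 528, 529] :=
  pos_of_cert (F := 266) (by norm_num) p_35bb3a48f4 (List.forall_mem_nil _)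

theorem q_fb32cff8bf : PosP 516 [464, 465, 495, 497, 530] [463, 526, 527, 528, 529] :=
  pos_of_cert (F := 266) (by norm_num) p_fb32cff8bf (List.forall_mem_nil _)

theorem q_8ba215af78 : PosP 516 [464, 465, 495, 497, 530] [463, 526, 528, 529, 563] :=
  pos_of_cert (F := 266) (by norm_num) p_8ba215af78 (List.forall_mem_nil _)

theorem q_9603d21417 : PosP 516 [464, 465, 495, 497] [463, 526, 528, 530] :=
  pos_of_cert (F := 266) (by norm_num) p_9603d21417 (List.forall_mem_nil _)

theorem q_7ce3799e82 : PosP 1016 [464, 465, 495] [463, 526, 528] :=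
  pos_of_cert (F := 766) (by norm_num) p_7ce3799e82 (List.forall_mem_cons.2 ⟨(q_9fc2d52cb7.mono (by norm_num)),
    (List.forall_mem_cons.2 ⟨(q_e3c6eaa10f.mono (by norm_num)),
    (List.forall_mem_cons.2 ⟨(q_ef44306256.mono (by norm_num)),
    (List.forall_mem_cons.2 ⟨(q_da3b3a1695.mono (by norm_num)),
    (List.forall_mem_cons.2 ⟨(q_820d1df827.mono (by norm_num)),
    (List.forall_mem_cons.2 ⟨(q_9eea3db81a.mono (by norm_num)),
    (List.forall_mem_cons.2 ⟨(q_073a19d28b.mono (by norm_num)),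
    (List.forall_mem_cons.2 ⟨(q_8dd0f0c72f.mono (by norm_num)),
    (List.forall_mem_cons.2 ⟨(q_9771381a5d.mono (by norm_num)),
    (List.forall_mem_cons.2 ⟨(q_c58c164e4c.mono (by norm_num)),
    (List.forall_mem_cons.2 ⟨(q_35bb3a48f4.mono (by norm_num)),
    (List.forall_mem_cons.2 ⟨(q_fb32cff8bf.mono (by norm_num)),
    (List.forall_mem_cons.2 ⟨(q_8ba215af78.mono (by norm_num)),
    (List.forall_mem_cons.2 ⟨(q_9603d21417.mono (by norm_num)),
    (List.forall_mem_nil _)⟩)⟩)⟩)⟩)⟩)⟩)⟩)⟩)⟩)⟩)⟩)⟩)⟩)⟩)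

theorem q_b2b495691f : PosP 516 [495, 528, 529] [432, 462, 496] :=
  pos_of_cert (F := 266) (by norm_num) p_b2b495691f (List.forall_mem_nil _)

theorem q_a7904f00eb : PosP 516 [463, 494, 495] [466, 498, 530] :=
  pos_of_cert (F := 266) (by norm_num) p_a7904f00eb (List.forall_mem_nil _)

theorem q_1677e68035 : PosP 766 [463, 495] [466, 530] :=
  pos_of_cert (F := 516) (by norm_num) p_1677e68035 (List.forall_mem_cons.2 ⟨(q_a7904f00eb.mono (by norm_num)),
    (List.forall_mem_nil _)⟩)

theorem q_ac96355d8b : PosP 516 [464, 494, 495] [433, 434, 528] :=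
  pos_of_cert (F := 266) (by norm_num) p_ac96355d8b (List.forall_mem_nil _)

theorem q_996015edb0 : PosP 516 [463, 495, 527] [431, 530, 532] :=
  pos_of_cert (F := 266) (by norm_num) p_996015edb0 (List.forall_mem_nil _)

theorem q_924b039f66 : PosP 516 [463, 495, 527] [530, 532, 559] :=
  pos_of_cert (F := 266) (by norm_num) p_924b039f66 (List.forall_mem_nil _)

theorem q_f708e0b659 : PosP 766 [463, 495] [530, 532] :=
  pos_of_cert (F := 516) (by norm_num) p_f708e0b659 (List.forall_mem_cons.2 ⟨(q_996015edb0.mono (by norm_num)),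
    (List.forall_mem_cons.2 ⟨(q_924b039f66.mono (by norm_num)),
    (List.forall_mem_nil _)⟩)⟩)

theorem q_a38b385d40 : PosP 516 [464, 495] [496, 562] :=
  pos_of_cert (F := 266) (by norm_num) p_a38b385d40 (List.forall_mem_nil _)

theorem q_00c55e027b : PosP 516 [464, 494, 495] [431, 433, 528] :=
  pos_of_cert (F := 266) (by norm_num) p_00c55e027b (List.forall_mem_nil _)

theorem q_bac4a8a4dc : PosP 516 [464, 495] [460, 563] :=
  pos_of_cert (F := 266) (by norm_num) p_bac4a8a4dc (List.forall_mem_nil _)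

theorem q_fddc764d75 : PosP 516 [464, 495] [434, 562] :=
  pos_of_cert (F := 266) (by norm_num) p_fddc764d75 (List.forall_mem_nil _)

theorem q_3e06b5a432 : PosP 516 [464, 495] [365, 528] :=
  pos_of_cert (F := 266) (by norm_num) p_3e06b5a432 (List.forall_mem_nil _)

theorem q_2e7cce7c8b : PosP 516 [464, 495, 526, 557] [433, 531, 588, 630] :=
  pos_of_cert (F := 266) (by norm_num) p_2e7cce7c8b (List.forall_mem_nil _)

theorem q_91d38d6d9a : PosP 516 [433, 464, 495, 526] [402, 531, 557, 630] :=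
  pos_of_cert (F := 266) (by norm_num) p_91d38d6d9a (List.forall_mem_nil _)

theorem q_46568b391a : PosP 766 [464, 495] [531, 630] :=
  pos_of_cert (F := 516) (by norm_num) p_46568b391a (List.forall_mem_cons.2 ⟨(q_2e7cce7c8b.mono (by norm_num)),
    (List.forall_mem_cons.2 ⟨(q_91d38d6d9a.mono (by norm_num)),
    (List.forall_mem_nil _)⟩)⟩)

theorem q_52f5f51d5f : PosP 516 [495, 496] [429, 660] :=
  pos_of_cert (F := 266) (by norm_num) p_52f5f51d5f (List.forall_mem_nil _)

theorem q_391083b3a5 : PosP 516 [495, 527, 528, 529] [462, 496, 526, 558] :=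
  pos_of_cert (F := 266) (by norm_num) p_391083b3a5 (List.forall_mem_nil _)

theorem q_db288b2cb0 : PosP 766 [495, 528, 529] [462, 496, 558] :=
  pos_of_cert (F := 516) (by norm_num) p_db288b2cb0 (List.forall_mem_cons.2 ⟨(q_391083b3a5.mono (by norm_num)),
    (List.forall_mem_nil _)⟩)

theorem q_4948ca880c : PosP 516 [465, 495, 496, 497] [494, 595, 628, 661] :=
  pos_of_cert (F := 266) (by norm_num) p_4948ca880c (List.forall_mem_nil _)

theorem q_5cbc1310a7 : PosP 766 [495, 496, 497] [494, 595, 628] :=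
  pos_of_cert (F := 516) (by norm_num) p_5cbc1310a7 (List.forall_mem_cons.2 ⟨(q_4948ca880c.mono (by norm_num)),
    (List.forall_mem_nil _)⟩)

theorem q_7a8a9fdc35 : PosP 516 [495, 496, 497, 529] [498, 595, 628, 661] :=
  pos_of_cert (F := 266) (by norm_num) p_7a8a9fdc35 (List.forall_mem_nil _)

theorem q_f6273954cd : PosP 1016 [495, 496] [595, 628] :=
  pos_of_cert (F := 766) (by norm_num) p_f6273954cd (List.forall_mem_cons.2 ⟨(q_5cbc1310a7.mono (by norm_num)),
    (List.forall_mem_cons.2 ⟨(q_7a8a9fdc35.mono (by norm_num)),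
    (List.forall_mem_nil _)⟩)⟩)

theorem q_c0a6bb0dcb : PosP 516 [464, 465, 495, 530] [524, 526, 528, 529] :=
  pos_of_cert (F := 266) (by norm_num) p_c0a6bb0dcb (List.forall_mem_nil _)

theorem q_3667d7ca01 : PosP 516 [464, 495] [528, 652] :=
  pos_of_cert (F := 266) (by norm_num) p_3667d7ca01 (List.forall_mem_nil _)

theorem q_e9bdbd45cf : PosP 516 [463, 495, 527] [431, 499, 501] :=
  pos_of_cert (F := 266) (by norm_num) p_e9bdbd45cf (List.forall_mem_nil _)

theorem q_39172c9be5 : PosP 766 [463, 495] [499, 501] :=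
  pos_of_cert (F := 516) (by norm_num) p_39172c9be5 (List.forall_mem_cons.2 ⟨(q_e9bdbd45cf.mono (by norm_num)),
    (List.forall_mem_nil _)⟩)

theorem q_61bd61e8b5 : PosP 516 [433, 464, 494, 495] [402, 431, 493, 528] :=
  pos_of_cert (F := 266) (by norm_num) p_61bd61e8b5 (List.forall_mem_nil _)

theorem q_48d37ff082 : PosP 516 [495, 528] [432, 496] :=
  pos_of_cert (F := 266) (by norm_num) p_48d37ff082 (List.forall_mem_nil _)

theorem q_806ccdc339 : PosP 516 [495, 528, 529] [462, 496, 497] :=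
  pos_of_cert (F := 266) (by norm_num) p_806ccdc339 (List.forall_mem_nil _)

theorem q_d0fbe795b3 : PosP 516 [432, 433, 464, 495, 526] [402, 465, 496, 529, 557] :=
  pos_of_cert (F := 266) (by norm_num) p_d0fbe795b3 (List.forall_mem_nil _)

theorem q_5b05b523ad : PosP 766 [433, 464, 495, 526] [402, 465, 529, 557] :=
  pos_of_cert (F := 516) (by norm_num) p_5b05b523ad (List.forall_mem_cons.2 ⟨(q_d0fbe795b3.mono (by norm_num)),
    (List.forall_mem_nil _)⟩)

theorem q_fc61c22e80 : PosP 516 [433, 464, 495] [465, 526, 529] :=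
  pos_of_cert (F := 266) (by norm_num) p_fc61c22e80 (List.forall_mem_nil _)

theorem q_a3cd890615 : PosP 1016 [464, 495] [465, 529] :=
  pos_of_cert (F := 766) (by norm_num) p_a3cd890615 (List.forall_mem_cons.2 ⟨(q_5b05b523ad.mono (by norm_num)),
    (List.forall_mem_cons.2 ⟨(q_fc61c22e80.mono (by norm_num)),
    (List.forall_mem_nil _)⟩)⟩)

theorem q_4819bab08a : PosP 516 [495, 526, 557] [464, 559, 561] :=
  pos_of_cert (F := 266) (by norm_num) p_4819bab08a (List.forall_mem_nil _)

theorem q_4b715a39ce : PosP 516 [495, 526, 557] [559, 561, 588] :=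
  pos_of_cert (F := 266) (by norm_num) p_4b715a39ce (List.forall_mem_nil _)

theorem q_bbf65a7d4a : PosP 766 [495, 526] [559, 561] :=
  pos_of_cert (F := 516) (by norm_num) p_bbf65a7d4a (List.forall_mem_cons.2 ⟨(q_4819bab08a.mono (by norm_num)),
    (List.forall_mem_cons.2 ⟨(q_4b715a39ce.mono (by norm_num)),
    (List.forall_mem_nil _)⟩)⟩)

theorem q_a0f1ceb475 : PosP 516 [463, 464, 495] [433, 524, 528] :=
  pos_of_cert (F := 266) (by norm_num) p_a0f1ceb475 (List.forall_mem_nil _)

theorem q_c0a52d37b2 : PosP 516 [463, 464, 495] [462, 524, 528] :=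
  pos_of_cert (F := 266) (by norm_num) p_c0a52d37b2 (List.forall_mem_nil _)

theorem q_92ef7475b0 : PosP 766 [464, 495] [524, 528] :=
  pos_of_cert (F := 516) (by norm_num) p_92ef7475b0 (List.forall_mem_cons.2 ⟨(q_a0f1ceb475.mono (by norm_num)),
    (List.forall_mem_cons.2 ⟨(q_c0a52d37b2.mono (by norm_num)),
    (List.forall_mem_nil _)⟩)⟩)

theorem q_484a6a3e40 : PosP 516 [464, 494, 495] [433, 499, 528] :=
  pos_of_cert (F := 266) (by norm_num) p_484a6a3e40 (List.forall_mem_nil _)

theorem q_8408e02c0e : PosP 516 [464, 495] [528, 559] :=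
  pos_of_cert (F := 266) (by norm_num) p_8408e02c0e (List.forall_mem_nil _)

theorem q_a968b5e1bb : PosP 516 [466, 495, 528, 558] [372, 465, 496, 527] :=
  pos_of_cert (F := 266) (by norm_num) p_a968b5e1bb (List.forall_mem_nil _)

theorem q_ee0cd2aea3 : PosP 516 [464, 495, 526] [433, 594, 693] :=
  pos_of_cert (F := 266) (by norm_num) p_ee0cd2aea3 (List.forall_mem_nil _)

theorem q_5ba3a49c80 : PosP 766 [464, 495] [594, 693] :=
  pos_of_cert (F := 516) (by norm_num) p_5ba3a49c80 (List.forall_mem_cons.2 ⟨(q_ee0cd2aea3.mono (by norm_num)),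
    (List.forall_mem_nil _)⟩)

theorem q_5895d06968 : PosP 516 [464, 495] [465, 531] :=
  pos_of_cert (F := 266) (by norm_num) p_5895d06968 (List.forall_mem_nil _)

theorem q_fc69f73082 : PosP 516 [495, 497, 528] [500, 501, 502] :=
  pos_of_cert (F := 266) (by norm_num) p_fc69f73082 (List.forall_mem_nil _)

theorem q_6563f0b16a : PosP 516 [495, 497, 528] [500, 501, 503] :=
  pos_of_cert (F := 266) (by norm_num) p_6563f0b16a (List.forall_mem_nil _)

theorem q_c59e864b08 : PosP 766 [495, 528] [500, 501] :=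
  pos_of_cert (F := 516) (by norm_num) p_c59e864b08 (List.forall_mem_cons.2 ⟨(q_ed0e5fcbca.mono (by norm_num)),
    (List.forall_mem_cons.2 ⟨(q_fc69f73082.mono (by norm_num)),
    (List.forall_mem_cons.2 ⟨(q_6563f0b16a.mono (by norm_num)),
    (List.forall_mem_nil _)⟩)⟩)⟩)

theorem q_1d8e2a26f8 : PosP 516 [495, 528, 529] [462, 466, 496] :=
  pos_of_cert (F := 266) (by norm_num) p_1d8e2a26f8 (List.forall_mem_nil _)

theorem q_6e89e804ff : PosP 516 [464, 465, 495, 529] [463, 526, 527, 528] :=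
  pos_of_cert (F := 266) (by norm_num) p_6e89e804ff (List.forall_mem_nil _)

theorem q_cb6c048e27 : PosP 516 [464, 465, 495, 529] [494, 526, 527, 528] :=
  pos_of_cert (F := 266) (by norm_num) p_cb6c048e27 (List.forall_mem_nil _)

theorem q_cb89bcbb49 : PosP 516 [400, 401, 432, 463, 464, 465, 466, 495, 498, 529, 531] [368, 370, 399, 434, 462, 467, 497, 526, 527, 528, 564] :=
  pos_of_cert (F := 266) (by norm_num) p_cb89bcbb49 (List.forall_mem_nil _)

theorem q_d09232e440 : PosP 766 [400, 432, 463, 464, 465, 466, 495, 498, 529, 531] [368, 399, 434, 462, 467, 497, 526, 527, 528, 564] :=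
  pos_of_cert (F := 516) (by norm_num) p_d09232e440 (List.forall_mem_cons.2 ⟨(q_cb89bcbb49.mono (by norm_num)),
    (List.forall_mem_nil _)⟩)

theorem q_fcf8d0317a : PosP 516 [464, 465, 466, 495, 498, 524, 529] [434, 467, 497, 525, 526, 527, 528] :=
  pos_of_cert (F := 266) (by norm_num) p_fcf8d0317a (List.forall_mem_nil _)

theorem q_fb56f8b3ed : PosP 1016 [464, 465, 466, 495, 529] [467, 497, 526, 527, 528] :=
  pos_of_cert (F := 766) (by norm_num) p_fb56f8b3ed (List.forall_mem_cons.2 ⟨(q_d09232e440.mono (by norm_num)),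
    (List.forall_mem_cons.2 ⟨(q_fcf8d0317a.mono (by norm_num)),
    (List.forall_mem_nil _)⟩)⟩)

theorem q_80cc3d3eb2 : PosP 516 [464, 465, 466, 495, 525, 529] [467, 497, 524, 526, 527, 528] :=
  pos_of_cert (F := 266) (by norm_num) p_80cc3d3eb2 (List.forall_mem_nil _)

theorem q_2fa07abf36 : PosP 766 [464, 465, 466, 495, 524, 529] [467, 497, 525, 526, 527, 528] :=
  pos_of_cert (F := 516) (by norm_num) p_2fa07abf36 (List.forall_mem_cons.2 ⟨(q_fcf8d0317a.mono (by norm_num)),
    (List.forall_mem_nil _)⟩)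

theorem q_ef9d6f2d2f : PosP 1266 [464, 465, 495, 529] [497, 526, 527, 528] :=
  pos_of_cert (F := 1016) (by norm_num) p_ef9d6f2d2f (List.forall_mem_cons.2 ⟨(q_fb56f8b3ed.mono (by norm_num)),
    (List.forall_mem_cons.2 ⟨(q_80cc3d3eb2.mono (by norm_num)),
    (List.forall_mem_cons.2 ⟨(q_2fa07abf36.mono (by norm_num)),
    (List.forall_mem_nil _)⟩)⟩)⟩)

theorem q_093961263f : PosP 516 [464, 465, 495, 529] [498, 526, 527, 528] :=
  pos_of_cert (F := 266) (by norm_num) p_093961263f (List.forall_mem_nil _)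

theorem q_ab1fd268b8 : PosP 766 [464, 465, 495, 529] [524, 526, 527, 528] :=
  pos_of_cert (F := 516) (by norm_num) p_ab1fd268b8 (List.forall_mem_cons.2 ⟨(q_80cc3d3eb2.mono (by norm_num)),
    (List.forall_mem_nil _)⟩)

theorem q_ba1c384241 : PosP 1016 [464, 465, 495, 529] [525, 526, 527, 528] :=
  pos_of_cert (F := 766) (by norm_num) p_ba1c384241 (List.forall_mem_cons.2 ⟨(q_2fa07abf36.mono (by norm_num)),
    (List.forall_mem_nil _)⟩)

theorem q_863365a5f3 : PosP 516 [464, 465, 495, 529] [526, 527, 528, 561] :=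
  pos_of_cert (F := 266) (by norm_num) p_863365a5f3 (List.forall_mem_nil _)

theorem q_1862be203a : PosP 1516 [464, 465, 495] [526, 527, 528] :=
  pos_of_cert (F := 1266) (by norm_num) p_1862be203a (List.forall_mem_cons.2 ⟨(q_6e89e804ff.mono (by norm_num)),
    (List.forall_mem_cons.2 ⟨(q_cb6c048e27.mono (by norm_num)),
    (List.forall_mem_cons.2 ⟨(q_ef9d6f2d2f.mono (by norm_num)),
    (List.forall_mem_cons.2 ⟨(q_093961263f.mono (by norm_num)),
    (List.forall_mem_cons.2 ⟨(q_ab1fd268b8.mono (by norm_num)),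
    (List.forall_mem_cons.2 ⟨(q_ba1c384241.mono (by norm_num)),
    (List.forall_mem_cons.2 ⟨(q_863365a5f3.mono (by norm_num)),
    (List.forall_mem_nil _)⟩)⟩)⟩)⟩)⟩)⟩)⟩)

theorem q_83e92219f4 : PosP 516 [464, 465, 495] [526, 528, 621] :=
  pos_of_cert (F := 266) (by norm_num) p_83e92219f4 (List.forall_mem_nil _)

theorem q_9a8c7f5e91 : PosP 516 [466, 495, 528] [496, 499, 527] :=
  pos_of_cert (F := 266) (by norm_num) p_9a8c7f5e91 (List.forall_mem_nil _)

theorem q_51236cc072 : PosP 516 [495, 526, 559] [465, 497, 529] :=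
  pos_of_cert (F := 266) (by norm_num) p_51236cc072 (List.forall_mem_nil _)

theorem q_47416f7bc0 : PosP 766 [495, 526] [465, 497] :=
  pos_of_cert (F := 516) (by norm_num) p_47416f7bc0 (List.forall_mem_cons.2 ⟨(q_7a2063be78.mono (by norm_num)),
    (List.forall_mem_cons.2 ⟨(q_21eb2dc4df.mono (by norm_num)),
    (List.forall_mem_cons.2 ⟨(q_268044e676.mono (by norm_num)),
    (List.forall_mem_cons.2 ⟨(q_51236cc072.mono (by norm_num)),
    (List.forall_mem_nil _)⟩)⟩)⟩)⟩)

theorem q_700071c8ac : PosP 516 [463, 465, 495, 528] [430, 496, 527, 561] :=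
  pos_of_cert (F := 266) (by norm_num) p_700071c8ac (List.forall_mem_nil _)

theorem q_e8bcb75d1c : PosP 516 [495, 528, 561] [497, 500, 594] :=
  pos_of_cert (F := 266) (by norm_num) p_e8bcb75d1c (List.forall_mem_nil _)

theorem q_4dbad5995c : PosP 766 [495, 528] [497, 500] :=
  pos_of_cert (F := 516) (by norm_num) p_4dbad5995c (List.forall_mem_cons.2 ⟨(q_e8bcb75d1c.mono (by norm_num)),
    (List.forall_mem_nil _)⟩)

theorem q_3e5a7a6ce4 : PosP 516 [432, 463, 465, 466, 495, 497, 528, 559] [399, 435, 464, 496, 527, 529, 562, 590] :=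
  pos_of_cert (F := 266) (by norm_num) p_3e5a7a6ce4 (List.forall_mem_nil _)

theorem q_f51afd4f3d : PosP 516 [432, 463, 465, 466, 495, 497, 528, 559, 628] [399, 435, 464, 496, 527, 529, 562, 590, 595] :=
  pos_of_cert (F := 266) (by norm_num) p_f51afd4f3d (List.forall_mem_nil _)

theorem q_621370a8a2 : PosP 766 [432, 463, 465, 466, 495, 497, 528, 559] [435, 464, 496, 527, 529, 562, 590, 595] :=
  pos_of_cert (F := 516) (by norm_num) p_621370a8a2 (List.forall_mem_cons.2 ⟨(q_f51afd4f3d.mono (by norm_num)),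
    (List.forall_mem_nil _)⟩)

theorem q_1b4c89841d : PosP 516 [432, 463, 465, 466, 495, 497, 528, 559] [435, 464, 496, 527, 529, 562, 590, 628] :=
  pos_of_cert (F := 266) (by norm_num) p_1b4c89841d (List.forall_mem_nil _)

theorem q_3897eee219 : PosP 1016 [463, 465, 466, 495, 497, 528, 559] [435, 464, 496, 527, 529, 562, 590] :=
  pos_of_cert (F := 766) (by norm_num) p_3897eee219 (List.forall_mem_cons.2 ⟨(q_3e5a7a6ce4.mono (by norm_num)),
    (List.forall_mem_cons.2 ⟨(q_621370a8a2.mono (by norm_num)),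
    (List.forall_mem_cons.2 ⟨(q_1b4c89841d.mono (by norm_num)),
    (List.forall_mem_nil _)⟩)⟩)⟩)

theorem q_0ed1b76bf1 : PosP 516 [433, 435, 463, 466, 495, 497, 528, 561] [404, 462, 496, 527, 529, 559, 562, 595] :=
  pos_of_cert (F := 266) (by norm_num) p_0ed1b76bf1 (List.forall_mem_nil _)

theorem q_3f0f64657f : PosP 516 [433, 435, 463, 466, 495, 497, 528, 561] [404, 462, 496, 527, 529, 559, 562, 628] :=
  pos_of_cert (F := 266) (by norm_num) p_3f0f64657f (List.forall_mem_nil _)

theorem q_637388a850 : PosP 766 [433, 435, 466, 495, 497, 528, 561] [404, 462, 496, 527, 529, 559, 562] :=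
  pos_of_cert (F := 516) (by norm_num) p_637388a850 (List.forall_mem_cons.2 ⟨(q_0ed1b76bf1.mono (by norm_num)),
    (List.forall_mem_cons.2 ⟨(q_3f0f64657f.mono (by norm_num)),
    (List.forall_mem_nil _)⟩)⟩)

theorem q_87cf919325 : PosP 1016 [435, 466, 495, 497, 528, 561] [404, 462, 496, 527, 559, 562] :=
  pos_of_cert (F := 766) (by norm_num) p_87cf919325 (List.forall_mem_cons.2 ⟨(q_637388a850.mono (by norm_num)),
    (List.forall_mem_nil _)⟩)

theorem q_ed93baee24 : PosP 516 [433, 435, 462, 466, 495, 497, 528, 561] [404, 429, 496, 527, 530, 559, 562, 594] :=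
  pos_of_cert (F := 266) (by norm_num) p_ed93baee24 (List.forall_mem_nil _)

theorem q_5e085bd80b : PosP 516 [433, 435, 462, 466, 495, 497, 528, 530, 561] [404, 429, 496, 527, 529, 559, 562, 594, 626] :=
  pos_of_cert (F := 266) (by norm_num) p_5e085bd80b (List.forall_mem_nil _)

theorem q_238c6c7720 : PosP 766 [433, 435, 462, 466, 495, 497, 528, 561] [404, 429, 496, 527, 559, 562, 594, 626] :=
  pos_of_cert (F := 516) (by norm_num) p_238c6c7720 (List.forall_mem_cons.2 ⟨(q_5e085bd80b.mono (by norm_num)),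
    (List.forall_mem_nil _)⟩)

theorem q_805f151f61 : PosP 516 [433, 435, 462, 466, 495, 497, 528, 530, 561] [404, 429, 496, 527, 529, 559, 562, 594, 658] :=
  pos_of_cert (F := 266) (by norm_num) p_805f151f61 (List.forall_mem_nil _)

theorem q_1b0b8ee276 : PosP 766 [433, 435, 462, 466, 495, 497, 528, 561] [404, 429, 496, 527, 559, 562, 594, 658] :=
  pos_of_cert (F := 516) (by norm_num) p_1b0b8ee276 (List.forall_mem_cons.2 ⟨(q_805f151f61.mono (by norm_num)),
    (List.forall_mem_nil _)⟩)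

theorem q_1971fb4ff7 : PosP 1016 [435, 462, 466, 495, 497, 528, 561] [404, 429, 496, 527, 559, 562, 594] :=
  pos_of_cert (F := 766) (by norm_num) p_1971fb4ff7 (List.forall_mem_cons.2 ⟨(q_ed93baee24.mono (by norm_num)),
    (List.forall_mem_cons.2 ⟨(q_238c6c7720.mono (by norm_num)),
    (List.forall_mem_cons.2 ⟨(q_1b0b8ee276.mono (by norm_num)),
    (List.forall_mem_nil _)⟩)⟩)⟩)

theorem q_ca6cf53ee4 : PosP 1266 [466, 495, 528] [496, 527, 562] :=
  pos_of_cert (F := 1016) (by norm_num) p_ca6cf53ee4 (List.forall_mem_cons.2 ⟨(q_3897eee219.mono (by norm_num)),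
    (List.forall_mem_cons.2 ⟨(q_f51afd4f3d.mono (by norm_num)),
    (List.forall_mem_cons.2 ⟨(q_87cf919325.mono (by norm_num)),
    (List.forall_mem_cons.2 ⟨(q_1971fb4ff7.mono (by norm_num)),
    (List.forall_mem_nil _)⟩)⟩)⟩)⟩)

theorem q_e3fd3b600e : PosP 516 [465, 466, 495, 528] [496, 527, 558, 620] :=
  pos_of_cert (F := 266) (by norm_num) p_e3fd3b600e (List.forall_mem_nil _)

theorem q_b0e317bdbe : PosP 766 [466, 495, 528] [496, 527, 558] :=
  pos_of_cert (F := 516) (by norm_num) p_b0e317bdbe (List.forall_mem_cons.2 ⟨(q_2fb6b00df0.mono (by norm_num)),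
    (List.forall_mem_cons.2 ⟨(q_e3fd3b600e.mono (by norm_num)),
    (List.forall_mem_nil _)⟩)⟩)

theorem q_5120c5c513 : PosP 516 [495, 496] [528, 660] :=
  pos_of_cert (F := 266) (by norm_num) p_5120c5c513 (List.forall_mem_nil _)

theorem q_02389fc209 : PosP 516 [433, 464, 495, 496, 526] [402, 557, 558, 560, 562] :=
  pos_of_cert (F := 266) (by norm_num) p_02389fc209 (List.forall_mem_nil _)

end Pool.Agent.Helper225.G
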