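import Pool.Agent.Helper225.GTab
import Pool.Agent.Helper225.Cert.MV_80
import Pool.Agent.Helper225.Cert.MV_81
import Pool.Agent.Helper225.Cert.MV_82
import Pool.Agent.Helper225.Cert.MV_83
import Pool.Agent.Helper225.Cert.MV_84
import Pool.Agent.Helper225.Cert.MV_85
import Pool.Agent.Helper225.Cert.MV_86
import Pool.Agent.Helper225.Cert.MV_87
import Pool.Agent.Helper225.Cert.MV_88
import Pool.Agent.Helper225.Cert.MV_89
import Pool.Agent.Helper225.Cert.MV_90
import Pool.Agent.Helper225.Cert.MV_91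
import Pool.Agent.Helper225.Cert.MV_92
import Pool.Agent.Helper225.Cert.MV_93
import Pool.Agent.Helper225.Cert.MV_94
import Pool.Agent.Helper225.Cert.MV_95
import Pool.Agent.Helper225.Cert.MV_96
import Pool.Agent.Helper225.Cls.QV_4

set_option autoImplicit false
set_option maxRecDepth 1000000

namespace Pool.Agent.Helper225.G

theorem q_d8591df5f0 : PosP 766 [433, 464, 495, 526] [402, 557, 558, 562] :=
  pos_of_cert (F := 516) (by norm_num) p_d8591df5f0 (List.forall_mem_cons.2 ⟨(q_02389fc209.mono (by norm_num)),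
    (List.forall_mem_nil _)⟩)

theorem q_aed0ffcb2e : PosP 1016 [464, 495] [558, 562] :=
  pos_of_cert (F := 766) (by norm_num) p_aed0ffcb2e (List.forall_mem_cons.2 ⟨(q_d8591df5f0.mono (by norm_num)),
    (List.forall_mem_nil _)⟩)

theorem q_924e70f042 : PosP 516 [464, 495, 497] [431, 528, 590] :=
  pos_of_cert (F := 266) (by norm_num) p_924e70f042 (List.forall_mem_nil _)

theorem q_5e89514afe : PosP 516 [464, 495, 497] [494, 528, 590] :=
  pos_of_cert (F := 266) (by norm_num) p_5e89514afe (List.forall_mem_nil _)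

theorem q_628aae0a04 : PosP 516 [464, 495, 497] [526, 528, 590] :=
  pos_of_cert (F := 266) (by norm_num) p_628aae0a04 (List.forall_mem_nil _)

theorem q_9a1414d01c : PosP 766 [464, 495] [528, 590] :=
  pos_of_cert (F := 516) (by norm_num) p_9a1414d01c (List.forall_mem_cons.2 ⟨(q_924e70f042.mono (by norm_num)),
    (List.forall_mem_cons.2 ⟨(q_5e89514afe.mono (by norm_num)),
    (List.forall_mem_cons.2 ⟨(q_628aae0a04.mono (by norm_num)),
    (List.forall_mem_nil _)⟩)⟩)⟩)

theorem q_5c3e195a97 : PosP 516 [465, 495, 528, 529] [462, 496, 527, 561] :=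
  pos_of_cert (F := 266) (by norm_num) p_5c3e195a97 (List.forall_mem_nil _)

theorem q_053ea5e2d7 : PosP 516 [464, 495] [528, 654] :=
  pos_of_cert (F := 266) (by norm_num) p_053ea5e2d7 (List.forall_mem_nil _)

theorem q_24b02e4947 : PosP 516 [464, 495, 528] [594, 660, 693] :=
  pos_of_cert (F := 266) (by norm_num) p_24b02e4947 (List.forall_mem_nil _)

theorem q_605883483d : PosP 766 [464, 495] [594, 660] :=
  pos_of_cert (F := 516) (by norm_num) p_605883483d (List.forall_mem_cons.2 ⟨(q_ab0664d91e.mono (by norm_num)),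
    (List.forall_mem_cons.2 ⟨(q_24b02e4947.mono (by norm_num)),
    (List.forall_mem_nil _)⟩)⟩)

theorem q_f96e5a9ec1 : PosP 516 [431, 433, 464, 495, 526] [402, 525, 528, 557, 621] :=
  pos_of_cert (F := 266) (by norm_num) p_f96e5a9ec1 (List.forall_mem_nil _)

theorem q_4cc69bd659 : PosP 516 [431, 433, 464, 495, 525, 526] [402, 528, 557, 589, 621, 653] :=
  pos_of_cert (F := 266) (by norm_num) p_4cc69bd659 (List.forall_mem_nil _)

theorem q_c57656f01d : PosP 516 [431, 433, 464, 495, 525, 526] [402, 528, 557, 589, 621, 685] :=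
  pos_of_cert (F := 266) (by norm_num) p_c57656f01d (List.forall_mem_nil _)

theorem q_63400e19d8 : PosP 766 [431, 433, 464, 495, 526] [402, 528, 557, 589, 621] :=
  pos_of_cert (F := 516) (by norm_num) p_63400e19d8 (List.forall_mem_cons.2 ⟨(q_4cc69bd659.mono (by norm_num)),
    (List.forall_mem_cons.2 ⟨(q_c57656f01d.mono (by norm_num)),
    (List.forall_mem_nil _)⟩)⟩)

theorem q_3899b033e0 : PosP 516 [431, 433, 464, 495, 526] [402, 528, 557, 621, 653] :=
  pos_of_cert (F := 266) (by norm_num) p_3899b033e0 (List.forall_mem_nil _)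

theorem q_0a061e686a : PosP 1016 [433, 464, 495, 526] [402, 528, 557, 621] :=
  pos_of_cert (F := 766) (by norm_num) p_0a061e686a (List.forall_mem_cons.2 ⟨(q_f96e5a9ec1.mono (by norm_num)),
    (List.forall_mem_cons.2 ⟨(q_63400e19d8.mono (by norm_num)),
    (List.forall_mem_cons.2 ⟨(q_3899b033e0.mono (by norm_num)),
    (List.forall_mem_nil _)⟩)⟩)⟩)

theorem q_5ca9769d61 : PosP 1266 [464, 495] [528, 621] :=
  pos_of_cert (F := 1016) (by norm_num) p_5ca9769d61 (List.forall_mem_cons.2 ⟨(q_0a061e686a.mono (by norm_num)),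
    (List.forall_mem_nil _)⟩)

theorem q_86410be96f : PosP 516 [495, 528] [496, 498] :=
  pos_of_cert (F := 266) (by norm_num) p_86410be96f (List.forall_mem_nil _)

theorem q_473f86ee33 : PosP 516 [466, 495, 528] [436, 496, 527] :=
  pos_of_cert (F := 266) (by norm_num) p_473f86ee33 (List.forall_mem_nil _)

theorem q_1399d8935a : PosP 516 [464, 465, 495] [398, 526, 528] :=
  pos_of_cert (F := 266) (by norm_num) p_1399d8935a (List.forall_mem_nil _)

theorem q_f5f28c3175 : PosP 516 [464, 495, 526] [557, 562, 564] :=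
  pos_of_cert (F := 266) (by norm_num) p_f5f28c3175 (List.forall_mem_nil _)

theorem q_bb2b10b1aa : PosP 766 [495, 526] [562, 564] :=
  pos_of_cert (F := 516) (by norm_num) p_bb2b10b1aa (List.forall_mem_cons.2 ⟨(q_f5f28c3175.mono (by norm_num)),
    (List.forall_mem_nil _)⟩)

theorem q_30014a9021 : PosP 516 [495, 526] [374, 498] :=
  pos_of_cert (F := 266) (by norm_num) p_30014a9021 (List.forall_mem_nil _)

theorem q_537cd4c029 : PosP 516 [464, 495, 497, 526, 557] [433, 561, 588, 593, 625] :=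
  pos_of_cert (F := 266) (by norm_num) p_537cd4c029 (List.forall_mem_nil _)

theorem q_2833244d56 : PosP 516 [464, 495, 497, 526] [557, 561, 593, 625] :=
  pos_of_cert (F := 266) (by norm_num) p_2833244d56 (List.forall_mem_nil _)

theorem q_6650284db5 : PosP 766 [464, 495, 526] [557, 561, 593] :=
  pos_of_cert (F := 516) (by norm_num) p_6650284db5 (List.forall_mem_cons.2 ⟨(q_2833244d56.mono (by norm_num)),
    (List.forall_mem_nil _)⟩)

theorem q_e9bf3d7669 : PosP 1016 [495, 526] [561, 593] :=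
  pos_of_cert (F := 766) (by norm_num) p_e9bf3d7669 (List.forall_mem_cons.2 ⟨(q_537cd4c029.mono (by norm_num)),
    (List.forall_mem_cons.2 ⟨(q_6650284db5.mono (by norm_num)),
    (List.forall_mem_nil _)⟩)⟩)

theorem q_8cde874253 : PosP 516 [464, 495] [497, 563] :=
  pos_of_cert (F := 266) (by norm_num) p_8cde874253 (List.forall_mem_nil _)

theorem q_30f1c0f25b : PosP 516 [495, 528, 529, 559] [462, 496, 497, 530] :=
  pos_of_cert (F := 266) (by norm_num) p_30f1c0f25b (List.forall_mem_nil _)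

theorem q_1335f54ab1 : PosP 516 [464, 495, 528, 529, 557, 558, 559, 560] [462, 496, 497, 526, 527, 530, 556, 561] :=
  pos_of_cert (F := 266) (by norm_num) p_1335f54ab1 (List.forall_mem_nil _)

theorem q_a529af2255 : PosP 766 [495, 528, 529, 559] [462, 496, 527, 530] :=
  pos_of_cert (F := 516) (by norm_num) p_a529af2255 (List.forall_mem_cons.2 ⟨(q_1335f54ab1.mono (by norm_num)),
    (List.forall_mem_nil _)⟩)

theorem q_6a18767817 : PosP 516 [460, 465, 466, 493, 495, 497, 523, 524, 525, 526, 528, 529, 556, 557, 559, 560, 561, 563, 588, 589, 594, 620, 625] [427, 433, 435, 461, 462, 464, 492, 496, 522, 527, 530, 532, 558, 562, 590, 591, 592, 593, 619, 621, 622, 627, 652] :=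
  pos_of_cert (F := 266) (by norm_num) p_6a18767817 (List.forall_mem_nil _)

theorem q_6a257e3dc1 : PosP 766 [495, 528, 529, 559] [462, 496, 530, 591] :=
  pos_of_cert (F := 516) (by norm_num) p_6a257e3dc1 (List.forall_mem_cons.2 ⟨(q_6a18767817.mono (by norm_num)),
    (List.forall_mem_nil _)⟩)

theorem q_0845c257ee : PosP 1016 [495, 528, 529] [462, 496, 530] :=
  pos_of_cert (F := 766) (by norm_num) p_0845c257ee (List.forall_mem_cons.2 ⟨(q_30f1c0f25b.mono (by norm_num)),
    (List.forall_mem_cons.2 ⟨(q_a529af2255.mono (by norm_num)),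
    (List.forall_mem_cons.2 ⟨(q_6a257e3dc1.mono (by norm_num)),
    (List.forall_mem_nil _)⟩)⟩)⟩)

theorem q_f35dd72710 : PosP 516 [495, 528, 529] [462, 496, 559] :=
  pos_of_cert (F := 266) (by norm_num) p_f35dd72710 (List.forall_mem_nil _)

theorem q_eb00c3a99e : PosP 516 [464, 495, 526] [433, 529, 625] :=
  pos_of_cert (F := 266) (by norm_num) p_eb00c3a99e (List.forall_mem_nil _)

theorem q_cbc0ad6b23 : PosP 766 [464, 495] [529, 625] :=
  pos_of_cert (F := 516) (by norm_num) p_cbc0ad6b23 (List.forall_mem_cons.2 ⟨(q_eb00c3a99e.mono (by norm_num)),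
    (List.forall_mem_nil _)⟩)

theorem q_7712c9e03f : PosP 516 [464, 465, 495, 530] [497, 526, 528, 529] :=
  pos_of_cert (F := 266) (by norm_num) p_7712c9e03f (List.forall_mem_nil _)

theorem q_94687d0530 : PosP 516 [464, 494, 495] [433, 528, 532] :=
  pos_of_cert (F := 266) (by norm_num) p_94687d0530 (List.forall_mem_nil _)

theorem q_59ac218038 : PosP 516 [433, 464, 495] [526, 562, 565] :=
  pos_of_cert (F := 266) (by norm_num) p_59ac218038 (List.forall_mem_nil _)

theorem q_349fbfa27d : PosP 766 [464, 495] [562, 565] :=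
  pos_of_cert (F := 516) (by norm_num) p_349fbfa27d (List.forall_mem_cons.2 ⟨(q_59ac218038.mono (by norm_num)),
    (List.forall_mem_nil _)⟩)

theorem q_77e681ac1f : PosP 516 [495, 528, 529, 530] [462, 496, 527, 590] :=
  pos_of_cert (F := 266) (by norm_num) p_77e681ac1f (List.forall_mem_nil _)

theorem q_5418f223c6 : PosP 766 [495, 528, 529] [462, 496, 590] :=
  pos_of_cert (F := 516) (by norm_num) p_5418f223c6 (List.forall_mem_cons.2 ⟨(q_77e681ac1f.mono (by norm_num)),
    (List.forall_mem_nil _)⟩)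

theorem q_16c2fb1e76 : PosP 516 [495, 528, 529, 561, 594] [460, 461, 462, 496, 627] :=
  pos_of_cert (F := 266) (by norm_num) p_16c2fb1e76 (List.forall_mem_nil _)

theorem q_93f4ec568d : PosP 516 [464, 495, 528, 529, 561, 594] [460, 461, 462, 463, 496, 627] :=
  pos_of_cert (F := 266) (by norm_num) p_93f4ec568d (List.forall_mem_nil _)

theorem q_6c12b62939 : PosP 766 [495, 528, 529, 561, 594] [461, 462, 463, 496, 627] :=
  pos_of_cert (F := 516) (by norm_num) p_6c12b62939 (List.forall_mem_cons.2 ⟨(q_93f4ec568d.mono (by norm_num)),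
    (List.forall_mem_nil _)⟩)

theorem q_2d8d79c10c : PosP 1016 [495, 528, 561, 594] [461, 462, 496, 627] :=
  pos_of_cert (F := 766) (by norm_num) p_2d8d79c10c (List.forall_mem_cons.2 ⟨(q_16c2fb1e76.mono (by norm_num)),
    (List.forall_mem_cons.2 ⟨(q_6c12b62939.mono (by norm_num)),
    (List.forall_mem_nil _)⟩)⟩)

theorem q_bb2ba7c1b1 : PosP 1266 [495, 528] [461, 496] :=
  pos_of_cert (F := 1016) (by norm_num) p_bb2ba7c1b1 (List.forall_mem_cons.2 ⟨(q_2d8d79c10c.mono (by norm_num)),
    (List.forall_mem_nil _)⟩)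

theorem q_0b04f3d9dd : PosP 516 [431, 432, 433, 464, 495] [398, 402, 434, 463, 528] :=
  pos_of_cert (F := 266) (by norm_num) p_0b04f3d9dd (List.forall_mem_nil _)

theorem q_e790abe770 : PosP 766 [431, 433, 464, 495] [398, 402, 463, 528] :=
  pos_of_cert (F := 516) (by norm_num) p_e790abe770 (List.forall_mem_cons.2 ⟨(q_0b04f3d9dd.mono (by norm_num)),
    (List.forall_mem_nil _)⟩)

theorem q_5ed72537a8 : PosP 1016 [431, 464, 495] [398, 463, 528] :=
  pos_of_cert (F := 766) (by norm_num) p_5ed72537a8 (List.forall_mem_cons.2 ⟨(q_e790abe770.mono (by norm_num)),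
    (List.forall_mem_nil _)⟩)

theorem q_2c497de374 : PosP 516 [466, 495, 497, 528, 561] [462, 496, 527, 559, 560] :=
  pos_of_cert (F := 266) (by norm_num) p_2c497de374 (List.forall_mem_nil _)

theorem q_b1e27f7ec1 : PosP 766 [466, 495, 528, 561] [462, 496, 527, 560] :=
  pos_of_cert (F := 516) (by norm_num) p_b1e27f7ec1 (List.forall_mem_cons.2 ⟨(q_2c497de374.mono (by norm_num)),
    (List.forall_mem_nil _)⟩)

theorem q_d969f28d63 : PosP 516 [462, 466, 495, 497, 528, 530, 561, 590, 593] [429, 435, 465, 494, 496, 527, 559, 560, 594] :=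
  pos_of_cert (F := 266) (by norm_num) p_d969f28d63 (List.forall_mem_nil _)

theorem q_c341213f90 : PosP 516 [462, 466, 494, 495, 497, 528, 530, 561] [429, 435, 465, 496, 527, 560, 593, 594] :=
  pos_of_cert (F := 266) (by norm_num) p_c341213f90 (List.forall_mem_nil _)

theorem q_50b4ed1a0f : PosP 766 [466, 495, 497, 528, 530, 561] [435, 496, 527, 560, 593, 594] :=
  pos_of_cert (F := 516) (by norm_num) p_50b4ed1a0f (List.forall_mem_cons.2 ⟨(q_c341213f90.mono (by norm_num)),
    (List.forall_mem_nil _)⟩)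

theorem q_630a9c0b9c : PosP 1016 [466, 495, 497, 528, 561] [435, 496, 527, 560, 594] :=
  pos_of_cert (F := 766) (by norm_num) p_630a9c0b9c (List.forall_mem_cons.2 ⟨(q_d969f28d63.mono (by norm_num)),
    (List.forall_mem_cons.2 ⟨(q_50b4ed1a0f.mono (by norm_num)),
    (List.forall_mem_nil _)⟩)⟩)

theorem q_e35e0f5fb0 : PosP 1266 [466, 495, 528] [496, 527, 560] :=
  pos_of_cert (F := 1016) (by norm_num) p_e35e0f5fb0 (List.forall_mem_cons.2 ⟨(q_b1e27f7ec1.mono (by norm_num)),
    (List.forall_mem_cons.2 ⟨(q_630a9c0b9c.mono (by norm_num)),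
    (List.forall_mem_nil _)⟩)⟩)

theorem q_2283f5a206 : PosP 516 [464, 494, 495] [433, 527, 528] :=
  pos_of_cert (F := 266) (by norm_num) p_2283f5a206 (List.forall_mem_nil _)

theorem q_cf8c4398c1 : PosP 516 [464, 495] [368, 528] :=
  pos_of_cert (F := 266) (by norm_num) p_cf8c4398c1 (List.forall_mem_nil _)

theorem q_cb3bf48a79 : PosP 516 [464, 495] [466, 594] :=
  pos_of_cert (F := 266) (by norm_num) p_cb3bf48a79 (List.forall_mem_nil _)

theorem q_30482fb300 : PosP 516 [399, 403, 430, 433, 437, 462, 464, 465, 466, 468, 494, 495, 499, 500, 501, 526, 528, 532, 534, 563] [398, 400, 401, 402, 404, 406, 429, 435, 463, 467, 470, 496, 497, 502, 527, 557, 558, 561, 564, 565] :=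
  pos_of_cert (F := 266) (by norm_num) p_30482fb300 (List.forall_mem_nil _)

theorem q_70d85bd16e : PosP 766 [430, 433, 437, 462, 464, 465, 466, 468, 495, 499, 500, 526, 528, 532] [398, 400, 402, 406, 429, 463, 467, 496, 497, 527, 557, 561, 564, 565] :=
  pos_of_cert (F := 516) (by norm_num) p_70d85bd16e (List.forall_mem_cons.2 ⟨(q_30482fb300.mono (by norm_num)),
    (List.forall_mem_nil _)⟩)

theorem q_65ff049a67 : PosP 1016 [433, 466, 495, 528] [400, 496, 497, 527] :=
  pos_of_cert (F := 766) (by norm_num) p_65ff049a67 (List.forall_mem_cons.2 ⟨(q_70d85bd16e.mono (by norm_num)),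
    (List.forall_mem_nil _)⟩)

theorem q_23c3c176fc : PosP 516 [433, 466, 495, 528] [402, 496, 497, 527] :=
  pos_of_cert (F := 266) (by norm_num) p_23c3c176fc (List.forall_mem_nil _)

theorem q_127843aa9b : PosP 516 [433, 465, 466, 495, 499, 528, 531, 532] [400, 432, 434, 464, 496, 497, 527, 565] :=
  pos_of_cert (F := 266) (by norm_num) p_127843aa9b (List.forall_mem_nil _)

theorem q_d72f17fe5e : PosP 766 [433, 465, 466, 495, 499, 528, 532] [400, 434, 464, 496, 497, 527, 565] :=
  pos_of_cert (F := 516) (by norm_num) p_d72f17fe5e (List.forall_mem_cons.2 ⟨(q_127843aa9b.mono (by norm_num)),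
    (List.forall_mem_nil _)⟩)

theorem q_305c18ff35 : PosP 1016 [433, 466, 495, 528] [434, 496, 497, 527] :=
  pos_of_cert (F := 766) (by norm_num) p_305c18ff35 (List.forall_mem_cons.2 ⟨(q_d72f17fe5e.mono (by norm_num)),
    (List.forall_mem_nil _)⟩)

theorem q_fec280d5bd : PosP 516 [433, 466, 495, 528] [462, 496, 497, 527] :=
  pos_of_cert (F := 266) (by norm_num) p_fec280d5bd (List.forall_mem_nil _)

theorem q_59dce51928 : PosP 516 [433, 434, 466, 495, 528] [370, 465, 496, 497, 527] :=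
  pos_of_cert (F := 266) (by norm_num) p_59dce51928 (List.forall_mem_nil _)

theorem q_778d76949d : PosP 516 [433, 434, 466, 495, 528] [402, 465, 496, 497, 527] :=
  pos_of_cert (F := 266) (by norm_num) p_778d76949d (List.forall_mem_nil _)

theorem q_e6c4e25dd1 : PosP 516 [433, 434, 466, 495, 528] [464, 465, 496, 497, 527] :=
  pos_of_cert (F := 266) (by norm_num) p_e6c4e25dd1 (List.forall_mem_nil _)

theorem q_f659381008 : PosP 516 [433, 434, 466, 495, 528] [465, 496, 497, 499, 527] :=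
  pos_of_cert (F := 266) (by norm_num) p_f659381008 (List.forall_mem_nil _)

theorem q_bf01f65933 : PosP 766 [433, 466, 495, 528] [465, 496, 497, 527] :=
  pos_of_cert (F := 516) (by norm_num) p_bf01f65933 (List.forall_mem_cons.2 ⟨(q_59dce51928.mono (by norm_num)),
    (List.forall_mem_cons.2 ⟨(q_778d76949d.mono (by norm_num)),
    (List.forall_mem_cons.2 ⟨(q_e6c4e25dd1.mono (by norm_num)),
    (List.forall_mem_cons.2 ⟨(q_f659381008.mono (by norm_num)),
    (List.forall_mem_nil _)⟩)⟩)⟩)⟩)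

theorem q_1ce7a086e4 : PosP 516 [433, 464, 466, 495, 528] [402, 496, 497, 499, 527] :=
  pos_of_cert (F := 266) (by norm_num) p_1ce7a086e4 (List.forall_mem_nil _)

theorem q_205ede0d6c : PosP 766 [433, 466, 495, 528] [496, 497, 499, 527] :=
  pos_of_cert (F := 516) (by norm_num) p_205ede0d6c (List.forall_mem_cons.2 ⟨(q_1ce7a086e4.mono (by norm_num)),
    (List.forall_mem_nil _)⟩)

theorem q_a923d72b72 : PosP 516 [433, 465, 466, 495, 528] [496, 497, 527, 558, 589] :=
  pos_of_cert (F := 266) (by norm_num) p_a923d72b72 (List.forall_mem_nil _)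

theorem q_fdf885725d : PosP 516 [433, 465, 466, 495, 528] [496, 497, 527, 558, 620] :=
  pos_of_cert (F := 266) (by norm_num) p_fdf885725d (List.forall_mem_nil _)

theorem q_04a94cb288 : PosP 766 [433, 466, 495, 528] [496, 497, 527, 558] :=
  pos_of_cert (F := 516) (by norm_num) p_04a94cb288 (List.forall_mem_cons.2 ⟨(q_a923d72b72.mono (by norm_num)),
    (List.forall_mem_cons.2 ⟨(q_fdf885725d.mono (by norm_num)),
    (List.forall_mem_nil _)⟩)⟩)

theorem q_9ec6bc51bf : PosP 516 [433, 465, 466, 495, 528] [464, 496, 497, 527, 589] :=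
  pos_of_cert (F := 266) (by norm_num) p_9ec6bc51bf (List.forall_mem_nil _)

theorem q_6b712225c6 : PosP 766 [433, 466, 495, 528] [496, 497, 527, 589] :=
  pos_of_cert (F := 516) (by norm_num) p_6b712225c6 (List.forall_mem_cons.2 ⟨(q_9ec6bc51bf.mono (by norm_num)),
    (List.forall_mem_cons.2 ⟨(q_a923d72b72.mono (by norm_num)),
    (List.forall_mem_nil _)⟩)⟩)

theorem q_9fa6717850 : PosP 1266 [466, 495, 528] [496, 497, 527] :=
  pos_of_cert (F := 1016) (by norm_num) p_9fa6717850 (List.forall_mem_cons.2 ⟨(q_65ff049a67.mono (by norm_num)),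
    (List.forall_mem_cons.2 ⟨(q_23c3c176fc.mono (by norm_num)),
    (List.forall_mem_cons.2 ⟨(q_305c18ff35.mono (by norm_num)),
    (List.forall_mem_cons.2 ⟨(q_fec280d5bd.mono (by norm_num)),
    (List.forall_mem_cons.2 ⟨(q_bf01f65933.mono (by norm_num)),
    (List.forall_mem_cons.2 ⟨(q_205ede0d6c.mono (by norm_num)),
    (List.forall_mem_cons.2 ⟨(q_04a94cb288.mono (by norm_num)),
    (List.forall_mem_cons.2 ⟨(q_6b712225c6.mono (by norm_num)),
    (List.forall_mem_nil _)⟩)⟩)⟩)⟩)⟩)⟩)⟩)⟩)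

theorem q_213db0ebde : PosP 516 [462, 464, 494, 495, 496, 497, 591] [431, 433, 436, 493, 498, 529, 560] :=
  pos_of_cert (F := 266) (by norm_num) p_213db0ebde (List.forall_mem_nil _)

theorem q_d4292f458c : PosP 766 [462, 464, 494, 495, 496, 497] [431, 433, 493, 498, 529, 560] :=
  pos_of_cert (F := 516) (by norm_num) p_d4292f458c (List.forall_mem_cons.2 ⟨(q_213db0ebde.mono (by norm_num)),
    (List.forall_mem_nil _)⟩)

theorem q_e21b7e7dc9 : PosP 1016 [464, 495, 497] [431, 433, 529] :=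
  pos_of_cert (F := 766) (by norm_num) p_e21b7e7dc9 (List.forall_mem_cons.2 ⟨(q_d4292f458c.mono (by norm_num)),
    (List.forall_mem_nil _)⟩)

theorem q_d6472dd40e : PosP 516 [464, 495, 497] [433, 494, 529] :=
  pos_of_cert (F := 266) (by norm_num) p_d6472dd40e (List.forall_mem_nil _)

theorem q_cee46c86c6 : PosP 516 [464, 495, 497] [433, 496, 529] :=
  pos_of_cert (F := 266) (by norm_num) p_cee46c86c6 (List.forall_mem_nil _)

theorem q_2b98920354 : PosP 516 [463, 464, 495, 497] [433, 467, 498, 529] :=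
  pos_of_cert (F := 266) (by norm_num) p_2b98920354 (List.forall_mem_nil _)

theorem q_2e42af4932 : PosP 516 [463, 464, 495, 497] [433, 498, 529, 560] :=
  pos_of_cert (F := 266) (by norm_num) p_2e42af4932 (List.forall_mem_nil _)

theorem q_9165f15b51 : PosP 766 [464, 495, 497] [433, 498, 529] :=
  pos_of_cert (F := 516) (by norm_num) p_9165f15b51 (List.forall_mem_cons.2 ⟨(q_2b98920354.mono (by norm_num)),
    (List.forall_mem_cons.2 ⟨(q_2e42af4932.mono (by norm_num)),
    (List.forall_mem_nil _)⟩)⟩)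

theorem q_6ad20b3816 : PosP 516 [464, 495, 497] [433, 528, 529] :=
  pos_of_cert (F := 266) (by norm_num) p_6ad20b3816 (List.forall_mem_nil _)

theorem q_6edfedc45d : PosP 516 [464, 495, 497] [433, 529, 530] :=
  pos_of_cert (F := 266) (by norm_num) p_6edfedc45d (List.forall_mem_nil _)

theorem q_fae5aff8bd : PosP 516 [464, 495, 497] [433, 529, 560] :=
  pos_of_cert (F := 266) (by norm_num) p_fae5aff8bd (List.forall_mem_nil _)

theorem q_d36fcbed4f : PosP 1266 [464, 495] [433, 529] :=
  pos_of_cert (F := 1016) (by norm_num) p_d36fcbed4f (List.forall_mem_cons.2 ⟨(q_e21b7e7dc9.mono (by norm_num)),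
    (List.forall_mem_cons.2 ⟨(q_d6472dd40e.mono (by norm_num)),
    (List.forall_mem_cons.2 ⟨(q_cee46c86c6.mono (by norm_num)),
    (List.forall_mem_cons.2 ⟨(q_9165f15b51.mono (by norm_num)),
    (List.forall_mem_cons.2 ⟨(q_6ad20b3816.mono (by norm_num)),
    (List.forall_mem_cons.2 ⟨(q_6edfedc45d.mono (by norm_num)),
    (List.forall_mem_cons.2 ⟨(q_fae5aff8bd.mono (by norm_num)),
    (List.forall_mem_nil _)⟩)⟩)⟩)⟩)⟩)⟩)⟩)

theorem q_2c58601252 : PosP 516 [493, 495, 526] [460, 557, 561] :=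
  pos_of_cert (F := 266) (by norm_num) p_2c58601252 (List.forall_mem_nil _)

theorem q_bd386e89c0 : PosP 516 [493, 495, 526] [494, 557, 561] :=
  pos_of_cert (F := 266) (by norm_num) p_bd386e89c0 (List.forall_mem_nil _)

theorem q_6f5cef4df2 : PosP 516 [493, 495, 526] [557, 559, 561] :=
  pos_of_cert (F := 266) (by norm_num) p_6f5cef4df2 (List.forall_mem_nil _)

theorem q_ec48afdba5 : PosP 766 [495, 526] [557, 561] :=
  pos_of_cert (F := 516) (by norm_num) p_ec48afdba5 (List.forall_mem_cons.2 ⟨(q_2c58601252.mono (by norm_num)),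
    (List.forall_mem_cons.2 ⟨(q_bd386e89c0.mono (by norm_num)),
    (List.forall_mem_cons.2 ⟨(q_6f5cef4df2.mono (by norm_num)),
    (List.forall_mem_nil _)⟩)⟩)⟩)

theorem q_054b011f96 : PosP 516 [495, 496] [561, 627] :=
  pos_of_cert (F := 266) (by norm_num) p_054b011f96 (List.forall_mem_nil _)

theorem q_d4afece01d : PosP 1016 [464, 495] [561, 562] :=
  pos_of_cert (F := 766) (by norm_num) p_d4afece01d (List.forall_mem_cons.2 ⟨(q_ce4b15fe17.mono (by norm_num)),
    (List.forall_mem_cons.2 ⟨(q_5574403bff.mono (by norm_num)),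
    (List.forall_mem_nil _)⟩)⟩)

theorem q_bf47bfb545 : PosP 516 [433, 464, 495] [526, 594, 726] :=
  pos_of_cert (F := 266) (by norm_num) p_bf47bfb545 (List.forall_mem_nil _)

theorem q_d4364e4dca : PosP 766 [464, 495] [594, 726] :=
  pos_of_cert (F := 516) (by norm_num) p_d4364e4dca (List.forall_mem_cons.2 ⟨(q_bf47bfb545.mono (by norm_num)),
    (List.forall_mem_nil _)⟩)

theorem q_ef900dbe80 : PosP 516 [464, 495, 528] [432, 526, 529] :=
  pos_of_cert (F := 266) (by norm_num) p_ef900dbe80 (List.forall_mem_nil _)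

theorem q_a5ca72f61b : PosP 516 [431, 432, 464, 467, 495, 496, 528] [400, 462, 498, 526, 529, 560, 622] :=
  pos_of_cert (F := 266) (by norm_num) p_a5ca72f61b (List.forall_mem_nil _)

theorem q_7fe19d081d : PosP 766 [431, 432, 464, 495, 496, 528] [400, 462, 498, 526, 529, 560] :=
  pos_of_cert (F := 516) (by norm_num) p_7fe19d081d (List.forall_mem_cons.2 ⟨(q_a5ca72f61b.mono (by norm_num)),
    (List.forall_mem_nil _)⟩)

theorem q_0d8815917b : PosP 1016 [464, 495, 528] [462, 526, 529] :=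
  pos_of_cert (F := 766) (by norm_num) p_0d8815917b (List.forall_mem_cons.2 ⟨(q_7fe19d081d.mono (by norm_num)),
    (List.forall_mem_nil _)⟩)

theorem q_0fe7376a29 : PosP 516 [464, 495, 528] [496, 526, 529] :=
  pos_of_cert (F := 266) (by norm_num) p_0fe7376a29 (List.forall_mem_nil _)

theorem q_72d2095bec : PosP 516 [464, 495, 528] [497, 526, 529] :=
  pos_of_cert (F := 266) (by norm_num) p_72d2095bec (List.forall_mem_nil _)

theorem q_1f915fa91c : PosP 516 [464, 495, 528] [498, 526, 529] :=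
  pos_of_cert (F := 266) (by norm_num) p_1f915fa91c (List.forall_mem_nil _)

theorem q_1e381d4bbd : PosP 516 [464, 495, 528] [526, 529, 560] :=
  pos_of_cert (F := 266) (by norm_num) p_1e381d4bbd (List.forall_mem_nil _)

theorem q_5e012b8100 : PosP 516 [464, 495, 528] [526, 529, 593] :=
  pos_of_cert (F := 266) (by norm_num) p_5e012b8100 (List.forall_mem_nil _)

theorem q_54bf4ef8b6 : PosP 1266 [464, 495] [526, 529] :=
  pos_of_cert (F := 1016) (by norm_num) p_54bf4ef8b6 (List.forall_mem_cons.2 ⟨(q_ef900dbe80.mono (by norm_num)),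
    (List.forall_mem_cons.2 ⟨(q_0d8815917b.mono (by norm_num)),
    (List.forall_mem_cons.2 ⟨(q_0fe7376a29.mono (by norm_num)),
    (List.forall_mem_cons.2 ⟨(q_72d2095bec.mono (by norm_num)),
    (List.forall_mem_cons.2 ⟨(q_1f915fa91c.mono (by norm_num)),
    (List.forall_mem_cons.2 ⟨(q_1e381d4bbd.mono (by norm_num)),
    (List.forall_mem_cons.2 ⟨(q_5e012b8100.mono (by norm_num)),
    (List.forall_mem_nil _)⟩)⟩)⟩)⟩)⟩)⟩)⟩)

theorem q_00562b5947 : PosP 766 [495, 496, 497] [498, 595, 661] :=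
  pos_of_cert (F := 516) (by norm_num) p_00562b5947 (List.forall_mem_cons.2 ⟨(q_7a8a9fdc35.mono (by norm_num)),
    (List.forall_mem_nil _)⟩)

theorem q_bb6111c55b : PosP 1016 [495, 496] [595, 661] :=
  pos_of_cert (F := 766) (by norm_num) p_bb6111c55b (List.forall_mem_cons.2 ⟨(q_00562b5947.mono (by norm_num)),
    (List.forall_mem_nil _)⟩)

theorem q_3a5cef1544 : PosP 516 [433, 466, 495, 528] [464, 496, 527, 561] :=
  pos_of_cert (F := 266) (by norm_num) p_3a5cef1544 (List.forall_mem_nil _)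

theorem q_5ceb918ff1 : PosP 516 [433, 434, 466, 495, 528] [465, 496, 527, 558, 561] :=
  pos_of_cert (F := 266) (by norm_num) p_5ceb918ff1 (List.forall_mem_nil _)

theorem q_2c11f862c9 : PosP 516 [433, 434, 466, 495, 528] [465, 496, 527, 559, 561] :=
  pos_of_cert (F := 266) (by norm_num) p_2c11f862c9 (List.forall_mem_nil _)

theorem q_f007edfb59 : PosP 766 [433, 466, 495, 528] [465, 496, 527, 561] :=
  pos_of_cert (F := 516) (by norm_num) p_f007edfb59 (List.forall_mem_cons.2 ⟨(q_5ceb918ff1.mono (by norm_num)),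
    (List.forall_mem_cons.2 ⟨(q_2c11f862c9.mono (by norm_num)),
    (List.forall_mem_nil _)⟩)⟩)

theorem q_68bfe69fbb : PosP 516 [433, 465, 466, 495, 528, 560] [496, 527, 558, 559, 561, 589] :=
  pos_of_cert (F := 266) (by norm_num) p_68bfe69fbb (List.forall_mem_nil _)

theorem q_22004d2828 : PosP 516 [433, 465, 466, 495, 528, 560] [496, 527, 558, 559, 561, 620] :=
  pos_of_cert (F := 266) (by norm_num) p_22004d2828 (List.forall_mem_nil _)

theorem q_cb845079af : PosP 766 [433, 465, 466, 495, 528] [496, 527, 558, 559, 561] :=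
  pos_of_cert (F := 516) (by norm_num) p_cb845079af (List.forall_mem_cons.2 ⟨(q_68bfe69fbb.mono (by norm_num)),
    (List.forall_mem_cons.2 ⟨(q_22004d2828.mono (by norm_num)),
    (List.forall_mem_nil _)⟩)⟩)

theorem q_413c5b3537 : PosP 516 [433, 465, 466, 495, 528] [496, 527, 558, 561, 589] :=
  pos_of_cert (F := 266) (by norm_num) p_413c5b3537 (List.forall_mem_nil _)

theorem q_35cfc7a289 : PosP 1016 [433, 466, 495, 528] [496, 527, 558, 561] :=
  pos_of_cert (F := 766) (by norm_num) p_35cfc7a289 (List.forall_mem_cons.2 ⟨(q_cb845079af.mono (by norm_num)),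
    (List.forall_mem_cons.2 ⟨(q_413c5b3537.mono (by norm_num)),
    (List.forall_mem_nil _)⟩)⟩)

theorem q_06b2bf9cd3 : PosP 766 [433, 466, 495, 528] [496, 527, 561, 589] :=
  pos_of_cert (F := 516) (by norm_num) p_06b2bf9cd3 (List.forall_mem_cons.2 ⟨(q_413c5b3537.mono (by norm_num)),
    (List.forall_mem_nil _)⟩)

theorem q_b9615ddd81 : PosP 1266 [466, 495, 528] [496, 527, 561] :=
  pos_of_cert (F := 1016) (by norm_num) p_b9615ddd81 (List.forall_mem_cons.2 ⟨(q_3a5cef1544.mono (by norm_num)),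
    (List.forall_mem_cons.2 ⟨(q_f007edfb59.mono (by norm_num)),
    (List.forall_mem_cons.2 ⟨(q_35cfc7a289.mono (by norm_num)),
    (List.forall_mem_cons.2 ⟨(q_06b2bf9cd3.mono (by norm_num)),
    (List.forall_mem_nil _)⟩)⟩)⟩)⟩)

theorem q_12c7e7957b : PosP 516 [464, 495, 526, 527, 557] [433, 497, 529, 588, 593] :=
  pos_of_cert (F := 266) (by norm_num) p_12c7e7957b (List.forall_mem_nil _)

theorem q_c55ff63d7a : PosP 766 [464, 495, 526, 557] [433, 497, 588, 593] :=
  pos_of_cert (F := 516) (by norm_num) p_c55ff63d7a (List.forall_mem_cons.2 ⟨(q_12c7e7957b.mono (by norm_num)),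
    (List.forall_mem_nil _)⟩)

theorem q_dd979b83ef : PosP 1016 [495, 526] [497, 593] :=
  pos_of_cert (F := 766) (by norm_num) p_dd979b83ef (List.forall_mem_cons.2 ⟨(q_c55ff63d7a.mono (by norm_num)),
    (List.forall_mem_nil _)⟩)

theorem q_cb828516f8 : PosP 516 [495, 528, 529] [462, 496, 591] :=
  pos_of_cert (F := 266) (by norm_num) p_cb828516f8 (List.forall_mem_nil _)

theorem q_e4953439b3 : PosP 516 [463, 493, 494, 495, 525, 527, 528] [432, 496, 526, 559, 560, 561, 563] :=
  pos_of_cert (F := 266) (by norm_num) p_e4953439b3 (List.forall_mem_nil _)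

theorem q_f948dae583 : PosP 766 [463, 494, 495, 525, 527, 528] [432, 496, 526, 559, 561, 563] :=
  pos_of_cert (F := 516) (by norm_num) p_f948dae583 (List.forall_mem_cons.2 ⟨(q_e4953439b3.mono (by norm_num)),
    (List.forall_mem_nil _)⟩)

theorem q_d31d653a96 : PosP 516 [463, 495, 525, 527, 528] [496, 559, 560, 561, 563] :=
  pos_of_cert (F := 266) (by norm_num) p_d31d653a96 (List.forall_mem_nil _)

theorem q_d0e3f739a5 : PosP 1016 [463, 495, 527, 528] [496, 559, 561, 563] :=
  pos_of_cert (F := 766) (by norm_num) p_d0e3f739a5 (List.forall_mem_cons.2 ⟨(q_f948dae583.mono (by norm_num)),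
    (List.forall_mem_cons.2 ⟨(q_d31d653a96.mono (by norm_num)),
    (List.forall_mem_nil _)⟩)⟩)

theorem q_6eb9515cc0 : PosP 1266 [463, 495, 528] [496, 561, 563] :=
  pos_of_cert (F := 1016) (by norm_num) p_6eb9515cc0 (List.forall_mem_cons.2 ⟨(q_d0e3f739a5.mono (by norm_num)),
    (List.forall_mem_nil _)⟩)

theorem q_0c1bf0f189 : PosP 516 [463, 495, 528] [496, 561, 657] :=
  pos_of_cert (F := 266) (by norm_num) p_0c1bf0f189 (List.forall_mem_nil _)

theorem q_85d010fd8d : PosP 516 [463, 465, 495, 528] [496, 497, 527, 561] :=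
  pos_of_cert (F := 266) (by norm_num) p_85d010fd8d (List.forall_mem_nil _)

theorem q_68de519f5a : PosP 516 [464, 495, 526] [496, 528, 557] :=
  pos_of_cert (F := 266) (by norm_num) p_68de519f5a (List.forall_mem_nil _)

theorem q_e395e92329 : PosP 766 [464, 495] [496, 528] :=
  pos_of_cert (F := 516) (by norm_num) p_e395e92329 (List.forall_mem_cons.2 ⟨(q_68de519f5a.mono (by norm_num)),
    (List.forall_mem_nil _)⟩)

theorem q_0e44d78e2b : PosP 516 [464, 495, 526] [402, 528, 557] :=
  pos_of_cert (F := 266) (by norm_num) p_0e44d78e2b (List.forall_mem_nil _)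

theorem q_b187a0392f : PosP 766 [464, 495] [402, 528] :=
  pos_of_cert (F := 516) (by norm_num) p_b187a0392f (List.forall_mem_cons.2 ⟨(q_0e44d78e2b.mono (by norm_num)),
    (List.forall_mem_nil _)⟩)

theorem q_e1d5f857a4 : PosP 516 [464, 495, 528] [465, 496, 559] :=
  pos_of_cert (F := 266) (by norm_num) p_e1d5f857a4 (List.forall_mem_nil _)

theorem q_2b5ddeae5f : PosP 516 [462, 495, 528] [429, 498, 500] :=
  pos_of_cert (F := 266) (by norm_num) p_2b5ddeae5f (List.forall_mem_nil _)

theorem q_b213891328 : PosP 516 [429, 462, 464, 495, 497, 528] [396, 498, 499, 500, 530, 561] :=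
  pos_of_cert (F := 266) (by norm_num) p_b213891328 (List.forall_mem_nil _)

theorem q_a4c395b639 : PosP 766 [462, 464, 495, 528] [498, 499, 500, 561] :=
  pos_of_cert (F := 516) (by norm_num) p_a4c395b639 (List.forall_mem_cons.2 ⟨(q_b213891328.mono (by norm_num)),
    (List.forall_mem_nil _)⟩)

theorem q_38eabd6508 : PosP 1016 [462, 495, 528] [498, 500, 561] :=
  pos_of_cert (F := 766) (by norm_num) p_38eabd6508 (List.forall_mem_cons.2 ⟨(q_a4c395b639.mono (by norm_num)),
    (List.forall_mem_nil _)⟩)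

theorem q_11a7a0d246 : PosP 1266 [495, 528] [498, 500] :=
  pos_of_cert (F := 1016) (by norm_num) p_11a7a0d246 (List.forall_mem_cons.2 ⟨(q_2b5ddeae5f.mono (by norm_num)),
    (List.forall_mem_cons.2 ⟨(q_38eabd6508.mono (by norm_num)),
    (List.forall_mem_nil _)⟩)⟩)

theorem q_a128a563ae : PosP 516 [464, 494, 495] [433, 528, 589] :=
  pos_of_cert (F := 266) (by norm_num) p_a128a563ae (List.forall_mem_nil _)

theorem q_e9ed574ee2 : PosP 1266 [495, 526] [497, 528] :=
  pos_of_cert (F := 1016) (by norm_num) p_e9ed574ee2 (List.forall_mem_cons.2 ⟨(q_8d73e7f223.mono (by norm_num)),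
    (List.forall_mem_cons.2 ⟨(q_34190d4801.mono (by norm_num)),
    (List.forall_mem_nil _)⟩)⟩)

theorem q_15c0151246 : PosP 516 [464, 495, 526] [433, 530, 563] :=
  pos_of_cert (F := 266) (by norm_num) p_15c0151246 (List.forall_mem_nil _)

theorem q_1a8e0a9eab : PosP 766 [464, 495] [530, 563] :=
  pos_of_cert (F := 516) (by norm_num) p_1a8e0a9eab (List.forall_mem_cons.2 ⟨(q_15c0151246.mono (by norm_num)),
    (List.forall_mem_nil _)⟩)

theorem q_6ccfc10298 : PosP 516 [463, 495, 528] [496, 561, 595] :=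
  pos_of_cert (F := 266) (by norm_num) p_6ccfc10298 (List.forall_mem_nil _)

theorem q_799bd7c254 : PosP 516 [494, 495, 527, 528, 529, 561] [461, 462, 463, 496, 526, 558] :=
  pos_of_cert (F := 266) (by norm_num) p_799bd7c254 (List.forall_mem_nil _)

theorem q_7c98004ee3 : PosP 766 [495, 527, 528] [463, 496, 558] :=
  pos_of_cert (F := 516) (by norm_num) p_7c98004ee3 (List.forall_mem_cons.2 ⟨(q_799bd7c254.mono (by norm_num)),
    (List.forall_mem_nil _)⟩)

theorem q_b3c6fbbe5d : PosP 516 [429, 431, 462, 495, 527, 528, 560, 625] [396, 465, 496, 529, 558, 559, 561, 593] :=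
  pos_of_cert (F := 266) (by norm_num) p_b3c6fbbe5d (List.forall_mem_nil _)

theorem q_5357ba391d : PosP 766 [429, 431, 462, 495, 527, 528, 560] [396, 496, 529, 558, 559, 561, 593] :=
  pos_of_cert (F := 516) (by norm_num) p_5357ba391d (List.forall_mem_cons.2 ⟨(q_b3c6fbbe5d.mono (by norm_num)),
    (List.forall_mem_nil _)⟩)

theorem q_eb1faaa52a : PosP 1016 [495, 527, 528] [496, 529, 558] :=
  pos_of_cert (F := 766) (by norm_num) p_eb1faaa52a (List.forall_mem_cons.2 ⟨(q_5357ba391d.mono (by norm_num)),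
    (List.forall_mem_nil _)⟩)

theorem q_3d1d56ac78 : PosP 1266 [495, 528] [496, 558] :=
  pos_of_cert (F := 1016) (by norm_num) p_3d1d56ac78 (List.forall_mem_cons.2 ⟨(q_7c98004ee3.mono (by norm_num)),
    (List.forall_mem_cons.2 ⟨(q_eb1faaa52a.mono (by norm_num)),
    (List.forall_mem_nil _)⟩)⟩)

theorem q_963af0bb60 : PosP 516 [464, 495] [531, 663] :=
  pos_of_cert (F := 266) (by norm_num) p_963af0bb60 (List.forall_mem_nil _)

theorem q_5ca1d9e257 : PosP 1016 [495, 526] [497, 498] :=
  pos_of_cert (F := 766) (by norm_num) p_5ca1d9e257 (List.forall_mem_cons.2 ⟨(q_d7c2d8a0bb.mono (by norm_num)),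
    (List.forall_mem_cons.2 ⟨(q_f55a96864b.mono (by norm_num)),
    (List.forall_mem_nil _)⟩)⟩)

theorem q_5a4d8e2bbb : PosP 516 [464, 494, 495] [433, 524, 528] :=
  pos_of_cert (F := 266) (by norm_num) p_5a4d8e2bbb (List.forall_mem_nil _)

theorem q_0b6e36d5d3 : PosP 516 [464, 495, 496, 497] [498, 627, 660, 693] :=
  pos_of_cert (F := 266) (by norm_num) p_0b6e36d5d3 (List.forall_mem_nil _)

theorem q_1c535a5da9 : PosP 766 [495, 496, 497] [498, 627, 693] :=
  pos_of_cert (F := 516) (by norm_num) p_1c535a5da9 (List.forall_mem_cons.2 ⟨(q_0b6e36d5d3.mono (by norm_num)),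
    (List.forall_mem_nil _)⟩)

theorem q_46ef2e3647 : PosP 1016 [495, 496] [627, 693] :=
  pos_of_cert (F := 766) (by norm_num) p_46ef2e3647 (List.forall_mem_cons.2 ⟨(q_1c535a5da9.mono (by norm_num)),
    (List.forall_mem_nil _)⟩)

theorem q_37e08d91a5 : PosP 516 [495, 528, 529] [462, 496, 563] :=
  pos_of_cert (F := 266) (by norm_num) p_37e08d91a5 (List.forall_mem_nil _)

theorem q_a739ee131b : PosP 516 [464, 494, 495] [402, 433, 528] :=
  pos_of_cert (F := 266) (by norm_num) p_a739ee131b (List.forall_mem_nil _)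

theorem q_5187ad96a5 : PosP 516 [495, 496, 497, 527, 528, 592] [494, 560, 593, 594, 595, 596] :=
  pos_of_cert (F := 266) (by norm_num) p_5187ad96a5 (List.forall_mem_nil _)

theorem q_b805053d9e : PosP 516 [495, 496, 497, 527, 528, 592] [494, 560, 593, 594, 595, 597] :=
  pos_of_cert (F := 266) (by norm_num) p_b805053d9e (List.forall_mem_nil _)

theorem q_596cc22611 : PosP 766 [495, 496, 497] [494, 593, 595] :=
  pos_of_cert (F := 516) (by norm_num) p_596cc22611 (List.forall_mem_cons.2 ⟨(q_5187ad96a5.mono (by norm_num)),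
    (List.forall_mem_cons.2 ⟨(q_b805053d9e.mono (by norm_num)),
    (List.forall_mem_nil _)⟩)⟩)

theorem q_ba4ee40d32 : PosP 1016 [495, 496] [593, 595] :=
  pos_of_cert (F := 766) (by norm_num) p_ba4ee40d32 (List.forall_mem_cons.2 ⟨(q_596cc22611.mono (by norm_num)),
    (List.forall_mem_nil _)⟩)

theorem q_deaecda64c : PosP 766 [463, 495, 527] [431, 530, 594] :=
  pos_of_cert (F := 516) (by norm_num) p_deaecda64c (List.forall_mem_cons.2 ⟨(q_b6b3aee3ea.mono (by norm_num)),
    (List.forall_mem_nil _)⟩)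

theorem q_48555961cd : PosP 1016 [463, 495] [530, 594] :=
  pos_of_cert (F := 766) (by norm_num) p_48555961cd (List.forall_mem_cons.2 ⟨(q_deaecda64c.mono (by norm_num)),
    (List.forall_mem_nil _)⟩)

theorem q_e2942370c6 : PosP 516 [495, 526] [496, 497] :=
  pos_of_cert (F := 266) (by norm_num) p_e2942370c6 (List.forall_mem_nil _)

theorem q_7489557c38 : PosP 516 [495, 496] [592, 595] :=
  pos_of_cert (F := 266) (by norm_num) p_7489557c38 (List.forall_mem_nil _)

theorem q_81ce0b951c : PosP 766 [464, 495, 526, 557] [433, 561, 588, 625] :=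
  pos_of_cert (F := 516) (by norm_num) p_81ce0b951c (List.forall_mem_cons.2 ⟨(q_537cd4c029.mono (by norm_num)),
    (List.forall_mem_nil _)⟩)

theorem q_27b7c97f48 : PosP 1016 [495, 526] [561, 625] :=
  pos_of_cert (F := 766) (by norm_num) p_27b7c97f48 (List.forall_mem_cons.2 ⟨(q_81ce0b951c.mono (by norm_num)),
    (List.forall_mem_cons.2 ⟨(q_2833244d56.mono (by norm_num)),
    (List.forall_mem_nil _)⟩)⟩)

theorem q_4124f25133 : PosP 1016 [463, 495, 527] [431, 530, 531] :=
  pos_of_cert (F := 766) (by norm_num) p_4124f25133 (List.forall_mem_cons.2 ⟨(q_e60bec2b29.mono (by norm_num)),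
    (List.forall_mem_nil _)⟩)

theorem q_c903127efe : PosP 516 [462, 463, 495, 527, 529] [530, 531, 532, 533, 559] :=
  pos_of_cert (F := 266) (by norm_num) p_c903127efe (List.forall_mem_nil _)

theorem q_fd582bf5df : PosP 766 [462, 463, 495, 527] [530, 531, 533, 559] :=
  pos_of_cert (F := 516) (by norm_num) p_fd582bf5df (List.forall_mem_cons.2 ⟨(q_c903127efe.mono (by norm_num)),
    (List.forall_mem_nil _)⟩)

theorem q_9101457f18 : PosP 1016 [463, 495, 527] [530, 531, 559] :=
  pos_of_cert (F := 766) (by norm_num) p_9101457f18 (List.forall_mem_cons.2 ⟨(q_c903127efe.mono (by norm_num)),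
    (List.forall_mem_cons.2 ⟨(q_fd582bf5df.mono (by norm_num)),
    (List.forall_mem_nil _)⟩)⟩)

theorem q_11dfb9e477 : PosP 1266 [463, 495] [530, 531] :=
  pos_of_cert (F := 1016) (by norm_num) p_11dfb9e477 (List.forall_mem_cons.2 ⟨(q_4124f25133.mono (by norm_num)),
    (List.forall_mem_cons.2 ⟨(q_9101457f18.mono (by norm_num)),
    (List.forall_mem_nil _)⟩)⟩)

theorem q_d7a75c5bb5 : PosP 516 [494, 495, 497, 527, 528, 529, 530] [364, 430, 462, 463, 496, 526, 531] :=
  pos_of_cert (F := 266) (by norm_num) p_d7a75c5bb5 (List.forall_mem_nil _)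

theorem q_ee5ead20b9 : PosP 516 [494, 495, 497, 527, 528, 529, 530] [397, 430, 462, 463, 496, 526, 531] :=
  pos_of_cert (F := 266) (by norm_num) p_ee5ead20b9 (List.forall_mem_nil _)

theorem q_8160df8ed7 : PosP 516 [494, 495, 497, 527, 528, 529, 530] [430, 462, 463, 496, 526, 531, 593] :=
  pos_of_cert (F := 266) (by norm_num) p_8160df8ed7 (List.forall_mem_nil _)

theorem q_b5e0cc973c : PosP 766 [494, 495, 527, 528, 529, 530] [430, 462, 463, 496, 526, 531] :=
  pos_of_cert (F := 516) (by norm_num) p_b5e0cc973c (List.forall_mem_cons.2 ⟨(q_d7a75c5bb5.mono (by norm_num)),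
    (List.forall_mem_cons.2 ⟨(q_ee5ead20b9.mono (by norm_num)),
    (List.forall_mem_cons.2 ⟨(q_8160df8ed7.mono (by norm_num)),
    (List.forall_mem_nil _)⟩)⟩)⟩)

theorem q_3cc2f37412 : PosP 1016 [495, 528, 529] [430, 462, 496] :=
  pos_of_cert (F := 766) (by norm_num) p_3cc2f37412 (List.forall_mem_cons.2 ⟨(q_b5e0cc973c.mono (by norm_num)),
    (List.forall_mem_nil _)⟩)

theorem q_c30d5fbdeb : PosP 516 [464, 495, 526] [433, 498, 594] :=
  pos_of_cert (F := 266) (by norm_num) p_c30d5fbdeb (List.forall_mem_nil _)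

theorem q_e38976850b : PosP 766 [464, 495] [498, 594] :=
  pos_of_cert (F := 516) (by norm_num) p_e38976850b (List.forall_mem_cons.2 ⟨(q_c30d5fbdeb.mono (by norm_num)),
    (List.forall_mem_nil _)⟩)

theorem q_97cd21d468 : PosP 516 [464, 493, 495, 526, 588] [433, 557, 563, 629, 662] :=
  pos_of_cert (F := 266) (by norm_num) p_97cd21d468 (List.forall_mem_nil _)

theorem q_ce7b830763 : PosP 766 [464, 495, 526, 588] [433, 557, 563, 662] :=
  pos_of_cert (F := 516) (by norm_num) p_ce7b830763 (List.forall_mem_cons.2 ⟨(q_97cd21d468.mono (by norm_num)),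
    (List.forall_mem_nil _)⟩)

theorem q_9a95206734 : PosP 1016 [464, 495] [563, 662] :=
  pos_of_cert (F := 766) (by norm_num) p_9a95206734 (List.forall_mem_cons.2 ⟨(q_ce7b830763.mono (by norm_num)),
    (List.forall_mem_nil _)⟩)

theorem q_4e6273d337 : PosP 516 [462, 464, 465, 466, 494, 495, 497, 528, 561, 562, 590] [429, 435, 463, 496, 527, 529, 558, 559, 560, 593, 594] :=
  pos_of_cert (F := 266) (by norm_num) p_4e6273d337 (List.forall_mem_nil _)

theorem q_7d244bb0e2 : PosP 766 [462, 464, 465, 466, 495, 497, 528, 561, 562, 590] [429, 435, 463, 496, 527, 529, 559, 560, 593, 594] :=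
  pos_of_cert (F := 516) (by norm_num) p_7d244bb0e2 (List.forall_mem_cons.2 ⟨(q_4e6273d337.mono (by norm_num)),
    (List.forall_mem_nil _)⟩)

theorem q_d1cea59fc1 : PosP 516 [462, 464, 465, 466, 495, 497, 528, 561, 562, 590] [429, 435, 463, 496, 527, 529, 559, 592, 593, 594] :=
  pos_of_cert (F := 266) (by norm_num) p_d1cea59fc1 (List.forall_mem_nil _)

theorem q_d2481da4f0 : PosP 516 [435, 462, 465, 466, 495, 497, 528, 561] [404, 429, 496, 527, 559, 593, 594, 595] :=
  pos_of_cert (F := 266) (by norm_num) p_d2481da4f0 (List.forall_mem_nil _)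

theorem q_246ef4183b : PosP 1016 [466, 495, 528, 561] [496, 527, 593, 594] :=
  pos_of_cert (F := 766) (by norm_num) p_246ef4183b (List.forall_mem_cons.2 ⟨(q_7d244bb0e2.mono (by norm_num)),
    (List.forall_mem_cons.2 ⟨(q_d1cea59fc1.mono (by norm_num)),
    (List.forall_mem_cons.2 ⟨(q_d2481da4f0.mono (by norm_num)),
    (List.forall_mem_nil _)⟩)⟩)⟩)

theorem q_f903d50970 : PosP 1266 [466, 495, 528] [496, 527, 593] :=
  pos_of_cert (F := 1016) (by norm_num) p_f903d50970 (List.forall_mem_cons.2 ⟨(q_246ef4183b.mono (by norm_num)),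
    (List.forall_mem_nil _)⟩)

theorem q_0fc90fead2 : PosP 516 [464, 465, 495] [526, 528, 590] :=
  pos_of_cert (F := 266) (by norm_num) p_0fc90fead2 (List.forall_mem_nil _)

theorem q_2ea3614c37 : PosP 516 [464, 495] [305, 528] :=
  pos_of_cert (F := 266) (by norm_num) p_2ea3614c37 (List.forall_mem_nil _)

theorem q_d3b854df7e : PosP 516 [463, 465, 495, 497, 528] [464, 496, 527, 529, 561] :=
  pos_of_cert (F := 266) (by norm_num) p_d3b854df7e (List.forall_mem_nil _)

theorem q_622e0462a8 : PosP 516 [303, 336, 369, 402, 431, 433, 463, 465, 495, 497, 528] [270, 367, 370, 401, 435, 464, 466, 496, 527, 529, 561] :=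
  pos_of_cert (F := 266) (by norm_num) p_622e0462a8 (List.forall_mem_nil _)

theorem q_0a1ed119f5 : PosP 766 [303, 336, 369, 402, 433, 463, 465, 495, 497, 528] [270, 370, 401, 435, 464, 466, 496, 527, 529, 561] :=
  pos_of_cert (F := 516) (by norm_num) p_0a1ed119f5 (List.forall_mem_cons.2 ⟨(q_622e0462a8.mono (by norm_num)),
    (List.forall_mem_nil _)⟩)

theorem q_5d1568dffb : PosP 1016 [463, 495, 497, 528] [496, 527, 529, 561] :=
  pos_of_cert (F := 766) (by norm_num) p_5d1568dffb (List.forall_mem_cons.2 ⟨(q_d3b854df7e.mono (by norm_num)),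
    (List.forall_mem_cons.2 ⟨(q_0a1ed119f5.mono (by norm_num)),
    (List.forall_mem_nil _)⟩)⟩)

theorem q_43fd6752d8 : PosP 1266 [463, 495, 528] [496, 529, 561] :=
  pos_of_cert (F := 1016) (by norm_num) p_43fd6752d8 (List.forall_mem_cons.2 ⟨(q_5d1568dffb.mono (by norm_num)),
    (List.forall_mem_nil _)⟩)

theorem q_01c79113c8 : PosP 516 [495, 526, 528] [497, 498, 499] :=
  pos_of_cert (F := 266) (by norm_num) p_01c79113c8 (List.forall_mem_nil _)

theorem q_10d07d27a4 : PosP 516 [495, 497, 526, 528] [498, 499, 500, 501] :=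
  pos_of_cert (F := 266) (by norm_num) p_10d07d27a4 (List.forall_mem_nil _)

theorem q_1ea136f255 : PosP 766 [495, 526, 528] [498, 499, 500] :=
  pos_of_cert (F := 516) (by norm_num) p_1ea136f255 (List.forall_mem_cons.2 ⟨(q_10d07d27a4.mono (by norm_num)),
    (List.forall_mem_nil _)⟩)

theorem q_fe67e823a3 : PosP 766 [495, 526, 528] [498, 499, 501] :=
  pos_of_cert (F := 516) (by norm_num) p_fe67e823a3 (List.forall_mem_cons.2 ⟨(q_10d07d27a4.mono (by norm_num)),
    (List.forall_mem_nil _)⟩)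

theorem q_c9a2f9f9ba : PosP 1016 [495, 526] [498, 499] :=
  pos_of_cert (F := 766) (by norm_num) p_c9a2f9f9ba (List.forall_mem_cons.2 ⟨(q_01c79113c8.mono (by norm_num)),
    (List.forall_mem_cons.2 ⟨(q_1ea136f255.mono (by norm_num)),
    (List.forall_mem_cons.2 ⟨(q_fe67e823a3.mono (by norm_num)),
    (List.forall_mem_nil _)⟩)⟩)⟩)

theorem q_7d92babad2 : PosP 516 [462, 495, 528] [529, 532, 561] :=
  pos_of_cert (F := 266) (by norm_num) p_7d92babad2 (List.forall_mem_nil _)

theorem q_2c7b951bfc : PosP 766 [495, 528] [529, 532] :=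
  pos_of_cert (F := 516) (by norm_num) p_2c7b951bfc (List.forall_mem_cons.2 ⟨(q_7d92babad2.mono (by norm_num)),
    (List.forall_mem_nil _)⟩)

theorem q_eda5c3116d : PosP 516 [433, 464, 495] [526, 531, 533] :=
  pos_of_cert (F := 266) (by norm_num) p_eda5c3116d (List.forall_mem_nil _)

theorem q_4e28624f5c : PosP 766 [464, 495] [531, 533] :=
  pos_of_cert (F := 516) (by norm_num) p_4e28624f5c (List.forall_mem_cons.2 ⟨(q_eda5c3116d.mono (by norm_num)),
    (List.forall_mem_nil _)⟩)

theorem q_4339a0b60e : PosP 516 [464, 494, 495] [433, 528, 592] :=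
  pos_of_cert (F := 266) (by norm_num) p_4339a0b60e (List.forall_mem_nil _)

theorem q_14b3f8bd0a : PosP 516 [495, 524, 526, 557, 588] [398, 464, 497, 559, 619] :=
  pos_of_cert (F := 266) (by norm_num) p_14b3f8bd0a (List.forall_mem_nil _)

theorem q_5e4a1bfb52 : PosP 516 [495, 524, 526, 530, 557, 588] [365, 431, 464, 497, 559, 619] :=
  pos_of_cert (F := 266) (by norm_num) p_5e4a1bfb52 (List.forall_mem_nil _)

theorem q_7b0711bc5c : PosP 516 [495, 524, 526, 530, 557, 588] [398, 431, 464, 497, 559, 619] :=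
  pos_of_cert (F := 266) (by norm_num) p_7b0711bc5c (List.forall_mem_nil _)

theorem q_07a540379c : PosP 516 [495, 524, 526, 530, 557, 588] [431, 464, 497, 559, 590, 619] :=
  pos_of_cert (F := 266) (by norm_num) p_07a540379c (List.forall_mem_nil _)

theorem q_0ffb116c32 : PosP 766 [495, 524, 526, 557, 588] [431, 464, 497, 559, 619] :=
  pos_of_cert (F := 516) (by norm_num) p_0ffb116c32 (List.forall_mem_cons.2 ⟨(q_5e4a1bfb52.mono (by norm_num)),
    (List.forall_mem_cons.2 ⟨(q_7b0711bc5c.mono (by norm_num)),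
    (List.forall_mem_cons.2 ⟨(q_07a540379c.mono (by norm_num)),
    (List.forall_mem_nil _)⟩)⟩)⟩)

theorem q_667cec4ac1 : PosP 516 [431, 495, 524, 526, 557, 588] [435, 464, 497, 530, 559, 619] :=
  pos_of_cert (F := 266) (by norm_num) p_667cec4ac1 (List.forall_mem_nil _)

theorem q_fa4259505c : PosP 516 [431, 495, 524, 526, 557, 588] [464, 466, 497, 530, 559, 619] :=
  pos_of_cert (F := 266) (by norm_num) p_fa4259505c (List.forall_mem_nil _)

theorem q_71d979810e : PosP 516 [431, 495, 524, 526, 557, 588] [464, 497, 530, 559, 563, 619] :=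
  pos_of_cert (F := 266) (by norm_num) p_71d979810e (List.forall_mem_nil _)

theorem q_6e99a34197 : PosP 516 [431, 495, 524, 526, 528, 557, 588] [464, 497, 530, 559, 563, 590, 619] :=
  pos_of_cert (F := 266) (by norm_num) p_6e99a34197 (List.forall_mem_nil _)

theorem q_3d659b9840 : PosP 516 [431, 495, 524, 526, 528, 557, 588] [464, 497, 530, 559, 590, 596, 619] :=
  pos_of_cert (F := 266) (by norm_num) p_3d659b9840 (List.forall_mem_nil _)

theorem q_c5f38e924b : PosP 766 [431, 495, 524, 526, 557, 588] [464, 497, 530, 559, 590, 619] :=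
  pos_of_cert (F := 516) (by norm_num) p_c5f38e924b (List.forall_mem_cons.2 ⟨(q_6e99a34197.mono (by norm_num)),
    (List.forall_mem_cons.2 ⟨(q_3d659b9840.mono (by norm_num)),
    (List.forall_mem_nil _)⟩)⟩)

theorem q_d7a8fa00b4 : PosP 516 [431, 495, 524, 526, 557, 588] [464, 497, 530, 559, 596, 619] :=
  pos_of_cert (F := 266) (by norm_num) p_d7a8fa00b4 (List.forall_mem_nil _)

theorem q_41303184f0 : PosP 516 [431, 495, 524, 526, 557, 588] [464, 497, 530, 559, 619, 621] :=
  pos_of_cert (F := 266) (by norm_num) p_41303184f0 (List.forall_mem_nil _)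

theorem q_2fcb0b4949 : PosP 1016 [495, 524, 526, 557, 588] [464, 497, 530, 559, 619] :=
  pos_of_cert (F := 766) (by norm_num) p_2fcb0b4949 (List.forall_mem_cons.2 ⟨(q_667cec4ac1.mono (by norm_num)),
    (List.forall_mem_cons.2 ⟨(q_fa4259505c.mono (by norm_num)),
    (List.forall_mem_cons.2 ⟨(q_71d979810e.mono (by norm_num)),
    (List.forall_mem_cons.2 ⟨(q_c5f38e924b.mono (by norm_num)),
    (List.forall_mem_cons.2 ⟨(q_d7a8fa00b4.mono (by norm_num)),
    (List.forall_mem_cons.2 ⟨(q_41303184f0.mono (by norm_num)),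
    (List.forall_mem_nil _)⟩)⟩)⟩)⟩)⟩)⟩)

theorem q_f196a0339c : PosP 516 [495, 524, 526, 557, 588] [464, 497, 559, 563, 619] :=
  pos_of_cert (F := 266) (by norm_num) p_f196a0339c (List.forall_mem_nil _)

theorem q_9a0c247df6 : PosP 766 [495, 524, 526, 557, 588] [464, 497, 559, 590, 619] :=
  pos_of_cert (F := 516) (by norm_num) p_9a0c247df6 (List.forall_mem_cons.2 ⟨(q_6e99a34197.mono (by norm_num)),
    (List.forall_mem_cons.2 ⟨(q_3d659b9840.mono (by norm_num)),
    (List.forall_mem_nil _)⟩)⟩)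

theorem q_c4dcaee87a : PosP 1266 [495, 526, 557, 588] [464, 497, 559, 619] :=
  pos_of_cert (F := 1016) (by norm_num) p_c4dcaee87a (List.forall_mem_cons.2 ⟨(q_14b3f8bd0a.mono (by norm_num)),
    (List.forall_mem_cons.2 ⟨(q_0ffb116c32.mono (by norm_num)),
    (List.forall_mem_cons.2 ⟨(q_2fcb0b4949.mono (by norm_num)),
    (List.forall_mem_cons.2 ⟨(q_f196a0339c.mono (by norm_num)),
    (List.forall_mem_cons.2 ⟨(q_9a0c247df6.mono (by norm_num)),
    (List.forall_mem_nil _)⟩)⟩)⟩)⟩)⟩)

theorem q_0c732394aa : PosP 516 [495, 526, 557] [497, 559, 588] :=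
  pos_of_cert (F := 266) (by norm_num) p_0c732394aa (List.forall_mem_nil _)

theorem q_ce88a02fc1 : PosP 1516 [495, 526] [497, 559] :=
  pos_of_cert (F := 1266) (by norm_num) p_ce88a02fc1 (List.forall_mem_cons.2 ⟨(q_c4dcaee87a.mono (by norm_num)),
    (List.forall_mem_cons.2 ⟨(q_0c732394aa.mono (by norm_num)),
    (List.forall_mem_nil _)⟩)⟩)

theorem q_55161ea55b : PosP 516 [431, 464, 495] [463, 498, 528] :=
  pos_of_cert (F := 266) (by norm_num) p_55161ea55b (List.forall_mem_nil _)

theorem q_e8f4686e46 : PosP 516 [463, 464, 495] [497, 527, 530] :=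
  pos_of_cert (F := 266) (by norm_num) p_e8f4686e46 (List.forall_mem_nil _)

theorem q_e705888f1b : PosP 766 [463, 495] [497, 530] :=
  pos_of_cert (F := 516) (by norm_num) p_e705888f1b (List.forall_mem_cons.2 ⟨(q_e8f4686e46.mono (by norm_num)),
    (List.forall_mem_nil _)⟩)

theorem q_ee4c00af33 : PosP 516 [403, 466, 495, 497, 526, 528, 558, 590] [434, 435, 465, 494, 496, 527, 559, 561] :=
  pos_of_cert (F := 266) (by norm_num) p_ee4c00af33 (List.forall_mem_nil _)

theorem q_c0e4d89a29 : PosP 766 [466, 495, 497, 528, 558, 590] [435, 465, 496, 527, 559, 561] :=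
  pos_of_cert (F := 516) (by norm_num) p_c0e4d89a29 (List.forall_mem_cons.2 ⟨(q_ee4c00af33.mono (by norm_num)),
    (List.forall_mem_nil _)⟩)

theorem q_73d4415420 : PosP 516 [433, 434, 435, 436, 466, 495, 497, 499, 528, 558] [400, 402, 404, 432, 437, 465, 496, 527, 559, 561] :=
  pos_of_cert (F := 266) (by norm_num) p_73d4415420 (List.forall_mem_nil _)

theorem q_26ef40a7e1 : PosP 516 [434, 466, 495, 497, 528, 558] [465, 496, 498, 527, 559, 561] :=
  pos_of_cert (F := 266) (by norm_num) p_26ef40a7e1 (List.forall_mem_nil _)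

theorem q_65e30b4ed0 : PosP 766 [466, 495, 497, 528, 558] [465, 496, 527, 559, 561] :=
  pos_of_cert (F := 516) (by norm_num) p_65e30b4ed0 (List.forall_mem_cons.2 ⟨(q_73d4415420.mono (by norm_num)),
    (List.forall_mem_cons.2 ⟨(q_26ef40a7e1.mono (by norm_num)),
    (List.forall_mem_nil _)⟩)⟩)

theorem q_265d9618be : PosP 1016 [466, 495, 528, 558] [465, 496, 527, 561] :=
  pos_of_cert (F := 766) (by norm_num) p_265d9618be (List.forall_mem_cons.2 ⟨(q_ee4c00af33.mono (by norm_num)),
    (List.forall_mem_cons.2 ⟨(q_c0e4d89a29.mono (by norm_num)),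
    (List.forall_mem_cons.2 ⟨(q_65e30b4ed0.mono (by norm_num)),
    (List.forall_mem_nil _)⟩)⟩)⟩)

theorem q_1fcf75d895 : PosP 516 [495, 526] [494, 561] :=
  pos_of_cert (F := 266) (by norm_num) p_1fcf75d895 (List.forall_mem_nil _)

theorem q_dbeca3ef0e : PosP 516 [464, 495] [500, 528] :=
  pos_of_cert (F := 266) (by norm_num) p_dbeca3ef0e (List.forall_mem_nil _)

theorem q_00a8a0ba56 : PosP 516 [464, 495] [429, 528] :=
  pos_of_cert (F := 266) (by norm_num) p_00a8a0ba56 (List.forall_mem_nil _)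

theorem q_06f2f54fd2 : PosP 516 [399, 431, 463, 495, 528] [367, 496, 497, 527, 561] :=
  pos_of_cert (F := 266) (by norm_num) p_06f2f54fd2 (List.forall_mem_nil _)

theorem q_a11fabebd3 : PosP 766 [463, 495, 528] [496, 497, 561] :=
  pos_of_cert (F := 516) (by norm_num) p_a11fabebd3 (List.forall_mem_cons.2 ⟨(q_06f2f54fd2.mono (by norm_num)),
    (List.forall_mem_nil _)⟩)

theorem q_4d3e23de2e : PosP 516 [464, 495, 526, 559] [433, 465, 497, 596] :=
  pos_of_cert (F := 266) (by norm_num) p_4d3e23de2e (List.forall_mem_nil _)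

theorem q_e2f3e20760 : PosP 766 [464, 495, 526] [433, 497, 596] :=
  pos_of_cert (F := 516) (by norm_num) p_e2f3e20760 (List.forall_mem_cons.2 ⟨(q_4d3e23de2e.mono (by norm_num)),
    (List.forall_mem_nil _)⟩)

theorem q_008e96c243 : PosP 1016 [495, 526] [497, 596] :=
  pos_of_cert (F := 766) (by norm_num) p_008e96c243 (List.forall_mem_cons.2 ⟨(q_e2f3e20760.mono (by norm_num)),
    (List.forall_mem_nil _)⟩)

theorem q_179c333c8b : PosP 516 [464, 494, 495] [433, 528, 558] :=
  pos_of_cert (F := 266) (by norm_num) p_179c333c8b (List.forall_mem_nil _)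

end Pool.Agent.Helper225.G
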