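import Pool.Agent.Helper225.GTab
import Pool.Agent.Helper225.Cert.MV_100
import Pool.Agent.Helper225.Cert.MV_101
import Pool.Agent.Helper225.Cert.MV_102
import Pool.Agent.Helper225.Cert.MV_103
import Pool.Agent.Helper225.Cert.MV_104
import Pool.Agent.Helper225.Cert.MV_105
import Pool.Agent.Helper225.Cert.MV_106
import Pool.Agent.Helper225.Cert.MV_107
import Pool.Agent.Helper225.Cert.MV_108
import Pool.Agent.Helper225.Cert.MV_109
import Pool.Agent.Helper225.Cert.MV_110
import Pool.Agent.Helper225.Cert.MV_111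
import Pool.Agent.Helper225.Cert.MV_112
import Pool.Agent.Helper225.Cert.MV_113
import Pool.Agent.Helper225.Cert.MV_96
import Pool.Agent.Helper225.Cert.MV_97
import Pool.Agent.Helper225.Cert.MV_98
import Pool.Agent.Helper225.Cert.MV_99
import Pool.Agent.Helper225.Cls.QV_5

set_option autoImplicit false
set_option maxRecDepth 1000000

namespace Pool.Agent.Helper225.G

theorem q_99816192ba : PosP 516 [495, 496] [627, 759] :=
  pos_of_cert (F := 266) (by norm_num) p_99816192ba (List.forall_mem_nil _)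

theorem q_33f05b25f8 : PosP 516 [464, 465, 495] [526, 528, 622] :=
  pos_of_cert (F := 266) (by norm_num) p_33f05b25f8 (List.forall_mem_nil _)

theorem q_9bbf080e75 : PosP 516 [463, 464, 495, 527, 559] [431, 530, 563, 591, 629] :=
  pos_of_cert (F := 266) (by norm_num) p_9bbf080e75 (List.forall_mem_nil _)

theorem q_bcfb735f1e : PosP 516 [463, 495, 527] [530, 559, 629] :=
  pos_of_cert (F := 266) (by norm_num) p_bcfb735f1e (List.forall_mem_nil _)

theorem q_a053b07618 : PosP 766 [463, 495] [530, 629] :=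
  pos_of_cert (F := 516) (by norm_num) p_a053b07618 (List.forall_mem_cons.2 ⟨(q_9bbf080e75.mono (by norm_num)),
    (List.forall_mem_cons.2 ⟨(q_bc75f1adc8.mono (by norm_num)),
    (List.forall_mem_cons.2 ⟨(q_bcfb735f1e.mono (by norm_num)),
    (List.forall_mem_nil _)⟩)⟩)⟩)

theorem q_1afd9fc4e3 : PosP 516 [433, 464, 494, 495] [402, 431, 463, 528] :=
  pos_of_cert (F := 266) (by norm_num) p_1afd9fc4e3 (List.forall_mem_nil _)

theorem q_c7b60fdec4 : PosP 516 [431, 432, 464, 495] [463, 524, 526, 528] :=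
  pos_of_cert (F := 266) (by norm_num) p_c7b60fdec4 (List.forall_mem_nil _)

theorem q_f2c64c432c : PosP 516 [431, 432, 464, 495, 527] [463, 525, 526, 528, 556] :=
  pos_of_cert (F := 266) (by norm_num) p_f2c64c432c (List.forall_mem_nil _)

theorem q_1771a3bb1c : PosP 516 [431, 432, 464, 495, 527] [463, 525, 526, 528, 587] :=
  pos_of_cert (F := 266) (by norm_num) p_1771a3bb1c (List.forall_mem_nil _)

theorem q_98b2c0e312 : PosP 766 [431, 432, 464, 495] [463, 525, 526, 528] :=
  pos_of_cert (F := 516) (by norm_num) p_98b2c0e312 (List.forall_mem_cons.2 ⟨(q_f2c64c432c.mono (by norm_num)),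
    (List.forall_mem_cons.2 ⟨(q_1771a3bb1c.mono (by norm_num)),
    (List.forall_mem_nil _)⟩)⟩)

theorem q_fd6acc1d98 : PosP 516 [431, 432, 464, 495, 529] [433, 463, 526, 527, 528] :=
  pos_of_cert (F := 266) (by norm_num) p_fd6acc1d98 (List.forall_mem_nil _)

theorem q_ff0e52c483 : PosP 516 [431, 432, 464, 495, 529] [463, 497, 526, 527, 528] :=
  pos_of_cert (F := 266) (by norm_num) p_ff0e52c483 (List.forall_mem_nil _)

theorem q_28a198f4a8 : PosP 516 [431, 432, 464, 495, 529] [463, 524, 526, 527, 528] :=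
  pos_of_cert (F := 266) (by norm_num) p_28a198f4a8 (List.forall_mem_nil _)

theorem q_60b22a67b9 : PosP 516 [431, 432, 464, 495, 529] [463, 525, 526, 527, 528] :=
  pos_of_cert (F := 266) (by norm_num) p_60b22a67b9 (List.forall_mem_nil _)

theorem q_87e8a1a877 : PosP 766 [431, 432, 464, 495] [463, 526, 527, 528] :=
  pos_of_cert (F := 516) (by norm_num) p_87e8a1a877 (List.forall_mem_cons.2 ⟨(q_fd6acc1d98.mono (by norm_num)),
    (List.forall_mem_cons.2 ⟨(q_ff0e52c483.mono (by norm_num)),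
    (List.forall_mem_cons.2 ⟨(q_28a198f4a8.mono (by norm_num)),
    (List.forall_mem_cons.2 ⟨(q_60b22a67b9.mono (by norm_num)),
    (List.forall_mem_nil _)⟩)⟩)⟩)⟩)

theorem q_f46965a0a0 : PosP 516 [431, 432, 464, 495, 527] [463, 496, 526, 528, 529] :=
  pos_of_cert (F := 266) (by norm_num) p_f46965a0a0 (List.forall_mem_nil _)

theorem q_92f075cb92 : PosP 516 [431, 432, 464, 495, 527] [463, 526, 528, 529, 595] :=
  pos_of_cert (F := 266) (by norm_num) p_92f075cb92 (List.forall_mem_nil _)

theorem q_842860058e : PosP 766 [431, 432, 464, 495] [463, 526, 528, 529] :=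
  pos_of_cert (F := 516) (by norm_num) p_842860058e (List.forall_mem_cons.2 ⟨(q_f46965a0a0.mono (by norm_num)),
    (List.forall_mem_cons.2 ⟨(q_a0937d8b6e.mono (by norm_num)),
    (List.forall_mem_cons.2 ⟨(q_92f075cb92.mono (by norm_num)),
    (List.forall_mem_nil _)⟩)⟩)⟩)

theorem q_9095a58e02 : PosP 516 [431, 432, 433, 464, 495, 529] [397, 430, 463, 526, 528, 530] :=
  pos_of_cert (F := 266) (by norm_num) p_9095a58e02 (List.forall_mem_nil _)

theorem q_e6f5693c24 : PosP 766 [431, 432, 433, 464, 495] [430, 463, 526, 528, 530] :=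
  pos_of_cert (F := 516) (by norm_num) p_e6f5693c24 (List.forall_mem_cons.2 ⟨(q_8ee502bc72.mono (by norm_num)),
    (List.forall_mem_cons.2 ⟨(q_9095a58e02.mono (by norm_num)),
    (List.forall_mem_nil _)⟩)⟩)

theorem q_557d4bb5ca : PosP 1016 [431, 432, 464, 495] [463, 526, 528, 530] :=
  pos_of_cert (F := 766) (by norm_num) p_557d4bb5ca (List.forall_mem_cons.2 ⟨(q_e6f5693c24.mono (by norm_num)),
    (List.forall_mem_nil _)⟩)

theorem q_dc6c37c333 : PosP 1266 [431, 464, 495] [463, 526, 528] :=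
  pos_of_cert (F := 1016) (by norm_num) p_dc6c37c333 (List.forall_mem_cons.2 ⟨(q_c7b60fdec4.mono (by norm_num)),
    (List.forall_mem_cons.2 ⟨(q_98b2c0e312.mono (by norm_num)),
    (List.forall_mem_cons.2 ⟨(q_87e8a1a877.mono (by norm_num)),
    (List.forall_mem_cons.2 ⟨(q_842860058e.mono (by norm_num)),
    (List.forall_mem_cons.2 ⟨(q_557d4bb5ca.mono (by norm_num)),
    (List.forall_mem_nil _)⟩)⟩)⟩)⟩)⟩)

theorem q_090569491c : PosP 516 [462, 464, 495, 526] [467, 498, 557, 560] :=
  pos_of_cert (F := 266) (by norm_num) p_090569491c (List.forall_mem_nil _)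

theorem q_5c9a4e74c3 : PosP 766 [464, 495, 526] [467, 498, 557] :=
  pos_of_cert (F := 516) (by norm_num) p_5c9a4e74c3 (List.forall_mem_cons.2 ⟨(q_090569491c.mono (by norm_num)),
    (List.forall_mem_nil _)⟩)

theorem q_099991305d : PosP 1016 [495, 526] [467, 498] :=
  pos_of_cert (F := 766) (by norm_num) p_099991305d (List.forall_mem_cons.2 ⟨(q_5c9a4e74c3.mono (by norm_num)),
    (List.forall_mem_nil _)⟩)

theorem q_82f42b730b : PosP 516 [399, 463, 465, 495, 528] [366, 464, 496, 527, 561] :=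
  pos_of_cert (F := 266) (by norm_num) p_82f42b730b (List.forall_mem_nil _)

theorem q_a9b0479c30 : PosP 516 [399, 463, 465, 495, 528] [367, 464, 496, 527, 561] :=
  pos_of_cert (F := 266) (by norm_num) p_a9b0479c30 (List.forall_mem_nil _)

theorem q_ff53d1b9dd : PosP 516 [399, 463, 465, 495, 528] [369, 464, 496, 527, 561] :=
  pos_of_cert (F := 266) (by norm_num) p_ff53d1b9dd (List.forall_mem_nil _)

theorem q_01f74851d6 : PosP 516 [305, 365, 366, 367, 368, 399, 430, 463, 465, 495, 528] [337, 364, 369, 401, 431, 432, 462, 464, 496, 527, 561] :=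
  pos_of_cert (F := 266) (by norm_num) p_01f74851d6 (List.forall_mem_nil _)

theorem q_bd9e52996a : PosP 766 [365, 366, 367, 368, 399, 430, 463, 465, 495, 528] [337, 364, 369, 401, 431, 432, 464, 496, 527, 561] :=
  pos_of_cert (F := 516) (by norm_num) p_bd9e52996a (List.forall_mem_cons.2 ⟨(q_01f74851d6.mono (by norm_num)),
    (List.forall_mem_nil _)⟩)

theorem q_23a42d60ce : PosP 516 [399, 463, 465, 495, 528] [431, 464, 496, 527, 561] :=
  pos_of_cert (F := 266) (by norm_num) p_23a42d60ce (List.forall_mem_nil _)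

theorem q_69fbff5406 : PosP 516 [367, 398, 399, 463, 465, 495, 528] [397, 431, 432, 464, 496, 527, 561] :=
  pos_of_cert (F := 266) (by norm_num) p_69fbff5406 (List.forall_mem_nil _)

theorem q_f6f52e441e : PosP 516 [367, 398, 399, 463, 465, 495, 528] [400, 431, 432, 464, 496, 527, 561] :=
  pos_of_cert (F := 266) (by norm_num) p_f6f52e441e (List.forall_mem_nil _)

theorem q_4a26370243 : PosP 516 [301, 334, 367, 398, 399, 400, 430, 463, 465, 495, 528] [268, 366, 397, 429, 431, 432, 433, 464, 496, 527, 561] :=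
  pos_of_cert (F := 266) (by norm_num) p_4a26370243 (List.forall_mem_nil _)

theorem q_8a0a2d35f0 : PosP 766 [367, 398, 399, 463, 465, 495, 528] [429, 431, 432, 464, 496, 527, 561] :=
  pos_of_cert (F := 516) (by norm_num) p_8a0a2d35f0 (List.forall_mem_cons.2 ⟨(q_4a26370243.mono (by norm_num)),
    (List.forall_mem_nil _)⟩)

theorem q_ab3dc20a62 : PosP 516 [367, 398, 399, 430, 463, 465, 495, 528] [431, 432, 433, 434, 464, 496, 527, 561] :=
  pos_of_cert (F := 266) (by norm_num) p_ab3dc20a62 (List.forall_mem_nil _)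

theorem q_3d4291b985 : PosP 516 [367, 398, 399, 430, 463, 465, 495, 528] [431, 432, 433, 435, 464, 496, 527, 561] :=
  pos_of_cert (F := 266) (by norm_num) p_3d4291b985 (List.forall_mem_nil _)

theorem q_3b56ed8bd4 : PosP 766 [367, 398, 399, 463, 465, 495, 528] [431, 432, 433, 464, 496, 527, 561] :=
  pos_of_cert (F := 516) (by norm_num) p_3b56ed8bd4 (List.forall_mem_cons.2 ⟨(q_ab3dc20a62.mono (by norm_num)),
    (List.forall_mem_cons.2 ⟨(q_3d4291b985.mono (by norm_num)),
    (List.forall_mem_nil _)⟩)⟩)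

theorem q_2530f76895 : PosP 516 [367, 398, 399, 433, 463, 465, 495, 528] [400, 431, 432, 434, 464, 496, 527, 561] :=
  pos_of_cert (F := 266) (by norm_num) p_2530f76895 (List.forall_mem_nil _)

theorem q_a60e92aa1b : PosP 766 [367, 398, 399, 463, 465, 495, 528] [431, 432, 434, 464, 496, 527, 561] :=
  pos_of_cert (F := 516) (by norm_num) p_a60e92aa1b (List.forall_mem_cons.2 ⟨(q_2530f76895.mono (by norm_num)),
    (List.forall_mem_nil _)⟩)

theorem q_0b1698034c : PosP 1016 [367, 399, 463, 465, 495, 528] [431, 432, 464, 496, 527, 561] :=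
  pos_of_cert (F := 766) (by norm_num) p_0b1698034c (List.forall_mem_cons.2 ⟨(q_69fbff5406.mono (by norm_num)),
    (List.forall_mem_cons.2 ⟨(q_f6f52e441e.mono (by norm_num)),
    (List.forall_mem_cons.2 ⟨(q_8a0a2d35f0.mono (by norm_num)),
    (List.forall_mem_cons.2 ⟨(q_3b56ed8bd4.mono (by norm_num)),
    (List.forall_mem_cons.2 ⟨(q_a60e92aa1b.mono (by norm_num)),
    (List.forall_mem_nil _)⟩)⟩)⟩)⟩)⟩)

theorem q_f393d7e9fc : PosP 516 [367, 399, 432, 463, 465, 495, 498, 528] [366, 431, 433, 464, 496, 527, 531, 561] :=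
  pos_of_cert (F := 266) (by norm_num) p_f393d7e9fc (List.forall_mem_nil _)

theorem q_943ff05bce : PosP 516 [399, 463, 465, 495, 528] [464, 496, 498, 527, 561] :=
  pos_of_cert (F := 266) (by norm_num) p_943ff05bce (List.forall_mem_nil _)

theorem q_3f95a2cef2 : PosP 1266 [463, 465, 495, 528] [464, 496, 527, 561] :=
  pos_of_cert (F := 1016) (by norm_num) p_3f95a2cef2 (List.forall_mem_cons.2 ⟨(q_82f42b730b.mono (by norm_num)),
    (List.forall_mem_cons.2 ⟨(q_a9b0479c30.mono (by norm_num)),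
    (List.forall_mem_cons.2 ⟨(q_ff53d1b9dd.mono (by norm_num)),
    (List.forall_mem_cons.2 ⟨(q_bd9e52996a.mono (by norm_num)),
    (List.forall_mem_cons.2 ⟨(q_23a42d60ce.mono (by norm_num)),
    (List.forall_mem_cons.2 ⟨(q_0b1698034c.mono (by norm_num)),
    (List.forall_mem_cons.2 ⟨(q_f393d7e9fc.mono (by norm_num)),
    (List.forall_mem_cons.2 ⟨(q_943ff05bce.mono (by norm_num)),
    (List.forall_mem_nil _)⟩)⟩)⟩)⟩)⟩)⟩)⟩)⟩)

theorem q_093a8b6f6a : PosP 516 [495, 526, 557] [498, 529, 588] :=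
  pos_of_cert (F := 266) (by norm_num) p_093a8b6f6a (List.forall_mem_nil _)

theorem q_10057f8a2c : PosP 766 [495, 526] [498, 529] :=
  pos_of_cert (F := 516) (by norm_num) p_10057f8a2c (List.forall_mem_cons.2 ⟨(q_093a8b6f6a.mono (by norm_num)),
    (List.forall_mem_nil _)⟩)

theorem q_5517150579 : PosP 516 [464, 465, 495] [467, 526, 528] :=
  pos_of_cert (F := 266) (by norm_num) p_5517150579 (List.forall_mem_nil _)

theorem q_e820ea33b2 : PosP 516 [464, 495] [528, 625] :=
  pos_of_cert (F := 266) (by norm_num) p_e820ea33b2 (List.forall_mem_nil _)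

theorem q_676735fce3 : PosP 516 [433, 495, 526, 557] [464, 498, 501, 588] :=
  pos_of_cert (F := 266) (by norm_num) p_676735fce3 (List.forall_mem_nil _)

theorem q_e29a8c50a7 : PosP 766 [495, 526] [498, 501] :=
  pos_of_cert (F := 516) (by norm_num) p_e29a8c50a7 (List.forall_mem_cons.2 ⟨(q_676735fce3.mono (by norm_num)),
    (List.forall_mem_nil _)⟩)

theorem q_496082a42d : PosP 516 [464, 494, 495, 524, 526, 557, 558, 590, 591] [433, 462, 491, 493, 527, 528, 588, 622, 624] :=
  pos_of_cert (F := 266) (by norm_num) p_496082a42d (List.forall_mem_nil _)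

theorem q_777a5302a9 : PosP 766 [464, 494, 495, 524, 526, 557, 558, 590] [433, 462, 491, 493, 527, 528, 588, 622] :=
  pos_of_cert (F := 516) (by norm_num) p_777a5302a9 (List.forall_mem_cons.2 ⟨(q_496082a42d.mono (by norm_num)),
    (List.forall_mem_nil _)⟩)

theorem q_4060941db5 : PosP 516 [395, 428, 430, 461, 464, 492, 494, 495, 524, 526, 557, 558, 590, 623] [362, 399, 433, 460, 462, 491, 493, 525, 527, 528, 559, 588, 622, 656] :=
  pos_of_cert (F := 266) (by norm_num) p_4060941db5 (List.forall_mem_nil _)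

theorem q_8289216081 : PosP 766 [464, 495, 526, 557, 558] [433, 493, 528, 559, 588] :=
  pos_of_cert (F := 516) (by norm_num) p_8289216081 (List.forall_mem_cons.2 ⟨(q_4060941db5.mono (by norm_num)),
    (List.forall_mem_nil _)⟩)

theorem q_faa8bef0e1 : PosP 1016 [464, 495, 526, 557] [433, 493, 528, 588] :=
  pos_of_cert (F := 766) (by norm_num) p_faa8bef0e1 (List.forall_mem_cons.2 ⟨(q_777a5302a9.mono (by norm_num)),
    (List.forall_mem_cons.2 ⟨(q_8289216081.mono (by norm_num)),
    (List.forall_mem_nil _)⟩)⟩)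

theorem q_32a5a54e07 : PosP 516 [431, 464, 495, 526] [461, 493, 528, 557] :=
  pos_of_cert (F := 266) (by norm_num) p_32a5a54e07 (List.forall_mem_nil _)

theorem q_efe819c895 : PosP 516 [431, 464, 495, 526] [493, 525, 528, 557] :=
  pos_of_cert (F := 266) (by norm_num) p_efe819c895 (List.forall_mem_nil _)

theorem q_e9a764d42e : PosP 766 [464, 495, 526] [493, 528, 557] :=
  pos_of_cert (F := 516) (by norm_num) p_e9a764d42e (List.forall_mem_cons.2 ⟨(q_32a5a54e07.mono (by norm_num)),
    (List.forall_mem_cons.2 ⟨(q_efe819c895.mono (by norm_num)),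
    (List.forall_mem_nil _)⟩)⟩)

theorem q_30f6f5a243 : PosP 1266 [464, 495] [493, 528] :=
  pos_of_cert (F := 1016) (by norm_num) p_30f6f5a243 (List.forall_mem_cons.2 ⟨(q_faa8bef0e1.mono (by norm_num)),
    (List.forall_mem_cons.2 ⟨(q_e9a764d42e.mono (by norm_num)),
    (List.forall_mem_nil _)⟩)⟩)

theorem q_3f354c0cea : PosP 516 [466, 495, 528] [496, 527, 530] :=
  pos_of_cert (F := 266) (by norm_num) p_3f354c0cea (List.forall_mem_nil _)

theorem q_0304b612c7 : PosP 516 [462, 463, 495] [431, 461, 530] :=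
  pos_of_cert (F := 266) (by norm_num) p_0304b612c7 (List.forall_mem_nil _)

theorem q_28e779933c : PosP 516 [462, 463, 495, 497] [431, 464, 466, 530] :=
  pos_of_cert (F := 266) (by norm_num) p_28e779933c (List.forall_mem_nil _)

theorem q_01123b7962 : PosP 516 [462, 463, 495, 497] [431, 464, 498, 530] :=
  pos_of_cert (F := 266) (by norm_num) p_01123b7962 (List.forall_mem_nil _)

theorem q_0cf45eba29 : PosP 766 [462, 463, 495] [431, 464, 530] :=
  pos_of_cert (F := 516) (by norm_num) p_0cf45eba29 (List.forall_mem_cons.2 ⟨(q_28e779933c.mono (by norm_num)),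
    (List.forall_mem_cons.2 ⟨(q_01123b7962.mono (by norm_num)),
    (List.forall_mem_nil _)⟩)⟩)

theorem q_8c597c7f48 : PosP 516 [462, 463, 495] [431, 529, 530] :=
  pos_of_cert (F := 266) (by norm_num) p_8c597c7f48 (List.forall_mem_nil _)

theorem q_9a05124368 : PosP 1016 [463, 495] [431, 530] :=
  pos_of_cert (F := 766) (by norm_num) p_9a05124368 (List.forall_mem_cons.2 ⟨(q_0304b612c7.mono (by norm_num)),
    (List.forall_mem_cons.2 ⟨(q_0cf45eba29.mono (by norm_num)),
    (List.forall_mem_cons.2 ⟨(q_8c597c7f48.mono (by norm_num)),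
    (List.forall_mem_nil _)⟩)⟩)⟩)

theorem q_a6af614e86 : PosP 516 [464, 495, 526, 557] [433, 528, 530, 588] :=
  pos_of_cert (F := 266) (by norm_num) p_a6af614e86 (List.forall_mem_nil _)

theorem q_c2b91db241 : PosP 516 [464, 495, 526] [528, 530, 557] :=
  pos_of_cert (F := 266) (by norm_num) p_c2b91db241 (List.forall_mem_nil _)

theorem q_7d38e9e9db : PosP 766 [464, 495] [528, 530] :=
  pos_of_cert (F := 516) (by norm_num) p_7d38e9e9db (List.forall_mem_cons.2 ⟨(q_a6af614e86.mono (by norm_num)),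
    (List.forall_mem_cons.2 ⟨(q_c2b91db241.mono (by norm_num)),
    (List.forall_mem_nil _)⟩)⟩)

theorem q_10abf6098e : PosP 516 [464, 494, 495] [433, 463, 528] :=
  pos_of_cert (F := 266) (by norm_num) p_10abf6098e (List.forall_mem_nil _)

theorem q_e741e4c96c : PosP 516 [495, 526, 527, 557] [374, 436, 464, 498] :=
  pos_of_cert (F := 266) (by norm_num) p_e741e4c96c (List.forall_mem_nil _)

theorem q_4236579f14 : PosP 516 [495, 526, 527, 557] [405, 436, 464, 498] :=
  pos_of_cert (F := 266) (by norm_num) p_4236579f14 (List.forall_mem_nil _)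

theorem q_3c6b80936c : PosP 516 [495, 526, 527, 557] [436, 464, 498, 529] :=
  pos_of_cert (F := 266) (by norm_num) p_3c6b80936c (List.forall_mem_nil _)

theorem q_8f7aa7a9a2 : PosP 766 [495, 526, 557] [436, 464, 498] :=
  pos_of_cert (F := 516) (by norm_num) p_8f7aa7a9a2 (List.forall_mem_cons.2 ⟨(q_e741e4c96c.mono (by norm_num)),
    (List.forall_mem_cons.2 ⟨(q_4236579f14.mono (by norm_num)),
    (List.forall_mem_cons.2 ⟨(q_3c6b80936c.mono (by norm_num)),
    (List.forall_mem_nil _)⟩)⟩)⟩)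

theorem q_b22e8e558b : PosP 1016 [495, 526] [436, 498] :=
  pos_of_cert (F := 766) (by norm_num) p_b22e8e558b (List.forall_mem_cons.2 ⟨(q_8f7aa7a9a2.mono (by norm_num)),
    (List.forall_mem_nil _)⟩)

theorem q_fdfb56c05e : PosP 516 [431, 433, 464, 495, 526] [402, 528, 557, 560, 624] :=
  pos_of_cert (F := 266) (by norm_num) p_fdfb56c05e (List.forall_mem_nil _)

theorem q_7c67d49520 : PosP 766 [433, 464, 495, 526] [402, 528, 557, 624] :=
  pos_of_cert (F := 516) (by norm_num) p_7c67d49520 (List.forall_mem_cons.2 ⟨(q_fdfb56c05e.mono (by norm_num)),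
    (List.forall_mem_nil _)⟩)

theorem q_3dc1bd0a2f : PosP 1016 [464, 495] [528, 624] :=
  pos_of_cert (F := 766) (by norm_num) p_3dc1bd0a2f (List.forall_mem_cons.2 ⟨(q_7c67d49520.mono (by norm_num)),
    (List.forall_mem_nil _)⟩)

theorem q_69aa56418b : PosP 516 [495, 526, 559] [497, 529, 561] :=
  pos_of_cert (F := 266) (by norm_num) p_69aa56418b (List.forall_mem_nil _)

theorem q_8011103779 : PosP 516 [495, 526, 559] [497, 529, 625] :=
  pos_of_cert (F := 266) (by norm_num) p_8011103779 (List.forall_mem_nil _)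

theorem q_45958e99b0 : PosP 766 [495, 526] [497, 529] :=
  pos_of_cert (F := 516) (by norm_num) p_45958e99b0 (List.forall_mem_cons.2 ⟨(q_2e4c935ce8.mono (by norm_num)),
    (List.forall_mem_cons.2 ⟨(q_2fcd2fb448.mono (by norm_num)),
    (List.forall_mem_cons.2 ⟨(q_51236cc072.mono (by norm_num)),
    (List.forall_mem_cons.2 ⟨(q_69aa56418b.mono (by norm_num)),
    (List.forall_mem_cons.2 ⟨(q_8011103779.mono (by norm_num)),
    (List.forall_mem_nil _)⟩)⟩)⟩)⟩)⟩)

theorem q_c74808a948 : PosP 516 [495, 526] [497, 629] :=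
  pos_of_cert (F := 266) (by norm_num) p_c74808a948 (List.forall_mem_nil _)

theorem q_238df7346a : PosP 516 [495, 496, 497, 528] [498, 627, 660, 693] :=
  pos_of_cert (F := 266) (by norm_num) p_238df7346a (List.forall_mem_nil _)

theorem q_4c4feb626c : PosP 766 [495, 496, 497] [498, 627, 660] :=
  pos_of_cert (F := 516) (by norm_num) p_4c4feb626c (List.forall_mem_cons.2 ⟨(q_238df7346a.mono (by norm_num)),
    (List.forall_mem_nil _)⟩)

theorem q_f5627e9757 : PosP 1016 [495, 496] [627, 660] :=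
  pos_of_cert (F := 766) (by norm_num) p_f5627e9757 (List.forall_mem_cons.2 ⟨(q_4c4feb626c.mono (by norm_num)),
    (List.forall_mem_nil _)⟩)

theorem q_12d930bc98 : PosP 516 [495, 526, 559] [404, 466, 497] :=
  pos_of_cert (F := 266) (by norm_num) p_12d930bc98 (List.forall_mem_nil _)

theorem q_c952902db2 : PosP 516 [495, 526, 559] [435, 466, 497] :=
  pos_of_cert (F := 266) (by norm_num) p_c952902db2 (List.forall_mem_nil _)

theorem q_dc3563ee1a : PosP 766 [495, 526] [466, 497] :=
  pos_of_cert (F := 516) (by norm_num) p_dc3563ee1a (List.forall_mem_cons.2 ⟨(q_12d930bc98.mono (by norm_num)),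
    (List.forall_mem_cons.2 ⟨(q_c952902db2.mono (by norm_num)),
    (List.forall_mem_cons.2 ⟨(q_d8467b81a4.mono (by norm_num)),
    (List.forall_mem_cons.2 ⟨(q_1ad3c1d217.mono (by norm_num)),
    (List.forall_mem_nil _)⟩)⟩)⟩)⟩)

theorem q_cf0569f142 : PosP 516 [463, 495, 528] [496, 526, 561] :=
  pos_of_cert (F := 266) (by norm_num) p_cf0569f142 (List.forall_mem_nil _)

theorem q_382087feca : PosP 516 [464, 495] [493, 563] :=
  pos_of_cert (F := 266) (by norm_num) p_382087feca (List.forall_mem_nil _)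

theorem q_8cb919698a : PosP 766 [464, 495] [562, 595] :=
  pos_of_cert (F := 516) (by norm_num) p_8cb919698a (List.forall_mem_cons.2 ⟨(q_849ed70e52.mono (by norm_num)),
    (List.forall_mem_cons.2 ⟨(q_37015ca7cc.mono (by norm_num)),
    (List.forall_mem_nil _)⟩)⟩)

theorem q_f3197db036 : PosP 766 [494, 495, 496] [493, 594, 660] :=
  pos_of_cert (F := 516) (by norm_num) p_f3197db036 (List.forall_mem_cons.2 ⟨(q_40d0ca7a14.mono (by norm_num)),
    (List.forall_mem_nil _)⟩)

theorem q_fd44d4e329 : PosP 1016 [495, 496] [594, 660] :=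
  pos_of_cert (F := 766) (by norm_num) p_fd44d4e329 (List.forall_mem_cons.2 ⟨(q_f3197db036.mono (by norm_num)),
    (List.forall_mem_cons.2 ⟨(q_09d703fe62.mono (by norm_num)),
    (List.forall_mem_nil _)⟩)⟩)

theorem q_d6dd65b324 : PosP 766 [463, 495, 527] [530, 559, 563] :=
  pos_of_cert (F := 516) (by norm_num) p_d6dd65b324 (List.forall_mem_cons.2 ⟨(q_952d100bb9.mono (by norm_num)),
    (List.forall_mem_nil _)⟩)

theorem q_044591359a : PosP 1016 [463, 495] [530, 563] :=
  pos_of_cert (F := 766) (by norm_num) p_044591359a (List.forall_mem_cons.2 ⟨(q_a46a84de2c.mono (by norm_num)),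
    (List.forall_mem_cons.2 ⟨(q_9bbf080e75.mono (by norm_num)),
    (List.forall_mem_cons.2 ⟨(q_d6dd65b324.mono (by norm_num)),
    (List.forall_mem_nil _)⟩)⟩)⟩)

theorem q_99eb16d911 : PosP 516 [431, 464, 495] [463, 528, 562] :=
  pos_of_cert (F := 266) (by norm_num) p_99eb16d911 (List.forall_mem_nil _)

theorem q_7c178e7231 : PosP 516 [464, 495] [528, 562] :=
  pos_of_cert (F := 266) (by norm_num) p_7c178e7231 (List.forall_mem_nil _)

theorem q_eb79c9010e : PosP 516 [495, 528] [496, 628] :=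
  pos_of_cert (F := 266) (by norm_num) p_eb79c9010e (List.forall_mem_nil _)

theorem q_94392521b5 : PosP 766 [495, 528, 529, 561] [460, 462, 463, 496] :=
  pos_of_cert (F := 516) (by norm_num) p_94392521b5 (List.forall_mem_cons.2 ⟨(q_93f4ec568d.mono (by norm_num)),
    (List.forall_mem_nil _)⟩)

theorem q_3ae9e6c10a : PosP 516 [495, 528, 529, 561] [461, 462, 463, 496] :=
  pos_of_cert (F := 266) (by norm_num) p_3ae9e6c10a (List.forall_mem_nil _)

theorem q_d34711997a : PosP 516 [464, 495, 528, 529, 558, 561] [403, 462, 463, 465, 496, 527] :=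
  pos_of_cert (F := 266) (by norm_num) p_d34711997a (List.forall_mem_nil _)

theorem q_557f1d2ba8 : PosP 516 [464, 495, 528, 529, 558, 561] [434, 462, 463, 465, 496, 527] :=
  pos_of_cert (F := 266) (by norm_num) p_557f1d2ba8 (List.forall_mem_nil _)

theorem q_09a50180b7 : PosP 516 [464, 495, 528, 529, 558, 561] [459, 462, 463, 465, 496, 527] :=
  pos_of_cert (F := 266) (by norm_num) p_09a50180b7 (List.forall_mem_nil _)

theorem q_80bfc21e37 : PosP 516 [464, 495, 528, 529, 558, 561] [462, 463, 465, 496, 527, 559] :=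
  pos_of_cert (F := 266) (by norm_num) p_80bfc21e37 (List.forall_mem_nil _)

theorem q_061886bea7 : PosP 766 [464, 495, 528, 529, 561] [462, 463, 465, 496, 527] :=
  pos_of_cert (F := 516) (by norm_num) p_061886bea7 (List.forall_mem_cons.2 ⟨(q_d34711997a.mono (by norm_num)),
    (List.forall_mem_cons.2 ⟨(q_557f1d2ba8.mono (by norm_num)),
    (List.forall_mem_cons.2 ⟨(q_09a50180b7.mono (by norm_num)),
    (List.forall_mem_cons.2 ⟨(q_80bfc21e37.mono (by norm_num)),
    (List.forall_mem_nil _)⟩)⟩)⟩)⟩)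

theorem q_2e4c3ac996 : PosP 1016 [495, 528, 529, 561] [462, 463, 465, 496] :=
  pos_of_cert (F := 766) (by norm_num) p_2e4c3ac996 (List.forall_mem_cons.2 ⟨(q_061886bea7.mono (by norm_num)),
    (List.forall_mem_nil _)⟩)

theorem q_170676decb : PosP 1266 [495, 528, 561] [462, 463, 496] :=
  pos_of_cert (F := 1016) (by norm_num) p_170676decb (List.forall_mem_cons.2 ⟨(q_94392521b5.mono (by norm_num)),
    (List.forall_mem_cons.2 ⟨(q_3ae9e6c10a.mono (by norm_num)),
    (List.forall_mem_cons.2 ⟨(q_2e4c3ac996.mono (by norm_num)),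
    (List.forall_mem_nil _)⟩)⟩)⟩)

theorem q_4045e0af46 : PosP 516 [465, 495, 498, 528, 529, 561] [463, 496, 497, 527, 530, 594] :=
  pos_of_cert (F := 266) (by norm_num) p_4045e0af46 (List.forall_mem_nil _)

theorem q_2d4fd0184e : PosP 766 [465, 495, 528, 529, 561] [463, 496, 497, 527, 594] :=
  pos_of_cert (F := 516) (by norm_num) p_2d4fd0184e (List.forall_mem_cons.2 ⟨(q_4045e0af46.mono (by norm_num)),
    (List.forall_mem_nil _)⟩)

theorem q_c2faff31f6 : PosP 516 [495, 528, 529, 561] [463, 496, 530, 594] :=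
  pos_of_cert (F := 266) (by norm_num) p_c2faff31f6 (List.forall_mem_nil _)

theorem q_15f1a40959 : PosP 516 [495, 528, 529, 561] [463, 496, 593, 594] :=
  pos_of_cert (F := 266) (by norm_num) p_15f1a40959 (List.forall_mem_nil _)

theorem q_312b9ec2d5 : PosP 1016 [495, 528, 561] [463, 496, 594] :=
  pos_of_cert (F := 766) (by norm_num) p_312b9ec2d5 (List.forall_mem_cons.2 ⟨(q_2d4fd0184e.mono (by norm_num)),
    (List.forall_mem_cons.2 ⟨(q_c2faff31f6.mono (by norm_num)),
    (List.forall_mem_cons.2 ⟨(q_15f1a40959.mono (by norm_num)),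
    (List.forall_mem_nil _)⟩)⟩)⟩)

theorem q_0196f38006 : PosP 1516 [495, 528] [463, 496] :=
  pos_of_cert (F := 1266) (by norm_num) p_0196f38006 (List.forall_mem_cons.2 ⟨(q_170676decb.mono (by norm_num)),
    (List.forall_mem_cons.2 ⟨(q_312b9ec2d5.mono (by norm_num)),
    (List.forall_mem_nil _)⟩)⟩)

theorem q_74c5f1dd7e : PosP 516 [433, 464, 495, 497, 526, 529] [402, 465, 530, 531, 532, 557] :=
  pos_of_cert (F := 266) (by norm_num) p_74c5f1dd7e (List.forall_mem_nil _)

theorem q_9f5b83c8cc : PosP 766 [433, 464, 495] [402, 531, 532] :=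
  pos_of_cert (F := 516) (by norm_num) p_9f5b83c8cc (List.forall_mem_cons.2 ⟨(q_74c5f1dd7e.mono (by norm_num)),
    (List.forall_mem_nil _)⟩)

theorem q_c80a2cc6fd : PosP 1016 [464, 495] [531, 532] :=
  pos_of_cert (F := 766) (by norm_num) p_c80a2cc6fd (List.forall_mem_cons.2 ⟨(q_9f5b83c8cc.mono (by norm_num)),
    (List.forall_mem_nil _)⟩)

theorem q_0399d5ffd7 : PosP 516 [466, 495, 528] [496, 527, 623] :=
  pos_of_cert (F := 266) (by norm_num) p_0399d5ffd7 (List.forall_mem_nil _)

theorem q_65dc5ecd45 : PosP 516 [495, 528, 529] [462, 496, 499] :=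
  pos_of_cert (F := 266) (by norm_num) p_65dc5ecd45 (List.forall_mem_nil _)

theorem q_ad76e5d142 : PosP 516 [495, 528, 529] [459, 462, 496] :=
  pos_of_cert (F := 266) (by norm_num) p_ad76e5d142 (List.forall_mem_nil _)

theorem q_6c490adecb : PosP 766 [464, 465, 495, 530] [463, 526, 528, 529] :=
  pos_of_cert (F := 516) (by norm_num) p_6c490adecb (List.forall_mem_cons.2 ⟨(q_35bb3a48f4.mono (by norm_num)),
    (List.forall_mem_cons.2 ⟨(q_fb32cff8bf.mono (by norm_num)),
    (List.forall_mem_cons.2 ⟨(q_8ba215af78.mono (by norm_num)),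
    (List.forall_mem_nil _)⟩)⟩)⟩)

theorem q_e7b2e2d564 : PosP 766 [465, 495, 528, 529] [462, 496, 527, 620] :=
  pos_of_cert (F := 516) (by norm_num) p_e7b2e2d564 (List.forall_mem_cons.2 ⟨(q_b07530f71d.mono (by norm_num)),
    (List.forall_mem_nil _)⟩)

theorem q_0828f38adb : PosP 516 [464, 494, 495] [433, 528, 529] :=
  pos_of_cert (F := 266) (by norm_num) p_0828f38adb (List.forall_mem_nil _)

theorem q_957492cf16 : PosP 516 [463, 495, 528] [464, 496, 561] :=
  pos_of_cert (F := 266) (by norm_num) p_957492cf16 (List.forall_mem_nil _)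

theorem q_0f069957a5 : PosP 516 [466, 495, 528] [401, 496, 527] :=
  pos_of_cert (F := 266) (by norm_num) p_0f069957a5 (List.forall_mem_nil _)

theorem q_dddafa05f5 : PosP 516 [495, 526] [497, 589] :=
  pos_of_cert (F := 266) (by norm_num) p_dddafa05f5 (List.forall_mem_nil _)

theorem q_275f161bf9 : PosP 766 [433, 464, 495] [402, 531, 597] :=
  pos_of_cert (F := 516) (by norm_num) p_275f161bf9 (List.forall_mem_cons.2 ⟨(q_61437d29c9.mono (by norm_num)),
    (List.forall_mem_nil _)⟩)

theorem q_1aba8d1280 : PosP 1016 [464, 495] [531, 597] :=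
  pos_of_cert (F := 766) (by norm_num) p_1aba8d1280 (List.forall_mem_cons.2 ⟨(q_275f161bf9.mono (by norm_num)),
    (List.forall_mem_cons.2 ⟨(q_086e0cfed0.mono (by norm_num)),
    (List.forall_mem_nil _)⟩)⟩)

theorem q_d35f277e62 : PosP 516 [495, 526, 559] [463, 560, 561] :=
  pos_of_cert (F := 266) (by norm_num) p_d35f277e62 (List.forall_mem_nil _)

theorem q_07bec6c15c : PosP 516 [495, 526, 559] [560, 561, 622] :=
  pos_of_cert (F := 266) (by norm_num) p_07bec6c15c (List.forall_mem_nil _)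

theorem q_b534108f66 : PosP 516 [495, 526, 559] [560, 561, 653] :=
  pos_of_cert (F := 266) (by norm_num) p_b534108f66 (List.forall_mem_nil _)

theorem q_86c8101d1c : PosP 766 [495, 526] [560, 561] :=
  pos_of_cert (F := 516) (by norm_num) p_86c8101d1c (List.forall_mem_cons.2 ⟨(q_d35f277e62.mono (by norm_num)),
    (List.forall_mem_cons.2 ⟨(q_07bec6c15c.mono (by norm_num)),
    (List.forall_mem_cons.2 ⟨(q_b534108f66.mono (by norm_num)),
    (List.forall_mem_nil _)⟩)⟩)⟩)

theorem q_401265c2ee : PosP 516 [464, 495] [528, 622] :=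
  pos_of_cert (F := 266) (by norm_num) p_401265c2ee (List.forall_mem_nil _)

theorem q_1ccea2f18a : PosP 766 [466, 495, 528] [430, 496, 527] :=
  pos_of_cert (F := 516) (by norm_num) p_1ccea2f18a (List.forall_mem_cons.2 ⟨(q_78d312d10a.mono (by norm_num)),
    (List.forall_mem_nil _)⟩)

theorem q_cd1dd03af8 : PosP 516 [464, 495, 497] [563, 629, 662] :=
  pos_of_cert (F := 266) (by norm_num) p_cd1dd03af8 (List.forall_mem_nil _)

theorem q_bb26a16ed8 : PosP 766 [464, 495] [563, 629] :=
  pos_of_cert (F := 516) (by norm_num) p_bb26a16ed8 (List.forall_mem_cons.2 ⟨(q_3a1fcfab79.mono (by norm_num)),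
    (List.forall_mem_cons.2 ⟨(q_cd1dd03af8.mono (by norm_num)),
    (List.forall_mem_nil _)⟩)⟩)

theorem q_f7be10cce4 : PosP 516 [433, 464, 495] [526, 529, 532] :=
  pos_of_cert (F := 266) (by norm_num) p_f7be10cce4 (List.forall_mem_nil _)

theorem q_1dd05ab4e7 : PosP 766 [464, 495] [529, 532] :=
  pos_of_cert (F := 516) (by norm_num) p_1dd05ab4e7 (List.forall_mem_cons.2 ⟨(q_f7be10cce4.mono (by norm_num)),
    (List.forall_mem_nil _)⟩)

theorem q_9b715aaed3 : PosP 516 [466, 495, 528] [496, 527, 532] :=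
  pos_of_cert (F := 266) (by norm_num) p_9b715aaed3 (List.forall_mem_nil _)

theorem q_e5763c4649 : PosP 516 [429, 462, 463, 464, 495, 528, 558] [396, 403, 465, 496, 557, 559, 561] :=
  pos_of_cert (F := 266) (by norm_num) p_e5763c4649 (List.forall_mem_nil _)

theorem q_e5511b8612 : PosP 516 [429, 462, 463, 464, 495, 528, 558] [396, 434, 465, 496, 557, 559, 561] :=
  pos_of_cert (F := 266) (by norm_num) p_e5511b8612 (List.forall_mem_nil _)

theorem q_cb71fb0655 : PosP 766 [429, 462, 463, 464, 495, 528] [396, 465, 496, 557, 559, 561] :=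
  pos_of_cert (F := 516) (by norm_num) p_cb71fb0655 (List.forall_mem_cons.2 ⟨(q_e5763c4649.mono (by norm_num)),
    (List.forall_mem_cons.2 ⟨(q_e5511b8612.mono (by norm_num)),
    (List.forall_mem_nil _)⟩)⟩)

theorem q_50f950c076 : PosP 1016 [464, 495, 528] [496, 557, 559] :=
  pos_of_cert (F := 766) (by norm_num) p_50f950c076 (List.forall_mem_cons.2 ⟨(q_cb71fb0655.mono (by norm_num)),
    (List.forall_mem_nil _)⟩)

theorem q_df72455516 : PosP 516 [462, 466, 495, 497, 528, 561] [429, 435, 463, 496, 527, 594] :=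
  pos_of_cert (F := 266) (by norm_num) p_df72455516 (List.forall_mem_nil _)

theorem q_7445f9c486 : PosP 516 [434, 435, 466, 495, 497, 498, 528, 530, 561, 594] [402, 404, 462, 463, 465, 496, 527, 559, 562, 627] :=
  pos_of_cert (F := 266) (by norm_num) p_7445f9c486 (List.forall_mem_nil _)

theorem q_70dd98d38d : PosP 766 [435, 466, 495, 497, 528, 561, 594] [404, 462, 463, 496, 527, 559, 627] :=
  pos_of_cert (F := 516) (by norm_num) p_70dd98d38d (List.forall_mem_cons.2 ⟨(q_7445f9c486.mono (by norm_num)),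
    (List.forall_mem_nil _)⟩)

theorem q_5961b699ef : PosP 516 [433, 434, 435, 436, 462, 466, 495, 497, 528, 529, 531, 561] [404, 429, 432, 437, 463, 465, 496, 498, 527, 532, 559, 594] :=
  pos_of_cert (F := 266) (by norm_num) p_5961b699ef (List.forall_mem_nil _)

theorem q_2bcf82f91e : PosP 766 [433, 434, 435, 436, 462, 466, 495, 497, 528, 529, 561] [404, 429, 432, 437, 463, 465, 496, 498, 527, 559, 594] :=
  pos_of_cert (F := 516) (by norm_num) p_2bcf82f91e (List.forall_mem_cons.2 ⟨(q_5961b699ef.mono (by norm_num)),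
    (List.forall_mem_nil _)⟩)

theorem q_7511bf44d5 : PosP 1016 [434, 462, 466, 495, 497, 528, 529, 561] [429, 463, 465, 496, 498, 527, 559, 594] :=
  pos_of_cert (F := 766) (by norm_num) p_7511bf44d5 (List.forall_mem_cons.2 ⟨(q_2bcf82f91e.mono (by norm_num)),
    (List.forall_mem_nil _)⟩)

theorem q_07fe8f94dd : PosP 516 [434, 462, 466, 495, 497, 528, 529, 558, 561] [429, 432, 463, 465, 496, 527, 556, 559, 594] :=
  pos_of_cert (F := 266) (by norm_num) p_07fe8f94dd (List.forall_mem_nil _)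

theorem q_c2839da49a : PosP 766 [434, 462, 466, 495, 497, 528, 529, 561] [429, 463, 465, 496, 527, 556, 559, 594] :=
  pos_of_cert (F := 516) (by norm_num) p_c2839da49a (List.forall_mem_cons.2 ⟨(q_07fe8f94dd.mono (by norm_num)),
    (List.forall_mem_nil _)⟩)

theorem q_0a077f7041 : PosP 516 [434, 462, 466, 495, 497, 528, 529, 561] [429, 463, 465, 496, 527, 557, 559, 594] :=
  pos_of_cert (F := 266) (by norm_num) p_0a077f7041 (List.forall_mem_nil _)

theorem q_0b9c7f69f5 : PosP 516 [434, 462, 466, 495, 497, 528, 529, 561, 589] [429, 463, 465, 496, 527, 557, 558, 559, 594] :=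
  pos_of_cert (F := 266) (by norm_num) p_0b9c7f69f5 (List.forall_mem_nil _)

theorem q_d68045409f : PosP 766 [434, 462, 466, 495, 497, 528, 529, 561] [429, 463, 465, 496, 527, 558, 559, 594] :=
  pos_of_cert (F := 516) (by norm_num) p_d68045409f (List.forall_mem_cons.2 ⟨(q_0b9c7f69f5.mono (by norm_num)),
    (List.forall_mem_nil _)⟩)

theorem q_5d63b6605c : PosP 516 [434, 462, 466, 495, 497, 528, 529, 561] [429, 463, 465, 496, 527, 559, 589, 594] :=
  pos_of_cert (F := 266) (by norm_num) p_5d63b6605c (List.forall_mem_nil _)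

theorem q_3b55d43249 : PosP 1266 [462, 466, 495, 497, 528, 529, 561] [429, 463, 465, 496, 527, 559, 594] :=
  pos_of_cert (F := 1016) (by norm_num) p_3b55d43249 (List.forall_mem_cons.2 ⟨(q_7511bf44d5.mono (by norm_num)),
    (List.forall_mem_cons.2 ⟨(q_c2839da49a.mono (by norm_num)),
    (List.forall_mem_cons.2 ⟨(q_0a077f7041.mono (by norm_num)),
    (List.forall_mem_cons.2 ⟨(q_d68045409f.mono (by norm_num)),
    (List.forall_mem_cons.2 ⟨(q_5d63b6605c.mono (by norm_num)),
    (List.forall_mem_nil _)⟩)⟩)⟩)⟩)⟩)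

theorem q_24bbee18a8 : PosP 1516 [466, 495, 528] [463, 496, 527] :=
  pos_of_cert (F := 1266) (by norm_num) p_24bbee18a8 (List.forall_mem_cons.2 ⟨(q_df72455516.mono (by norm_num)),
    (List.forall_mem_cons.2 ⟨(q_70dd98d38d.mono (by norm_num)),
    (List.forall_mem_cons.2 ⟨(q_3b55d43249.mono (by norm_num)),
    (List.forall_mem_nil _)⟩)⟩)⟩)

theorem q_5d498ffef6 : PosP 516 [464, 495] [528, 627] :=
  pos_of_cert (F := 266) (by norm_num) p_5d498ffef6 (List.forall_mem_nil _)

theorem q_ddb87bff47 : PosP 516 [463, 465, 495, 528] [434, 496, 527, 561] :=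
  pos_of_cert (F := 266) (by norm_num) p_ddb87bff47 (List.forall_mem_nil _)

theorem q_dc5883ce1f : PosP 516 [464, 495] [528, 594] :=
  pos_of_cert (F := 266) (by norm_num) p_dc5883ce1f (List.forall_mem_nil _)

theorem q_2abe254544 : PosP 516 [464, 494, 495] [433, 528, 624] :=
  pos_of_cert (F := 266) (by norm_num) p_2abe254544 (List.forall_mem_nil _)

theorem q_039ad73b86 : PosP 516 [492, 495, 526, 527, 559] [493, 497, 525, 558, 591] :=
  pos_of_cert (F := 266) (by norm_num) p_039ad73b86 (List.forall_mem_nil _)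

theorem q_71e3dd8a31 : PosP 766 [495, 526, 527, 559] [497, 525, 558, 591] :=
  pos_of_cert (F := 516) (by norm_num) p_71e3dd8a31 (List.forall_mem_cons.2 ⟨(q_039ad73b86.mono (by norm_num)),
    (List.forall_mem_nil _)⟩)

theorem q_76a869f32a : PosP 1016 [495, 526] [497, 558] :=
  pos_of_cert (F := 766) (by norm_num) p_76a869f32a (List.forall_mem_cons.2 ⟨(q_71e3dd8a31.mono (by norm_num)),
    (List.forall_mem_nil _)⟩)

theorem q_ec65809fbd : PosP 516 [495, 528, 529, 561] [366, 430, 462, 496] :=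
  pos_of_cert (F := 266) (by norm_num) p_ec65809fbd (List.forall_mem_nil _)

theorem q_2ed656c431 : PosP 1016 [495, 528, 561] [430, 462, 496] :=
  pos_of_cert (F := 766) (by norm_num) p_2ed656c431 (List.forall_mem_cons.2 ⟨(q_ec65809fbd.mono (by norm_num)),
    (List.forall_mem_cons.2 ⟨(q_bfa56dda6d.mono (by norm_num)),
    (List.forall_mem_cons.2 ⟨(q_46e5cfda09.mono (by norm_num)),
    (List.forall_mem_nil _)⟩)⟩)⟩)

theorem q_fe23cb00f7 : PosP 516 [495, 528, 561] [430, 496, 594] :=
  pos_of_cert (F := 266) (by norm_num) p_fe23cb00f7 (List.forall_mem_nil _)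

theorem q_f6f7c15a88 : PosP 1266 [495, 528] [430, 496] :=
  pos_of_cert (F := 1016) (by norm_num) p_f6f7c15a88 (List.forall_mem_cons.2 ⟨(q_2ed656c431.mono (by norm_num)),
    (List.forall_mem_cons.2 ⟨(q_fe23cb00f7.mono (by norm_num)),
    (List.forall_mem_nil _)⟩)⟩)

theorem q_5892255700 : PosP 766 [495, 526] [528, 561] :=
  pos_of_cert (F := 516) (by norm_num) p_5892255700 (List.forall_mem_cons.2 ⟨(q_873101f81a.mono (by norm_num)),
    (List.forall_mem_cons.2 ⟨(q_d899f36fe1.mono (by norm_num)),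
    (List.forall_mem_nil _)⟩)⟩)

theorem q_04fded8bba : PosP 516 [464, 495, 528] [496, 559, 593] :=
  pos_of_cert (F := 266) (by norm_num) p_04fded8bba (List.forall_mem_nil _)

theorem q_3afafdee5c : PosP 516 [464, 495] [462, 563] :=
  pos_of_cert (F := 266) (by norm_num) p_3afafdee5c (List.forall_mem_nil _)

theorem q_aa93224e58 : PosP 516 [464, 465, 495] [526, 528, 652] :=
  pos_of_cert (F := 266) (by norm_num) p_aa93224e58 (List.forall_mem_nil _)

theorem q_992de3e617 : PosP 516 [464, 494, 495] [433, 528, 565] :=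
  pos_of_cert (F := 266) (by norm_num) p_992de3e617 (List.forall_mem_nil _)

theorem q_d78aad296e : PosP 516 [399, 431, 463, 495, 528] [367, 496, 527, 557, 561] :=
  pos_of_cert (F := 266) (by norm_num) p_d78aad296e (List.forall_mem_nil _)

theorem q_f9c849c3f0 : PosP 766 [463, 495, 528] [496, 557, 561] :=
  pos_of_cert (F := 516) (by norm_num) p_f9c849c3f0 (List.forall_mem_cons.2 ⟨(q_d78aad296e.mono (by norm_num)),
    (List.forall_mem_nil _)⟩)

theorem q_adafa02d4a : PosP 516 [464, 465, 466, 495, 498] [463, 497, 526, 528, 529] :=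
  pos_of_cert (F := 266) (by norm_num) p_adafa02d4a (List.forall_mem_nil _)

theorem q_b7a78f79be : PosP 766 [464, 465, 466, 495] [463, 497, 526, 528] :=
  pos_of_cert (F := 516) (by norm_num) p_b7a78f79be (List.forall_mem_cons.2 ⟨(q_adafa02d4a.mono (by norm_num)),
    (List.forall_mem_nil _)⟩)

theorem q_6036bfa8c3 : PosP 1016 [464, 465, 495] [497, 526, 528] :=
  pos_of_cert (F := 766) (by norm_num) p_6036bfa8c3 (List.forall_mem_cons.2 ⟨(q_b7a78f79be.mono (by norm_num)),
    (List.forall_mem_nil _)⟩)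

theorem q_8d8f045cbb : PosP 516 [463, 495, 526, 528] [431, 464, 496, 561] :=
  pos_of_cert (F := 266) (by norm_num) p_8d8f045cbb (List.forall_mem_nil _)

theorem q_4867af1ec8 : PosP 516 [429, 433, 462, 463, 464, 494, 495, 526, 528] [396, 402, 430, 431, 461, 496, 525, 557, 561] :=
  pos_of_cert (F := 266) (by norm_num) p_4867af1ec8 (List.forall_mem_nil _)

theorem q_22d376e907 : PosP 766 [429, 433, 462, 463, 464, 495, 526, 528] [396, 402, 431, 461, 496, 525, 557, 561] :=
  pos_of_cert (F := 516) (by norm_num) p_22d376e907 (List.forall_mem_cons.2 ⟨(q_4867af1ec8.mono (by norm_num)),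
    (List.forall_mem_nil _)⟩)

theorem q_fbd79f7ec6 : PosP 516 [463, 495, 526, 528] [431, 496, 527, 561] :=
  pos_of_cert (F := 266) (by norm_num) p_fbd79f7ec6 (List.forall_mem_nil _)

theorem q_244201b8eb : PosP 1016 [463, 495, 528] [431, 496, 561] :=
  pos_of_cert (F := 766) (by norm_num) p_244201b8eb (List.forall_mem_cons.2 ⟨(q_8d8f045cbb.mono (by norm_num)),
    (List.forall_mem_cons.2 ⟨(q_22d376e907.mono (by norm_num)),
    (List.forall_mem_cons.2 ⟨(q_fbd79f7ec6.mono (by norm_num)),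
    (List.forall_mem_nil _)⟩)⟩)⟩)

theorem q_f80250b3fb : PosP 766 [463, 465, 495, 528] [496, 527, 561, 620] :=
  pos_of_cert (F := 516) (by norm_num) p_f80250b3fb (List.forall_mem_cons.2 ⟨(q_d84959a4d9.mono (by norm_num)),
    (List.forall_mem_nil _)⟩)

theorem q_9009150c70 : PosP 516 [463, 464, 465, 495, 527] [460, 462, 526, 528, 559] :=
  pos_of_cert (F := 266) (by norm_num) p_9009150c70 (List.forall_mem_nil _)

theorem q_35f257bbff : PosP 766 [464, 465, 495] [460, 526, 528] :=
  pos_of_cert (F := 516) (by norm_num) p_35f257bbff (List.forall_mem_cons.2 ⟨(q_9009150c70.mono (by norm_num)),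
    (List.forall_mem_nil _)⟩)

theorem q_431a86fe74 : PosP 516 [464, 465, 495] [430, 526, 528] :=
  pos_of_cert (F := 266) (by norm_num) p_431a86fe74 (List.forall_mem_nil _)

theorem q_b8ba77bd4f : PosP 516 [433, 464, 495] [526, 529, 661] :=
  pos_of_cert (F := 266) (by norm_num) p_b8ba77bd4f (List.forall_mem_nil _)

theorem q_c138d5d291 : PosP 766 [464, 495] [529, 661] :=
  pos_of_cert (F := 516) (by norm_num) p_c138d5d291 (List.forall_mem_cons.2 ⟨(q_b8ba77bd4f.mono (by norm_num)),
    (List.forall_mem_nil _)⟩)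

theorem q_88b18c66a1 : PosP 516 [463, 495, 496, 497, 527] [434, 498, 528, 530, 559] :=
  pos_of_cert (F := 266) (by norm_num) p_88b18c66a1 (List.forall_mem_nil _)

theorem q_7dba1ffcc5 : PosP 516 [463, 495, 497, 527] [494, 528, 530, 559] :=
  pos_of_cert (F := 266) (by norm_num) p_7dba1ffcc5 (List.forall_mem_nil _)

theorem q_5d71616e1b : PosP 516 [463, 495, 497, 527] [496, 528, 530, 559] :=
  pos_of_cert (F := 266) (by norm_num) p_5d71616e1b (List.forall_mem_nil _)

theorem q_38daa341c2 : PosP 516 [431, 463, 466, 495, 496, 497, 527] [399, 498, 528, 530, 559, 560, 562] :=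
  pos_of_cert (F := 266) (by norm_num) p_38daa341c2 (List.forall_mem_nil _)

theorem q_94b89b945b : PosP 516 [431, 463, 466, 495, 496, 497, 527] [399, 498, 528, 530, 559, 562, 594] :=
  pos_of_cert (F := 266) (by norm_num) p_94b89b945b (List.forall_mem_nil _)

theorem q_a95c08547b : PosP 516 [431, 463, 466, 495, 496, 497, 527] [399, 498, 528, 530, 559, 562, 626] :=
  pos_of_cert (F := 266) (by norm_num) p_a95c08547b (List.forall_mem_nil _)

theorem q_0bb6f478b5 : PosP 766 [431, 463, 495, 496, 497, 527] [399, 498, 528, 530, 559, 562] :=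
  pos_of_cert (F := 516) (by norm_num) p_0bb6f478b5 (List.forall_mem_cons.2 ⟨(q_38daa341c2.mono (by norm_num)),
    (List.forall_mem_cons.2 ⟨(q_94b89b945b.mono (by norm_num)),
    (List.forall_mem_cons.2 ⟨(q_a95c08547b.mono (by norm_num)),
    (List.forall_mem_nil _)⟩)⟩)⟩)

theorem q_729b7c9d2d : PosP 1016 [463, 495, 497, 527] [498, 528, 530, 559] :=
  pos_of_cert (F := 766) (by norm_num) p_729b7c9d2d (List.forall_mem_cons.2 ⟨(q_88b18c66a1.mono (by norm_num)),
    (List.forall_mem_cons.2 ⟨(q_0bb6f478b5.mono (by norm_num)),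
    (List.forall_mem_nil _)⟩)⟩)

theorem q_799fecc024 : PosP 1266 [463, 495, 527] [528, 530, 559] :=
  pos_of_cert (F := 1016) (by norm_num) p_799fecc024 (List.forall_mem_cons.2 ⟨(q_88b18c66a1.mono (by norm_num)),
    (List.forall_mem_cons.2 ⟨(q_7dba1ffcc5.mono (by norm_num)),
    (List.forall_mem_cons.2 ⟨(q_5d71616e1b.mono (by norm_num)),
    (List.forall_mem_cons.2 ⟨(q_729b7c9d2d.mono (by norm_num)),
    (List.forall_mem_nil _)⟩)⟩)⟩)⟩)

theorem q_40a01becda : PosP 1516 [463, 495] [528, 530] :=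
  pos_of_cert (F := 1266) (by norm_num) p_40a01becda (List.forall_mem_cons.2 ⟨(q_799fecc024.mono (by norm_num)),
    (List.forall_mem_nil _)⟩)

theorem q_55e8dadff2 : PosP 516 [465, 495, 528, 529] [462, 496, 527, 623] :=
  pos_of_cert (F := 266) (by norm_num) p_55e8dadff2 (List.forall_mem_nil _)

theorem q_434b550fb1 : PosP 516 [495, 526, 557] [561, 588, 627] :=
  pos_of_cert (F := 266) (by norm_num) p_434b550fb1 (List.forall_mem_nil _)

theorem q_cb359d234d : PosP 766 [495, 526] [561, 627] :=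
  pos_of_cert (F := 516) (by norm_num) p_cb359d234d (List.forall_mem_cons.2 ⟨(q_434b550fb1.mono (by norm_num)),
    (List.forall_mem_nil _)⟩)

theorem q_8fc34f7759 : PosP 516 [463, 464, 495, 528] [465, 496, 559, 561] :=
  pos_of_cert (F := 266) (by norm_num) p_8fc34f7759 (List.forall_mem_nil _)

theorem q_87265e1a42 : PosP 516 [462, 463, 464, 495, 528, 558] [403, 465, 496, 557, 559, 561] :=
  pos_of_cert (F := 266) (by norm_num) p_87265e1a42 (List.forall_mem_nil _)

theorem q_c615281c61 : PosP 516 [429, 460, 462, 463, 464, 495, 527, 528, 558] [396, 403, 434, 461, 465, 496, 557, 559, 561] :=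
  pos_of_cert (F := 266) (by norm_num) p_c615281c61 (List.forall_mem_nil _)

theorem q_f83b76dcaa : PosP 766 [429, 460, 462, 463, 464, 495, 528, 558] [396, 434, 461, 465, 496, 557, 559, 561] :=
  pos_of_cert (F := 516) (by norm_num) p_f83b76dcaa (List.forall_mem_cons.2 ⟨(q_c615281c61.mono (by norm_num)),
    (List.forall_mem_nil _)⟩)

theorem q_e953583773 : PosP 1016 [462, 463, 464, 495, 528] [465, 496, 557, 559, 561] :=
  pos_of_cert (F := 766) (by norm_num) p_e953583773 (List.forall_mem_cons.2 ⟨(q_87265e1a42.mono (by norm_num)),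
    (List.forall_mem_cons.2 ⟨(q_f83b76dcaa.mono (by norm_num)),
    (List.forall_mem_nil _)⟩)⟩)

theorem q_88746e6ea5 : PosP 1266 [463, 464, 495, 528] [496, 557, 559, 561] :=
  pos_of_cert (F := 1016) (by norm_num) p_88746e6ea5 (List.forall_mem_cons.2 ⟨(q_e953583773.mono (by norm_num)),
    (List.forall_mem_nil _)⟩)

theorem q_5861de440e : PosP 516 [463, 464, 495, 528, 560] [465, 496, 558, 559, 561] :=
  pos_of_cert (F := 266) (by norm_num) p_5861de440e (List.forall_mem_nil _)

theorem q_5d235a9cd0 : PosP 516 [463, 464, 495, 528, 560] [496, 527, 558, 559, 561] :=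
  pos_of_cert (F := 266) (by norm_num) p_5d235a9cd0 (List.forall_mem_nil _)

theorem q_3295146ce3 : PosP 766 [463, 464, 495, 528] [496, 558, 559, 561] :=
  pos_of_cert (F := 516) (by norm_num) p_3295146ce3 (List.forall_mem_cons.2 ⟨(q_5861de440e.mono (by norm_num)),
    (List.forall_mem_cons.2 ⟨(q_990fd0983e.mono (by norm_num)),
    (List.forall_mem_cons.2 ⟨(q_5d235a9cd0.mono (by norm_num)),
    (List.forall_mem_nil _)⟩)⟩)⟩)

theorem q_9a29438e23 : PosP 516 [463, 464, 495, 528, 560] [496, 559, 561, 562, 595] :=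
  pos_of_cert (F := 266) (by norm_num) p_9a29438e23 (List.forall_mem_nil _)

theorem q_ab6f9b8e84 : PosP 516 [463, 464, 495, 528, 560] [496, 559, 561, 562, 628] :=
  pos_of_cert (F := 266) (by norm_num) p_ab6f9b8e84 (List.forall_mem_nil _)

theorem q_86cd2eb643 : PosP 766 [463, 464, 495, 528] [496, 559, 561, 562] :=
  pos_of_cert (F := 516) (by norm_num) p_86cd2eb643 (List.forall_mem_cons.2 ⟨(q_9a29438e23.mono (by norm_num)),
    (List.forall_mem_cons.2 ⟨(q_ab6f9b8e84.mono (by norm_num)),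
    (List.forall_mem_nil _)⟩)⟩)

theorem q_4979618fb8 : PosP 516 [463, 464, 495, 528] [496, 559, 561, 563] :=
  pos_of_cert (F := 266) (by norm_num) p_4979618fb8 (List.forall_mem_nil _)

theorem q_273d4ff038 : PosP 1516 [464, 495, 528] [496, 559, 561] :=
  pos_of_cert (F := 1266) (by norm_num) p_273d4ff038 (List.forall_mem_cons.2 ⟨(q_8fc34f7759.mono (by norm_num)),
    (List.forall_mem_cons.2 ⟨(q_88746e6ea5.mono (by norm_num)),
    (List.forall_mem_cons.2 ⟨(q_3295146ce3.mono (by norm_num)),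
    (List.forall_mem_cons.2 ⟨(q_34730207e6.mono (by norm_num)),
    (List.forall_mem_cons.2 ⟨(q_86cd2eb643.mono (by norm_num)),
    (List.forall_mem_cons.2 ⟨(q_4979618fb8.mono (by norm_num)),
    (List.forall_mem_nil _)⟩)⟩)⟩)⟩)⟩)⟩)

theorem q_5e981adbf8 : PosP 516 [464, 495, 528] [462, 496, 559] :=
  pos_of_cert (F := 266) (by norm_num) p_5e981adbf8 (List.forall_mem_nil _)

theorem q_17874439f9 : PosP 516 [464, 495] [430, 596] :=
  pos_of_cert (F := 266) (by norm_num) p_17874439f9 (List.forall_mem_nil _)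

theorem q_608429d6ef : PosP 516 [464, 495] [468, 528] :=
  pos_of_cert (F := 266) (by norm_num) p_608429d6ef (List.forall_mem_nil _)

theorem q_7f8eeebdd3 : PosP 516 [466, 495, 528] [496, 527, 591] :=
  pos_of_cert (F := 266) (by norm_num) p_7f8eeebdd3 (List.forall_mem_nil _)

theorem q_bb559bc83b : PosP 516 [464, 495, 528] [496, 497, 559] :=
  pos_of_cert (F := 266) (by norm_num) p_bb559bc83b (List.forall_mem_nil _)

theorem q_033233519b : PosP 516 [465, 495, 528, 529] [462, 463, 496, 527] :=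
  pos_of_cert (F := 266) (by norm_num) p_033233519b (List.forall_mem_nil _)

theorem q_1858451cb5 : PosP 516 [465, 495, 528, 529] [462, 496, 527, 591] :=
  pos_of_cert (F := 266) (by norm_num) p_1858451cb5 (List.forall_mem_nil _)

theorem q_60ad261d35 : PosP 516 [433, 464, 465, 495] [526, 528, 529, 532] :=
  pos_of_cert (F := 266) (by norm_num) p_60ad261d35 (List.forall_mem_nil _)

theorem q_356e7f7b23 : PosP 766 [433, 464, 495] [526, 528, 532] :=
  pos_of_cert (F := 516) (by norm_num) p_356e7f7b23 (List.forall_mem_cons.2 ⟨(q_60ad261d35.mono (by norm_num)),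
    (List.forall_mem_nil _)⟩)

theorem q_7597ea244b : PosP 1016 [464, 495] [528, 532] :=
  pos_of_cert (F := 766) (by norm_num) p_7597ea244b (List.forall_mem_cons.2 ⟨(q_356e7f7b23.mono (by norm_num)),
    (List.forall_mem_nil _)⟩)

theorem q_2bcad79df5 : PosP 516 [466, 495, 528] [437, 496, 527] :=
  pos_of_cert (F := 266) (by norm_num) p_2bcad79df5 (List.forall_mem_nil _)

theorem q_9ad3f24928 : PosP 516 [464, 465, 495, 497] [493, 526, 528, 592] :=
  pos_of_cert (F := 266) (by norm_num) p_9ad3f24928 (List.forall_mem_nil _)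

theorem q_a6afadbc22 : PosP 516 [464, 465, 493, 495, 497] [524, 526, 528, 559, 592] :=
  pos_of_cert (F := 266) (by norm_num) p_a6afadbc22 (List.forall_mem_nil _)

theorem q_0a466b56a5 : PosP 516 [464, 465, 493, 495, 497] [525, 526, 528, 559, 592] :=
  pos_of_cert (F := 266) (by norm_num) p_0a466b56a5 (List.forall_mem_nil _)

theorem q_791e778d9c : PosP 516 [464, 465, 493, 495, 497] [526, 527, 528, 559, 592] :=
  pos_of_cert (F := 266) (by norm_num) p_791e778d9c (List.forall_mem_nil _)

theorem q_fc4f2ed3c8 : PosP 516 [464, 465, 493, 495, 497] [526, 528, 529, 559, 592] :=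
  pos_of_cert (F := 266) (by norm_num) p_fc4f2ed3c8 (List.forall_mem_nil _)

theorem q_533ddec4e5 : PosP 516 [464, 465, 493, 495, 497] [526, 528, 559, 560, 592] :=
  pos_of_cert (F := 266) (by norm_num) p_533ddec4e5 (List.forall_mem_nil _)

theorem q_55567ca25a : PosP 516 [464, 465, 493, 495, 497] [526, 528, 559, 592, 624] :=
  pos_of_cert (F := 266) (by norm_num) p_55567ca25a (List.forall_mem_nil _)

theorem q_0fd7c079c4 : PosP 516 [464, 465, 493, 495, 497] [526, 528, 559, 592, 625] :=
  pos_of_cert (F := 266) (by norm_num) p_0fd7c079c4 (List.forall_mem_nil _)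

theorem q_439a1c6774 : PosP 516 [464, 465, 493, 495, 497] [526, 528, 559, 592, 656] :=
  pos_of_cert (F := 266) (by norm_num) p_439a1c6774 (List.forall_mem_nil _)

theorem q_11f50ae591 : PosP 516 [464, 465, 493, 495, 497] [526, 528, 559, 592, 658] :=
  pos_of_cert (F := 266) (by norm_num) p_11f50ae591 (List.forall_mem_nil _)

theorem q_0904907fb4 : PosP 766 [464, 465, 495, 497] [526, 528, 559, 592] :=
  pos_of_cert (F := 516) (by norm_num) p_0904907fb4 (List.forall_mem_cons.2 ⟨(q_a6afadbc22.mono (by norm_num)),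
    (List.forall_mem_cons.2 ⟨(q_0a466b56a5.mono (by norm_num)),
    (List.forall_mem_cons.2 ⟨(q_791e778d9c.mono (by norm_num)),
    (List.forall_mem_cons.2 ⟨(q_fc4f2ed3c8.mono (by norm_num)),
    (List.forall_mem_cons.2 ⟨(q_533ddec4e5.mono (by norm_num)),
    (List.forall_mem_cons.2 ⟨(q_55567ca25a.mono (by norm_num)),
    (List.forall_mem_cons.2 ⟨(q_0fd7c079c4.mono (by norm_num)),
    (List.forall_mem_cons.2 ⟨(q_439a1c6774.mono (by norm_num)),
    (List.forall_mem_cons.2 ⟨(q_11f50ae591.mono (by norm_num)),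
    (List.forall_mem_nil _)⟩)⟩)⟩)⟩)⟩)⟩)⟩)⟩)⟩)

theorem q_83afb1f582 : PosP 516 [464, 465, 495, 497] [526, 528, 592, 625] :=
  pos_of_cert (F := 266) (by norm_num) p_83afb1f582 (List.forall_mem_nil _)

theorem q_a27e1096b0 : PosP 1016 [464, 465, 495] [526, 528, 592] :=
  pos_of_cert (F := 766) (by norm_num) p_a27e1096b0 (List.forall_mem_cons.2 ⟨(q_9ad3f24928.mono (by norm_num)),
    (List.forall_mem_cons.2 ⟨(q_0904907fb4.mono (by norm_num)),
    (List.forall_mem_cons.2 ⟨(q_83afb1f582.mono (by norm_num)),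
    (List.forall_mem_nil _)⟩)⟩)⟩)

theorem q_d546773acd : PosP 516 [495, 526] [496, 628] :=
  pos_of_cert (F := 266) (by norm_num) p_d546773acd (List.forall_mem_nil _)

theorem q_44368eeb54 : PosP 516 [466, 495, 528, 561] [462, 496, 527, 559] :=
  pos_of_cert (F := 266) (by norm_num) p_44368eeb54 (List.forall_mem_nil _)

theorem q_2a26c721e6 : PosP 766 [466, 495, 528] [496, 527, 559] :=
  pos_of_cert (F := 516) (by norm_num) p_2a26c721e6 (List.forall_mem_cons.2 ⟨(q_44368eeb54.mono (by norm_num)),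
    (List.forall_mem_nil _)⟩)

theorem q_b60adf1178 : PosP 516 [431, 463, 495] [499, 502, 527] :=
  pos_of_cert (F := 266) (by norm_num) p_b60adf1178 (List.forall_mem_nil _)

theorem q_13d6390943 : PosP 766 [463, 495] [499, 502] :=
  pos_of_cert (F := 516) (by norm_num) p_13d6390943 (List.forall_mem_cons.2 ⟨(q_b60adf1178.mono (by norm_num)),
    (List.forall_mem_nil _)⟩)

theorem q_c833b80eb6 : PosP 516 [464, 495] [562, 694] :=
  pos_of_cert (F := 266) (by norm_num) p_c833b80eb6 (List.forall_mem_nil _)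

theorem q_24a723487d : PosP 516 [431, 433, 464, 495, 526] [402, 557, 561, 563, 564] :=
  pos_of_cert (F := 266) (by norm_num) p_24a723487d (List.forall_mem_nil _)

theorem q_41b5af7910 : PosP 766 [433, 464, 495, 526] [402, 557, 561, 564] :=
  pos_of_cert (F := 516) (by norm_num) p_41b5af7910 (List.forall_mem_cons.2 ⟨(q_24a723487d.mono (by norm_num)),
    (List.forall_mem_nil _)⟩)

theorem q_572381f3a2 : PosP 1016 [495, 526] [561, 564] :=
  pos_of_cert (F := 766) (by norm_num) p_572381f3a2 (List.forall_mem_cons.2 ⟨(q_b225043fc1.mono (by norm_num)),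
    (List.forall_mem_cons.2 ⟨(q_c69b6623b0.mono (by norm_num)),
    (List.forall_mem_cons.2 ⟨(q_41b5af7910.mono (by norm_num)),
    (List.forall_mem_nil _)⟩)⟩)⟩)

theorem q_ac71d0f88d : PosP 516 [431, 463, 495, 527, 528] [399, 496, 558, 559, 561] :=
  pos_of_cert (F := 266) (by norm_num) p_ac71d0f88d (List.forall_mem_nil _)

theorem q_38b88ebdd7 : PosP 766 [463, 495, 528] [496, 558, 561] :=
  pos_of_cert (F := 516) (by norm_num) p_38b88ebdd7 (List.forall_mem_cons.2 ⟨(q_ac71d0f88d.mono (by norm_num)),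
    (List.forall_mem_nil _)⟩)

end Pool.Agent.Helper225.G
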