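import Pool.Agent.Helper225.GTab
import Pool.Agent.Helper225.Cert.MV_113
import Pool.Agent.Helper225.Cls.QV_6

set_option autoImplicit false
set_option maxRecDepth 1000000

namespace Pool.Agent.Helper225.G

theorem q_728e511ea9 : PosP 516 [464, 495] [366, 528] :=
  pos_of_cert (F := 266) (by norm_num) p_728e511ea9 (List.forall_mem_nil _)

theorem q_660b9d356c : PosP 516 [431, 464, 495] [462, 463, 528] :=
  pos_of_cert (F := 266) (by norm_num) p_660b9d356c (List.forall_mem_nil _)

end Pool.Agent.Helper225.G
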