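import Pool.Agent.Helper225.GC2b
import Pool.Agent.Helper225.Cls.QV_7
import Pool.Agent.Helper225.Cert.MN57af5e7dc5_0
import Pool.Agent.Helper225.Cls.ND_2192e40808

set_option autoImplicit false
set_option maxRecDepth 1000000

namespace Pool.Agent.Helper225.G

theorem nd_57af5e7dc5 : WinL 1517 [495, 528] [462, 496] := by
  refine node_win (n := 1516) (by norm_num) 529 [0xfffffffffffffffffffffffffffffffffffffffffffffffffffffffffffffffffff7ffffffd7ffffffe637fffff00fffff001ffffec017ffff0007ffff8007ffffc003ffff8003ffff0007ffffc007ffffe43fffffc19ffffff38ffffffff7ffffffffffffffffffffffffffffffffffffffffffffffffffffffffffffffffff0000000000000000,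
    0xfffffffffffffffffffffffffffffffffffffffffffffffffffffffffffffffffffffffffffef7fffff92ffffff08fffff909fffffc007ffffc007ffffa00bffff400dffffc007ffffd007fffff01bffffe00fffffeb27fffffff7ffffffffffffffffffffffffffffffffffffffffffffffffffffffffffffffffffffffffff0000000000000000,
    0xfffffffffffffffffffffffffffffffffffffffffffffffffffffffffffffffffffffffffffffffffffffffffff30fffff8007ffffc007ffffe01fffff803fffffe01fffffd007ffffb03ffffff91fffffffafffffffffffffffffffffffffffffffffffffffffffffffffffffffffffffffffffffffffffffffffffffffffff0000000000000000,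
    0xffffffffffffffffffffffffffffffffffffffffffffffffffffffffffffffffffffdffffffb9fffffe11ffffff00fffff8003ffffc007ffffe007ffffe00fffffc017ffff8007ffffb097fffff11fffffffafffffffffffffffffffffffffffffffffffffffffffffffffffffffffffffffffffffffffffffffffffffffffff0000000000000000,
    0xfffffffffffffffffffffffffffffffffffffffffffffffffffffffffffffffffffffffffffffffffffefffffff01fffffb007ffffd017ffffe007fffff007ffffe00bffffd003ffffb227fffff81ffffffcaffffffbffffffffffffffffffffffffffffffffffffffffffffffffffffffffffffffffffffffffffffffffffff0000000000000000,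
    0xffffffffffffffffffffffffffffffffffffffffffffffffffffffffffffffffffffffffffffffffffffeffffff10dffff9003ffffc127ffffe007fffff01fffffe02fffffd007ffffb03ffffff81ffffffeefffffffffffffffffffffffffffffffffffffffffffffffffffffffffffffffffffffffffffffffffffffffffff0000000000000000,
    0xfffffffffffffffffffffffffffffffffffffffffffffffffffffffffffffffffff7fffffffbcffffffdcffffff00bffff9007ffffc007ffffe007fffff00fffffe00fffffd003ffffb00ffffffc1ffffffceffffffbffffffffffffffffffffffffffffffffffffffffffffffffffffffffffffffffffffffffffffffffffff0000000000000000,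
    0xfffffffffffffffffffffffffffffffffffffffffffffffffffffffffffffffffffffffffffffffffffefffffff01fffffb007ffffd01fffffe007fffff007ffffe003ffffd003ffffb007fffff81ffffff8affffff3ffffffefffffffffffffffffffffffffffffffffffffffffffffffffffffffffffffffffffffffffffff0000000000000000,
    0xffffffffffffffffffffffffffffffffffffffffffffffffffffffffffffffffffffffffffffe7ffffffeffffff10fffff9007ffffc003ffffe007fffff00fffffe00fffffc007ffffbc1ffffff81ffffffdefffffffffffffffffffffffffffffffffffffffffffffffffffffffffffffffffffffffffffffffffffffffffff0000000000000000,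
    0xfffffffffffffffffffffffffffffffffffffffffffffffffffffffffffffffffffffffffffffffffffffffffff8ebfffff807fffff003fffff007fffff00ffffff00ffffff007fffff01ffffff09ffffffdefffffffffffffffffffffffffffffffffffffffffffffffffffffffffffffffffffffffffffffffffffffffffff0000000000000000,
    0xfffffffffffffffffffffffffffffffffffffffffffffffffffffffffffffffffffffffffffffffffffffffffff89ffffff01ffffff003fffff007ffffe00fffffd40fffffe007fffff41ffffff09ffffffdefffffffffffffffffffffffffffffffffffffffffffffffffffffffffffffffffffffffffffffffffffffffffff0000000000000000,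
    0xfffffffffffffffffffffffffffffffffffffffffffffffffffffffffffffffffffffffffffecfffffff5ffffff58fffffd807ffffe807fffff407fffff01bffffe00dfffff807fffff01ffffff99ffffffdefffffffffffffffffffffffffffffffffffffffffffffffffffffffffffffffffffffffffffffffffffffffffff0000000000000000,
    0xffffffffffffffffffffffffffffffffffffffffffffffffffffffffffffffffffffffffffffffffffffffffffff9ffffff51ffffff007ffffd00fffffe01ffffff01ffffff007fffff03ffffff09fffffff6fffffffbfffffffffffffffffffffffffffffffffffffffffffffffffffffffffffffffffffffffffffffffffff0000000000000000,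
    0xfffffffffffffffffffffffffffffffffffffffffffffffffffffffffffffffffffffffffffffffffffffffffffdbffffff61ffffff007fffff10ffffff01ffffff02ffffff007fffff03ffffff19fffffffefffffffffffffffffffffffffffffffffffffffffffffffffffffffffffffffffffffffffffffffffffffffffff0000000000000000] [526, 494, 530, 398, 463, 430, 590, 460, 464, 461, 558, 466, 591, 397, 465, 559, 497, 531, 459, 563, 557, 499, 561, 594, 593, 401, 622, 432, 621, 527] (by decide +kernel) (by decide) (by decide)
    (List.cons_ne_nil _ _) ?_ ?_ (by decide +kernel)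
  · exact (List.forall_mem_cons.2 ⟨cN57af5e7dc5_0,
    (List.forall_mem_cons.2 ⟨cN57af5e7dc5_1,
    (List.forall_mem_cons.2 ⟨cN57af5e7dc5_2,
    (List.forall_mem_cons.2 ⟨cN57af5e7dc5_3,
    (List.forall_mem_cons.2 ⟨cN57af5e7dc5_4,
    (List.forall_mem_cons.2 ⟨cN57af5e7dc5_5,
    (List.forall_mem_cons.2 ⟨cN57af5e7dc5_6,
    (List.forall_mem_cons.2 ⟨cN57af5e7dc5_7,
    (List.forall_mem_cons.2 ⟨cN57af5e7dc5_8,
    (List.forall_mem_cons.2 ⟨cN57af5e7dc5_9,
    (List.forall_mem_cons.2 ⟨cN57af5e7dc5_10,
    (List.forall_mem_cons.2 ⟨cN57af5e7dc5_11,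
    (List.forall_mem_cons.2 ⟨cN57af5e7dc5_12,
    (List.forall_mem_cons.2 ⟨cN57af5e7dc5_13,
    (List.forall_mem_nil _)⟩)⟩)⟩)⟩)⟩)⟩)⟩)⟩)⟩)⟩)⟩)⟩)⟩)⟩)
  · exact (List.forall_mem_cons.2 ⟨((winL_of_pos q_360ed0c7b0 (by decide +kernel)).mono (by norm_num)).conv (by decide +kernel),
    (List.forall_mem_cons.2 ⟨((winL_of_pos q_c98816b9c2 (by decide +kernel)).mono (by norm_num)).conv (by decide +kernel),
    (List.forall_mem_cons.2 ⟨((winL_of_pos q_0845c257ee (by decide +kernel)).mono (by norm_num)).conv (by decide +kernel),
    (List.forall_mem_cons.2 ⟨((winL_of_pos q_8cc6a54de6 (by decide +kernel)).mono (by norm_num)).conv (by decide +kernel),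
    (List.forall_mem_cons.2 ⟨((winL_of_pos q_44cb1657d6 (by decide +kernel)).mono (by norm_num)).conv (by decide +kernel),
    (List.forall_mem_cons.2 ⟨((winL_of_pos q_3cc2f37412 (by decide +kernel)).mono (by norm_num)).conv (by decide +kernel),
    (List.forall_mem_cons.2 ⟨((winL_of_pos q_5418f223c6 (by decide +kernel)).mono (by norm_num)).conv (by decide +kernel),
    (List.forall_mem_cons.2 ⟨((winL_of_pos q_24b0eb77bb (by decide +kernel)).mono (by norm_num)).conv (by decide +kernel),
    (List.forall_mem_cons.2 ⟨((winL_of_pos q_5e409d8459 (by decide +kernel)).mono (by norm_num)).conv (by decide +kernel),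
    (List.forall_mem_cons.2 ⟨((winL_of_pos q_b17afa781b (by decide +kernel)).mono (by norm_num)).conv (by decide +kernel),
    (List.forall_mem_cons.2 ⟨((winL_of_pos q_db288b2cb0 (by decide +kernel)).mono (by norm_num)).conv (by decide +kernel),
    (List.forall_mem_cons.2 ⟨((winL_of_pos q_1d8e2a26f8 (by decide +kernel)).mono (by norm_num)).conv (by decide +kernel),
    (List.forall_mem_cons.2 ⟨((winL_of_pos q_cb828516f8 (by decide +kernel)).mono (by norm_num)).conv (by decide +kernel),
    (List.forall_mem_cons.2 ⟨((winL_of_pos q_94f7c8bb48 (by decide +kernel)).mono (by norm_num)).conv (by decide +kernel),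
    (List.forall_mem_cons.2 ⟨((winL_of_pos q_db83d1eb5a (by decide +kernel)).mono (by norm_num)).conv (by decide +kernel),
    (List.forall_mem_cons.2 ⟨((winL_of_pos q_f35dd72710 (by decide +kernel)).mono (by norm_num)).conv (by decide +kernel),
    (List.forall_mem_cons.2 ⟨((winL_of_pos q_806ccdc339 (by decide +kernel)).mono (by norm_num)).conv (by decide +kernel),
    (List.forall_mem_cons.2 ⟨((winL_of_pos q_b78df6721b (by decide +kernel)).mono (by norm_num)).conv (by decide +kernel),
    (List.forall_mem_cons.2 ⟨((winL_of_pos q_ad76e5d142 (by decide +kernel)).mono (by norm_num)).conv (by decide +kernel),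
    (List.forall_mem_cons.2 ⟨((winL_of_pos q_37e08d91a5 (by decide +kernel)).mono (by norm_num)).conv (by decide +kernel),
    (List.forall_mem_cons.2 ⟨((winL_of_pos q_a0105557d6 (by decide +kernel)).mono (by norm_num)).conv (by decide +kernel),
    (List.forall_mem_cons.2 ⟨((winL_of_pos q_65dc5ecd45 (by decide +kernel)).mono (by norm_num)).conv (by decide +kernel),
    (List.forall_mem_cons.2 ⟨((winL_of_pos q_4a012785ec (by decide +kernel)).mono (by norm_num)).conv (by decide +kernel),
    (List.forall_mem_cons.2 ⟨((winL_of_pos q_480d85fdc1 (by decide +kernel)).mono (by norm_num)).conv (by decide +kernel),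
    (List.forall_mem_cons.2 ⟨((winL_of_pos q_805efb3b51 (by decide +kernel)).mono (by norm_num)).conv (by decide +kernel),
    (List.forall_mem_cons.2 ⟨((winL_of_pos q_6ef5551bec (by decide +kernel)).mono (by norm_num)).conv (by decide +kernel),
    (List.forall_mem_cons.2 ⟨((winL_of_pos q_445d491607 (by decide +kernel)).mono (by norm_num)).conv (by decide +kernel),
    (List.forall_mem_cons.2 ⟨((winL_of_pos q_b2b495691f (by decide +kernel)).mono (by norm_num)).conv (by decide +kernel),
    (List.forall_mem_cons.2 ⟨((winL_of_pos q_9e06390326 (by decide +kernel)).mono (by norm_num)).conv (by decide +kernel),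
    (List.forall_mem_cons.2 ⟨(nd_2192e40808.mono (by norm_num)).conv (by decide +kernel),
    (List.forall_mem_nil _)⟩)⟩)⟩)⟩)⟩)⟩)⟩)⟩)⟩)⟩)⟩)⟩)⟩)⟩)⟩)⟩)⟩)⟩)⟩)⟩)⟩)⟩)⟩)⟩)⟩)⟩)⟩)⟩)⟩)⟩)

end Pool.Agent.Helper225.G
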