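import Pool.Agent.Helper225.GC2b
import Pool.Agent.Helper225.Cls.QV_7
import Pool.Agent.Helper225.Cert.MNeea6aca550_0
import Pool.Agent.Helper225.Cls.ND_20a89b7f10
import Pool.Agent.Helper225.Cls.ND_2192e40808

set_option autoImplicit false
set_option maxRecDepth 1000000

namespace Pool.Agent.Helper225.G

theorem nd_eea6aca550 : WinL 2018 [495, 528] [496, 527] := by
  refine node_win (n := 2017) (by norm_num) 466 [0xffffffffffffffffffffffffffffffffffffffffffffffffffffffffffffffffffff7ffffff67dffffb033fffe0007ffff000ffffe001ffffe0007fffe0007fffe0017fffe004bfffc0007fff80007fffe000ffffe000fffff000fffffc05fffff8bffffff5dfffffeffffffffffffffffffffffffffffffffffffffffffffff0000000000000000,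
    0xffffffffffffffffffffffffffffffffffffffffffffffffffffffffffffffffff577fffff841dffffc003ffff4006ffff0001ffff8003ffff0005fffe0003ffff0003ffff8803ffff8003fffe0003ffffc007ffffa083ffff685bfffeeebfffffffffffffffffffffffffffffffffffffffffffffffffffffffffffffffffff0000000000000000,
    0xfffffffffffffffffffffffffffffffffffffffffffffffffffffffffffffffffffffffffffdddfffff899fffff013ffffe807ffff8401ffff0003ffff0003ffff8003ffff0001ffffc003ffff8003ffffa007ffffe003ffffc00dffffbb2fffffffffffffffffffffffffffffffffffffffffffffffffffffffffffffffffff0000000000000000,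
    0xffffffffffffffffffffffffffffffffffffffffffffffffffffffffffffffffffff7fffffaabdffffd043fffec283ffff0007ffff0003fffd0001fffe0003ffff0017ffff0003ffff0001fffe0007ffff0007ffff4013ffff995dffffbbbfffffffffffffffffffffffffffffffffffffffffffffffffffffffffffffffffff0000000000000000,
    0xfffffffffffffffffffffffffffffffffffffffffffffffffffffffffffffffffffffffffff2ffffff104dffff801bffffc007ffff0003ffff001fffff8003ffff0407ffff0003ffff8007ffff001fffffc00fffffe03fffffd17fffffafffffffffffffffffffffffffffffffffffffffffffffffffffffffffffffffffffff0000000000000000,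
    0xffffffffffffffffffffffffffffffffffffffffffffffffffffffffffffffffff7f7fffffbc5dffffd533ffffc847ffff000fffffc01bffff8007fffe8007ffff4017ffff0003ffff0007fffe0007ffff4003ffff823bffff603ffffece9fffffffffffffffffffffffffffffffffffffffffffffffffffffffffffffffffff0000000000000000,
    0xffffffffffffffffffffffffffffffffffffffffffffffffffffffffffffffffffffffffffeefdffffd053fffee027ffff004fffff0017fffc0005fffe0003fff80017fffe0007fffc0401fffa0007fffd0007fffb2013fff7555dffffffffffffffffffffffffffffffffffffffffffffffffffffffffffffffffffffffffff0000000000000000,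
    0xfffffffffffffffffffffffffffffffffffffffffffffffffffffffffffffffffffffffffffffdffffd153ffffe027ffffe10fffff8017ffff0005ffff8003fffe0017ffff8007ffff0001ffff4807fffed007ffffb013ffff7d5dfffffdffffffffffffffffffffffffffffffffffffffffffffffffffffffffffffffffffff0000000000000000,
    0xffffffffffffffffffffffffffffffffffffffffffffffffffffffffffffffffffffffffff7effffffb17fffffd21fffffc02fffff801fffff4007ffff8007ffff4017ffffa003ffff4003ffff801fffffa00fffffe297ffffed5bfffffebfffffffffffffffffffffffffffffffffffffffffffffffffffffffffffffffffff0000000000000000,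
    0xffffffffffffffffffffffffffffffffffffffffffffffffffffffffffffffffffffffffffffffffffd47fffff9257ffff802fffff801fffff001fffff803fffff401fffff801fffff0007ffff8003fffff48fffffe29fffffff9fffffffffffffffffffffffffffffffffffffffffffffffffffffffffffffffffffffffffff0000000000000000,
    0xfffffffffffffffffffffffffffffffffffffffffffffffffffffffffffffffffffffffffffffffffffd7ffffff24fffffe12fffff8003ffff4007ffff080fffff0007ffff8003ffffc003ffff0017ffffc00fffffe01ffffffddfffffffffffffffffffffffffffffffffffffffffffffffffffffffffffffffffffffffffff0000000000000000,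
    0xfffffffffffffffffffffffffffffffffffffffffffffffffffffffffffffffffffffffffffffffffff73ffffff617ffffc02fffffc003ffffc01fffffe03fffffc03fffff800fffff000fffff001fffff667fffffe7ffffffffffffffffffffffffffffffffffffffffffffffffffffffffffffffffffffffffffffffffffff0000000000000000,
    0xfffffffffffffffffffffffffffffffffffffffffffffffffffffffffffffffffffffffffffffffffff77fffffb27fffffc02fffff801fffffc03fffffc01fffffe017ffffc00fffff000fffff001ffffe600fffffe27ffffff47fffffeeffffffffffffffffffffffffffffffffffffffffffffffffffffffffffffffffffff0000000000000000,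
    0xfffffffffffffffffffffffffffffffffffffffffffffffffffffffffffffffffffffffffffffffffff57ffffff21fffffe12ffffff01fffff701fffffa007ffffc017ffff800bffffc003ffffc09ffffff04fffffe29fffffff5fffffffffffffffffffffffffffffffffffffffffffffffffffffffffffffffffffffffffff0000000000000000,
    0xfffffffffffffffffffffffffffffffffffffffffffffffffffffffffffffffffffffffffffffffffff5f7fffff36fffffe14fffff800fffff403fffff803fffff4017ffff0007ffff001fffffd01fffffc00fffffc2fffffff47fffffeeffffffffffffffffffffffffffffffffffffffffffffffffffffffffffffffffffff0000000000000000,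
    0xfffffffffffffffffffffffffffffffffffffffffffffffffffffffffffffffffffffffffffffffffff77fffffb65fffffc02fffffc01fffffc017ffffc00bffffc017ffff0007ffff4003ffffe003ffffe80fffffe21ffffffd9fffffffffffffffffffffffffffffffffffffffffffffffffffffffffffffffffffffffffff0000000000000000,
    0xffffffffffffffffffffffffffffffffffffffffffffffffffffffffffffffffffffffffffffffffffff7ffffff27fffffe16fffffc01fffffc03fffffc07fffffc017ffff800fffff001fffff001fffff400fffffc2fffffff47fffffeeffffffffffffffffffffffffffffffffffffffffffffffffffffffffffffffffffff0000000000000000] [529, 562, 497, 463, 435, 593, 561, 560, 433, 494, 464, 626, 559, 595, 589, 558, 430, 397, 620, 591, 468, 623, 530, 592, 431, 628, 461, 436, 499, 563, 432, 437, 590, 402, 429, 400, 625, 532, 401, 368, 500, 339, 398, 465] (by decide +kernel) (by decide) (by decide)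
    (List.cons_ne_nil _ _) ?_ ?_ (by decide +kernel)
  · exact (List.forall_mem_cons.2 ⟨cNeea6aca550_0,
    (List.forall_mem_cons.2 ⟨cNeea6aca550_1,
    (List.forall_mem_cons.2 ⟨cNeea6aca550_2,
    (List.forall_mem_cons.2 ⟨cNeea6aca550_3,
    (List.forall_mem_cons.2 ⟨cNeea6aca550_4,
    (List.forall_mem_cons.2 ⟨cNeea6aca550_5,
    (List.forall_mem_cons.2 ⟨cNeea6aca550_6,
    (List.forall_mem_cons.2 ⟨cNeea6aca550_7,
    (List.forall_mem_cons.2 ⟨cNeea6aca550_8,
    (List.forall_mem_cons.2 ⟨cNeea6aca550_9,
    (List.forall_mem_cons.2 ⟨cNeea6aca550_10,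
    (List.forall_mem_cons.2 ⟨cNeea6aca550_11,
    (List.forall_mem_cons.2 ⟨cNeea6aca550_12,
    (List.forall_mem_cons.2 ⟨cNeea6aca550_13,
    (List.forall_mem_cons.2 ⟨cNeea6aca550_14,
    (List.forall_mem_cons.2 ⟨cNeea6aca550_15,
    (List.forall_mem_cons.2 ⟨cNeea6aca550_16,
    (List.forall_mem_nil _)⟩)⟩)⟩)⟩)⟩)⟩)⟩)⟩)⟩)⟩)⟩)⟩)⟩)⟩)⟩)⟩)⟩)
  · exact (List.forall_mem_cons.2 ⟨((winL_of_pos q_0eb9cdb0de (by decide +kernel)).mono (by norm_num)).conv (by decide +kernel),
    (List.forall_mem_cons.2 ⟨((winL_of_pos q_ca6cf53ee4 (by decide +kernel)).mono (by norm_num)).conv (by decide +kernel),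
    (List.forall_mem_cons.2 ⟨((winL_of_pos q_9fa6717850 (by decide +kernel)).mono (by norm_num)).conv (by decide +kernel),
    (List.forall_mem_cons.2 ⟨((winL_of_pos q_24bbee18a8 (by decide +kernel)).mono (by norm_num)).conv (by decide +kernel),
    (List.forall_mem_cons.2 ⟨((winL_of_pos q_3b4af3ec90 (by decide +kernel)).mono (by norm_num)).conv (by decide +kernel),
    (List.forall_mem_cons.2 ⟨((winL_of_pos q_f903d50970 (by decide +kernel)).mono (by norm_num)).conv (by decide +kernel),
    (List.forall_mem_cons.2 ⟨((winL_of_pos q_b9615ddd81 (by decide +kernel)).mono (by norm_num)).conv (by decide +kernel),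
    (List.forall_mem_cons.2 ⟨((winL_of_pos q_e35e0f5fb0 (by decide +kernel)).mono (by norm_num)).conv (by decide +kernel),
    (List.forall_mem_cons.2 ⟨((winL_of_pos q_871da78a1a (by decide +kernel)).mono (by norm_num)).conv (by decide +kernel),
    (List.forall_mem_cons.2 ⟨((winL_of_pos q_7160e6e974 (by decide +kernel)).mono (by norm_num)).conv (by decide +kernel),
    (List.forall_mem_cons.2 ⟨((winL_of_pos q_f2c4262116 (by decide +kernel)).mono (by norm_num)).conv (by decide +kernel),
    (List.forall_mem_cons.2 ⟨((winL_of_pos q_2eba1c8c4a (by decide +kernel)).mono (by norm_num)).conv (by decide +kernel),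
    (List.forall_mem_cons.2 ⟨((winL_of_pos q_2a26c721e6 (by decide +kernel)).mono (by norm_num)).conv (by decide +kernel),
    (List.forall_mem_cons.2 ⟨((winL_of_pos q_ab259479e2 (by decide +kernel)).mono (by norm_num)).conv (by decide +kernel),
    (List.forall_mem_cons.2 ⟨((winL_of_pos q_35ecedd32d (by decide +kernel)).mono (by norm_num)).conv (by decide +kernel),
    (List.forall_mem_cons.2 ⟨((winL_of_pos q_b0e317bdbe (by decide +kernel)).mono (by norm_num)).conv (by decide +kernel),
    (List.forall_mem_cons.2 ⟨((winL_of_pos q_1ccea2f18a (by decide +kernel)).mono (by norm_num)).conv (by decide +kernel),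
    (List.forall_mem_cons.2 ⟨((winL_of_pos q_e375a93671 (by decide +kernel)).mono (by norm_num)).conv (by decide +kernel),
    (List.forall_mem_cons.2 ⟨((winL_of_pos q_c0ae6f1246 (by decide +kernel)).mono (by norm_num)).conv (by decide +kernel),
    (List.forall_mem_cons.2 ⟨((winL_of_pos q_7f8eeebdd3 (by decide +kernel)).mono (by norm_num)).conv (by decide +kernel),
    (List.forall_mem_cons.2 ⟨((winL_of_pos q_30cc66821c (by decide +kernel)).mono (by norm_num)).conv (by decide +kernel),
    (List.forall_mem_cons.2 ⟨((winL_of_pos q_0399d5ffd7 (by decide +kernel)).mono (by norm_num)).conv (by decide +kernel),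
    (List.forall_mem_cons.2 ⟨((winL_of_pos q_3f354c0cea (by decide +kernel)).mono (by norm_num)).conv (by decide +kernel),
    (List.forall_mem_cons.2 ⟨((winL_of_pos q_bc33b2f6b2 (by decide +kernel)).mono (by norm_num)).conv (by decide +kernel),
    (List.forall_mem_cons.2 ⟨((winL_of_pos q_fe9d6ffaa1 (by decide +kernel)).mono (by norm_num)).conv (by decide +kernel),
    (List.forall_mem_cons.2 ⟨((winL_of_pos q_f9cc471e8d (by decide +kernel)).mono (by norm_num)).conv (by decide +kernel),
    (List.forall_mem_cons.2 ⟨((winL_of_pos q_534fd89d6b (by decide +kernel)).mono (by norm_num)).conv (by decide +kernel),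
    (List.forall_mem_cons.2 ⟨((winL_of_pos q_473f86ee33 (by decide +kernel)).mono (by norm_num)).conv (by decide +kernel),
    (List.forall_mem_cons.2 ⟨((winL_of_pos q_9a8c7f5e91 (by decide +kernel)).mono (by norm_num)).conv (by decide +kernel),
    (List.forall_mem_cons.2 ⟨((winL_of_pos q_9ad13a8421 (by decide +kernel)).mono (by norm_num)).conv (by decide +kernel),
    (List.forall_mem_cons.2 ⟨((winL_of_pos q_1e6965e474 (by decide +kernel)).mono (by norm_num)).conv (by decide +kernel),
    (List.forall_mem_cons.2 ⟨((winL_of_pos q_2bcad79df5 (by decide +kernel)).mono (by norm_num)).conv (by decide +kernel),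
    (List.forall_mem_cons.2 ⟨((winL_of_pos q_0a1b9725cc (by decide +kernel)).mono (by norm_num)).conv (by decide +kernel),
    (List.forall_mem_cons.2 ⟨((winL_of_pos q_f3c806f7c4 (by decide +kernel)).mono (by norm_num)).conv (by decide +kernel),
    (List.forall_mem_cons.2 ⟨((winL_of_pos q_3b3fdc67ad (by decide +kernel)).mono (by norm_num)).conv (by decide +kernel),
    (List.forall_mem_cons.2 ⟨((winL_of_pos q_0bc445ec29 (by decide +kernel)).mono (by norm_num)).conv (by decide +kernel),
    (List.forall_mem_cons.2 ⟨((winL_of_pos q_cd0e007ada (by decide +kernel)).mono (by norm_num)).conv (by decide +kernel),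
    (List.forall_mem_cons.2 ⟨((winL_of_pos q_9b715aaed3 (by decide +kernel)).mono (by norm_num)).conv (by decide +kernel),
    (List.forall_mem_cons.2 ⟨((winL_of_pos q_0f069957a5 (by decide +kernel)).mono (by norm_num)).conv (by decide +kernel),
    (List.forall_mem_cons.2 ⟨((winL_of_pos q_3d75fc6636 (by decide +kernel)).mono (by norm_num)).conv (by decide +kernel),
    (List.forall_mem_cons.2 ⟨((winL_of_pos q_fa1aa00575 (by decide +kernel)).mono (by norm_num)).conv (by decide +kernel),
    (List.forall_mem_cons.2 ⟨((winL_of_pos q_82ff7a7108 (by decide +kernel)).mono (by norm_num)).conv (by decide +kernel),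
    (List.forall_mem_cons.2 ⟨((winL_of_pos q_42f039a52d (by decide +kernel)).mono (by norm_num)).conv (by decide +kernel),
    (List.forall_mem_cons.2 ⟨(nd_20a89b7f10.mono (by norm_num)).conv (by decide +kernel),
    (List.forall_mem_nil _)⟩)⟩)⟩)⟩)⟩)⟩)⟩)⟩)⟩)⟩)⟩)⟩)⟩)⟩)⟩)⟩)⟩)⟩)⟩)⟩)⟩)⟩)⟩)⟩)⟩)⟩)⟩)⟩)⟩)⟩)⟩)⟩)⟩)⟩)⟩)⟩)⟩)⟩)⟩)⟩)⟩)⟩)⟩)⟩)

end Pool.Agent.Helper225.G
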