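import Pool.Agent.Helper225.GAux
import Pool.Agent.Helper225.Cls.Case2
import Pool.Agent.Helper225.Cls.ND_92a6205e80
import Pool.Agent.Helper225.Cls.ND_ff99b65d0b
import Pool.Agent.Helper225.Cls.ND_195e9abc4f
import Pool.Agent.Helper225.Cls.ND_a7f1f0d47d
import Pool.Agent.Helper225.Cls.ND_08a3b55c54
import Pool.Agent.Helper225.Cls.ND_0646c44bd2
import Pool.Agent.Helper225.Cls.ND_0009d397b7
import Pool.Agent.Helper225.Cls.ND_47401b871b
import Pool.Agent.Helper225.Cls.ND_4b71863016
import Pool.Agent.Helper225.Cls.ND_3139f2ee94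
import Pool.Agent.Helper225.Cls.ND_215b9e8b79
import Pool.Agent.Helper225.Cls.ND_01012fff3e
import Pool.Agent.Helper225.Cls.ND_468733148c
import Pool.Agent.Helper225.Cls.ND_40bbd640f0
import Pool.Agent.Helper225.Cls.ND_11c8540986
import Pool.Agent.Helper225.Cls.ND_ea7e5c840b
import Pool.Agent.Helper225.Cls.ND_80ed44efe4
import Pool.Agent.Helper225.Cls.ND_4611047a79
import Pool.Agent.Helper225.Cls.ND_c4e3f1667b
import Pool.Agent.Helper225.Cls.ND_fcb7deda72

set_option autoImplicit false
set_option maxRecDepth 1000000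

namespace Pool.Agent.Helper225.G

theorem root : Win (2267 + 1) ∅ ∅ :=
  root_aux 2267 (by norm_num) sec_all
    (win_mono_n (by norm_num) (cls_to_win nd_92a6205e80 _ (by decide)))
    (win_mono_n (by norm_num) (cls_to_win nd_ff99b65d0b _ (by decide)))
    (win_mono_n (by norm_num) (cls_to_win nd_195e9abc4f _ (by decide)))
    (win_mono_n (by norm_num) (cls_to_win nd_a7f1f0d47d _ (by decide)))
    (win_mono_n (by norm_num) (cls_to_win nd_08a3b55c54 _ (by decide)))
    (win_mono_n (by norm_num) (cls_to_win nd_0646c44bd2 _ (by decide)))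
    (win_mono_n (by norm_num) (cls_to_win nd_0009d397b7 _ (by decide)))
    (win_mono_n (by norm_num) (cls_to_win nd_47401b871b _ (by decide)))
    (win_mono_n (by norm_num) (cls_to_win nd_4b71863016 _ (by decide)))
    (win_mono_n (by norm_num) (cls_to_win nd_3139f2ee94 _ (by decide)))
    (win_mono_n (by norm_num) (cls_to_win nd_215b9e8b79 _ (by decide)))
    (win_mono_n (by norm_num) (cls_to_win nd_01012fff3e _ (by decide)))
    (win_mono_n (by norm_num) (cls_to_win nd_468733148c _ (by decide)))
    (win_mono_n (by norm_num) (cls_to_win nd_40bbd640f0 _ (by decide)))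
    (win_mono_n (by norm_num) (cls_to_win nd_11c8540986 _ (by decide)))
    (win_mono_n (by norm_num) (cls_to_win nd_ea7e5c840b _ (by decide)))
    (win_mono_n (by norm_num) (cls_to_win nd_80ed44efe4 _ (by decide)))
    (win_mono_n (by norm_num) (cls_to_win nd_4611047a79 _ (by decide)))
    (win_mono_n (by norm_num) (cls_to_win nd_c4e3f1667b _ (by decide)))
    (win_mono_n (by norm_num) (cls_to_win nd_fcb7deda72 _ (by decide)))

end Pool.Agent.Helper225.G
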